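import Pool.Agent.Q64.LC.Cmp
import Mathlib.MeasureTheory.Measure.Dirac
import Mathlib.Data.Finsupp.Encodable

/-!
One growth function for all varieties over a countable field.
-/

set_option autoImplicit false

namespace Pool.Agent.Q64.LC

open MvPolynomial Filter Topology Pool.Agent.TH143.GT Pool.Agent.W602.GT Pool.Agent.W603.GR
  Pool.Agent.W603.PV
open MeasureTheory
open scoped NNReal ENNReal

/-- The ideal `p` is generated by polynomials with coefficients in the subfield `k`. -/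
def OverK (k : Subfield ℂ) {n : ℕ} (p : Ideal (MvPolynomial (Fin (n + 1)) ℂ)) : Prop :=
  ∃ p₀ : Ideal (MvPolynomial (Fin (n + 1)) k), p = p₀.map (MvPolynomial.map k.subtype)

/-- The polynomial `Q` has coefficients in the subfield `k`. -/
def CoeffK (k : Subfield ℂ) {n : ℕ} (Q : MvPolynomial (Fin (n + 1)) ℂ) : Prop :=
  ∃ Q₀ : MvPolynomial (Fin (n + 1)) k, Q = MvPolynomial.map k.subtype Q₀

/-- the data over `k` -/
abbrev Idx (k : Subfield ℂ) : Type :=
  Σ n : ℕ, Finset (MvPolynomial (Fin (n + 1)) k) × MvPolynomial (Fin (n + 1)) k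

instance (k : Subfield ℂ) [Countable k] (n : ℕ) : Countable (MvPolynomial (Fin (n + 1)) k) :=
  (AddMonoidAlgebra.coeffEquiv (R := k) (M := Fin (n + 1) →₀ ℕ)).countable_iff.2 inferInstance

theorem exists_idx {k : Subfield ℂ} {n : ℕ} {p : Ideal (MvPolynomial (Fin (n + 1)) ℂ)}
    (h : OverK k p) : ∃ s : Finset (MvPolynomial (Fin (n + 1)) k),
      p = Ideal.span (MvPolynomial.map k.subtype '' (s : Set (MvPolynomial (Fin (n + 1)) k))) := by
  obtain ⟨p₀, rfl⟩ := h
  obtain ⟨s, hs⟩ : p₀.FG := IsNoetherian.noetherian p₀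
  refine ⟨s, ?_⟩
  rw [← hs]
  exact Ideal.map_span _ _

/-- **Countable families.** If a condition on the curves in `X - D` holds for all curves with
sufficiently small coefficients, for all `X - D` over the countable field `k`, then it holds for all
curves of growth at most one function `Ψ`. -/
theorem universal (k : Subfield ℂ) [Countable k] {ι : Type} [Countable ι]
    (C : ι → ∀ (n : ℕ) (_ : Ideal (MvPolynomial (Fin (n + 1)) ℂ))
      (_ : MvPolynomial (Fin (n + 1)) ℂ), (ℂ → Fin (n + 1) → ℂ) → Prop)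
    (h : ∀ (i : ι) (n : ℕ) (p : Ideal (MvPolynomial (Fin (n + 1)) ℂ))
      (Q : MvPolynomial (Fin (n + 1)) ℂ), OverK k p → CoeffK k Q → Good p Q (C i n p Q)) :
    ∃ Ψ : ℝ → ℝ, SuperPoly Ψ ∧ ∀ (n : ℕ) (p : Ideal (MvPolynomial (Fin (n + 1)) ℂ))
      (Q : MvPolynomial (Fin (n + 1)) ℂ), OverK k p → CoeffK k Q →
      ∀ f, Entire p Q f → GrowthLe Ψ f → ∀ i, C i n p Q f := by
  obtain ⟨Ψ, h1, h2⟩ := diag (ι := ι × Idx k) (fun i => i.2.1)
    (fun i => Ideal.span (MvPolynomial.map k.subtype ''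
      (i.2.2.1 : Set (MvPolynomial (Fin (i.2.1 + 1)) k))))
    (fun i => MvPolynomial.map k.subtype i.2.2.2)
    (fun i => C i.1 i.2.1 (Ideal.span (MvPolynomial.map k.subtype ''
      (i.2.2.1 : Set (MvPolynomial (Fin (i.2.1 + 1)) k)))) (MvPolynomial.map k.subtype i.2.2.2))
    (fun i => h i.1 i.2.1 _ _ ⟨Ideal.span i.2.2.1, (Ideal.map_span _ _).symm⟩ ⟨_, rfl⟩)
  refine ⟨Ψ, h1, fun n p Q hp hQ f hf hg i => ?_⟩
  obtain ⟨s, rfl⟩ := exists_idx hp
  obtain ⟨Q₀, rfl⟩ := hQ
  exact h2 (i, ⟨n, s, Q₀⟩) f hf hg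

/-- conditions which hold for all curves -/
theorem Good.of_forall {n : ℕ} {p : Ideal (MvPolynomial (Fin (n + 1)) ℂ)}
    {Q : MvPolynomial (Fin (n + 1)) ℂ} {C : (ℂ → Fin (n + 1) → ℂ) → Prop} (h : ∀ f, C f) :
    Good p Q C := ⟨fun _ => 1, fun _ => one_pos, fun f _ => h f⟩

theorem Good.mono {n : ℕ} {p : Ideal (MvPolynomial (Fin (n + 1)) ℂ)}
    {Q : MvPolynomial (Fin (n + 1)) ℂ} {C C' : (ℂ → Fin (n + 1) → ℂ) → Prop} (h : Good p Q C)
    (h' : ∀ f, C f → C' f) : Good p Q C' := by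
  obtain ⟨ε, h1, h2⟩ := h
  exact ⟨ε, h1, fun f hf => h' f (h2 f hf)⟩

/-- a null set of a sum of Dirac measures contains no points of the given set -/
theorem notMem_of_sum_dirac {Y : Type} [MeasurableSpace Y] [MeasurableSingletonClass Y] {S : Set Y}
    {N : Set Y} (h : Measure.sum (fun s : S => Measure.dirac s.1) N = 0) {y : Y} (hy : y ∈ S) :
    y ∉ N := by
  intro hN
  have h1 : Measure.dirac y N ≤ Measure.sum (fun s : S => Measure.dirac s.1) N :=
    (Measure.le_sum (fun s : S => Measure.dirac s.1) ⟨y, hy⟩) N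
  rw [h, Measure.dirac_apply_of_mem hN] at h1
  exact absurd h1 (by norm_num)

end Pool.Agent.Q64.LC
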