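import Pool.Agent.Q64.LC.Sub
import Mathlib.RingTheory.AlgebraicIndependent.Transcendental
import Mathlib.RingTheory.AlgebraicIndependent.TranscendenceBasis
import Mathlib.RingTheory.Ideal.MinimalPrime.Noetherian

/-!
Chains of prime ideals and algebraic independence; polynomial curves in surfaces.
-/

set_option autoImplicit false

namespace Pool.Agent.Q64.LC

open MvPolynomial Filter Pool.Agent.TH143.GT Pool.Agent.W602.GT
open Pool.Agent.W603.GR

/-- **Chains.** If the kernel of `φ` is strictly smaller than the kernel of `φ'`, one gets one more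
algebraically independent element. -/
theorem chain {R A A' : Type} [CommRing R] [CommRing A] [IsDomain A] [CommRing A']
    [Algebra ℂ R] [Algebra ℂ A] [Algebra ℂ A'] {φ : R →ₐ[ℂ] A} {φ' : R →ₐ[ℂ] A'}
    (hle : ∀ x, φ x = 0 → φ' x = 0) {ι : Type} {u : ι → R}
    (hu : AlgebraicIndependent ℂ (fun i => φ' (u i))) {g : R} (h' : φ' g = 0) (h : φ g ≠ 0) :
    AlgebraicIndependent ℂ (fun o : Option ι => φ (o.elim g u)) := by
  have e : (fun o : Option ι => φ (o.elim g u)) = fun o : Option ι => o.elim (φ g) fun i => φ (u i) := by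
    funext o
    cases o <;> rfl
  rw [e, AlgebraicIndependent.option_iff]
  have hcomp : ∀ P : MvPolynomial ι ℂ, aeval (fun i => φ (u i)) P = φ (aeval u P) := fun P =>
    (MvPolynomial.comp_aeval_apply (f := u) φ P).symm
  have hcomp' : ∀ P : MvPolynomial ι ℂ, aeval (fun i => φ' (u i)) P = φ' (aeval u P) := fun P =>
    (MvPolynomial.comp_aeval_apply (f := u) φ' P).symm
  have h1 : AlgebraicIndependent ℂ (fun i => φ (u i)) := by
    rw [algebraicIndependent_iff]
    intro P hP
    rw [hcomp] at hP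
    have h2 := hle _ hP
    rw [← hcomp'] at h2
    exact (algebraicIndependent_iff.1 hu) P h2
  refine ⟨h1, fun halg => ?_⟩
  obtain ⟨q, hq0, hq⟩ := halg.exists_nonzero_coeff_and_aeval_eq_zero
    (mem_nonZeroDivisors_of_ne_zero h)
  apply hq0
  -- lift the coefficients
  let c : ℕ → MvPolynomial ι ℂ := fun i => h1.aevalEquiv.symm (q.coeff i)
  have hc : ∀ i, (algebraMap _ A (q.coeff i)) = φ (aeval u (c i)) := by
    intro i
    rw [← hcomp, ← h1.algebraMap_aevalEquiv, AlgEquiv.apply_symm_apply]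
  have hx : φ (∑ i ∈ Finset.range (q.natDegree + 1), aeval u (c i) * g ^ i) = 0 := by
    rw [map_sum, ← hq, Polynomial.aeval_eq_sum_range]
    refine Finset.sum_congr rfl fun i _ => ?_
    rw [map_mul, map_pow, ← hc, Algebra.smul_def]
  have hx' := hle _ hx
  rw [map_sum, Finset.sum_range_succ'] at hx'
  have h3 : ∀ i ∈ Finset.range q.natDegree, φ' (aeval u (c (i + 1)) * g ^ (i + 1)) = 0 := by
    intro i _
    rw [map_mul, map_pow, h', pow_succ, mul_zero, mul_zero]
  rw [Finset.sum_eq_zero h3, zero_add, pow_zero, mul_one, ← hcomp'] at hx'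
  have h4 := (algebraicIndependent_iff.1 hu) _ hx'
  have h5 : h1.aevalEquiv (c 0) = q.coeff 0 := AlgEquiv.apply_symm_apply _ _
  rw [← h5, h4, map_zero]

/-- the number of algebraically independent elements -/
theorem card_le {K : Type} [Field K] [Algebra ℂ K] {w : ℕ} (hw : Algebra.trdeg ℂ K = w)
    {ι : Type} [Fintype ι] {x : ι → K} (hx : AlgebraicIndependent ℂ x) : Fintype.card ι ≤ w := by
  have h1 := hx.cardinalMk_le_trdeg
  rw [hw, Cardinal.mk_fintype] at h1
  exact_mod_cast h1

variable {n : ℕ} {p : Ideal (MvPolynomial (Fin (n + 1)) ℂ)} {Q : MvPolynomial (Fin (n + 1)) ℂ}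
  {q : ℕ}

/-- the chart `y k = 1` -/
noncomputable def ch {K : Type} [Field K] [Algebra ℂ K] (y : Fin (n + 1) → K) (k : Fin (n + 1)) :
    MvPolynomial (Fin (n + 1)) ℂ →ₐ[ℂ] K := aeval fun j => y j / y k

theorem ch_form {K : Type} [Field K] [Algebra ℂ K] {y : Fin (n + 1) → K} {k : Fin (n + 1)}
    (hk : y k ≠ 0) {G : MvPolynomial (Fin (n + 1)) ℂ} (hG : IsForm G) :
    ch y k G = 0 ↔ W602.GT.val y G = 0 := by
  obtain ⟨d, hd⟩ := hG
  rw [val_scale hk hd, mul_eq_zero_iff_left (pow_ne_zero _ hk)]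
  rfl

theorem ch_self {K : Type} [Field K] [Algebra ℂ K] {y : Fin (n + 1) → K} {k : Fin (n + 1)}
    (hk : y k ≠ 0) : ch y k (X k) = 1 := by
  unfold ch
  rw [aeval_X, div_self hk]

/-- homogenisation -/
theorem ch_homog (H : MvPolynomial (Fin (n + 1)) ℂ) (k : Fin (n + 1)) :
    ∃ H' : MvPolynomial (Fin (n + 1)) ℂ, IsForm H' ∧ ∀ (K : Type) [Field K] [Algebra ℂ K]
      (y : Fin (n + 1) → K), y k ≠ 0 → ch y k H' = ch y k H := by
  refine ⟨∑ i ∈ Finset.range (H.totalDegree + 1),
    X k ^ (H.totalDegree - i) * homogeneousComponent i H, ⟨H.totalDegree, ?_⟩,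
    fun K _ _ y hk => ?_⟩
  · apply IsHomogeneous.sum
    intro i hi
    have h1 := ((isHomogeneous_X ℂ k).pow (H.totalDegree - i)).mul
      (homogeneousComponent_isHomogeneous i H)
    rw [Finset.mem_range] at hi
    have h2 : 1 * (H.totalDegree - i) + i = H.totalDegree := by omega
    rwa [h2] at h1
  · conv_rhs => rw [← sum_homogeneousComponent H]
    rw [map_sum, map_sum]
    refine Finset.sum_congr rfl fun i _ => ?_
    rw [map_mul, map_pow, ch_self hk, one_pow, one_mul]

theorem ch_le {K K' : Type} [Field K] [Algebra ℂ K] [Field K'] [Algebra ℂ K']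
    {y : Fin (n + 1) → K} {y' : Fin (n + 1) → K'} {k : Fin (n + 1)} (hk : y k ≠ 0)
    (hk' : y' k ≠ 0) (h : ∀ G : MvPolynomial (Fin (n + 1)) ℂ, IsForm G → W602.GT.val y G = 0 →
      W602.GT.val y' G = 0) (x : MvPolynomial (Fin (n + 1)) ℂ) (hx : ch y k x = 0) :
    ch y' k x = 0 := by
  obtain ⟨H, hH, h1⟩ := ch_homog x k
  rw [← h1 K' y' hk', ch_form hk' hH]
  apply h H hH
  rw [← ch_form hk hH, h1 K y hk, hx]

/-- the generic point of a polynomial curve -/
noncomputable def gp (T : Fin (n + 1) → Polynomial ℂ) (j : Fin (n + 1)) : RatFunc ℂ := rf (T j)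

theorem gp_val (T : Fin (n + 1) → Polynomial ℂ) (G : MvPolynomial (Fin (n + 1)) ℂ) :
    W602.GT.val (gp T) G = 0 ↔ ∀ z : ℂ, eval (fun j => (T j).eval z) G = 0 := by
  change W602.GT.val (fun j => rf (T j)) G = 0 ↔ _
  rw [val_rf, rf_zero]
  constructor
  · intro h z
    rw [← ev_aeval, h, Polynomial.eval_zero]
  · intro h
    apply Polynomial.funext
    intro z
    rw [ev_aeval, h, Polynomial.eval_zero]

/-- rational functions which are not constant are transcendental -/
theorem transc {K : Type} [Field K] [Algebra ℂ K] {a : K} (h : ∀ c : ℂ, a ≠ algebraMap ℂ K c) :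
    Transcendental ℂ a := by
  intro halg
  have h1 : IsIntegral ℂ a := halg.isIntegral
  have h2 := IsAlgClosed.degree_eq_one_of_irreducible ℂ (minpoly.irreducible h1)
  obtain ⟨c, hc⟩ := minpoly.mem_range_of_degree_eq_one ℂ a h2
  exact h c hc.symm

theorem trdeg_rf : Algebra.trdeg ℂ (RatFunc ℂ) = (1 : ℕ) := by
  have h1 : Algebra.trdeg ℂ ℂ = (0 : ℕ) := by
    rw [Nat.cast_zero]
    exact _root_.trdeg_eq_zero
  have h2 := trdeg_ratFunc (k := ℂ) (M := ℂ) h1
  simpa using h2

/-- a nonconstant ratio of coordinates -/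
theorem exists_ratio {T : Fin (n + 1) → Polynomial ℂ}
    (h : ∃ (s t : ℂ) (j k : Fin (n + 1)), (T j).eval s * (T k).eval t ≠ (T k).eval s * (T j).eval t)
    (k : Fin (n + 1)) (hk : gp T k ≠ 0) : ∃ j, Transcendental ℂ (gp T j / gp T k) := by
  by_contra hno
  push Not at hno
  have h1 : ∀ j, ∃ c : ℂ, T j = Polynomial.C c * T k := by
    intro j
    have h2 := hno j
    by_contra h3
    push Not at h3
    apply h2
    apply transc
    intro c hc
    apply h3 c
    rw [div_eq_iff hk] at hc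
    apply rf_inj
    rw [rf_mul]
    have h4 : rf (Polynomial.C c) = algebraMap ℂ (RatFunc ℂ) c := by
      unfold rf
      rw [RatFunc.algebraMap_C]
      rfl
    rw [h4]
    exact hc
  choose c hc using h1
  obtain ⟨s, t, i, j, hst⟩ := h
  apply hst
  rw [hc i, hc j]
  simp only [Polynomial.eval_mul, Polynomial.eval_C]
  ring

/-- The polynomial curves `T` and `T'` have the same Zariski closure. -/
def Same (T T' : Fin (n + 1) → Polynomial ℂ) : Prop :=
  ∀ G : MvPolynomial (Fin (n + 1)) ℂ, IsForm G →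
    ((∀ z : ℂ, eval (fun j => (T j).eval z) G = 0) ↔
      ∀ z : ℂ, eval (fun j => (T' j).eval z) G = 0)

theorem Same.symm {T T' : Fin (n + 1) → Polynomial ℂ} (h : Same T T') : Same T' T :=
  fun G hG => (h G hG).symm

theorem Same.trans {T T' T'' : Fin (n + 1) → Polynomial ℂ} (h : Same T T') (h' : Same T' T'') :
    Same T T'' := fun G hG => (h G hG).trans (h' G hG)

theorem Same.refl (T : Fin (n + 1) → Polynomial ℂ) : Same T T := fun _ _ => Iff.rfl

/-- **Inclusions of curves.** A nonconstant polynomial curve in the closure of a polynomial curve is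
dense in it. -/
theorem same_of_le {T T' : Fin (n + 1) → Polynomial ℂ}
    (hT' : ∃ (s t : ℂ) (j k : Fin (n + 1)),
      (T' j).eval s * (T' k).eval t ≠ (T' k).eval s * (T' j).eval t)
    (h : ∀ G : MvPolynomial (Fin (n + 1)) ℂ, IsForm G →
      (∀ z : ℂ, eval (fun j => (T j).eval z) G = 0) →
      ∀ z : ℂ, eval (fun j => (T' j).eval z) G = 0) : Same T T' := by
  intro G hG
  refine ⟨h G hG, fun h0 => ?_⟩
  by_contra hne
  obtain ⟨k, hk'⟩ : ∃ k, gp T' k ≠ 0 := by
    by_contra hno
    push Not at hno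
    obtain ⟨s, t, j, k, hst⟩ := hT'
    apply hst
    have h1 : ∀ j, T' j = 0 := fun j => rf_zero.1 (hno j)
    rw [h1 j, h1 k]
  have hk : gp T k ≠ 0 := by
    intro h1
    have h2 : ∀ z : ℂ, eval (fun j => (T j).eval z) (X k) = 0 := by
      intro z
      rw [eval_X, rf_zero.1 h1, Polynomial.eval_zero]
    have h3 := h (X k) ⟨1, isHomogeneous_X _ _⟩ h2
    apply hk'
    rw [gp, rf_zero]
    apply Polynomial.funext
    intro z
    have h4 := h3 z
    rw [eval_X] at h4
    rw [h4, Polynomial.eval_zero]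
  obtain ⟨j, hj⟩ := exists_ratio hT' k hk'
  have h1 : AlgebraicIndependent ℂ (fun _ : Unit => ch (gp T') k (X j)) := by
    rw [algebraicIndependent_unique_type_iff]
    unfold ch
    rwa [aeval_X]
  have h2 := chain (φ := ch (gp T) k) (φ' := ch (gp T') k) (ch_le hk hk' fun G hG hv => by
    rw [gp_val] at hv ⊢
    exact h G hG hv) (u := fun _ : Unit => X j) h1 (g := G)
    (by rw [ch_form hk' hG, gp_val]; exact h0) (by rw [Ne, ch_form hk hG, gp_val]; exact hne)
  have h3 := card_le trdeg_rf h2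
  simp at h3

/-- **Surfaces.** If the polynomial curves of degree at most `m` with the property `R` in a surface
lie in a hypersurface section then they have finitely many Zariski closures. -/
theorem finite_classes {K : Type} [Field K] [Algebra ℂ K] {y : Fin (n + 1) → K}
    (hy : FunField p Q K 2 y) {m : ℕ} (R : (Fin (n + 1) → Polynomial ℂ) → Prop)
    {G : MvPolynomial (Fin (n + 1)) ℂ} (hG : IsForm G)
    (hGp : G ∉ p) (hGT : ∀ T, PolyCurve p Q T → (∀ j, (T j).natDegree ≤ m) → R T →
      ∀ z : ℂ, eval (fun j => (T j).eval z) G = 0) :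
    ∃ (L : Type) (_ : Finite L) (cl : (Fin (n + 1) → Polynomial ℂ) → L), ∀ T T',
      PolyCurve p Q T → (∀ j, (T j).natDegree ≤ m) → R T → PolyCurve p Q T' →
      (∀ j, (T' j).natDegree ≤ m) → R T' → cl T = cl T' → Same T T' := by
  classical
  have hval : ∀ G, IsForm G → (W602.GT.val y G = 0 ↔ G ∈ p) :=
    fun G hG => ⟨hy.mem G hG, hy.sub.mem G⟩
  let J : Fin (n + 1) → Ideal (MvPolynomial (Fin (n + 1)) ℂ) := fun k =>
    RingHom.ker (ch y k) ⊔ Ideal.span {G}
  -- the prime ideal of a curve is a minimal prime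
  have key : ∀ T, PolyCurve p Q T → (∀ j, (T j).natDegree ≤ m) → R T → ∀ k, gp T k ≠ 0 →
      RingHom.ker (ch (gp T) k) ∈ (J k).minimalPrimes := by
    intro T hT hd hR k hk
    have hk' : y k ≠ 0 := by
      intro h0
      have h1 : W602.GT.val y (X k : MvPolynomial (Fin (n + 1)) ℂ) = 0 := by
        unfold W602.GT.val
        rw [aeval_X, h0]
      rw [hval _ ⟨1, isHomogeneous_X _ _⟩] at h1
      apply hk
      rw [gp, rf_zero]
      apply Polynomial.funext
      intro z
      have h2 := hT.mem _ h1 ⟨1, isHomogeneous_X _ _⟩ z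
      rw [eval_X] at h2
      rw [h2, Polynomial.eval_zero]
    have hle := ch_le hk' hk fun G hG hv => by
      rw [gp_val]
      rw [hval G hG] at hv
      exact hT.mem G hv hG
    have hGk : ch (gp T) k G = 0 := by
      rw [ch_form hk hG, gp_val]
      exact hGT T hT hd hR
    have hJ : J k ≤ RingHom.ker (ch (gp T) k) := by
      apply sup_le
      · intro x hx
        exact hle x hx
      · rw [Ideal.span_singleton_le_iff_mem]
        exact hGk
    have hprime : (RingHom.ker (ch (gp T) k)).IsPrime := RingHom.ker_isPrime _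
    obtain ⟨P, hP, hPle⟩ := Ideal.exists_minimalPrimes_le hJ
    have hPp : P.IsPrime := hP.1.1
    have hJP : J k ≤ P := hP.1.2
    suffices h : P = RingHom.ker (ch (gp T) k) by rw [← h]; exact hP
    by_contra hne
    obtain ⟨g, hg, hgP⟩ := SetLike.exists_of_lt (lt_of_le_of_ne hPle hne)
    obtain ⟨j, hj⟩ := exists_ratio hT.ind k hk
    have h1 : AlgebraicIndependent ℂ (fun _ : Unit => ch (gp T) k (X j)) := by
      rw [algebraicIndependent_unique_type_iff]
      unfold ch
      rwa [aeval_X]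
    have h2 := chain (φ := Ideal.Quotient.mkₐ ℂ P) (φ' := ch (gp T) k) (fun x hx => by
      have h3 : x ∈ P := Ideal.Quotient.eq_zero_iff_mem.1 hx
      exact hPle h3) (u := fun _ : Unit => X j) h1 (g := g) hg (fun h0 =>
        hgP (Ideal.Quotient.eq_zero_iff_mem.1 h0))
    have h3 := chain (φ := ch y k) (φ' := Ideal.Quotient.mkₐ ℂ P) (fun x hx => by
      have h4 : x ∈ J k := Ideal.mem_sup_left hx
      exact Ideal.Quotient.eq_zero_iff_mem.2 (hJP h4)) h2 (g := G)
      (Ideal.Quotient.eq_zero_iff_mem.2 (hJP (Ideal.mem_sup_right (Ideal.mem_span_singleton_self _))))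
      (by
        rw [Ne, ch_form hk' hG, hval G hG]
        exact hGp)
    have h4 := card_le hy.sub.dim h3
    simp at h4
  -- the classes
  have hfin : ({P | ∃ k, P ∈ (J k).minimalPrimes} :
      Set (Ideal (MvPolynomial (Fin (n + 1)) ℂ))).Finite := by
    have h1 : ({P | ∃ k, P ∈ (J k).minimalPrimes} :
        Set (Ideal (MvPolynomial (Fin (n + 1)) ℂ))) = ⋃ k, (J k).minimalPrimes := by
      ext P
      simp
    rw [h1]
    exact Set.finite_iUnion fun k => (J k).finite_minimalPrimes_of_isNoetherianRing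
  have hfin' := hfin.to_subtype
  let L : Type := Option (Fin (n + 1) × {P | ∃ k, P ∈ (J k).minimalPrimes})
  let cl : (Fin (n + 1) → Polynomial ℂ) → L := fun T =>
    if h : PolyCurve p Q T ∧ (∀ j, (T j).natDegree ≤ m) ∧ R T ∧ ∃ k, gp T k ≠ 0 then
      some ⟨h.2.2.2.choose, ⟨RingHom.ker (ch (gp T) h.2.2.2.choose),
        h.2.2.2.choose, key T h.1 h.2.1 h.2.2.1 h.2.2.2.choose h.2.2.2.choose_spec⟩⟩ else none
  refine ⟨L, inferInstance, cl, fun T T' hT hd hR hT' hd' hR' hcl => ?_⟩
  have hex : ∀ T, PolyCurve p Q T → ∃ k, gp T k ≠ 0 := by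
    intro T hT
    by_contra hno
    push Not at hno
    obtain ⟨s, t, j, k, hst⟩ := hT.ind
    apply hst
    have h1 : ∀ j, T j = 0 := fun j => rf_zero.1 (hno j)
    rw [h1 j, h1 k]
  have h1 : PolyCurve p Q T ∧ (∀ j, (T j).natDegree ≤ m) ∧ R T ∧ ∃ k, gp T k ≠ 0 :=
    ⟨hT, hd, hR, hex T hT⟩
  have h2 : PolyCurve p Q T' ∧ (∀ j, (T' j).natDegree ≤ m) ∧ R T' ∧ ∃ k, gp T' k ≠ 0 :=
    ⟨hT', hd', hR', hex T' hT'⟩
  simp only [cl] at hcl
  rw [dif_pos h1, dif_pos h2] at hcl
  have h3 := Option.some_injective _ hcl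
  have h4 := congrArg Prod.fst h3
  have h5 := congrArg (fun x => (Prod.snd x).1) h3
  have hk1 := h1.2.2.2.choose_spec
  have hk2 := h2.2.2.2.choose_spec
  simp only at h4 h5
  rw [← h4] at hk2 h5
  intro G' hG'
  rw [← gp_val, ← gp_val, ← ch_form hk1 hG', ← ch_form hk2 hG', ← RingHom.mem_ker, ← RingHom.mem_ker]
  rw [h5]

end Pool.Agent.Q64.LC
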