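import Pool.Agent.Q64.LC.Mas
import Pool.Agent.Q64.LC.Chn
import Mathlib.Order.Filter.Ultrafilter.Basic

/-!
Entire curves with small Taylor coefficients in a variety whose polynomial curves of bounded degree
have finitely many Zariski closures.
-/

set_option autoImplicit false

namespace Pool.Agent.Q64.LC

open MvPolynomial Filter Topology Pool.Agent.TH143.GT Pool.Agent.W602.GT Pool.Agent.W603.GR
open scoped NNReal ENNReal

variable {n : ℕ} {p : Ideal (MvPolynomial (Fin (n + 1)) ℂ)} {Q : MvPolynomial (Fin (n + 1)) ℂ}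
  {q : ℕ}

/-- The polynomial curves of degree at most `m` have finitely many Zariski closures. -/
def FinCl (p : Ideal (MvPolynomial (Fin (n + 1)) ℂ)) (Q : MvPolynomial (Fin (n + 1)) ℂ)
    (m : ℕ) : Prop :=
  ∃ (L : Type) (_ : Finite L) (cl : (Fin (n + 1) → Polynomial ℂ) → L), ∀ T T',
      PolyCurve p Q T → (∀ j, (T j).natDegree ≤ m) → PolyCurve p Q T' →
      (∀ j, (T' j).natDegree ≤ m) → cl T = cl T' → Same T T'

theorem pf_coeffs {m : ℕ} {T : Fin (n + 1) → Polynomial ℂ} (h : ∀ j, (T j).natDegree ≤ m) :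
    pf (fun (i : Fin (m + 1)) j => (T j).coeff i) = T := by
  funext j
  ext k
  rcases lt_or_ge k (m + 1) with hk | hk
  · rw [coeff_pf _ _ hk]
  · rw [coeff_pf' _ _ hk, Polynomial.coeff_eq_zero_of_natDegree_lt]
    have := h j
    omega

theorem continuous_pfeval {M : ℕ} (z : ℂ) (G : MvPolynomial (Fin (n + 1)) ℂ) :
    Continuous fun c : Fin M → Fin (n + 1) → ℂ => eval (fun j => (pf c j).eval z) G := by
  refine (MvPolynomial.continuous_eval G).comp (continuous_pi fun j => ?_)
  have h1 : ∀ c : Fin M → Fin (n + 1) → ℂ, (pf c j).eval z = ∑ i : Fin M, c i j * z ^ (i : ℕ) := by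
    intro c
    unfold pf
    rw [Polynomial.eval_finsetSum]
    refine Finset.sum_congr rfl fun i _ => ?_
    rw [Polynomial.eval_mul, Polynomial.eval_C, Polynomial.eval_pow, Polynomial.eval_X]
  simp only [h1]
  refine continuous_finsetSum _ fun i _ => ?_
  have h2 : Continuous fun c : Fin M → Fin (n + 1) → ℂ => c i j :=
    (continuous_apply j).comp (continuous_apply i)
  exact h2.mul continuous_const

/-- polynomials with a minor which does not vanish are not proportional to constants -/
theorem ind_of_minor {M : ℕ} {b : Fin M → Fin (n + 1) → ℂ} {i i' : Fin M} {j k : Fin (n + 1)}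
    (h7 : b i j * b i' k ≠ b i k * b i' j) :
    ∃ (s t : ℂ) (j k : Fin (n + 1)),
      (pf b j).eval s * (pf b k).eval t ≠ (pf b k).eval s * (pf b j).eval t := by
  by_contra hno
  push Not at hno
  have h8 : ∀ t : ℂ, b i j * (pf b k).eval t = b i k * (pf b j).eval t := by
    intro t
    have h9 : pf b j * Polynomial.C ((pf b k).eval t) =
        pf b k * Polynomial.C ((pf b j).eval t) := by
      apply Polynomial.funext
      intro s
      rw [Polynomial.eval_mul, Polynomial.eval_mul, Polynomial.eval_C, Polynomial.eval_C]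
      exact hno s t j k
    have h10 := congrArg (fun P => Polynomial.coeff P (i : ℕ)) h9
    simp only [Polynomial.coeff_mul_C] at h10
    rwa [coeff_pf b j i.2, coeff_pf b k i.2] at h10
  have h9 : Polynomial.C (b i j) * pf b k = Polynomial.C (b i k) * pf b j := by
    apply Polynomial.funext
    intro t
    rw [Polynomial.eval_mul, Polynomial.eval_mul, Polynomial.eval_C, Polynomial.eval_C]
    exact h8 t
  have h10 := congrArg (fun P => Polynomial.coeff P (i' : ℕ)) h9
  simp only [Polynomial.coeff_C_mul] at h10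
  rw [coeff_pf b k i'.2, coeff_pf b j i'.2] at h10
  rw [Fin.eta] at h10
  exact h7 h10

/-- **Separation.** If the polynomial curves of degree at most `m` have finitely many Zariski
closures, then curves which are close to each other have the same closure. -/
theorem separate {m : ℕ} (hfin : FinCl p Q m) :
    ∃ ρ : ℝ, 0 < ρ ∧ ∀ T T', Lev p Q m T → Lev p Q m T' →
      (∀ j i, ‖(T j).coeff i - (T' j).coeff i‖ ≤ ρ) → Same T T' := by
  classical
  obtain ⟨L, hL, cl, hcl⟩ := hfin
  by_contra hno
  push Not at hno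
  have hk : ∀ k : ℕ, (0 : ℝ) < 1 / ((k : ℝ) + 1) := fun k => by positivity
  choose T T' hT hT' hd hne using fun k : ℕ => hno _ (hk k)
  let U : Ultrafilter ℕ := hyperfilter ℕ
  have hU : (U : Filter ℕ) ≤ atTop := Nat.hyperfilter_le_atTop
  -- constant colours
  obtain ⟨α, hα⟩ := (U.map fun k => cl (T k)).eq_pure_of_finite
  obtain ⟨β, hβ⟩ := (U.map fun k => cl (T' k)).eq_pure_of_finite
  have hα' : ∀ᶠ k in (U : Filter ℕ), cl (T k) = α := by
    have h1 : ({α} : Set L) ∈ U.map fun k => cl (T k) := by
      rw [hα]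
      exact Set.mem_singleton α
    exact h1
  have hβ' : ∀ᶠ k in (U : Filter ℕ), cl (T' k) = β := by
    have h1 : ({β} : Set L) ∈ U.map fun k => cl (T' k) := by
      rw [hβ]
      exact Set.mem_singleton β
    exact h1
  obtain ⟨k0, hk0, hk0'⟩ := (hα'.and hβ').exists
  -- the limit
  let c : ℕ → Fin (m + 1) → Fin (n + 1) → ℂ := fun k i j => (T k j).coeff i
  let c' : ℕ → Fin (m + 1) → Fin (n + 1) → ℂ := fun k i j => (T' k j).coeff i
  have hc : ∀ k, pf (c k) = T k := fun k => pf_coeffs (hT k).deg
  have hc' : ∀ k, pf (c' k) = T' k := fun k => pf_coeffs (hT' k).deg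
  have hmem : ∀ k, c k ∈ Metric.closedBall (0 : Fin (m + 1) → Fin (n + 1) → ℂ)
      (((m : ℝ) + 1) ^ (m + 1) + 1) := by
    intro k
    rw [mem_closedBall_zero_iff, pi_norm_le_iff_of_nonneg (by positivity)]
    intro i
    rw [pi_norm_le_iff_of_nonneg (by positivity)]
    intro j
    exact (hT k).bd j i
  obtain ⟨b, -, hb⟩ := (isCompact_closedBall (0 : Fin (m + 1) → Fin (n + 1) → ℂ)
    (((m : ℝ) + 1) ^ (m + 1) + 1)).ultrafilter_le_nhds (U.map c) (by
      rw [le_principal_iff, Ultrafilter.mem_coe, Ultrafilter.mem_map]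
      exact Filter.mem_of_superset Filter.univ_mem fun k _ => hmem k)
  have hb' : Tendsto c U (𝓝 b) := hb
  have hb'' : Tendsto c' U (𝓝 b) := by
    have h1 : Tendsto (fun k => c k - c' k) U (𝓝 0) := by
      refine squeeze_zero_norm (a := fun k : ℕ => 1 / ((k : ℝ) + 1)) (fun k => ?_)
        (tendsto_one_div_add_atTop_nhds_zero_nat.mono_left hU)
      rw [pi_norm_le_iff_of_nonneg (by positivity)]
      intro i
      rw [pi_norm_le_iff_of_nonneg (by positivity)]
      intro j
      exact hd k j i
    have h2 := hb'.sub h1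
    rw [sub_zero] at h2
    refine h2.congr fun k => ?_
    abel
  -- the limit is not constant
  have hmin : ∃ (i i' : Fin (m + 1)) (j k : Fin (n + 1)),
      1 / (2 * ((m : ℝ) + 1)) ≤ ‖b i j * b i' k - b i k * b i' j‖ := by
    have hcl : IsClosed {x : Fin (m + 1) → Fin (n + 1) → ℂ | ∃ (i i' : Fin (m + 1))
        (j k : Fin (n + 1)), 1 / (2 * ((m : ℝ) + 1)) ≤ ‖x i j * x i' k - x i k * x i' j‖} := by
      simp only [Set.ofPred_exists]
      refine isClosed_iUnion_of_finite fun i => isClosed_iUnion_of_finite fun i' =>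
        isClosed_iUnion_of_finite fun j => isClosed_iUnion_of_finite fun k => ?_
      refine isClosed_le continuous_const (Continuous.norm ?_)
      have hc : ∀ (i : Fin (m + 1)) (j : Fin (n + 1)),
          Continuous fun x : Fin (m + 1) → Fin (n + 1) → ℂ => x i j := fun i j =>
        (continuous_apply j).comp (continuous_apply i)
      exact ((hc i j).mul (hc i' k)).sub ((hc i k).mul (hc i' j))
    refine hcl.mem_of_tendsto hb' (Eventually.of_forall fun l => ?_)
    obtain ⟨i, i', j, k, h1⟩ := (hT l).minor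
    have hpos : (0 : ℝ) < 1 / (2 * ((m : ℝ) + 1)) := by positivity
    have hi : i < m + 1 := by
      by_contra hi
      push Not at hi
      have h2 : ∀ j, (T l j).coeff i = 0 := fun j =>
        Polynomial.coeff_eq_zero_of_natDegree_lt (by have := (hT l).deg j; omega)
      rw [h2, h2, zero_mul, zero_mul, sub_zero, norm_zero] at h1
      exact absurd h1 (not_le.2 hpos)
    have hi' : i' < m + 1 := by
      by_contra hi
      push Not at hi
      have h2 : ∀ j, (T l j).coeff i' = 0 := fun j =>
        Polynomial.coeff_eq_zero_of_natDegree_lt (by have := (hT l).deg j; omega)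
      rw [h2, h2, mul_zero, mul_zero, sub_zero, norm_zero] at h1
      exact absurd h1 (not_le.2 hpos)
    exact ⟨⟨i, hi⟩, ⟨i', hi'⟩, j, k, h1⟩
  have hind : ∃ (s t : ℂ) (j k : Fin (n + 1)),
      (pf b j).eval s * (pf b k).eval t ≠ (pf b k).eval s * (pf b j).eval t := by
    obtain ⟨i, i', j, k, h1⟩ := hmin
    apply ind_of_minor (i := i) (i' := i') (j := j) (k := k)
    intro h2
    rw [h2, sub_self, norm_zero] at h1
    have hpos : (0 : ℝ) < 1 / (2 * ((m : ℝ) + 1)) := by positivity
    exact absurd h1 (not_le.2 hpos)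
  -- the limit has the same closure
  have key : ∀ (V : ℕ → Fin (n + 1) → Polynomial ℂ) (v : ℕ → Fin (m + 1) → Fin (n + 1) → ℂ)
      (γ : L), (∀ k, Lev p Q m (V k)) → (∀ k, pf (v k) = V k) → Tendsto v U (𝓝 b) →
      (∀ᶠ k in (U : Filter ℕ), cl (V k) = γ) → cl (V k0) = γ → Same (V k0) (pf b) := by
    intro V v γ hV hv hvb hγ hγ0
    refine same_of_le hind fun G hG hG0 z => ?_
    have h1 : Tendsto (fun k => eval (fun j => (pf (v k) j).eval z) G) U
        (𝓝 (eval (fun j => (pf b j).eval z) G)) :=
      ((continuous_pfeval z G).tendsto b).comp hvb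
    have h2 : Tendsto (fun k => eval (fun j => (pf (v k) j).eval z) G) U (𝓝 0) := by
      refine tendsto_const_nhds.congr' ?_
      filter_upwards [hγ] with k hk
      have h3 := (hcl (V k0) (V k) (hV k0).poly (hV k0).deg (hV k).poly (hV k).deg
        (hγ0.trans hk.symm) G hG).1 hG0 z
      rw [hv, h3]
    exact tendsto_nhds_unique h1 h2
  have e1 := key T c α hT hc hb' hα' hk0
  have e2 := key T' c' β hT' hc' hb'' hβ' hk0'
  exact hne k0 (e1.trans e2.symm)

/-- **Rigidity.** If the polynomial curves of every bounded degree have finitely many Zariski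
closures, then every nonconstant entire curve with small Taylor coefficients lies in the closure of
a polynomial curve. -/
theorem rigid {D : ℕ} (hD : 1 ≤ D) (hQ : Q.IsHomogeneous q) (hqD : q ≤ D) (hcut : CutBy D p)
    (hfin : ∀ m, FinCl p Q m) :
    ∃ ε : ℕ → ℝ, (∀ i, 0 < ε i) ∧ ∀ (a : ℕ → Fin (n + 1) → ℂ) (f : ℂ → Fin (n + 1) → ℂ),
      (∀ r > 0, Curve p Q r a f) → (∃ r, NonConst r f) → (∃ L : ℕ, ∀ i, L ≤ i → ‖a i‖ ≤ ε i) →
      ∃ T, PolyCurve p Q T ∧ ∀ G : MvPolynomial (Fin (n + 1)) ℂ, IsForm G →
        (∀ z : ℂ, eval (fun j => (T j).eval z) G = 0) → ∀ z : ℂ, eval (f z) G = 0 := by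
  classical
  choose ρ hρ hsep using fun m => separate (hfin m)
  obtain ⟨ε, hε, hmain⟩ := master hD hQ hqD hcut
    (η := fun m => min (min (ρ m / 4) (ρ (m + 1) / 4)) (1 / ((m : ℝ) + 1))) (fun m => by
      refine lt_min (lt_min ?_ ?_) (by positivity)
      · have := hρ m
        positivity
      · have := hρ (m + 1)
        positivity) (M := fun m => (m : ℝ)) (fun m => Nat.cast_nonneg m)
  refine ⟨fun i => min (ε i) (ρ i / 4), fun i => lt_min (hε i) (by have := hρ i; positivity),
    fun a f hf hnc hL => ?_⟩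
  obtain ⟨L, hL⟩ := hL
  obtain ⟨m0, hm0⟩ := hmain a f hf hnc ⟨L, fun i hi => (hL i hi).trans (min_le_left _ _)⟩
  choose! T hT hTc hTd using hm0
  let M := max m0 L
  have hstep : ∀ m, M ≤ m → Same (T m) (T (m + 1)) := by
    intro m hm
    have hm1 : m0 ≤ m := (le_max_left _ _).trans hm
    have hmL : L ≤ m := (le_max_right _ _).trans hm
    refine hsep (m + 1) _ _ (hT m hm1).succ (hT (m + 1) (by omega)) fun j i => ?_
    have hρ1 := hρ (m + 1)
    have g1 : min (min (ρ m / 4) (ρ (m + 1) / 4)) (1 / ((m : ℝ) + 1)) ≤ ρ (m + 1) / 4 :=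
      (min_le_left _ _).trans (min_le_right _ _)
    have g2 : min (min (ρ (m + 1) / 4) (ρ (m + 1 + 1) / 4)) (1 / (((m + 1 : ℕ) : ℝ) + 1)) ≤
        ρ (m + 1) / 4 :=
      (min_le_left _ _).trans (min_le_left _ _)
    rcases le_or_gt i m with hi | hi
    · have h1 := (hTc m hm1 j i hi).trans g1
      have h2 := (hTc (m + 1) (by omega) j i (by omega)).trans g2
      have h3 : (T m j).coeff i - (T (m + 1) j).coeff i =
          ((T m j).coeff i - a i j) - ((T (m + 1) j).coeff i - a i j) := by ring
      rw [h3]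
      refine (norm_sub_le _ _).trans ?_
      linarith
    · have h1 : (T m j).coeff i = 0 :=
        Polynomial.coeff_eq_zero_of_natDegree_lt (by have := (hT m hm1).deg j; omega)
      rw [h1, zero_sub, norm_neg]
      rcases le_or_gt i (m + 1) with hi' | hi'
      · have h2 := (hTc (m + 1) (by omega) j i hi').trans g2
        have h3 : ‖a i j‖ ≤ ρ i / 4 :=
          (norm_le_pi_norm (a i) j).trans ((hL i (by omega)).trans (min_le_right _ _))
        have h4 : i = m + 1 := by omega
        rw [h4] at h2 h3 ⊢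
        have h5 : (T (m + 1) j).coeff (m + 1) =
            ((T (m + 1) j).coeff (m + 1) - a (m + 1) j) + a (m + 1) j := by ring
        rw [h5]
        refine (norm_add_le _ _).trans ?_
        linarith
      · rw [Polynomial.coeff_eq_zero_of_natDegree_lt
          (by have := (hT (m + 1) (by omega)).deg j; omega), norm_zero]
        exact hρ1.le
  have hsame : ∀ k, Same (T M) (T (M + k)) := by
    intro k
    induction k with
    | zero => exact Same.refl _
    | succ k ih => exact ih.trans (hstep (M + k) (by omega))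
  refine ⟨T M, (hT M (le_max_left _ _)).poly, fun G hG hG0 z => ?_⟩
  have h1 : Tendsto (fun k : ℕ => (fun j => (T (M + k) j).eval z : Fin (n + 1) → ℂ)) atTop
      (𝓝 (f z)) := by
    rw [tendsto_iff_dist_tendsto_zero]
    obtain ⟨m1, hm1⟩ := exists_nat_ge ‖z‖
    refine squeeze_zero' (Eventually.of_forall fun _ => dist_nonneg) ?_
      (tendsto_one_div_add_atTop_nhds_zero_nat (𝕜 := ℝ))
    filter_upwards [eventually_ge_atTop m1] with k hk
    rw [dist_comm]
    have h2 : (k : ℝ) ≤ ((M + k : ℕ) : ℝ) := by exact_mod_cast Nat.le_add_left _ _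
    have h3 : (m1 : ℝ) ≤ k := by exact_mod_cast hk
    refine (hTd (M + k) (by omega) z (hm1.trans (h3.trans h2))).trans ((min_le_right _ _).trans ?_)
    refine one_div_le_one_div_of_le (by positivity) ?_
    linarith
  have h2 : Tendsto (fun k : ℕ => eval (fun j => (T (M + k) j).eval z) G) atTop
      (𝓝 (eval (f z) G)) :=
    ((MvPolynomial.continuous_eval G).tendsto (f z)).comp h1
  have h3 : ∀ k : ℕ, eval (fun j => (T (M + k) j).eval z) G = 0 := fun k =>
    ((hsame k) G hG).1 hG0 z
  simp only [h3] at h2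
  exact tendsto_nhds_unique h2 tendsto_const_nhds

end Pool.Agent.Q64.LC
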