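import Pool.Agent.Q64.LC.Chn
import Mathlib.Topology.MetricSpace.HausdorffDimension
import Mathlib.MeasureTheory.Measure.Lebesgue.Complex
import Mathlib.Algebra.MvPolynomial.PDeriv
import Mathlib.LinearAlgebra.Complex.FiniteDimensional

/-!
The Hausdorff dimension of complex algebraic sets. (The local argument is the one of
the file `H450R2/Al/Dim.lean` for real points.)
-/

set_option autoImplicit false

namespace Pool.Agent.Q64.LC

open MvPolynomial Set

section eq

variable {k Ω : Type} [Field k] [Field Ω] [CharZero Ω] [Algebra k Ω] {ι : Type}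

omit [CharZero Ω] in
theorem exists_lift (z : ι → Ω) (J : Set ι) (a : Ω)
    (ha : a ∈ Algebra.adjoin k (range fun j : J => z j)) :
    ∃ Q : MvPolynomial J k, a = aeval (fun j : J => z j) Q := by
  rw [Algebra.adjoin_range_eq_range_aeval] at ha
  obtain ⟨Q, hQ⟩ := ha
  exact ⟨Q, hQ.symm⟩

omit [CharZero Ω] in
theorem exists_basis_index [Fintype ι] (x : ι → Ω) :
    ∃ S : Set ι, AlgebraicIndependent k (fun j : S => x j) ∧
      ∀ i, i ∉ S → IsAlgebraic (Algebra.adjoin k (range fun j : S => x j)) (x i) := by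
  classical
  have hinj : Function.Injective (algebraMap k Ω) := (algebraMap k Ω).injective
  let A : Finset (Finset ι) := Finset.univ.filter fun S : Finset ι =>
    AlgebraicIndependent k (fun j : (S : Set ι) => x j)
  have hA : A.Nonempty := by
    refine ⟨∅, Finset.mem_filter.2 ⟨Finset.mem_univ _, ?_⟩⟩
    haveI : IsEmpty ((∅ : Finset ι) : Set ι) := by
      rw [Finset.coe_empty]
      infer_instance
    rw [algebraicIndependent_empty_type_iff]
    exact hinj
  obtain ⟨S, hS, hmax⟩ := A.exists_max_image Finset.card hA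
  rw [Finset.mem_filter] at hS
  refine ⟨S, hS.2, fun i hi => ?_⟩
  by_contra htr
  have h1 : AlgebraicIndependent k (fun o : Option (S : Set ι) => o.elim (x i) fun j => x j) := by
    rw [AlgebraicIndependent.option_iff]
    exact ⟨hS.2, htr⟩
  have h2 : AlgebraicIndependent k (fun j : ((insert i S : Finset ι) : Set ι) => x j) := by
    let e : ((insert i S : Finset ι) : Set ι) → Option (S : Set ι) := fun j =>
      if h : j.1 ∈ S then some ⟨j.1, h⟩ else none
    have he : Function.Injective e := by
      intro j j' hjj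
      have hj := j.2
      have hj' := j'.2
      simp only [Finset.coe_insert, Set.mem_insert_iff, Finset.mem_coe] at hj hj'
      simp only [e] at hjj
      apply Subtype.ext
      by_cases h : j.1 ∈ S
      · rw [dif_pos h] at hjj
        by_cases h' : j'.1 ∈ S
        · rw [dif_pos h'] at hjj
          exact congrArg (fun y : {j // j ∈ (S : Set ι)} => y.1) (Option.some.inj hjj)
        · rw [dif_neg h'] at hjj
          exact absurd hjj (Option.some_ne_none _)
      · rw [dif_neg h] at hjj
        by_cases h' : j'.1 ∈ S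
        · rw [dif_pos h'] at hjj
          exact absurd hjj (Option.some_ne_none _).symm
        · exact (hj.resolve_right h).trans (hj'.resolve_right h').symm
    have h3 := h1.comp e he
    have h4 : ((fun o : Option (S : Set ι) => o.elim (x i) fun j => x j) ∘ e) =
        fun j : ((insert i S : Finset ι) : Set ι) => x j := by
      funext j
      have hj := j.2
      simp only [Finset.coe_insert, Set.mem_insert_iff, Finset.mem_coe] at hj
      simp only [Function.comp_apply, e]
      by_cases h : j.1 ∈ S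
      · rw [dif_pos h]
        rfl
      · rw [dif_neg h]
        exact congrArg x (hj.resolve_right h).symm
    rw [h4] at h3
    exact h3
  have h3 := hmax (insert i S) (Finset.mem_filter.2 ⟨Finset.mem_univ _, h2⟩)
  rw [Finset.card_insert_of_notMem hi] at h3
  omega

/-- an algebraic coordinate satisfies an equation with nonzero derivative -/
theorem exists_eq_of_mem_cl (x : ι → Ω) (J : Set ι)
    (hJ : AlgebraicIndependent k (fun j : J => x j)) (i : ι) (hi : i ∉ J)
    (h : IsAlgebraic (Algebra.adjoin k (range fun j : J => x j)) (x i)) :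
    ∃ G : MvPolynomial ι k, aeval x G = 0 ∧ aeval x (pderiv i G) ≠ 0 ∧
      ∀ l, l ∉ J → l ≠ i → pderiv l G = 0 := by
  classical
  have hchar : CharZero k := by
    have : Function.Injective (algebraMap k Ω) := (algebraMap k Ω).injective
    exact (RingHom.charZero_iff this).2 inferInstance
  set θ : MvPolynomial J k →+* Ω := (aeval (fun j : J => x j) : MvPolynomial J k →ₐ[k] Ω).toRingHom
    with hθ
  have hθi : Function.Injective θ := hJ
  -- a nonzero polynomial with root `x i`
  have hex : ∃ p : Polynomial (MvPolynomial J k), p ≠ 0 ∧ Polynomial.eval₂ θ (x i) p = 0 := by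
    obtain ⟨p, hp0, hp⟩ := h
    have hl : ∀ l, ∃ Q : MvPolynomial J k, ((p.coeff l :
        Algebra.adjoin k (range fun j : J => x j)) : Ω) =
        aeval (fun j : J => x j) Q := fun l => exists_lift x J _ (p.coeff l).2
    choose Q hQ using hl
    refine ⟨∑ l ∈ Finset.range (p.natDegree + 1), Polynomial.C (Q l) * Polynomial.X ^ l, ?_, ?_⟩
    · intro h0
      have h1 := congrArg (fun r => Polynomial.coeff r p.natDegree) h0
      simp only [Polynomial.finsetSum_coeff, Polynomial.coeff_C_mul_X_pow,
        Polynomial.coeff_zero] at h1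
      rw [Finset.sum_ite_eq, if_pos (Finset.mem_range.2 (Nat.lt_succ_self _))] at h1
      have h2 := hQ p.natDegree
      rw [h1, map_zero] at h2
      have h3 : p.leadingCoeff = 0 := Subtype.ext h2
      exact hp0 (Polynomial.leadingCoeff_eq_zero.1 h3)
    · rw [Polynomial.eval₂_finsetSum]
      rw [Polynomial.aeval_eq_sum_range] at hp
      rw [← hp]
      apply Finset.sum_congr rfl
      intro l _
      rw [Polynomial.eval₂_mul, Polynomial.eval₂_C, Polynomial.eval₂_pow, Polynomial.eval₂_X]
      change aeval (fun j : J => x j) (Q l) * x i ^ l = _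
      rw [← hQ]
      rfl
  -- of minimal degree
  let Pr : ℕ → Prop := fun N => ∃ p : Polynomial (MvPolynomial J k), p ≠ 0 ∧
    Polynomial.eval₂ θ (x i) p = 0 ∧ p.natDegree = N
  have hPr : ∃ N, Pr N := by
    obtain ⟨p, h1, h2⟩ := hex
    exact ⟨_, p, h1, h2, rfl⟩
  obtain ⟨p, hp0, hp, hdeg⟩ := Nat.find_spec hPr
  have hmin : ∀ r : Polynomial (MvPolynomial J k), r ≠ 0 → Polynomial.eval₂ θ (x i) r = 0 →
      p.natDegree ≤ r.natDegree := by
    intro r h1 h2
    rw [hdeg]
    exact Nat.find_min' hPr ⟨r, h1, h2, rfl⟩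
  have hpos : p.natDegree ≠ 0 := by
    intro h0
    have h1 := Polynomial.eq_C_of_natDegree_eq_zero h0
    rw [h1, Polynomial.eval₂_C] at hp
    have h2 : p.coeff 0 = 0 := hθi (by rw [hp, map_zero])
    rw [h2, map_zero] at h1
    exact hp0 h1
  have hder : Polynomial.eval₂ θ (x i) (Polynomial.derivative p) ≠ 0 := by
    intro h0
    have h1 : Polynomial.derivative p ≠ 0 := by
      intro h2
      exact hpos (Polynomial.derivative_eq_zero.1 h2)
    have h3 := hmin _ h1 h0
    have h4 := Polynomial.natDegree_derivative_lt hpos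
    omega
  set ρ : MvPolynomial J k →+* MvPolynomial ι k :=
    (rename ((↑) : J → ι) : MvPolynomial J k →ₐ[k] MvPolynomial ι k).toRingHom with hρ
  have hρd : ∀ l, l ∉ J → ∀ a : MvPolynomial J k, pderiv l (ρ a) = 0 := by
    intro l hl a
    change pderiv l (rename ((↑) : J → ι) a) = 0
    apply pderiv_eq_zero_of_notMem_vars
    intro hmem
    have := vars_rename ((↑) : J → ι) a hmem
    rw [Finset.mem_image] at this
    obtain ⟨b, _, hb⟩ := this
    exact hl (hb ▸ b.2)
  have hev : ∀ r : Polynomial (MvPolynomial J k), aeval x (Polynomial.eval₂ ρ (X i) r) =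
      Polynomial.eval₂ θ (x i) r := by
    intro r
    induction r using Polynomial.induction_on' with
    | add a b ha hb => rw [Polynomial.eval₂_add, Polynomial.eval₂_add, map_add, ha, hb]
    | monomial n a =>
      rw [Polynomial.eval₂_monomial, Polynomial.eval₂_monomial, map_mul, map_pow, aeval_X]
      congr 1
      change aeval x (rename ((↑) : J → ι) a) = aeval (fun j : J => x j) a
      rw [aeval_rename]; rfl
  have hpd : ∀ r : Polynomial (MvPolynomial J k), pderiv i (Polynomial.eval₂ ρ (X i) r) =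
      Polynomial.eval₂ ρ (X i) (Polynomial.derivative r) := by
    intro r
    induction r using Polynomial.induction_on' with
    | add a b ha hb => rw [Polynomial.eval₂_add, map_add, map_add, Polynomial.eval₂_add, ha, hb]
    | monomial n a =>
      rw [Polynomial.eval₂_monomial, Polynomial.derivative_monomial, Polynomial.eval₂_monomial,
        Derivation.leibniz, hρd i hi, Derivation.leibniz_pow, pderiv_X_self, map_mul, map_natCast]
      simp
      ring
  refine ⟨Polynomial.eval₂ ρ (X i) p, ?_, ?_, ?_⟩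
  · rw [hev, hp]
  · rw [hpd, hev]; exact hder
  · intro l hl hli
    have : ∀ r : Polynomial (MvPolynomial J k), pderiv l (Polynomial.eval₂ ρ (X i) r) = 0 := by
      intro r
      induction r using Polynomial.induction_on' with
      | add a b ha hb => rw [Polynomial.eval₂_add, map_add, ha, hb, add_zero]
      | monomial n a =>
        rw [Polynomial.eval₂_monomial, Derivation.leibniz, hρd l hl, Derivation.leibniz_pow,
          pderiv_X_of_ne hli.symm]
        simp
    exact this p

end eq

section local'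

variable {ι : Type} [Fintype ι]

/-- the linear form with the coefficients `c` -/
noncomputable def lin (c : ι → ℂ) : (ι → ℂ) →L[ℂ] ℂ :=
  LinearMap.toContinuousLinearMap
    { toFun := fun v => ∑ j, c j * v j
      map_add' := fun v w => by
        rw [← Finset.sum_add_distrib]
        exact Finset.sum_congr rfl fun j _ => by rw [Pi.add_apply, mul_add]
      map_smul' := fun a v => by
        rw [RingHom.id_apply, smul_eq_mul, Finset.mul_sum]
        exact Finset.sum_congr rfl fun j _ => by
          rw [Pi.smul_apply, smul_eq_mul]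
          ring }

theorem lin_apply (c v : ι → ℂ) : lin c v = ∑ j, c j * v j := rfl

theorem strict_aeval (G : MvPolynomial ι ℂ) (x : ι → ℂ) :
    HasStrictFDerivAt (fun y : ι → ℂ => eval y G) (lin fun j => eval x (pderiv j G)) x := by
  classical
  induction G using MvPolynomial.induction_on with
  | C a =>
    have h := hasStrictFDerivAt_const (𝕜 := ℂ) a x
    have e1 : (fun y : ι → ℂ => eval y (C a)) = fun _ => a := by
      funext y
      rw [eval_C]
    rw [e1]
    refine h.congr_fderiv ?_
    apply ContinuousLinearMap.ext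
    intro v
    rw [lin_apply]
    change (0 : ℂ) = _
    symm
    refine Finset.sum_eq_zero fun j _ => ?_
    rw [pderiv_C, map_zero, zero_mul]
  | add p q hp hq =>
    have h := hp.add hq
    have e1 : (fun y : ι → ℂ => eval y (p + q)) = fun y => eval y p + eval y q := by
      funext y; rw [map_add]
    rw [e1]
    refine h.congr_fderiv ?_
    apply ContinuousLinearMap.ext
    intro v
    change lin _ v + lin _ v = lin _ v
    rw [lin_apply, lin_apply, lin_apply, ← Finset.sum_add_distrib]
    refine Finset.sum_congr rfl fun j _ => ?_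
    rw [map_add, map_add, add_mul]
  | mul_X p i hp =>
    have hX : HasStrictFDerivAt (fun y : ι → ℂ => y i)
        (ContinuousLinearMap.proj i : (ι → ℂ) →L[ℂ] ℂ) x :=
      (ContinuousLinearMap.proj i : (ι → ℂ) →L[ℂ] ℂ).hasStrictFDerivAt
    have h := hp.mul hX
    have e1 : (fun y : ι → ℂ => eval y (p * X i)) = fun y => eval y p * y i := by
      funext y; rw [map_mul, eval_X]
    rw [e1]
    refine h.congr_fderiv ?_
    apply ContinuousLinearMap.ext
    intro v
    change eval x p * v i + x i * lin _ v = lin _ v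
    rw [lin_apply, lin_apply, Finset.mul_sum]
    have h2 : ∀ j, eval x (pderiv j (p * X i)) * v j = eval x p * (if i = j then v j else 0) +
        x i * (eval x (pderiv j p) * v j) := by
      intro j
      rw [Derivation.leibniz, map_add, smul_eq_mul, smul_eq_mul, map_mul, map_mul, eval_X]
      by_cases hij : i = j
      · subst hij
        rw [pderiv_X_self, map_one, if_pos rfl]
        ring
      · rw [pderiv_X_of_ne hij, map_zero, if_neg hij]
        ring
    simp_rw [h2]
    rw [Finset.sum_add_distrib]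
    congr 1
    simp only [mul_ite, mul_zero]
    rw [Finset.sum_ite_eq, if_pos (Finset.mem_univ i)]

/-- the points with prescribed equations -/
def Zset (J : Set ι) (G : ι → MvPolynomial ι ℂ) : Set (ι → ℂ) :=
  {y | ∀ i, i ∉ J → eval y (G i) = 0 ∧ eval y (pderiv i (G i)) ≠ 0}

/-- restriction to the coordinates in `J` -/
def projJ (J : Set ι) (y : ι → ℂ) : J → ℂ := fun j => y j

omit [Fintype ι] in
theorem coord_le (J : Set ι) [Fintype J] (y y' : ι → ℂ) (j : J) :
    ‖y j - y' j‖ ≤ ‖projJ J y - projJ J y'‖ := by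
  have h := norm_le_pi_norm (projJ J y - projJ J y') j
  rw [Pi.sub_apply] at h
  exact h

theorem sum_split (J : Set ι) [Fintype J] (i : ι) (hi : i ∉ J) (w : ι → ℂ)
    (hw : ∀ l, l ∉ J → l ≠ i → w l = 0) : ∑ j, w j = w i + ∑ j : J, w j := by
  classical
  have e4 : ∀ j ∈ (Finset.univ : Finset ι), j ∉ insert i (J.toFinset) → w j = 0 := by
    intro j _ hj
    rw [Finset.mem_insert, Set.mem_toFinset] at hj
    push Not at hj
    exact hw j hj.2 hj.1
  rw [← Finset.sum_subset (Finset.subset_univ (insert i J.toFinset)) e4,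
    Finset.sum_insert (by rw [Set.mem_toFinset]; exact hi)]
  congr 1
  exact (Finset.sum_subtype J.toFinset (fun x => Set.mem_toFinset) w)

theorem one_coord (J : Set ι) [Fintype J] (G : ι → MvPolynomial ι ℂ)
    (hG : ∀ i, i ∉ J → ∀ l, l ∉ J → l ≠ i → pderiv l (G i) = 0) (x : ι → ℂ)
    (hx : x ∈ Zset J G) (i : ι) : ∃ B : ℝ, 0 ≤ B ∧ ∀ᶠ p : (ι → ℂ) × (ι → ℂ) in nhds (x, x),
      p.1 ∈ Zset J G → p.2 ∈ Zset J G →
      ‖p.1 i - p.2 i‖ ≤ 1 / 2 * ‖p.1 - p.2‖ + B * ‖projJ J p.1 - projJ J p.2‖ := by
  classical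
  by_cases hi : i ∈ J
  · refine ⟨1, zero_le_one, Filter.Eventually.of_forall fun p _ _ => ?_⟩
    have h1 := coord_le J p.1 p.2 ⟨i, hi⟩
    have h2 := norm_nonneg (p.1 - p.2)
    simp only at h1
    linarith
  · obtain ⟨_, ha⟩ := hx i hi
    obtain ⟨a, hadef⟩ : ∃ a : ℂ, a = eval x (pderiv i (G i)) := ⟨_, rfl⟩
    obtain ⟨B, hB⟩ : ∃ B : ℝ, B = ∑ j : J, ‖eval x (pderiv (j : ι) (G i))‖ := ⟨_, rfl⟩
    rw [← hadef] at ha
    have hB0 : 0 ≤ B := by rw [hB]; exact Finset.sum_nonneg fun _ _ => norm_nonneg _
    have ha0 : 0 < ‖a‖ := norm_pos_iff.2 ha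
    refine ⟨B / ‖a‖, by positivity, ?_⟩
    have hst := (strict_aeval (G i) x).isLittleO
    have hev := hst.def (show (0 : ℝ) < ‖a‖ / 2 by positivity)
    filter_upwards [hev] with p hp h1 h2
    have e1 := (h1 i hi).1
    have e2 := (h2 i hi).1
    rw [e1, e2, sub_zero, zero_sub, norm_neg] at hp
    have e3 : (lin fun j => eval x (pderiv j (G i))) (p.1 - p.2) = a * (p.1 i - p.2 i) +
        ∑ j : J, eval x (pderiv (j : ι) (G i)) * (p.1 j - p.2 j) := by
      rw [lin_apply, hadef]
      simp only [Pi.sub_apply]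
      apply sum_split J i hi (fun j => eval x (pderiv j (G i)) * (p.1 j - p.2 j))
      intro l hl hli
      rw [hG i hi l hl hli, map_zero, zero_mul]
    rw [e3] at hp
    have e5 : ‖∑ j : J, eval x (pderiv (j : ι) (G i)) * (p.1 j - p.2 j)‖ ≤
        B * ‖projJ J p.1 - projJ J p.2‖ := by
      refine (norm_sum_le _ _).trans ?_
      rw [hB, Finset.sum_mul]
      apply Finset.sum_le_sum
      intro j _
      rw [norm_mul]
      exact mul_le_mul_of_nonneg_left (coord_le J p.1 p.2 j) (norm_nonneg _)
    have e6 : ‖a * (p.1 i - p.2 i)‖ ≤ ‖a‖ / 2 * ‖p.1 - p.2‖ +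
        B * ‖projJ J p.1 - projJ J p.2‖ := by
      have h3 : a * (p.1 i - p.2 i) = (a * (p.1 i - p.2 i) +
          ∑ j : J, eval x (pderiv (j : ι) (G i)) * (p.1 j - p.2 j)) -
          ∑ j : J, eval x (pderiv (j : ι) (G i)) * (p.1 j - p.2 j) := by ring
      rw [h3]
      exact (norm_sub_le _ _).trans (add_le_add hp e5)
    rw [norm_mul] at e6
    have e7 : ‖p.1 i - p.2 i‖ ≤ (‖a‖ / 2 * ‖p.1 - p.2‖ +
        B * ‖projJ J p.1 - projJ J p.2‖) / ‖a‖ := by
      rw [le_div_iff₀ ha0]; linarith
    refine e7.trans (le_of_eq ?_)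
    field_simp

theorem antilip_local (J : Set ι) [Fintype J] (G : ι → MvPolynomial ι ℂ)
    (hG : ∀ i, i ∉ J → ∀ l, l ∉ J → l ≠ i → pderiv l (G i) = 0) (x : ι → ℂ)
    (hx : x ∈ Zset J G) :
    ∃ C : ℝ, 0 ≤ C ∧ ∃ U ∈ nhds x, ∀ y ∈ U ∩ Zset J G, ∀ y' ∈ U ∩ Zset J G,
      ‖y - y'‖ ≤ C * ‖projJ J y - projJ J y'‖ := by
  choose B hB0 hB using one_coord J G hG x hx
  have hC₀0 : 0 ≤ ∑ i, B i := Finset.sum_nonneg fun i _ => hB0 i
  have hall := Filter.eventually_all.2 hB
  rw [nhds_prod_eq] at hall
  obtain ⟨U, hU, hUU⟩ := Filter.mem_prod_self_iff.1 hall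
  refine ⟨2 * ∑ i, B i, by positivity, U, hU, ?_⟩
  rintro y ⟨hyU, hy⟩ y' ⟨hyU', hy'⟩
  have h1 : ‖y - y'‖ ≤ 1 / 2 * ‖y - y'‖ + (∑ i, B i) * ‖projJ J y - projJ J y'‖ := by
    rw [pi_norm_le_iff_of_nonneg (by positivity)]
    intro i
    have h2 := hUU (Set.mk_mem_prod hyU hyU') i hy hy'
    simp only at h2
    rw [Pi.sub_apply]
    refine h2.trans (add_le_add le_rfl ?_)
    exact mul_le_mul_of_nonneg_right
      (Finset.single_le_sum (fun i _ => hB0 i) (Finset.mem_univ i)) (norm_nonneg _)
  linarith

theorem dimH_univ_pi_complex (κ : Type) [Fintype κ] :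
    dimH (univ : Set (κ → ℂ)) = ((2 * Fintype.card κ : ℕ) : ENNReal) := by
  rw [Real.dimH_univ_eq_finrank]
  congr 1
  rw [Module.finrank_pi_fintype]
  simp [Complex.finrank_real_complex, mul_comm]

theorem dimH_Zset (J : Set ι) [Fintype J] (G : ι → MvPolynomial ι ℂ)
    (hG : ∀ i, i ∉ J → ∀ l, l ∉ J → l ≠ i → pderiv l (G i) = 0) :
    dimH (Zset J G) ≤ ((2 * Fintype.card J : ℕ) : ENNReal) := by
  by_contra hcon
  rw [not_le] at hcon
  obtain ⟨x, hx, hxx⟩ := exists_mem_nhdsWithin_lt_dimH_of_lt_dimH hcon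
  obtain ⟨C, hC, U, hU, hUC⟩ := antilip_local J G hG x hx
  set T : Set (ι → ℂ) := U ∩ Zset J G with hT
  have h1 : ((2 * Fintype.card J : ℕ) : ENNReal) < dimH T :=
    hxx T (Filter.inter_mem (mem_nhdsWithin_of_mem_nhds hU) self_mem_nhdsWithin)
  have hanti : AntilipschitzWith ⟨C, hC⟩ (fun y : T => projJ J (y : ι → ℂ)) := by
    apply AntilipschitzWith.of_le_mul_dist
    rintro ⟨y, hy⟩ ⟨y', hy'⟩
    rw [Subtype.dist_eq, dist_eq_norm, dist_eq_norm]
    exact hUC y hy y' hy'
  have h2 := hanti.le_dimH_image univ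
  have h3 : dimH ((fun y : T => projJ J (y : ι → ℂ)) '' univ) ≤ dimH (univ : Set (J → ℂ)) :=
    dimH_mono (subset_univ _)
  rw [dimH_univ_pi_complex] at h3
  have h4 : dimH T = dimH (univ : Set T) := by
    have h5 : Isometry ((↑) : T → (ι → ℂ)) := isometry_subtype_coe
    have := h5.dimH_image (univ : Set T)
    rw [image_univ, Subtype.range_coe] at this
    exact this
  rw [h4] at h1
  exact absurd (h1.trans_le (h2.trans h3)) (lt_irrefl _)

end local'

/-- **The dimension of algebraic sets.** If the prime ideals over `J` have coheight at most `d` (at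
most `d` elements are algebraically independent modulo such an ideal), then the zeros of `J` have
Hausdorff dimension at most `2 d`. -/
theorem dimH_zeros {N : ℕ} (d : ℕ) (J : Ideal (MvPolynomial (Fin N) ℂ))
    (h : ∀ P : Ideal (MvPolynomial (Fin N) ℂ), P.IsPrime → J ≤ P →
      ∀ (κ : Type) [Fintype κ] (u : κ → MvPolynomial (Fin N) ℂ),
        AlgebraicIndependent ℂ (fun i => Ideal.Quotient.mkₐ ℂ P (u i)) → Fintype.card κ ≤ d) :
    dimH {x : Fin N → ℂ | ∀ G ∈ J, eval x G = 0} ≤ ((2 * d : ℕ) : ENNReal) := by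
  classical
  induction J using WellFoundedGT.induction with
  | ind J ih =>
  have step : ∀ g : MvPolynomial (Fin N) ℂ, g ∉ J →
      dimH {x : Fin N → ℂ | ∀ G ∈ J ⊔ Ideal.span {g}, eval x G = 0} ≤
        ((2 * d : ℕ) : ENNReal) := by
    intro g hg
    refine ih _ (lt_of_le_of_ne le_sup_left fun he => hg ?_)
      fun P hP hle => h P hP (le_sup_left.trans hle)
    rw [he]
    exact Ideal.mem_sup_right (Ideal.mem_span_singleton_self g)
  have hadd : ∀ (g : MvPolynomial (Fin N) ℂ) (x : Fin N → ℂ), (∀ G ∈ J, eval x G = 0) →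
      eval x g = 0 → ∀ G ∈ J ⊔ Ideal.span {g}, eval x G = 0 := by
    intro g x hx hg G hG
    have h1 : J ⊔ Ideal.span {g} ≤ RingHom.ker (eval x) := by
      apply sup_le
      · intro G hG
        exact hx G hG
      · rw [Ideal.span_singleton_le_iff_mem]
        exact hg
    exact h1 hG
  by_cases htop : J = ⊤
  · have h1 : {x : Fin N → ℂ | ∀ G ∈ J, eval x G = 0} = ∅ := by
      rw [Set.eq_empty_iff_forall_notMem]
      intro x hx
      have h2 := hx 1 (by rw [htop]; exact Submodule.mem_top)
      rw [map_one] at h2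
      exact one_ne_zero h2
    rw [h1, dimH_empty]
    exact zero_le
  by_cases hP : J.IsPrime
  swap
  · rw [Ideal.isPrime_iff] at hP
    push Not at hP
    obtain ⟨a, b, hab, ha, hb⟩ := hP htop
    have h1 : {x : Fin N → ℂ | ∀ G ∈ J, eval x G = 0} ⊆
        {x | ∀ G ∈ J ⊔ Ideal.span {a}, eval x G = 0} ∪
        {x | ∀ G ∈ J ⊔ Ideal.span {b}, eval x G = 0} := by
      intro x hx
      have h2 := hx _ hab
      rw [map_mul] at h2
      rcases mul_eq_zero.1 h2 with h3 | h3
      · exact Or.inl (hadd a x hx h3)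
      · exact Or.inr (hadd b x hx h3)
    refine (dimH_mono h1).trans ?_
    rw [dimH_union]
    exact max_le (step a ha) (step b hb)
  · -- the prime case
    let R := MvPolynomial (Fin N) ℂ ⧸ J
    have hdom : IsDomain R := Ideal.Quotient.isDomain J
    let F := FractionRing R
    let i : R →ₐ[ℂ] F := IsScalarTower.toAlgHom ℂ R F
    have hi : Function.Injective i := IsFractionRing.injective R F
    have hcz : CharZero F := by
      have h1 : Function.Injective (algebraMap ℂ F) := (algebraMap ℂ F).injective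
      exact (RingHom.charZero_iff h1).1 inferInstance
    let x : Fin N → F := fun j => i (Ideal.Quotient.mkₐ ℂ J (X j))
    have hx : ∀ G, aeval x G = i (Ideal.Quotient.mkₐ ℂ J G) := by
      intro G
      have h1 := MvPolynomial.comp_aeval_apply (f := X) (i.comp (Ideal.Quotient.mkₐ ℂ J)) G
      rw [aeval_X_left_apply] at h1
      exact h1.symm
    have hx0 : ∀ G, aeval x G = 0 ↔ G ∈ J := by
      intro G
      rw [hx, map_eq_zero_iff i hi]
      exact Ideal.Quotient.eq_zero_iff_mem
    obtain ⟨S, hS, hSc⟩ := exists_basis_index (k := ℂ) x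
    have hcard : Fintype.card S ≤ d := by
      refine h J hP le_rfl S (fun j => X j.1) ?_
      exact AlgebraicIndependent.of_comp i (x := fun j : S => Ideal.Quotient.mkₐ ℂ J (X j.1)) hS
    have hex : ∀ l, ∃ G : MvPolynomial (Fin N) ℂ, l ∉ S → (aeval x G = 0 ∧
        aeval x (pderiv l G) ≠ 0 ∧ ∀ l', l' ∉ S → l' ≠ l → pderiv l' G = 0) := by
      intro l
      by_cases hl : l ∈ S
      · exact ⟨0, fun h => absurd hl h⟩
      · obtain ⟨G, hG⟩ := exists_eq_of_mem_cl x S hS l hl (hSc l hl)
        exact ⟨G, fun _ => hG⟩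
    choose G hG using hex
    let g : MvPolynomial (Fin N) ℂ := ∏ l ∈ Finset.univ.filter (fun l => l ∉ S), pderiv l (G l)
    have hg : g ∉ J := by
      rw [← hx0, map_prod, Finset.prod_eq_zero_iff]
      rintro ⟨l, hl, h0⟩
      rw [Finset.mem_filter] at hl
      exact (hG l hl.2).2.1 h0
    have h1 : {x : Fin N → ℂ | ∀ G ∈ J, eval x G = 0} ⊆
        Zset S G ∪ {x | ∀ G ∈ J ⊔ Ideal.span {g}, eval x G = 0} := by
      intro y hy
      by_cases h0 : eval y g = 0
      · exact Or.inr (hadd g y hy h0)
      · left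
        intro l hl
        refine ⟨hy _ ((hx0 _).1 (hG l hl).1), fun h2 => h0 ?_⟩
        rw [map_prod]
        exact Finset.prod_eq_zero (Finset.mem_filter.2 ⟨Finset.mem_univ l, hl⟩) h2
    refine (dimH_mono h1).trans ?_
    rw [dimH_union]
    refine max_le ((dimH_Zset S G fun l hl => (hG l hl).2.2).trans ?_) (step g hg)
    exact_mod_cast Nat.mul_le_mul_left 2 hcard

end Pool.Agent.Q64.LC
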