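import Pool.Agent.Q64.LC.Grw
import Pool.Agent.Q64.LC.Dim

/-!
The Hausdorff dimension of the union of the slow entire curves.
-/

set_option autoImplicit false

namespace Pool.Agent.Q64.LC

open MvPolynomial Filter Topology Pool.Agent.TH143.GT Pool.Agent.W602.GT Pool.Agent.W603.GR
  Pool.Agent.W603.PV
open MeasureTheory
open scoped NNReal ENNReal

section cone

variable {n : ℕ} {p : Ideal (MvPolynomial (Fin (n + 1)) ℂ)} {Q : MvPolynomial (Fin (n + 1)) ℂ}
  {q : ℕ} {K : Type} [Field K] [Algebra ℂ K] {w : ℕ} {y : Fin (n + 1) → K}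

/-- the generic point of the cone -/
noncomputable def cy (y : Fin (n + 1) → K) (j : Fin (n + 1)) : RatFunc K :=
  rf Polynomial.X * rf (Polynomial.C (y j))

theorem cy_form {G : MvPolynomial (Fin (n + 1)) ℂ} {d : ℕ} (hG : G.IsHomogeneous d) :
    aeval (cy y) G = rf (Polynomial.C (W602.GT.val y G) * Polynomial.X ^ d) := by
  have h1 := Pool.Agent.W603.PV.aeval_scale hG (fun j => rf (Polynomial.C (y j)))
    (rf (Polynomial.X : Polynomial K))
  have h2 : aeval (cy y) G = rf Polynomial.X ^ d * aeval (fun j => rf (Polynomial.C (y j))) G := h1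
  rw [h2, rf_mul, rf_pow, mul_comm]
  congr 1
  have h3 := val_rf (k := ℂ) (fun j => (Polynomial.C (y j) : Polynomial K)) G
  unfold W602.GT.val at h3 ⊢
  rw [h3]
  congr 1
  have h4 := MvPolynomial.comp_aeval_apply (f := y)
    (IsScalarTower.toAlgHom ℂ K (Polynomial K)) G
  exact h4.symm

theorem cy_zero (hp : IsHomog p) (hy : FunField p Q K w y) {H : MvPolynomial (Fin (n + 1)) ℂ}
    (h : aeval (cy y) H = 0) : H ∈ p := by
  have h1 : aeval (cy y) H = rf (∑ d ∈ Finset.range (H.totalDegree + 1),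
      Polynomial.C (W602.GT.val y (homogeneousComponent d H)) * Polynomial.X ^ d) := by
    conv_lhs => rw [← sum_homogeneousComponent H]
    rw [map_sum]
    unfold rf
    rw [map_sum]
    exact Finset.sum_congr rfl fun d _ => cy_form (homogeneousComponent_isHomogeneous d H)
  rw [h1, rf_zero] at h
  have h2 : ∀ d ∈ Finset.range (H.totalDegree + 1),
      W602.GT.val y (homogeneousComponent d H) = 0 := by
    intro d hd
    have h3 := congrArg (fun P => Polynomial.coeff P d) h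
    simp only [Polynomial.finsetSum_coeff, Polynomial.coeff_C_mul_X_pow,
      Polynomial.coeff_zero] at h3
    rwa [Finset.sum_ite_eq, if_pos hd] at h3
  rw [← sum_homogeneousComponent H]
  exact Ideal.sum_mem _ fun d hd => hy.mem _ ⟨d, homogeneousComponent_isHomogeneous d H⟩ (h2 d hd)

/-- **Sections.** A proper closed subset of the cone of a variety of dimension `w` has Hausdorff
dimension at most `2 w`. -/
theorem dimH_section (hp : IsHomog p) (hy : FunField p Q K w y)
    {G : MvPolynomial (Fin (n + 1)) ℂ} (hG : IsForm G) (hGp : G ∉ p) :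
    dimH {x : Fin (n + 1) → ℂ | ∀ H ∈ p ⊔ Ideal.span {G}, eval x H = 0} ≤
      ((2 * w : ℕ) : ℝ≥0∞) := by
  apply dimH_zeros
  intro P hP hle κ _ u hu
  have hGP : G ∈ P := hle (Ideal.mem_sup_right (Ideal.mem_span_singleton_self G))
  have hdom : IsDomain (MvPolynomial (Fin (n + 1)) ℂ ⧸ P) := Ideal.Quotient.isDomain P
  have h1 := chain (φ := (aeval (cy y) : MvPolynomial (Fin (n + 1)) ℂ →ₐ[ℂ] RatFunc K))
    (φ' := Ideal.Quotient.mkₐ ℂ P) (fun x hx => Ideal.Quotient.eq_zero_iff_mem.2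
      (hle (Ideal.mem_sup_left (cy_zero hp hy hx)))) hu (g := G)
    (Ideal.Quotient.eq_zero_iff_mem.2 hGP) (fun h0 => hGp (cy_zero hp hy h0))
  have h2 := card_le (trdeg_ratFunc (k := ℂ) (M := K) hy.sub.dim) h1
  rw [Fintype.card_option] at h2
  omega

/-- the polynomial curves lie in countably many proper closed subsets -/
theorem dimH_ratPts (hp : IsHomog p) (hy : FunField p Q K w y)
    (h : ∀ m : ℕ, ∃ G, IsForm G ∧ G ∉ p ∧ ∀ T, PolyCurve p Q T → (∀ j, (T j).natDegree ≤ m) →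
      ∀ z : ℂ, eval (fun j => (T j).eval z) G = 0) :
    dimH (ratPts p Q) ≤ ((2 * w : ℕ) : ℝ≥0∞) := by
  classical
  choose G hG hGp hGT using h
  have hsub : ratPts p Q ⊆ ⋃ m, {x : Fin (n + 1) → ℂ | ∀ H ∈ p ⊔ Ideal.span {G m}, eval x H = 0} := by
    rintro _ ⟨T, hT, u, rfl⟩
    have hT' : PolyCurve (p ⊔ Ideal.span {G (Finset.univ.sup fun j => (T j).natDegree)}) Q T :=
      hT.sup (hGT _ T hT fun j => Finset.le_sup (f := fun j => (T j).natDegree)
        (Finset.mem_univ j)) hp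
    have hhom := homog_sup hp (hG (Finset.univ.sup fun j => (T j).natDegree))
    refine Set.mem_iUnion.2 ⟨Finset.univ.sup fun j => (T j).natDegree, fun H hH => ?_⟩
    rw [← sum_homogeneousComponent H, map_sum]
    exact Finset.sum_eq_zero fun d _ => hT'.mem _ (hhom H hH d)
      ⟨d, homogeneousComponent_isHomogeneous d H⟩ u
  refine (dimH_mono hsub).trans ?_
  rw [dimH_iUnion]
  exact iSup_le fun m => dimH_section hp hy (hG m) (hGp m)

end cone

section points

variable {n : ℕ} {p : Ideal (MvPolynomial (Fin (n + 1)) ℂ)} {Q : MvPolynomial (Fin (n + 1)) ℂ}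
  {q : ℕ}

/-- the evaluation -/
noncomputable def evalPt (x : EC n × ℂ) : Fin (n + 1) → ℂ := x.1.1 x.2

theorem continuous_evalPt : Continuous (evalPt (n := n)) := by
  unfold evalPt
  fun_prop

theorem polyVals_evalPt : polyVals p Q (evalPt (n := n)) = ratPts p Q := by
  ext x
  constructor
  · rintro ⟨T, hT, u, rfl⟩
    exact ⟨T, hT, u, rfl⟩
  · rintro ⟨T, hT, u, rfl⟩
    exact ⟨T, hT, u, rfl⟩

/-- **Points on slow curves.** -/
theorem good_points (hp : IsHomog p) (hQ : Q.IsHomogeneous q) (μ : Measure (Fin (n + 1) → ℂ))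
    [SFinite μ] : ∃ N : Set (Fin (n + 1) → ℂ), μ N = 0 ∧ dimH N ≤ dimH (ratPts p Q) ∧
      Good p Q fun f => Differentiable ℂ f → ∀ z : ℂ, f z ∈ ratPts p Q ∪ N := by
  obtain ⟨N, h1, h2, h3⟩ := good_functional hp hQ (continuous_evalPt (n := n)) μ
  rw [polyVals_evalPt] at h2 h3
  refine ⟨N, h1, h2, ?_⟩
  obtain ⟨ε, hε, h⟩ := h3
  exact ⟨ε, hε, fun f hf hd z => h f hf hd.continuous hd z⟩

/-- The points on the entire curves in `X - D` of growth at most `Ψ`. -/
def slowPts (p : Ideal (MvPolynomial (Fin (n + 1)) ℂ)) (Q : MvPolynomial (Fin (n + 1)) ℂ)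
    (Ψ : ℝ → ℝ) : Set (Fin (n + 1) → ℂ) :=
  {x | ∃ f, Entire p Q f ∧ GrowthLe Ψ f ∧ ∃ z, f z = x}

theorem growthLe_poly {Ψ : ℝ → ℝ} (hΨ : SuperPoly Ψ) (T : Fin (n + 1) → Polynomial ℂ) :
    GrowthLe Ψ fun z j => (T j).eval z := by
  obtain ⟨R₀, h⟩ := slow_poly hΨ T
  exact ⟨1, R₀, fun z hz => by rw [one_mul]; exact h z hz⟩

theorem ratPts_subset {Ψ : ℝ → ℝ} (hΨ : SuperPoly Ψ) : ratPts p Q ⊆ slowPts p Q Ψ := by
  rintro _ ⟨T, hT, u, rfl⟩
  exact ⟨_, hT.entire, growthLe_poly hΨ T, u, rfl⟩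

end points

end Pool.Agent.Q64.LC
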