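import Pool.Agent.Q64.LC.Flt
import Pool.Agent.Q64.LC.Sec

/-!
Slow entire curves and rational functions which are constant along all families of polynomial
curves.
-/

set_option autoImplicit false

namespace Pool.Agent.Q64.LC

open MvPolynomial Filter Topology Pool.Agent.TH143.GT Pool.Agent.W602.GT
open Pool.Agent.W603.GR Pool.Agent.W603.PV Metric
open scoped NNReal ENNReal

variable {n : ℕ} {p : Ideal (MvPolynomial (Fin (n + 1)) ℂ)} {Q : MvPolynomial (Fin (n + 1)) ℂ}
  {q : ℕ}

/-- The quotient `g1 / g0` is not constant along `f`. -/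
def NCf (g1 g0 : MvPolynomial (Fin (n + 1)) ℂ) (f : ℂ → Fin (n + 1) → ℂ) : Prop :=
  ∃ s t : ℂ, eval (f s) g1 * eval (f t) g0 ≠ eval (f t) g1 * eval (f s) g0

/-- the same for polynomial curves -/
def NCT (g1 g0 : MvPolynomial (Fin (n + 1)) ℂ) (T : Fin (n + 1) → Polynomial ℂ) : Prop :=
  NCf g1 g0 fun z j => (T j).eval z

theorem nct_along {g1 g0 : MvPolynomial (Fin (n + 1)) ℂ} {T : Fin (n + 1) → Polynomial ℂ}
    (h : NCT g1 g0 T) : NCAlong g1 g0 T := by
  intro h1
  obtain ⟨s, t, h2⟩ := h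
  apply h2
  have h3 := poly_const h1 s t
  rw [ev_aeval, ev_aeval, ev_aeval, ev_aeval] at h3
  exact h3

theorem NCT.of_same {g1 g0 : MvPolynomial (Fin (n + 1)) ℂ} {d : ℕ} (h1 : g1.IsHomogeneous d)
    (h0 : g0.IsHomogeneous d) {T S : Fin (n + 1) → Polynomial ℂ} (hs : Same T S)
    (h : NCT g1 g0 T) : NCT g1 g0 S := by
  by_contra hno
  unfold NCT NCf at hno h
  push Not at hno
  obtain ⟨s, t, hst⟩ := h
  by_cases hz : ∀ t : ℂ, eval (fun j => (S j).eval t) g0 = 0
  · have h2 := (hs g0 ⟨d, h0⟩).2 hz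
    apply hst
    rw [h2 s, h2 t, mul_zero, mul_zero]
  · push Not at hz
    obtain ⟨t0, ht0⟩ := hz
    set α := eval (fun j => (S j).eval t0) g0 with hα
    set β := eval (fun j => (S j).eval t0) g1 with hβ
    have h2 : (C α * g1 - C β * g0).IsHomogeneous d := by
      have e1 := (isHomogeneous_C (Fin (n + 1)) α).mul h1
      have e2 := (isHomogeneous_C (Fin (n + 1)) β).mul h0
      rw [zero_add] at e1 e2
      exact e1.sub e2
    have h3 := (hs _ ⟨d, h2⟩).2 (fun z => by
      rw [map_sub, map_mul, map_mul, eval_C, eval_C, hα, hβ]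
      have := hno z t0
      rw [mul_comm (eval (fun j => (S j).eval t0) g0), this]
      ring)
    have h4 : ∀ z : ℂ, α * eval (fun j => (T j).eval z) g1 =
        β * eval (fun j => (T j).eval z) g0 := by
      intro z
      have := h3 z
      rw [map_sub, map_mul, map_mul, eval_C, eval_C, sub_eq_zero] at this
      exact this
    apply hst
    apply mul_left_cancel₀ ht0
    calc α * (eval (fun j => (T j).eval s) g1 * eval (fun j => (T j).eval t) g0)
        = (α * eval (fun j => (T j).eval s) g1) * eval (fun j => (T j).eval t) g0 := by ring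
      _ = (β * eval (fun j => (T j).eval s) g0) * eval (fun j => (T j).eval t) g0 := by rw [h4]
      _ = (β * eval (fun j => (T j).eval t) g0) * eval (fun j => (T j).eval s) g0 := by ring
      _ = (α * eval (fun j => (T j).eval t) g1) * eval (fun j => (T j).eval s) g0 := by rw [h4]
      _ = α * (eval (fun j => (T j).eval t) g1 * eval (fun j => (T j).eval s) g0) := by ring

/-- The polynomial curves of degree at most `m` with the property `R` have finitely many Zariski
closures. -/
def FinClR (p : Ideal (MvPolynomial (Fin (n + 1)) ℂ)) (Q : MvPolynomial (Fin (n + 1)) ℂ)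
    (m : ℕ) (R : (Fin (n + 1) → Polynomial ℂ) → Prop) : Prop :=
  ∃ (L : Type) (_ : Finite L) (cl : (Fin (n + 1) → Polynomial ℂ) → L), ∀ T T',
      PolyCurve p Q T → (∀ j, (T j).natDegree ≤ m) → R T → PolyCurve p Q T' →
      (∀ j, (T' j).natDegree ≤ m) → R T' → cl T = cl T' → Same T T'

/-- **Separation.** -/
theorem separate2 {m d : ℕ} {g1 g0 : MvPolynomial (Fin (n + 1)) ℂ} (h1 : g1.IsHomogeneous d)
    (h0 : g0.IsHomogeneous d) (hfin : FinClR p Q m (NCT g1 g0)) :
    ∃ ρ : ℝ, 0 < ρ ∧ ∀ T T', Lev p Q m T → Lev p Q m T' → NCT g1 g0 T →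
      (∀ j i, ‖(T j).coeff i - (T' j).coeff i‖ ≤ ρ) → NCT g1 g0 T' ∧ Same T T' := by
  classical
  obtain ⟨L, hL, cl, hcl⟩ := hfin
  by_contra hno
  push Not at hno
  have hk : ∀ k : ℕ, (0 : ℝ) < 1 / ((k : ℝ) + 1) := fun k => by positivity
  choose T T' hT hT' hR hd hne using fun k : ℕ => hno _ (hk k)
  let U : Ultrafilter ℕ := hyperfilter ℕ
  have hU : (U : Filter ℕ) ≤ atTop := Nat.hyperfilter_le_atTop
  obtain ⟨α, hα⟩ := (U.map fun k => cl (T k)).eq_pure_of_finite
  obtain ⟨β, hβ⟩ := (U.map fun k => cl (T' k)).eq_pure_of_finite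
  have hα' : ∀ᶠ k in (U : Filter ℕ), cl (T k) = α := by
    have h1 : ({α} : Set L) ∈ U.map fun k => cl (T k) := by
      rw [hα]
      exact Set.mem_singleton α
    exact h1
  have hβ' : ∀ᶠ k in (U : Filter ℕ), cl (T' k) = β := by
    have h1 : ({β} : Set L) ∈ U.map fun k => cl (T' k) := by
      rw [hβ]
      exact Set.mem_singleton β
    exact h1
  -- the limit
  let c : ℕ → Fin (m + 1) → Fin (n + 1) → ℂ := fun k i j => (T k j).coeff i
  let c' : ℕ → Fin (m + 1) → Fin (n + 1) → ℂ := fun k i j => (T' k j).coeff i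
  have hc : ∀ k, pf (c k) = T k := fun k => pf_coeffs (hT k).deg
  have hc' : ∀ k, pf (c' k) = T' k := fun k => pf_coeffs (hT' k).deg
  obtain ⟨b, hbK, hb⟩ := (isCompact_KK (p := p) (Q := Q) m).ultrafilter_le_nhds (U.map c) (by
      rw [le_principal_iff, Ultrafilter.mem_coe, Ultrafilter.mem_map]
      exact Filter.mem_of_superset Filter.univ_mem fun k _ => (hT k).mem_KK)
  have hb' : Tendsto c U (𝓝 b) := hb
  have hb'' : Tendsto c' U (𝓝 b) := by
    have h1 : Tendsto (fun k => c k - c' k) U (𝓝 0) := by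
      refine squeeze_zero_norm (a := fun k : ℕ => 1 / ((k : ℝ) + 1)) (fun k => ?_)
        (tendsto_one_div_add_atTop_nhds_zero_nat.mono_left hU)
      rw [pi_norm_le_iff_of_nonneg (by positivity)]
      intro i
      rw [pi_norm_le_iff_of_nonneg (by positivity)]
      intro j
      exact hd k j i
    have h2 := hb'.sub h1
    rw [sub_zero] at h2
    refine h2.congr fun k => ?_
    abel
  have hind := (KK_poly hbK).ind
  -- the limit has the same closure
  have key : ∀ (V : ℕ → Fin (n + 1) → Polynomial ℂ) (v : ℕ → Fin (m + 1) → Fin (n + 1) → ℂ)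
      (γ : L) (k0 : ℕ), (∀ k, Lev p Q m (V k)) → (∀ k, pf (v k) = V k) → Tendsto v U (𝓝 b) →
      (∀ᶠ k in (U : Filter ℕ), cl (V k) = γ ∧ NCT g1 g0 (V k)) → cl (V k0) = γ →
      NCT g1 g0 (V k0) → Same (V k0) (pf b) := by
    intro V v γ k0 hV hv hvb hγ hγ0 hN0
    refine same_of_le hind fun G hG hG0 z => ?_
    have h1 : Tendsto (fun k => eval (fun j => (pf (v k) j).eval z) G) U
        (𝓝 (eval (fun j => (pf b j).eval z) G)) :=
      ((continuous_pfeval z G).tendsto b).comp hvb
    have h2 : Tendsto (fun k => eval (fun j => (pf (v k) j).eval z) G) U (𝓝 0) := by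
      refine tendsto_const_nhds.congr' ?_
      filter_upwards [hγ] with k hk
      have h3 := (hcl (V k0) (V k) (hV k0).poly (hV k0).deg hN0 (hV k).poly (hV k).deg hk.2
        (hγ0.trans hk.1.symm) G hG).1 hG0 z
      rw [hv, h3]
    exact tendsto_nhds_unique h1 h2
  -- the quotient is not constant on the limit
  obtain ⟨k1, hk1⟩ := hα'.exists
  have e1 := key T c α k1 hT hc hb' (hα'.mono fun k hk => ⟨hk, hR k⟩) hk1 (hR k1)
  have hN : NCT g1 g0 (pf b) := (hR k1).of_same h1 h0 e1
  have hev : ∀ᶠ k in (U : Filter ℕ), NCT g1 g0 (T' k) := by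
    obtain ⟨s, t, hst⟩ := hN
    have h2 : ∀ (z : ℂ) (G : MvPolynomial (Fin (n + 1)) ℂ),
        Tendsto (fun k => eval (fun j => (T' k j).eval z) G) U
          (𝓝 (eval (fun j => (pf b j).eval z) G)) := by
      intro z G
      have h3 := ((continuous_pfeval z G).tendsto b).comp hb''
      refine h3.congr fun k => ?_
      simp only [Function.comp_apply, hc']
    have h3 := ((h2 s g1).mul (h2 t g0)).sub ((h2 t g1).mul (h2 s g0))
    have h4 := h3.eventually_ne (sub_ne_zero.2 hst)
    filter_upwards [h4] with k hk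
    exact ⟨s, t, sub_ne_zero.1 hk⟩
  obtain ⟨k0, hk0, hk0', hk0''⟩ := (hα'.and (hβ'.and hev)).exists
  have e2 := key T c α k0 hT hc hb' (hα'.mono fun k hk => ⟨hk, hR k⟩) hk0 (hR k0)
  have e3 := key T' c' β k0 hT' hc' hb'' (hβ'.and hev) hk0' hk0''
  exact hne k0 hk0'' (e2.trans e3.symm)

/-- **The dichotomy.** -/
theorem rigid2 {D d : ℕ} (hD : 1 ≤ D) (hQ : Q.IsHomogeneous q) (hqD : q ≤ D) (hcut : CutBy D p)
    {g1 g0 : MvPolynomial (Fin (n + 1)) ℂ} (h1 : g1.IsHomogeneous d) (h0 : g0.IsHomogeneous d)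
    (hfin : ∀ m, FinClR p Q m (NCT g1 g0)) :
    Good p Q fun f => InPoly p Q f ∨ ¬ NCf g1 g0 f := by
  classical
  choose ρ hρ hsep using fun m => separate2 h1 h0 (hfin m)
  obtain ⟨ε, hε, hmain⟩ := master hD hQ hqD hcut
    (η := fun m => min (min (ρ m / 4) (ρ (m + 1) / 4)) (1 / ((m : ℝ) + 1))) (fun m => by
      refine lt_min (lt_min ?_ ?_) (by positivity)
      · have := hρ m
        positivity
      · have := hρ (m + 1)
        positivity) (M := fun m => (m : ℝ)) (fun m => Nat.cast_nonneg m)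
  refine ⟨fun i => min (ε i) (ρ i / 4), fun i => lt_min (hε i) (by have := hρ i; positivity),
    fun f hsm => ?_⟩
  obtain ⟨a, hf, hnc, L, hL⟩ := hsm
  obtain ⟨m0, hm0⟩ := hmain a f hf hnc ⟨L, fun i hi => (hL i hi).trans (min_le_left _ _)⟩
  choose! T hT hTc hTd using hm0
  let M := max m0 L
  have hclose : ∀ m, M ≤ m → ∀ j i, ‖(T m j).coeff i - (T (m + 1) j).coeff i‖ ≤ ρ (m + 1) := by
    intro m hm j i
    have hm1 : m0 ≤ m := (le_max_left _ _).trans hm
    have hmL : L ≤ m := (le_max_right _ _).trans hm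
    have hρ1 := hρ (m + 1)
    have g1 : min (min (ρ m / 4) (ρ (m + 1) / 4)) (1 / ((m : ℝ) + 1)) ≤ ρ (m + 1) / 4 :=
      (min_le_left _ _).trans (min_le_right _ _)
    have g2 : min (min (ρ (m + 1) / 4) (ρ (m + 1 + 1) / 4)) (1 / (((m + 1 : ℕ) : ℝ) + 1)) ≤
        ρ (m + 1) / 4 :=
      (min_le_left _ _).trans (min_le_left _ _)
    rcases le_or_gt i m with hi | hi
    · have h1 := (hTc m hm1 j i hi).trans g1
      have h2 := (hTc (m + 1) (by omega) j i (by omega)).trans g2
      have h3 : (T m j).coeff i - (T (m + 1) j).coeff i =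
          ((T m j).coeff i - a i j) - ((T (m + 1) j).coeff i - a i j) := by ring
      rw [h3]
      refine (norm_sub_le _ _).trans ?_
      linarith
    · have h1 : (T m j).coeff i = 0 :=
        Polynomial.coeff_eq_zero_of_natDegree_lt (by have := (hT m hm1).deg j; omega)
      rw [h1, zero_sub, norm_neg]
      rcases le_or_gt i (m + 1) with hi' | hi'
      · have h2 := (hTc (m + 1) (by omega) j i hi').trans g2
        have h3 : ‖a i j‖ ≤ ρ i / 4 :=
          (norm_le_pi_norm (a i) j).trans ((hL i (by omega)).trans (min_le_right _ _))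
        have h4 : i = m + 1 := by omega
        rw [h4] at h2 h3 ⊢
        have h5 : (T (m + 1) j).coeff (m + 1) =
            ((T (m + 1) j).coeff (m + 1) - a (m + 1) j) + a (m + 1) j := by ring
        rw [h5]
        refine (norm_add_le _ _).trans ?_
        linarith
      · rw [Polynomial.coeff_eq_zero_of_natDegree_lt
          (by have := (hT (m + 1) (by omega)).deg j; omega), norm_zero]
        exact hρ1.le
  have hlim : ∀ (M' : ℕ), M ≤ M' → ∀ z, Tendsto (fun k : ℕ =>
      (fun j => (T (M' + k) j).eval z : Fin (n + 1) → ℂ)) atTop (𝓝 (f z)) := by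
    intro M' hM' z
    have hm0M : m0 ≤ M := le_max_left _ _
    rw [tendsto_iff_dist_tendsto_zero]
    obtain ⟨m1, hm1⟩ := exists_nat_ge ‖z‖
    refine squeeze_zero' (Eventually.of_forall fun _ => dist_nonneg) ?_
      (tendsto_one_div_add_atTop_nhds_zero_nat (𝕜 := ℝ))
    filter_upwards [eventually_ge_atTop m1] with k hk
    rw [dist_comm]
    have h2 : (k : ℝ) ≤ ((M' + k : ℕ) : ℝ) := by exact_mod_cast Nat.le_add_left _ _
    have h3 : (m1 : ℝ) ≤ k := by exact_mod_cast hk
    refine (hTd (M' + k) (by omega) z (hm1.trans (h3.trans h2))).trans ((min_le_right _ _).trans ?_)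
    refine one_div_le_one_div_of_le (by positivity) ?_
    linarith
  by_cases hex : ∃ m, M ≤ m ∧ NCT g1 g0 (T m)
  · left
    obtain ⟨M', hM', hN⟩ := hex
    have hsame : ∀ k, NCT g1 g0 (T (M' + k)) ∧ Same (T M') (T (M' + k)) := by
      intro k
      induction k with
      | zero => exact ⟨hN, Same.refl _⟩
      | succ k ih =>
        have hm1 : m0 ≤ M' + k := by
          have : m0 ≤ M := le_max_left _ _
          omega
        have h2 := hsep (M' + k + 1) _ _ (hT (M' + k) hm1).succ (hT (M' + k + 1) (by omega)) ih.1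
          (hclose (M' + k) (by omega))
        exact ⟨h2.1, ih.2.trans h2.2⟩
    refine ⟨T M', (hT M' ((le_max_left _ _).trans hM')).poly, fun G hG hG0 z => ?_⟩
    have h2 : Tendsto (fun k : ℕ => eval (fun j => (T (M' + k) j).eval z) G) atTop
        (𝓝 (eval (f z) G)) :=
      ((MvPolynomial.continuous_eval G).tendsto (f z)).comp (hlim M' hM' z)
    have h3 : ∀ k : ℕ, eval (fun j => (T (M' + k) j).eval z) G = 0 := fun k =>
      ((hsame k).2 G hG).1 hG0 z
    simp only [h3] at h2
    exact tendsto_nhds_unique h2 tendsto_const_nhds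
  · right
    push Not at hex
    rintro ⟨s, t, hst⟩
    apply hst
    have h2 : ∀ (z : ℂ) (G : MvPolynomial (Fin (n + 1)) ℂ),
        Tendsto (fun k : ℕ => eval (fun j => (T (M + k) j).eval z) G) atTop (𝓝 (eval (f z) G)) :=
      fun z G => ((MvPolynomial.continuous_eval G).tendsto (f z)).comp (hlim M le_rfl z)
    have h3 := (h2 s g1).mul (h2 t g0)
    have h4 := (h2 t g1).mul (h2 s g0)
    have h5 : ∀ k : ℕ, eval (fun j => (T (M + k) j).eval s) g1 *
        eval (fun j => (T (M + k) j).eval t) g0 = eval (fun j => (T (M + k) j).eval t) g1 *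
        eval (fun j => (T (M + k) j).eval s) g0 := by
      intro k
      by_contra h6
      exact hex (M + k) (by omega) ⟨s, t, h6⟩
    simp only [h5] at h3
    exact tendsto_nhds_unique h3 h4

/-- **Surfaces.** -/
theorem good_surface (hp : IsHomog p) (hQ : Q.IsHomogeneous q) {K : Type} [Field K] [Algebra ℂ K]
    {y : Fin (n + 1) → K} (hy : FunField p Q K 2 y) {d : ℕ} {g1 g0 : MvPolynomial (Fin (n + 1)) ℂ}
    (h1 : g1.IsHomogeneous d) (h0 : g0.IsHomogeneous d) (hg0 : g0 ∉ p)
    (hr : PolyFlat Q y (W602.GT.val y g1 / W602.GT.val y g0)) :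
    Good p Q fun f => InPoly p Q f ∨ ¬ NCf g1 g0 f := by
  obtain ⟨D0, hD0⟩ := exists_cut hp
  refine rigid2 (D := max 1 (max q D0)) (le_max_left _ _) hQ
    ((le_max_left _ _).trans (le_max_right _ _))
    (hD0 _ ((le_max_right _ _).trans (le_max_right _ _))) h1 h0 fun m => ?_
  obtain ⟨G, hG, hGp, hGT⟩ := flat_main hy h1 h0 hg0 hr m
  exact finite_classes hy (NCT g1 g0) hG hGp fun T hT hd hN => hGT T hT hd (nct_along hN)

/-- **Almost all points.** The points on the slow curves along which a flat function is not constant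
form a set of small Hausdorff dimension. -/
theorem good_flat (hp : IsHomog p) (hQ : Q.IsHomogeneous q) {K : Type} [Field K] [Algebra ℂ K]
    {w : ℕ} {y : Fin (n + 1) → K} (hy : FunField p Q K w y) {d : ℕ}
    {g1 g0 : MvPolynomial (Fin (n + 1)) ℂ}
    (h1 : g1.IsHomogeneous d) (h0 : g0.IsHomogeneous d) (hg0 : g0 ∉ p)
    (hr : PolyFlat Q y (W602.GT.val y g1 / W602.GT.val y g0)) :
    ∃ N : Set (Fin (n + 1) → ℂ), dimH N ≤ ((2 * w : ℕ) : ℝ≥0∞) ∧
      Good p Q fun f => NCf g1 g0 f → ∀ z : ℂ, f z ∈ N := by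
  classical
  obtain ⟨D0, hD0⟩ := exists_cut hp
  choose G hG hGp hGT using flat_main hy h1 h0 hg0 hr
  let B : ∀ m : ℕ, Set (Fin (m + 1) → Fin (n + 1) → ℂ) := fun m =>
    KK p Q m ∩ {c | ∀ z : ℂ, eval (fun j => (pf c j).eval z) (G m) = 0}
  have hBc : ∀ m, IsCompact (B m) := by
    intro m
    refine (isCompact_KK m).inter_right ?_
    simp only [Set.ofPred_forall]
    exact isClosed_iInter fun z => isClosed_eq (continuous_pfeval z (G m)) continuous_const
  let R : ℕ → Set (Fin (n + 1) → ℂ) := fun m =>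
    evalPt '' (((fun c => polyEC (pf c)) '' B m) ×ˢ closedBall (0 : ℂ) m)
  have hR : ∀ m, IsCompact (R m) := fun m =>
    (((hBc m).image (continuous_polyEC m)).prod (isCompact_closedBall _ _)).image
      continuous_evalPt
  obtain ⟨η, hη, hdim⟩ := exists_thick_dim R hR
  have hsub : ⋃ m, R m ⊆ ⋃ m, {x : Fin (n + 1) → ℂ | ∀ H ∈ p ⊔ Ideal.span {G m}, eval x H = 0} := by
    refine Set.iUnion_mono fun m => ?_
    rintro _ ⟨⟨_, z⟩, ⟨⟨c, ⟨hc, hc'⟩, rfl⟩, -⟩, rfl⟩ H hH
    have hT' := (KK_poly hc).sup hc' hp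
    have hhom := homog_sup hp (hG m)
    rw [← sum_homogeneousComponent H, map_sum]
    exact Finset.sum_eq_zero fun d _ => hT'.mem _ (hhom H hH d)
      ⟨d, homogeneousComponent_isHomogeneous d H⟩ z
  obtain ⟨ε, hε, hmain⟩ := master (D := max 1 (max q D0)) (le_max_left _ _) hQ
    ((le_max_left _ _).trans (le_max_right _ _))
    (hD0 _ ((le_max_right _ _).trans (le_max_right _ _)))
    (η := fun m => min (η m / 2) (1 / ((m : ℝ) + 1))) (fun m => lt_min (half_pos (hη m))
      (by positivity)) (M := fun m => (m : ℝ)) (fun m => Nat.cast_nonneg m)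
  refine ⟨limsup (fun m => thickening (η m) (R m)) atTop, ?_, ε, hε, fun f hsm hN z => ?_⟩
  · refine (hdim.trans (dimH_mono hsub)).trans ?_
    rw [dimH_iUnion]
    exact iSup_le fun m => dimH_section hp hy (hG m) (hGp m)
  · obtain ⟨a, hf, hnc, hL⟩ := hsm
    obtain ⟨m0, hm0⟩ := hmain a f hf hnc hL
    choose! T hT hTc hTd using hm0
    have hlim : ∀ z, Tendsto (fun k : ℕ => (fun j => (T k j).eval z : Fin (n + 1) → ℂ)) atTop
        (𝓝 (f z)) := by
      intro z
      rw [tendsto_iff_dist_tendsto_zero]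
      obtain ⟨m1, hm1⟩ := exists_nat_ge ‖z‖
      refine squeeze_zero' (Eventually.of_forall fun _ => dist_nonneg) ?_
        (tendsto_one_div_add_atTop_nhds_zero_nat (𝕜 := ℝ))
      filter_upwards [eventually_ge_atTop (max m0 m1)] with k hk
      rw [dist_comm]
      have h3 : (m1 : ℝ) ≤ k := by exact_mod_cast (le_max_right m0 m1).trans hk
      exact (hTd k ((le_max_left _ _).trans hk) z (hm1.trans h3)).trans (min_le_right _ _)
    have hev : ∀ᶠ k : ℕ in atTop, NCT g1 g0 (T k) := by
      obtain ⟨s, t, hst⟩ := hN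
      have h2 : ∀ (z : ℂ) (G : MvPolynomial (Fin (n + 1)) ℂ),
          Tendsto (fun k : ℕ => eval (fun j => (T k j).eval z) G) atTop (𝓝 (eval (f z) G)) :=
        fun z G => ((MvPolynomial.continuous_eval G).tendsto (f z)).comp (hlim z)
      have h3 := ((h2 s g1).mul (h2 t g0)).sub ((h2 t g1).mul (h2 s g0))
      have h4 := h3.eventually_ne (sub_ne_zero.2 hst)
      filter_upwards [h4] with k hk
      exact ⟨s, t, sub_ne_zero.1 hk⟩
    rw [mem_limsup_iff_frequently_mem]
    apply Eventually.frequently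
    obtain ⟨m1, hm1⟩ := exists_nat_ge ‖z‖
    filter_upwards [hev, eventually_ge_atTop (max m0 m1)] with m hN' hm
    have hm0' : m0 ≤ m := (le_max_left _ _).trans hm
    have hz : ‖z‖ ≤ m := hm1.trans (by exact_mod_cast (le_max_right m0 m1).trans hm)
    have hTm := hT m hm0'
    rw [mem_thickening_iff]
    refine ⟨fun j => (T m j).eval z, ⟨(polyEC (T m), z), ⟨⟨_, ⟨hTm.mem_KK, ?_⟩, ?_⟩, ?_⟩, rfl⟩, ?_⟩
    · change ∀ z : ℂ, _
      rw [pf_coeffs hTm.deg]
      exact hGT m (T m) hTm.poly hTm.deg (nct_along hN')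
    · simp only
      rw [pf_coeffs hTm.deg]
    · rwa [mem_closedBall_zero_iff]
    · exact ((hTd m hm0' z hz).trans (min_le_left _ _)).trans_lt (half_lt_self (hη m))

end Pool.Agent.Q64.LC
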