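import Pool.Agent.Q64.LC.Uma

/-!
Zariski-dense entire curves of slow growth and special varieties.
-/

set_option autoImplicit false

namespace Pool.Agent.Q64.LC

open MvPolynomial Filter Topology Pool.Agent.TH143.GT Pool.Agent.W602.GT Pool.Agent.W603.GR
  Pool.Agent.W603.PV
open MeasureTheory FF
open scoped NNReal ENNReal

variable {n : ℕ} {p : Ideal (MvPolynomial (Fin (n + 1)) ℂ)} {Q : MvPolynomial (Fin (n + 1)) ℂ}
  {q : ℕ}

/-- a dense polynomial curve exists in dimension at most one only -/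
theorem dense_dim {K : Type} [Field K] [Algebra ℂ K] {w : ℕ} {y : Fin (n + 1) → K}
    (hy : FunField p Q K w y) {T : Fin (n + 1) → Polynomial ℂ} (hT : PolyCurve p Q T)
    (hd : ∀ G : MvPolynomial (Fin (n + 1)) ℂ, IsForm G →
      (∀ z : ℂ, eval (fun j => (T j).eval z) G = 0) → G ∈ p) : w ≤ 1 := by
  obtain ⟨c, hc, hQc⟩ := hT.off
  have hF : Fam y Q T 0 := by
    refine ⟨fun G hG => ⟨fun h0 => ?_, fun h0 => ?_⟩, c, hc, ?_⟩
    · apply Polynomial.funext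
      intro z
      rw [ev_aeval, Polynomial.eval_zero]
      exact hT.mem G (hy.mem G hG h0) hG z
    · refine hy.sub.mem G (hd G hG fun z => ?_)
      rw [← ev_aeval, h0, Polynomial.eval_zero]
    · rw [pow_zero, mul_one]
      apply Polynomial.funext
      intro z
      rw [ev_aeval, Polynomial.eval_C, hQc]
  obtain ⟨φ, -⟩ := Fam.emb hy.sub.ne hy.sub.gen hF
  have h1 := _root_.trdeg_le_of_injective φ φ.toRingHom.injective
  rw [hy.sub.dim, trdeg_rf] at h1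
  exact_mod_cast h1

/-- a transcendental function is not constant along a dense curve -/
theorem ncf_of_dense {K : Type} [Field K] [Algebra ℂ K] {w : ℕ} {y : Fin (n + 1) → K}
    (hy : FunField p Q K w y) {f : ℂ → Fin (n + 1) → ℂ} (hd : ZDense p f Set.univ) {d : ℕ}
    {g1 g0 : MvPolynomial (Fin (n + 1)) ℂ} (h1 : g1.IsHomogeneous d) (h0 : g0.IsHomogeneous d)
    (hg0 : g0 ∉ p) (hr : ∀ c : ℂ, W602.GT.val y g1 / W602.GT.val y g0 ≠ algebraMap ℂ K c) :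
    NCf g1 g0 f := by
  by_contra hno
  unfold NCf at hno
  push Not at hno
  obtain ⟨t, ht⟩ : ∃ t, eval (f t) g0 ≠ 0 := by
    by_contra h2
    push Not at h2
    exact hg0 (hd g0 ⟨d, h0⟩ fun z _ => h2 z)
  set α := eval (f t) g0 with hα
  set β := eval (f t) g1 with hβ
  have h2 : (C α * g1 - C β * g0).IsHomogeneous d := by
    have e1 := (isHomogeneous_C (Fin (n + 1)) α).mul h1
    have e2 := (isHomogeneous_C (Fin (n + 1)) β).mul h0
    rw [zero_add] at e1 e2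
    exact e1.sub e2
  have h3 := hy.sub.mem _ (hd _ ⟨d, h2⟩ fun z _ => by
    rw [map_sub, map_mul, map_mul, eval_C, eval_C]
    have := hno z t
    linear_combination this)
  have hv0 : W602.GT.val y g0 ≠ 0 := fun h4 => hg0 (hy.mem g0 ⟨d, h0⟩ h4)
  apply hr (β / α)
  have h4 : algebraMap ℂ K α * W602.GT.val y g1 = algebraMap ℂ K β * W602.GT.val y g0 := by
    have h5 : W602.GT.val y (C α * g1 - C β * g0) =
        algebraMap ℂ K α * W602.GT.val y g1 - algebraMap ℂ K β * W602.GT.val y g0 := by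
      unfold W602.GT.val
      rw [map_sub, map_mul, map_mul, aeval_C, aeval_C]
    rw [h5] at h3
    exact sub_eq_zero.1 h3
  have hα' : algebraMap ℂ K α ≠ 0 := by
    rw [Ne, map_eq_zero_iff _ (algebraMap ℂ K).injective]
    exact ht
  rw [map_div₀, div_eq_div_iff hv0 hα', mul_comm, h4]

/-- `r` is a quotient of two sections of a power of a sheaf of logarithmic forms of rank one. -/
def SheafQuot (K : Type) [Field K] [Algebra ℂ K] (w : ℕ) (Bd : Place ℂ K → Prop) (r : K) : Prop :=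
  ∃ (e : ℕ) (θ : AlternatingMap K (Derivation ℂ K K) K (Fin e)), θ ≠ 0 ∧ ∃ N : ℕ, 0 < N ∧
    ∃ a b : K, b ≠ 0 ∧ r = a / b ∧
      (∀ P : Place ℂ K, Divisorial w P → ∀ D : Fin e → Derivation ℂ K K, (∀ i, DerLog P (D i)) →
        P.Reg (a * θ D ^ N) ∧ P.Reg (b * θ D ^ N)) ∧
      (∀ P : Place ℂ K, Divisorial w P → ¬ Bd P → ∀ D : Fin e → Derivation ℂ K K,
        (∀ i, DerReg P (D i)) → P.Reg (a * θ D ^ N) ∧ P.Reg (b * θ D ^ N))

theorem SheafQuot.polyFlat {K : Type} [Field K] [Algebra ℂ K] {w : ℕ} {y : Fin (n + 1) → K}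
    (hy : FunField p Q K w y) (hQ : Q.IsHomogeneous q) {r : K}
    (h : SheafQuot K w (OffQ Q q y) r) : PolyFlat Q y r := by
  obtain ⟨e, θ, hθ, N, hN, a, b, hb, rfl, hlog, hreg⟩ := h
  exact polyFlat_bog hy hQ θ hθ hN (J := Bool) (fun j => if j then a else b)
    (fun v hv D hD j => by
      cases j
      · simpa using (hlog v hv D hD).2
      · simpa using (hlog v hv D hD).1)
    (fun v hv hB D hD j => by
      cases j
      · simpa using (hreg v hv hB D hD).2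
      · simpa using (hreg v hv hB D hD).1) false true

/-- a variety which is not special has a nonconstant function of this type -/
theorem exists_quot {K : Type} [Field K] [Algebra ℂ K] {w : ℕ} {Bd : Place ℂ K → Prop}
    (h : ¬ Special ℂ K w Bd) : ∃ r : K, SheafQuot K w Bd r ∧ ∀ c : ℂ, r ≠ algebraMap ℂ K c := by
  unfold Special at h
  push Not at h
  obtain ⟨e, he, θ, hθ, N, hN, f, hlog, hreg, hf0, hind⟩ := h
  refine ⟨f (Fin.succ ⟨0, he⟩) / f 0, ⟨e, θ, hθ, N, hN, f (Fin.succ ⟨0, he⟩), f 0, hf0, rfl,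
    fun P hP D hD => ⟨hlog P hP D hD _, hlog P hP D hD _⟩,
    fun P hP hB D hD => ⟨hreg P hP hB D hD _, hreg P hP hB D hD _⟩⟩, fun c hc => ?_⟩
  have h1 := hind.transcendental ⟨0, he⟩
  rw [hc] at h1
  exact h1 (isAlgebraic_algebraMap c)

/-- The points on the Zariski-dense entire curves in `X - D` of growth at most `Ψ`. -/
def denseSlowPts (p : Ideal (MvPolynomial (Fin (n + 1)) ℂ)) (Q : MvPolynomial (Fin (n + 1)) ℂ)
    (Ψ : ℝ → ℝ) : Set (Fin (n + 1) → ℂ) :=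
  {x | ∃ f, Entire p Q f ∧ GrowthLe Ψ f ∧ ZDense p f Set.univ ∧ ∃ z, f z = x}

/-- The points on the entire curves in `X - D` of growth at most `Ψ` along which `g1 / g0` is not
constant. -/
def ncSlowPts (p : Ideal (MvPolynomial (Fin (n + 1)) ℂ)) (Q : MvPolynomial (Fin (n + 1)) ℂ)
    (Ψ : ℝ → ℝ) (g1 g0 : MvPolynomial (Fin (n + 1)) ℂ) : Set (Fin (n + 1) → ℂ) :=
  {x | ∃ f, Entire p Q f ∧ GrowthLe Ψ f ∧ NCf g1 g0 f ∧ ∃ z, f z = x}

/-- the condition for one function -/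
def QuotData (p : Ideal (MvPolynomial (Fin (n + 1)) ℂ)) (Q : MvPolynomial (Fin (n + 1)) ℂ)
    (w : ℕ) (g1 g0 : MvPolynomial (Fin (n + 1)) ℂ) : Prop :=
  IsHomog p ∧ ∃ (q d : ℕ) (K : Type) (_ : Field K) (_ : Algebra ℂ K) (y : Fin (n + 1) → K),
    Q.IsHomogeneous q ∧ g1.IsHomogeneous d ∧ g0.IsHomogeneous d ∧ g0 ∉ p ∧ FunField p Q K w y ∧
    SheafQuot K w (OffQ Q q y) (W602.GT.val y g1 / W602.GT.val y g0)

theorem good_quot {w : ℕ} {g1 g0 : MvPolynomial (Fin (n + 1)) ℂ} (h : QuotData p Q w g1 g0) :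
    ∃ N : Set (Fin (n + 1) → ℂ), dimH N ≤ ((2 * w : ℕ) : ℝ≥0∞) ∧
      Good p Q fun f => NCf g1 g0 f → (∀ z : ℂ, f z ∈ N) ∧ (w = 2 → InPoly p Q f) := by
  obtain ⟨hp, q, d, K, i1, i2, y, hQ, h1, h0, hg0, hy, hr⟩ := h
  obtain ⟨N, hN, hG⟩ := good_flat hp hQ hy h1 h0 hg0 (hr.polyFlat hy hQ)
  refine ⟨N, hN, ?_⟩
  by_cases hw : w = 2
  · subst hw
    have hG' := good_surface hp hQ hy h1 h0 hg0 (hr.polyFlat hy hQ)
    exact (hG.and hG').mono fun f hf hnc => ⟨hf.1 hnc, fun _ => hf.2.resolve_right (not_not.2 hnc)⟩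
  · exact hG.mono fun f hf hnc => ⟨hf hnc, fun h => absurd h hw⟩

/-- **The universal growth function and special varieties.** -/
theorem uni_special (k : Subfield ℂ) [Countable k] :
    ∃ Ψ : ℝ → ℝ, SuperPoly Ψ ∧ ∀ (n : ℕ) (p : Ideal (MvPolynomial (Fin (n + 1)) ℂ))
      (Q : MvPolynomial (Fin (n + 1)) ℂ) (q : ℕ), IsHomog p → Q.IsHomogeneous q →
      OverK k p → CoeffK k Q →
      ∀ (w : ℕ) (K : Type) [Field K] [Algebra ℂ K] (y : Fin (n + 1) → K), FunField p Q K w y →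
        (¬ Special ℂ K w (OffQ Q q y) → dimH (denseSlowPts p Q Ψ) ≤ ((2 * w : ℕ) : ℝ≥0∞) ∧
          (w = 2 → ∀ f, Entire p Q f → GrowthLe Ψ f → ¬ ZDense p f Set.univ)) ∧
        (∀ (d : ℕ) (g1 g0 : MvPolynomial (Fin (n + 1)) ℂ), g1.IsHomogeneous d →
          g0.IsHomogeneous d → CoeffK k g1 → CoeffK k g0 → g0 ∉ p →
          SheafQuot K w (OffQ Q q y) (W602.GT.val y g1 / W602.GT.val y g0) →
          dimH (ncSlowPts p Q Ψ g1 g0) ≤ ((2 * w : ℕ) : ℝ≥0∞) ∧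
          (w = 2 → ∀ f, Entire p Q f → GrowthLe Ψ f → NCf g1 g0 f → InPoly p Q f)) ∧
        (NonNeg Q q w y → dimH (slowPts p Q Ψ) ≤ ((2 * w : ℕ) : ℝ≥0∞) ∧
          (w = 2 → ∀ f, Entire p Q f → GrowthLe Ψ f → InPoly p Q f)) := by
  classical
  -- the enumeration of the pairs of forms over `k`
  have henum : ∀ n : ℕ, ∃ e : ℕ → MvPolynomial (Fin (n + 1)) k × MvPolynomial (Fin (n + 1)) k,
      Function.Surjective e := fun n => exists_surjective_nat _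
  choose e he using henum
  let G1 : ∀ n : ℕ, ℕ → MvPolynomial (Fin (n + 1)) ℂ := fun n i =>
    MvPolynomial.map k.subtype (e n i).1
  let G0 : ∀ n : ℕ, ℕ → MvPolynomial (Fin (n + 1)) ℂ := fun n i =>
    MvPolynomial.map k.subtype (e n i).2
  -- the exceptional sets
  have hN : ∀ (n : ℕ) (p : Ideal (MvPolynomial (Fin (n + 1)) ℂ))
      (Q : MvPolynomial (Fin (n + 1)) ℂ) (w : ℕ) (g1 g0 : MvPolynomial (Fin (n + 1)) ℂ),
      ∃ N : Set (Fin (n + 1) → ℂ), dimH N ≤ ((2 * w : ℕ) : ℝ≥0∞) ∧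
        (QuotData p Q w g1 g0 → Good p Q fun f => NCf g1 g0 f →
          (∀ z : ℂ, f z ∈ N) ∧ (w = 2 → InPoly p Q f)) := by
    intro n p Q w g1 g0
    by_cases h : QuotData p Q w g1 g0
    · obtain ⟨N, h1, h2⟩ := good_quot h
      exact ⟨N, h1, fun _ => h2⟩
    · refine ⟨∅, by rw [dimH_empty]; exact zero_le, fun h1 => absurd h1 h⟩
  choose N hN1 hN2 using hN
  -- varieties which are not special
  have hS : ∀ (n : ℕ) (p : Ideal (MvPolynomial (Fin (n + 1)) ℂ))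
      (Q : MvPolynomial (Fin (n + 1)) ℂ) (w : ℕ), ∃ M : Set (Fin (n + 1) → ℂ),
      dimH M ≤ ((2 * w : ℕ) : ℝ≥0∞) ∧
        ((IsHomog p ∧ ∃ (q : ℕ) (K : Type) (_ : Field K) (_ : Algebra ℂ K) (y : Fin (n + 1) → K),
          Q.IsHomogeneous q ∧ FunField p Q K w y ∧ ¬ Special ℂ K w (OffQ Q q y)) →
        Good p Q fun f => ZDense p f Set.univ → (∀ z : ℂ, f z ∈ M) ∧ w ≠ 2) := by
    intro n p Q w
    by_cases h : IsHomog p ∧ ∃ (q : ℕ) (K : Type) (_ : Field K) (_ : Algebra ℂ K)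
        (y : Fin (n + 1) → K), Q.IsHomogeneous q ∧ FunField p Q K w y ∧
          ¬ Special ℂ K w (OffQ Q q y)
    · obtain ⟨hp, q, K, i1, i2, y, hQ, hy, hns⟩ := h
      obtain ⟨r, hr, hrc⟩ := exists_quot hns
      obtain ⟨d, g1, g0, h1, h0, hv0, rfl⟩ := exists_frac hy.sub.gen r
      have hg0 : g0 ∉ p := fun h2 => hv0 (hy.sub.mem g0 h2)
      obtain ⟨M, hM, hG⟩ := good_quot ⟨hp, q, d, K, i1, i2, y, hQ, h1, h0, hg0, hy, hr⟩
      refine ⟨M, hM, fun _ => hG.mono fun f hf hd => ?_⟩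
      have h2 := hf (ncf_of_dense hy hd h1 h0 hg0 hrc)
      refine ⟨h2.1, fun hw => ?_⟩
      obtain ⟨T, hT, hTG⟩ := h2.2 hw
      have h3 := dense_dim hy hT fun G hG hG0 => hd G hG fun z _ => hTG G hG hG0 z
      omega
    · exact ⟨∅, by rw [dimH_empty]; exact zero_le, fun h1 => absurd h1 h⟩
  choose M hM1 hM2 using hS
  -- varieties with forms
  have hF : ∀ (n : ℕ) (p : Ideal (MvPolynomial (Fin (n + 1)) ℂ))
      (Q : MvPolynomial (Fin (n + 1)) ℂ) (w : ℕ), ∃ M : Set (Fin (n + 1) → ℂ),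
      dimH M ≤ ((2 * w : ℕ) : ℝ≥0∞) ∧
        ((IsHomog p ∧ ∃ (q : ℕ) (K : Type) (_ : Field K) (_ : Algebra ℂ K) (y : Fin (n + 1) → K),
          Q.IsHomogeneous q ∧ FunField p Q K w y ∧ NonNeg Q q w y) →
        Good p Q fun f => Differentiable ℂ f → (∀ z : ℂ, f z ∈ M) ∧ (w = 2 → InPoly p Q f)) := by
    intro n p Q w
    by_cases h : IsHomog p ∧ ∃ (q : ℕ) (K : Type) (_ : Field K) (_ : Algebra ℂ K)
        (y : Fin (n + 1) → K), Q.IsHomogeneous q ∧ FunField p Q K w y ∧ NonNeg Q q w y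
    · obtain ⟨hp, q, K, i1, i2, y, hQ, hy, hnn⟩ := h
      obtain ⟨M, -, hM, hG⟩ := good_points hp hQ 0
      have hR := dimH_ratPts hp hy (hnn.exists_form hy hQ)
      refine ⟨ratPts p Q ∪ M, ?_, fun _ => ?_⟩
      · rw [dimH_union]
        exact max_le hR (hM.trans hR)
      · by_cases hw : w = 2
        · subst hw
          exact (hG.and (good_inPoly hp hQ fun m => hnn.finCl hy hQ m)).mono
            fun f hf hd => ⟨hf.1 hd, fun _ => hf.2⟩
        · exact hG.mono fun f hf hd => ⟨hf hd, fun h => absurd h hw⟩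
    · exact ⟨∅, by rw [dimH_empty]; exact zero_le, fun h1 => absurd h1 h⟩
  choose F hF1 hF2 using hF
  obtain ⟨Ψ, h1, h2⟩ := universal k (ι := ℕ × ℕ)
    (fun i n p Q f => (QuotData p Q i.1 (G1 n i.2) (G0 n i.2) → NCf (G1 n i.2) (G0 n i.2) f →
        (∀ z : ℂ, f z ∈ N n p Q i.1 (G1 n i.2) (G0 n i.2)) ∧ (i.1 = 2 → InPoly p Q f)) ∧
      (((IsHomog p ∧ ∃ (q : ℕ) (K : Type) (_ : Field K) (_ : Algebra ℂ K) (y : Fin (n + 1) → K),
          Q.IsHomogeneous q ∧ FunField p Q K i.1 y ∧ ¬ Special ℂ K i.1 (OffQ Q q y)) →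
          ZDense p f Set.univ → (∀ z : ℂ, f z ∈ M n p Q i.1) ∧ i.1 ≠ 2) ∧
      ((IsHomog p ∧ ∃ (q : ℕ) (K : Type) (_ : Field K) (_ : Algebra ℂ K) (y : Fin (n + 1) → K),
          Q.IsHomogeneous q ∧ FunField p Q K i.1 y ∧ NonNeg Q q i.1 y) →
          Differentiable ℂ f → (∀ z : ℂ, f z ∈ F n p Q i.1) ∧ (i.1 = 2 → InPoly p Q f))))
    (by
      intro i n p Q _ _
      refine Good.and ?_ (Good.and ?_ ?_)
      · by_cases h : QuotData p Q i.1 (G1 n i.2) (G0 n i.2)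
        · exact (hN2 n p Q i.1 _ _ h).mono fun f hf _ => hf
        · exact Good.of_forall fun f h3 => absurd h3 h
      · by_cases h : IsHomog p ∧ ∃ (q : ℕ) (K : Type) (_ : Field K) (_ : Algebra ℂ K)
            (y : Fin (n + 1) → K), Q.IsHomogeneous q ∧ FunField p Q K i.1 y ∧
              ¬ Special ℂ K i.1 (OffQ Q q y)
        · exact (hM2 n p Q i.1 h).mono fun f hf _ => hf
        · exact Good.of_forall fun f h3 => absurd h3 h
      · by_cases h : IsHomog p ∧ ∃ (q : ℕ) (K : Type) (_ : Field K) (_ : Algebra ℂ K)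
            (y : Fin (n + 1) → K), Q.IsHomogeneous q ∧ FunField p Q K i.1 y ∧ NonNeg Q q i.1 y
        · exact (hF2 n p Q i.1 h).mono fun f hf _ => hf
        · exact Good.of_forall fun f h3 => absurd h3 h)
  refine ⟨Ψ, h1, fun n p Q q hp hQ hpk hQk w K _ _ y hy => ⟨fun hns => ?_,
    fun d g1 g0 hg1 hg0 hk1 hk0 hg0p hr => ?_, fun hnn => ?_⟩⟩
  · have h3 : ∀ f, Entire p Q f → GrowthLe Ψ f → ZDense p f Set.univ →
        (∀ z : ℂ, f z ∈ M n p Q w) ∧ w ≠ 2 := fun f hf hg hd =>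
      (h2 n p Q hpk hQk f hf hg (w, 0)).2.1 ⟨hp, q, K, _, _, y, hQ, hy, hns⟩ hd
    refine ⟨(dimH_mono ?_).trans (hM1 n p Q w), fun hw f hf hg hd => (h3 f hf hg hd).2 hw⟩
    rintro _ ⟨f, hf, hg, hd, z, rfl⟩
    exact (h3 f hf hg hd).1 z
  · obtain ⟨k1, hk1⟩ := hk1
    obtain ⟨k0, hk0⟩ := hk0
    obtain ⟨i, hi⟩ := he n (k1, k0)
    have e1 : G1 n i = g1 := by rw [hk1]; simp only [G1, hi]
    have e0 : G0 n i = g0 := by rw [hk0]; simp only [G0, hi]
    have h3 : ∀ f, Entire p Q f → GrowthLe Ψ f → NCf g1 g0 f →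
        (∀ z : ℂ, f z ∈ N n p Q w g1 g0) ∧ (w = 2 → InPoly p Q f) := by
      intro f hf hg hnc
      have h4 := (h2 n p Q hpk hQk f hf hg (w, i)).1
      rw [e1, e0] at h4
      exact h4 ⟨hp, q, d, K, _, _, y, hQ, hg1, hg0, hg0p, hy, hr⟩ hnc
    refine ⟨(dimH_mono ?_).trans (hN1 n p Q w g1 g0), fun hw f hf hg hnc => (h3 f hf hg hnc).2 hw⟩
    rintro _ ⟨f, hf, hg, hnc, z, rfl⟩
    exact (h3 f hf hg hnc).1 z
  · have h3 : ∀ f, Entire p Q f → GrowthLe Ψ f →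
        (∀ z : ℂ, f z ∈ F n p Q w) ∧ (w = 2 → InPoly p Q f) := fun f hf hg =>
      (h2 n p Q hpk hQk f hf hg (w, 0)).2.2 ⟨hp, q, K, _, _, y, hQ, hy, hnn⟩ hf.diff
    refine ⟨(dimH_mono ?_).trans (hF1 n p Q w), fun hw f hf hg => (h3 f hf hg).2 hw⟩
    rintro _ ⟨f, hf, hg, z, rfl⟩
    exact (h3 f hf hg).1 z

end Pool.Agent.Q64.LC
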