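import Pool.Agent.TH143.GT.Kod

/-!
Lines in quasi-projective varieties: either all lines are contained in one hypersurface section, or
they form a family which covers the variety.
-/

set_option autoImplicit false

namespace Pool.Agent.Q64.LC

open MvPolynomial Filter Pool.Agent.TH143.GT Pool.Agent.W602.GT
open Pool.Agent.W603.GR

variable {n : ℕ}

/-- The points `x + w v` (`w` a complex number) form an affine line in the variety `X - D`, where
the equations of `X` are the forms in `p` and `D` is the hypersurface section `Q = 0`: all the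
forms in `p` vanish on them, `Q` has a constant nonzero value on them, and the projective points
`x` and `v` are distinct. -/
structure Line (p : Ideal (MvPolynomial (Fin (n + 1)) ℂ)) (Q : MvPolynomial (Fin (n + 1)) ℂ)
    (x v : Fin (n + 1) → ℂ) : Prop where
  mem : ∀ H ∈ p, IsForm H → ∀ w : ℂ, eval (x + w • v) H = 0
  off : ∃ c : ℂ, c ≠ 0 ∧ ∀ w : ℂ, eval (x + w • v) Q = c
  ind : ∃ j k, x j * v k ≠ x k * v j

theorem Line.shift {p : Ideal (MvPolynomial (Fin (n + 1)) ℂ)} {Q : MvPolynomial (Fin (n + 1)) ℂ}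
    {x v : Fin (n + 1) → ℂ} (h : Line p Q x v) (w0 : ℂ) : Line p Q (x + w0 • v) v := by
  have e : ∀ w : ℂ, x + w0 • v + w • v = x + (w0 + w) • v := by
    intro w
    rw [add_smul, add_assoc]
  refine ⟨fun H hH hf w => by rw [e]; exact h.mem H hH hf _, ?_, ?_⟩
  · obtain ⟨c, hc, h1⟩ := h.off
    exact ⟨c, hc, fun w => by rw [e]; exact h1 _⟩
  · obtain ⟨j, k, h1⟩ := h.ind
    refine ⟨j, k, fun h2 => h1 ?_⟩
    simp only [Pi.add_apply, Pi.smul_apply, smul_eq_mul] at h2
    linear_combination h2

/-- the polynomial curve `x + w v` -/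
noncomputable def lp {R : Type*} [CommRing R] (x v : Fin (n + 1) → R) :
    Fin (n + 1) → Polynomial R :=
  fun j => Polynomial.C (x j) + Polynomial.X * Polynomial.C (v j)

theorem eval_lp (x v : Fin (n + 1) → ℂ) (G : MvPolynomial (Fin (n + 1)) ℂ) (w : ℂ) :
    (aeval (lp x v) G).eval w = eval (x + w • v) G := by
  have h := MvPolynomial.comp_aeval_apply (f := lp x v) (Polynomial.aeval w) G
  rw [Polynomial.coe_aeval_eq_eval] at h
  rw [h, ← MvPolynomial.aeval_eq_eval]
  change _ = aeval (x + w • v) G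
  congr 2
  funext j
  simp only [lp, Polynomial.eval_add, Polynomial.eval_C, Polynomial.eval_mul, Polynomial.eval_X,
    Pi.add_apply, Pi.smul_apply, smul_eq_mul]

theorem map_lp {R R' : Type} [CommRing R] [CommRing R'] [Algebra ℂ R] [Algebra ℂ R']
    (f : R →ₐ[ℂ] R') (x v : Fin (n + 1) → R) (G : MvPolynomial (Fin (n + 1)) ℂ) :
    (aeval (lp x v) G).map (f : R →+* R') =
      aeval (lp (fun j => f (x j)) (fun j => f (v j))) G := by
  rw [map_aeval']
  congr 2
  funext j
  simp [lp]

/-- descent, with the degrees -/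
theorem desc2 {N : ℕ} {R : Type} [CommRing R] [IsDomain R] [Algebra ℂ R]
    (W : Fin (N + 1) → Polynomial R) :
    ∃ (M : Type) (_ : Field M) (_ : Algebra ℂ M) (m : ℕ), Algebra.trdeg ℂ M = m ∧
      ∃ W' : Fin (N + 1) → Polynomial M,
        (∀ G : MvPolynomial (Fin (N + 1)) ℂ, aeval W' G = 0 ↔ aeval W G = 0) ∧
        (∀ G : MvPolynomial (Fin (N + 1)) ℂ, (aeval W' G).natDegree = (aeval W G).natDegree) ∧
        ∀ g0 g1 : MvPolynomial (Fin (N + 1)) ℂ,
          Polynomial.derivative (aeval W g1) * aeval W g0 ≠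
            aeval W g1 * Polynomial.derivative (aeval W g0) →
          Polynomial.derivative (aeval W' g1) * aeval W' g0 ≠
            aeval W' g1 * Polynomial.derivative (aeval W' g0) := by
  classical
  let E := FractionRing R
  let i : R →ₐ[ℂ] E := IsScalarTower.toAlgHom ℂ R E
  have hi : Function.Injective i := IsFractionRing.injective R E
  have hi' : Function.Injective (i : R →+* E) := hi
  let T : Finset E := Finset.univ.biUnion fun j => (W j).support.image fun n => i ((W j).coeff n)
  let M : IntermediateField ℂ E := IntermediateField.adjoin ℂ (T : Set E)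
  have hess : Algebra.EssFiniteType ℂ M :=
    IntermediateField.essFiniteType_iff.2 ⟨T, rfl⟩
  have hlt := trdeg_lt_aleph0 ℂ M
  obtain ⟨m, hm⟩ := Cardinal.lt_aleph0.1 hlt
  have hl : ∀ j, ∃ w : Polynomial M, w.map (M.val : M →+* E) = (W j).map (i : R →+* E) := by
    intro j
    have h1 : (W j).map (i : R →+* E) ∈ Polynomial.lifts (M.val : M →+* E) := by
      rw [Polynomial.lifts_iff_coeff_lifts]
      intro n
      rw [Polynomial.coeff_map]
      by_cases hn : (W j).coeff n = 0
      · rw [hn, map_zero]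
        exact ⟨0, map_zero _⟩
      · have h2 : i ((W j).coeff n) ∈ M := by
          apply IntermediateField.subset_adjoin
          simp only [T, Finset.coe_biUnion, Finset.mem_coe, Finset.mem_univ, Set.iUnion_true,
            Set.mem_iUnion, Finset.mem_image]
          exact ⟨j, n, Polynomial.mem_support_iff.2 hn, rfl⟩
        exact ⟨⟨_, h2⟩, rfl⟩
    exact (Polynomial.mem_lifts _).1 h1
  choose W' hW' using hl
  have hMinj : Function.Injective (M.val : M →+* E) := M.val.toRingHom.injective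
  have hmap : ∀ G : MvPolynomial (Fin (N + 1)) ℂ,
      (aeval W' G).map (M.val : M →+* E) = (aeval W G).map (i : R →+* E) := by
    intro G
    rw [map_aeval', map_aeval']
    congr 1
    congr 1
    funext j
    exact hW' j
  refine ⟨M, inferInstance, inferInstance, m, hm, W', ?_, ?_, ?_⟩
  · intro G
    rw [← Polynomial.map_eq_zero_iff hMinj, hmap, Polynomial.map_eq_zero_iff hi']
  · intro G
    rw [← Polynomial.natDegree_map_eq_of_injective hMinj, hmap,
      Polynomial.natDegree_map_eq_of_injective hi']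
  · intro g0 g1 hg h0
    apply hg
    apply Polynomial.map_injective (i : R →+* E) hi'
    have h1 := congrArg (Polynomial.map (M.val : M →+* E)) h0
    rw [Polynomial.map_mul, Polynomial.map_mul, ← Polynomial.derivative_map,
      ← Polynomial.derivative_map, hmap, hmap] at h1
    rw [Polynomial.map_mul, Polynomial.map_mul, ← Polynomial.derivative_map,
      ← Polynomial.derivative_map]
    exact h1

/-- the ideal of functions which vanish almost everywhere -/
def nul {I : Type} (U : Ultrafilter I) : Ideal (I → ℂ) where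
  carrier := {f | ∀ᶠ i in (U : Filter I), f i = 0}
  add_mem' := by
    intro a b ha hb
    have h1 : ∀ᶠ i in (U : Filter I), a i = 0 := ha
    have h2 : ∀ᶠ i in (U : Filter I), b i = 0 := hb
    change ∀ᶠ i in (U : Filter I), (a + b) i = 0
    filter_upwards [h1, h2] with i h3 h4
    rw [Pi.add_apply, h3, h4, add_zero]
  zero_mem' := by
    change ∀ᶠ i in (U : Filter I), (0 : I → ℂ) i = 0
    exact Eventually.of_forall fun i => rfl
  smul_mem' := by
    intro c a ha
    have h1 : ∀ᶠ i in (U : Filter I), a i = 0 := ha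
    change ∀ᶠ i in (U : Filter I), (c • a) i = 0
    filter_upwards [h1] with i h3
    rw [smul_eq_mul, Pi.mul_apply, h3, mul_zero]

theorem mem_nul {I : Type} {U : Ultrafilter I} {f : I → ℂ} :
    f ∈ nul U ↔ ∀ᶠ i in (U : Filter I), f i = 0 := Iff.rfl

instance nul_prime {I : Type} (U : Ultrafilter I) : (nul U).IsPrime := by
  refine ⟨?_, ?_⟩
  · intro h
    have h1 : (1 : I → ℂ) ∈ nul U := by rw [h]; trivial
    rw [mem_nul] at h1
    obtain ⟨i, hi⟩ := h1.exists
    exact one_ne_zero hi
  · intro a b hab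
    rw [mem_nul] at hab
    have h1 : ∀ᶠ i in (U : Filter I), a i = 0 ∨ b i = 0 :=
      hab.mono fun i hi => mul_eq_zero.1 hi
    rw [Ultrafilter.eventually_or] at h1
    exact h1

section fam

variable {p : Ideal (MvPolynomial (Fin (n + 1)) ℂ)} {Q : MvPolynomial (Fin (n + 1)) ℂ} {q : ℕ}

/-- the ultraproduct of lines -/
theorem aeval_nul {I : Type} {U : Ultrafilter I} (x v : I → Fin (n + 1) → ℂ)
    (G : MvPolynomial (Fin (n + 1)) ℂ) :
    aeval (lp (fun j => Ideal.Quotient.mkₐ ℂ (nul U) fun i => x i j)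
      (fun j => Ideal.Quotient.mkₐ ℂ (nul U) fun i => v i j)) G = 0 ↔
      ∀ᶠ i in (U : Filter I), aeval (lp (x i) (v i)) G = 0 := by
  rw [← map_lp (Ideal.Quotient.mkₐ ℂ (nul U))]
  set P : Polynomial (I → ℂ) := aeval (lp (fun j i => x i j) (fun j i => v i j)) G with hP
  have hi : ∀ i, P.map ((Pi.evalAlgHom ℂ (fun _ : I => ℂ) i : (I → ℂ) →ₐ[ℂ] ℂ) : (I → ℂ) →+* ℂ) =
      aeval (lp (x i) (v i)) G := fun i => map_lp (Pi.evalAlgHom ℂ (fun _ : I => ℂ) i) _ _ G
  have hc : ∀ i k, (aeval (lp (x i) (v i)) G : Polynomial ℂ).coeff k = P.coeff k i := by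
    intro i k
    rw [← hi i, Polynomial.coeff_map]
    rfl
  have h0 : P.map ((Ideal.Quotient.mkₐ ℂ (nul U) : (I → ℂ) →ₐ[ℂ] (I → ℂ) ⧸ nul U) :
      (I → ℂ) →+* (I → ℂ) ⧸ nul U) = 0 ↔
      ∀ k, P.coeff k ∈ nul U := by
    constructor
    · intro h k
      have h1 := congrArg (fun q => Polynomial.coeff q k) h
      rw [Polynomial.coeff_map] at h1
      exact Ideal.Quotient.eq_zero_iff_mem.1 h1
    · intro h
      ext k
      rw [Polynomial.coeff_map, Polynomial.coeff_zero]
      exact Ideal.Quotient.eq_zero_iff_mem.2 (h k)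
  refine h0.trans ?_
  constructor
  · intro h
    have h1 : ∀ᶠ i in (U : Filter I), ∀ k ∈ Finset.range (P.natDegree + 1), P.coeff k i = 0 :=
      (Filter.eventually_all_finset _).2 fun k _ => h k
    filter_upwards [h1] with i h2
    ext k
    rw [hc, Polynomial.coeff_zero]
    rcases lt_or_ge k (P.natDegree + 1) with hk | hk
    · exact h2 k (Finset.mem_range.2 hk)
    · rw [Polynomial.coeff_eq_zero_of_natDegree_lt (show P.natDegree < k by omega)]
      rfl
  · intro h k
    rw [mem_nul]
    filter_upwards [h] with i h1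
    rw [← hc, h1, Polynomial.coeff_zero]

/-- **Lines.** If no hypersurface section of the variety contains all the lines, then the variety
is covered by rational curves, all its logarithmic pluricanonical forms vanish, and it is not of
logarithmic general type. -/
theorem lines_main {K : Type} [Field K] [Algebra ℂ K] {w : ℕ} {y : Fin (n + 1) → K}
    (hy : FunField p Q K w y) (hQ : Q.IsHomogeneous q)
    (h : ¬ ∃ G, IsForm G ∧ G ∉ p ∧ ∀ x v, Line p Q x v → ∀ t : ℂ, eval (x + t • v) G = 0) :
    Covered K ∧ ∀ N, 0 < N → ∀ ω : (Fin w → Derivation ℂ K K) → K,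
      LogSec ℂ K w N (OffQ Q q y) ω → ω = 0 := by
  classical
  push Not at h
  let I : Type := {G : MvPolynomial (Fin (n + 1)) ℂ // IsForm G ∧ G ∉ p}
  have hval : ∀ G, IsForm G → (W602.GT.val y G = 0 ↔ G ∈ p) :=
    fun G hG => ⟨hy.mem G hG, hy.sub.mem G⟩
  have hx : ∀ G : I, ∃ x v, Line p Q x v ∧ eval x G.1 ≠ 0 := by
    intro G
    obtain ⟨x, v, hl, t, ht⟩ := h G.1 G.2.1 G.2.2
    exact ⟨x + t • v, v, hl.shift t, ht⟩
  choose x v hl hG using hx
  have h1 : W602.GT.val y (1 : MvPolynomial (Fin (n + 1)) ℂ) ≠ 0 := by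
    unfold W602.GT.val
    rw [map_one]
    exact one_ne_zero
  have hf1 : IsForm (1 : MvPolynomial (Fin (n + 1)) ℂ) := ⟨0, isHomogeneous_one _ _⟩
  have hne : Nonempty I := ⟨⟨1, hf1, fun h2 => h1 ((hval 1 hf1).2 h2)⟩⟩
  let A : I → Set I := fun G => {H | G.1 ∣ H.1}
  have hdir : Directed (· ≥ ·) fun G : I => (𝓟 (A G) : Filter I) := by
    intro G1 G2
    have hf : IsForm (G1.1 * G2.1) := by
      obtain ⟨d1, e1⟩ := G1.2.1
      obtain ⟨d2, e2⟩ := G2.2.1
      exact ⟨d1 + d2, e1.mul e2⟩
    have hnp : G1.1 * G2.1 ∉ p := by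
      intro h2
      have h3 := (hval _ hf).2 h2
      unfold W602.GT.val at h3
      rw [map_mul] at h3
      rcases mul_eq_zero.1 h3 with h4 | h4
      · exact G1.2.2 ((hval _ G1.2.1).1 h4)
      · exact G2.2.2 ((hval _ G2.2.1).1 h4)
    refine ⟨⟨G1.1 * G2.1, hf, hnp⟩, ?_, ?_⟩
    · change (𝓟 _ : Filter I) ≤ 𝓟 _
      rw [Filter.principal_mono]
      intro H hH
      exact (Dvd.intro _ rfl).trans hH
    · change (𝓟 _ : Filter I) ≤ 𝓟 _
      rw [Filter.principal_mono]
      intro H hH
      exact (Dvd.intro_left _ rfl).trans hH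
  have hF : (⨅ G : I, (𝓟 (A G) : Filter I)).NeBot := by
    refine Filter.iInf_neBot_of_directed' hdir fun G => ?_
    rw [Filter.principal_neBot_iff]
    exact ⟨G, dvd_refl _⟩
  let U : Ultrafilter I := Ultrafilter.of (⨅ G : I, (𝓟 (A G) : Filter I))
  have hU : ∀ G : I, ∀ᶠ H : I in (U : Filter I), G.1 ∣ H.1 := by
    intro G
    have h2 : A G ∈ (⨅ G : I, (𝓟 (A G) : Filter I)) :=
      Filter.mem_iInf_of_mem G (Filter.mem_principal_self _)
    exact Ultrafilter.of_le _ h2
  let W : Fin (n + 1) → Polynomial ((I → ℂ) ⧸ nul U) :=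
    lp (fun j => Ideal.Quotient.mkₐ ℂ (nul U) fun i => x i j)
      (fun j => Ideal.Quotient.mkₐ ℂ (nul U) fun i => v i j)
  have hrel : ∀ G : MvPolynomial (Fin (n + 1)) ℂ, IsForm G → (W602.GT.val y G = 0 ↔ aeval W G = 0) := by
    intro G hGf
    rw [hval G hGf]
    constructor
    · intro hGp
      refine (aeval_nul x v G).2 (Eventually.of_forall fun i => ?_)
      apply Polynomial.funext
      intro t
      rw [eval_lp, Polynomial.eval_zero]
      exact (hl i).mem G hGp hGf t
    · intro h0
      by_contra hGp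
      have h2 := (aeval_nul x v G).1 h0
      obtain ⟨H, h3, k, h4⟩ := (h2.and (hU ⟨G, hGf, hGp⟩)).exists
      apply hG H
      have h5 := eval_lp (x H) (v H) G 0
      rw [h3, Polynomial.eval_zero, zero_smul, add_zero] at h5
      rw [h4, map_mul, ← h5, zero_mul]
  choose c hc0 hc using fun i => (hl i).off
  have hWQ : aeval W Q = Polynomial.C (Ideal.Quotient.mkₐ ℂ (nul U) c) := by
    have h2 := map_lp (Ideal.Quotient.mkₐ ℂ (nul U)) (fun j i => x i j) (fun j i => v i j) Q
    change _ = aeval W Q at h2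
    have h3 : (aeval (lp (fun j i => x i j) (fun j i => v i j)) Q : Polynomial (I → ℂ)) =
        Polynomial.C c := by
      ext k i
      have h4 := map_lp (Pi.evalAlgHom ℂ (fun _ : I => ℂ) i) (fun j i => x i j)
        (fun j i => v i j) Q
      have h5 : (aeval (lp (x i) (v i)) Q : Polynomial ℂ) = Polynomial.C (c i) := by
        apply Polynomial.funext
        intro t
        rw [eval_lp, Polynomial.eval_C]
        exact hc i t
      have h6 := congrArg (fun q => Polynomial.coeff q k) (h4.trans h5)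
      rw [Polynomial.coeff_map] at h6
      refine Eq.trans h6 ?_
      rw [Polynomial.coeff_C, Polynomial.coeff_C]
      split_ifs <;> rfl
    rw [← h2, h3, Polynomial.map_C]
    rfl
  have hcne : Ideal.Quotient.mkₐ ℂ (nul U) c ≠ 0 := by
    intro h2
    have h3 := Ideal.Quotient.eq_zero_iff_mem.1 h2
    obtain ⟨i, hi⟩ := (mem_nul.1 h3).exists
    exact hc0 i hi
  obtain ⟨j, k, hjk⟩ : ∃ j k, ∀ᶠ i in (U : Filter I), x i j * v i k ≠ x i k * v i j := by
    by_contra hno
    push Not at hno
    have h2 : ∀ j k, ∀ᶠ i in (U : Filter I), x i j * v i k = x i k * v i j := hno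
    have h3 : ∀ᶠ i in (U : Filter I), ∀ j k, x i j * v i k = x i k * v i j := by
      rw [Filter.eventually_all]
      intro j
      rw [Filter.eventually_all]
      exact h2 j
    obtain ⟨i, hi⟩ := h3.exists
    obtain ⟨j, k, h4⟩ := (hl i).ind
    exact h4 (hi j k)
  have hmin : (Ideal.Quotient.mkₐ ℂ (nul U) fun i => x i j) *
      (Ideal.Quotient.mkₐ ℂ (nul U) fun i => v i k) ≠
      (Ideal.Quotient.mkₐ ℂ (nul U) fun i => x i k) *
      (Ideal.Quotient.mkₐ ℂ (nul U) fun i => v i j) := by
    rw [← map_mul, ← map_mul]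
    intro h2
    have h3 := Ideal.Quotient.eq.1 h2
    obtain ⟨i, h4, h5⟩ := ((mem_nul.1 h3).and hjk).exists
    apply h5
    exact sub_eq_zero.1 h4
  have hder : Polynomial.derivative (aeval W (X j : MvPolynomial (Fin (n + 1)) ℂ)) *
      aeval W (X k : MvPolynomial (Fin (n + 1)) ℂ) ≠
      aeval W (X j : MvPolynomial (Fin (n + 1)) ℂ) *
        Polynomial.derivative (aeval W (X k : MvPolynomial (Fin (n + 1)) ℂ)) := by
    rw [aeval_X, aeval_X]
    intro h2
    have h3 := congrArg (fun q => Polynomial.coeff q 0) h2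
    simp only [W, lp, Polynomial.derivative_add, Polynomial.derivative_C, zero_add,
      Polynomial.derivative_mul, Polynomial.derivative_X, one_mul, mul_zero, add_zero] at h3
    rw [Polynomial.mul_coeff_zero, Polynomial.mul_coeff_zero, Polynomial.coeff_add,
      Polynomial.coeff_add, Polynomial.coeff_C_zero, Polynomial.coeff_C_zero,
      Polynomial.mul_coeff_zero, Polynomial.mul_coeff_zero, Polynomial.coeff_X_zero, zero_mul,
      zero_mul, add_zero, add_zero, Polynomial.coeff_C_zero, Polynomial.coeff_C_zero] at h3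
    apply hmin
    rw [← h3, mul_comm]
  obtain ⟨M, i1, i2, m, hm, W', e1, e2, e3⟩ := desc2 W
  have hQ0 : (aeval W' Q).natDegree = 0 := by
    rw [e2, hWQ, Polynomial.natDegree_C]
  have hQne : aeval W' Q ≠ 0 := by
    rw [Ne, e1, hWQ, Polynomial.C_eq_zero]
    exact hcne
  obtain ⟨c', hc'⟩ : ∃ c' : M, aeval W' Q = Polynomial.C c' :=
    ⟨_, Polynomial.eq_C_of_natDegree_eq_zero hQ0⟩
  have hF : Fam y Q W' 0 := by
    refine ⟨fun G hGf => (hrel G hGf).trans (e1 G).symm, c', ?_, ?_⟩
    · rintro rfl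
      exact hQne (by rw [hc', Polynomial.C_0])
    · rw [hc', pow_zero, mul_one]
  have hder' := e3 (X k) (X j) hder
  have hyk : W602.GT.val y (X k : MvPolynomial (Fin (n + 1)) ℂ) ≠ 0 := by
    intro h0
    apply hder'
    rw [(hF.rel (X k) ⟨1, isHomogeneous_X _ _⟩).1 h0, mul_zero, Polynomial.derivative_zero,
      mul_zero]
  constructor
  · obtain ⟨φ, hφ⟩ := hF.emb hy.sub.ne hy.sub.gen
    refine ⟨M, inferInstance, inferInstance, φ,
      W602.GT.val y (X j : MvPolynomial (Fin (n + 1)) ℂ) /
        W602.GT.val y (X k : MvPolynomial (Fin (n + 1)) ℂ), fun c hc => ?_⟩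
    rw [hφ 1 (X j) (X k) (isHomogeneous_X _ _) (isHomogeneous_X _ _) hyk] at hc
    have hb : (aeval W' (X k : MvPolynomial (Fin (n + 1)) ℂ) : Polynomial M) ≠ 0 := by
      rw [Ne, ← hF.rel (X k) ⟨1, isHomogeneous_X _ _⟩]
      exact hyk
    have hb' : rf (aeval W' (X k : MvPolynomial (Fin (n + 1)) ℂ) : Polynomial M) ≠ 0 := by
      rwa [Ne, rf_zero]
    apply hder'
    rw [div_eq_iff hb'] at hc
    have h2 : (aeval W' (X j : MvPolynomial (Fin (n + 1)) ℂ) : Polynomial M) =
        Polynomial.C c * aeval W' (X k : MvPolynomial (Fin (n + 1)) ℂ) := by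
      apply rf_inj
      rw [hc, rf_mul]
      congr 1
    rw [h2, Polynomial.derivative_C_mul]
    ring
  · intro N hN ω hω
    funext D
    have hnf : ∃ r : K, ¬ Flat ℂ y W' r :=
      ⟨W602.GT.val y (X j : MvPolynomial (Fin (n + 1)) ℂ) /
          W602.GT.val y (X k : MvPolynomial (Fin (n + 1)) ℂ), fun h => hder' (h 1 (X j) (X k)
        (isHomogeneous_X _ _) (isHomogeneous_X _ _) hyk rfl)⟩
    exact (hF.main hy.sub.dim hm hy.sub.ne hy.sub.gen hQ).2.2.2 rfl hnf N hN ω hω D

end fam

end Pool.Agent.Q64.LC
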