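import Pool.Agent.Q64.LC.Alg
import Pool.Agent.Q64.LC.Ultra

/-!
Lacunary holomorphic curves: forms which vanish on all lines vanish on the curve.
-/

set_option autoImplicit false

namespace Pool.Agent.Q64.LC

open MvPolynomial Filter Pool.Agent.TH143.GT Pool.Agent.W602.GT Pool.Agent.W603.GR

variable {n : ℕ}

/-- The series `A` converges to `g` on the disc of radius `r`. -/
def PS (r : ℝ) (A : PowerSeries ℂ) (g : ℂ → ℂ) : Prop :=
  ∀ z : ℂ, ‖z‖ < r → HasSum (fun i => PowerSeries.coeff i A * z ^ i) (g z)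

theorem PS.norm {r : ℝ} {A : PowerSeries ℂ} {g : ℂ → ℂ} (h : PS r A g) {z : ℂ} (hz : ‖z‖ < r) :
    Summable fun i => ‖PowerSeries.coeff i A * z ^ i‖ := (h z hz).summable.norm

theorem PS.const (r : ℝ) (c : ℂ) : PS r (algebraMap ℂ (PowerSeries ℂ) c) (fun _ => c) := by
  intro z _
  have h := hasSum_single (f := fun i => PowerSeries.coeff i (algebraMap ℂ (PowerSeries ℂ) c) *
    z ^ i) 0 (by
      intro i hi
      have : PowerSeries.coeff i (algebraMap ℂ (PowerSeries ℂ) c) = 0 := by
        rw [PowerSeries.algebraMap_apply, Algebra.algebraMap_self, RingHom.id_apply,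
          PowerSeries.coeff_C, if_neg hi]
      rw [this, zero_mul])
  have h2 : PowerSeries.coeff 0 (algebraMap ℂ (PowerSeries ℂ) c) * z ^ 0 = c := by
    rw [PowerSeries.algebraMap_apply, Algebra.algebraMap_self, RingHom.id_apply,
      PowerSeries.coeff_C, if_pos rfl, pow_zero, mul_one]
  rwa [h2] at h

theorem PS.add {r : ℝ} {A B : PowerSeries ℂ} {g h : ℂ → ℂ} (hA : PS r A g) (hB : PS r B h) :
    PS r (A + B) (fun z => g z + h z) := by
  intro z hz
  have := (hA z hz).add (hB z hz)
  refine this.congr_fun ?_ |> fun h => h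
  intro i
  rw [map_add, add_mul]

theorem PS.mul {r : ℝ} {A B : PowerSeries ℂ} {g h : ℂ → ℂ} (hA : PS r A g) (hB : PS r B h) :
    PS r (A * B) (fun z => g z * h z) := by
  intro z hz
  have e : (fun i => PowerSeries.coeff i (A * B) * z ^ i) = fun i =>
      ∑ kl ∈ Finset.HasAntidiagonal.antidiagonal i, (PowerSeries.coeff kl.1 A * z ^ kl.1) *
        (PowerSeries.coeff kl.2 B * z ^ kl.2) := by
    funext i
    rw [PowerSeries.coeff_mul, Finset.sum_mul]
    refine Finset.sum_congr rfl fun kl hkl => ?_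
    rw [Finset.HasAntidiagonal.mem_antidiagonal] at hkl
    rw [← hkl, pow_add]
    ring
  have h1 := summable_norm_sum_mul_antidiagonal_of_summable_norm (hA.norm hz) (hB.norm hz)
  have h2 := tsum_mul_tsum_eq_tsum_sum_antidiagonal_of_summable_norm (hA.norm hz) (hB.norm hz)
  rw [(hA z hz).tsum_eq, (hB z hz).tsum_eq] at h2
  rw [e]
  change HasSum _ (g z * h z)
  rw [h2]
  exact h1.of_norm.hasSum

theorem PS.aeval {r : ℝ} {A : Fin (n + 1) → PowerSeries ℂ} {f : ℂ → Fin (n + 1) → ℂ}
    (h : ∀ j, PS r (A j) (fun z => f z j)) (F : MvPolynomial (Fin (n + 1)) ℂ) :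
    PS r (MvPolynomial.aeval A F) (fun z => eval (f z) F) := by
  induction F using MvPolynomial.induction_on with
  | C c =>
    rw [aeval_C]
    simpa only [eval_C] using PS.const r c
  | add p q hp hq =>
    rw [map_add]
    simpa only [map_add] using hp.add hq
  | mul_X p i hp =>
    rw [map_mul, aeval_X]
    simpa only [map_mul, eval_X] using hp.mul (h i)

theorem PS.eq_zero {r : ℝ} (hr : 0 < r) {A : PowerSeries ℂ} {g : ℂ → ℂ} (h : PS r A g)
    (h0 : ∀ z : ℂ, ‖z‖ < r → g z = 0) : A = 0 := by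
  have h1 : HasFPowerSeriesAt (0 : ℂ → ℂ)
      (FormalMultilinearSeries.ofScalars ℂ fun i => PowerSeries.coeff i A) 0 := by
    rw [hasFPowerSeriesAt_iff]
    filter_upwards [Metric.ball_mem_nhds (0 : ℂ) hr] with z hz
    rw [Metric.mem_ball, dist_zero_right] at hz
    have h2 := h z hz
    rw [h0 z hz] at h2
    simpa only [FormalMultilinearSeries.coeff_ofScalars, smul_eq_mul, mul_comm, Pi.zero_apply]
      using h2
  have h2 := h1.eq_zero
  ext i
  have h3 := congrArg (fun p => FormalMultilinearSeries.coeff p i) h2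
  simp only [FormalMultilinearSeries.coeff_ofScalars] at h3
  rw [h3, map_zero]
  simp [FormalMultilinearSeries.coeff]

theorem PS.zero {r : ℝ} {g : ℂ → ℂ} (h : PS r 0 g) {z : ℂ} (hz : ‖z‖ < r) : g z = 0 := by
  have h1 := h z hz
  simp only [map_zero, zero_mul] at h1
  exact h1.unique hasSum_zero

/-- The curve `f` is given on the disc `|z| < r` by the power series `∑ z ^ i a i`. -/
def HasSeries (r : ℝ) (a : ℕ → Fin (n + 1) → ℂ) (f : ℂ → Fin (n + 1) → ℂ) : Prop :=
  ∀ z : ℂ, ‖z‖ < r → HasSum (fun i => z ^ i • a i) (f z)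

/-- The part of the power series `∑ z ^ i a i` with the exponents in `s`. -/
def part (a : ℕ → Fin (n + 1) → ℂ) (s : Finset ℕ) (z : ℂ) : Fin (n + 1) → ℂ :=
  ∑ i ∈ s, z ^ i • a i

/-- The block of exponents `[β, γ]` of the power series `∑ z ^ i a i` is isolated with the
factor `D`: it is short, `D γ < (D + 1) β`, and there are no other exponents between `β / D` and
`D γ`. -/
structure IsoBlock (D : ℕ) (a : ℕ → Fin (n + 1) → ℂ) (β γ : ℕ) : Prop where
  le : β ≤ γ
  short : D * γ < (D + 1) * β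
  below : ∀ i, i < β → β ≤ D * i → a i = 0
  above : ∀ i, γ < i → i ≤ D * γ → a i = 0

/-- The block of exponents `[β, γ]` is not proportional to the sum of the preceding terms. -/
def Moving (a : ℕ → Fin (n + 1) → ℂ) (β γ : ℕ) : Prop :=
  ∃ (z : ℂ) (j k : Fin (n + 1)),
    part a (Finset.range β) z j * part a (Finset.Icc β γ) z k ≠
      part a (Finset.range β) z k * part a (Finset.Icc β γ) z j

/-- The variety with the equations `p` is cut out by forms of degree at most `D`. -/
def CutBy (D : ℕ) (p : Ideal (MvPolynomial (Fin (n + 1)) ℂ)) : Prop :=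
  ∀ x : Fin (n + 1) → ℂ, (∀ F ∈ p, ∀ d ≤ D, F.IsHomogeneous d → eval x F = 0) →
    ∀ H ∈ p, IsForm H → eval x H = 0

/-- the polynomials of a part -/
noncomputable def pp (a : ℕ → Fin (n + 1) → ℂ) (s : Finset ℕ) (j : Fin (n + 1)) : Polynomial ℂ :=
  ∑ i ∈ s, Polynomial.monomial i (a i j)

theorem coeff_pp (a : ℕ → Fin (n + 1) → ℂ) (s : Finset ℕ) (j : Fin (n + 1)) (i : ℕ) :
    (pp a s j).coeff i = if i ∈ s then a i j else 0 := by
  unfold pp
  rw [Polynomial.finsetSum_coeff]
  simp only [Polynomial.coeff_monomial]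
  rw [Finset.sum_ite_eq' s i]

theorem eval_pp (a : ℕ → Fin (n + 1) → ℂ) (s : Finset ℕ) (j : Fin (n + 1)) (z : ℂ) :
    (pp a s j).eval z = part a s z j := by
  unfold pp part
  rw [Polynomial.eval_finsetSum, Finset.sum_apply]
  refine Finset.sum_congr rfl fun i _ => ?_
  rw [Polynomial.eval_monomial, Pi.smul_apply, smul_eq_mul, mul_comm]

theorem eval_ln (T S : Fin (n + 1) → Polynomial ℂ) (F : MvPolynomial (Fin (n + 1)) ℂ) (z w : ℂ) :
    ((aeval (fun j => ln (T j) (S j)) F).eval (Polynomial.C w)).eval z =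
      eval (fun j => (T j).eval z + w * (S j).eval z) F := by
  have h := MvPolynomial.comp_aeval_apply (f := fun j => ln (T j) (S j))
    ((Polynomial.aeval z).comp
      ((Polynomial.aeval (Polynomial.C w : Polynomial ℂ)).restrictScalars ℂ)) F
  rw [AlgHom.comp_apply, AlgHom.restrictScalars_apply, Polynomial.coe_aeval_eq_eval,
    Polynomial.coe_aeval_eq_eval] at h
  rw [h, ← MvPolynomial.aeval_eq_eval]
  congr 2
  funext j
  rw [AlgHom.comp_apply, AlgHom.restrictScalars_apply, Polynomial.coe_aeval_eq_eval,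
    Polynomial.coe_aeval_eq_eval]
  unfold ln
  simp only [Polynomial.eval_add, Polynomial.eval_C, Polynomial.eval_mul, Polynomial.eval_X]

variable {p : Ideal (MvPolynomial (Fin (n + 1)) ℂ)} {Q : MvPolynomial (Fin (n + 1)) ℂ} {q : ℕ}

/-- `f` is a holomorphic curve in the variety `X - D` on the disc `|z| < r`, with the power series
`∑ z ^ i a i`: all forms in `p` (the equations of `X`) vanish on it, and the form `Q` (the equation
of `D`) has a constant nonzero value on it. -/
structure Curve (p : Ideal (MvPolynomial (Fin (n + 1)) ℂ)) (Q : MvPolynomial (Fin (n + 1)) ℂ)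
    (r : ℝ) (a : ℕ → Fin (n + 1) → ℂ) (f : ℂ → Fin (n + 1) → ℂ) : Prop where
  pos : 0 < r
  series : HasSeries r a f
  mem : ∀ z : ℂ, ‖z‖ < r → ∀ H ∈ p, IsForm H → eval (f z) H = 0
  off : ∃ c : ℂ, c ≠ 0 ∧ ∀ z : ℂ, ‖z‖ < r → eval (f z) Q = c

/-- the formal power series -/
noncomputable def ser (a : ℕ → Fin (n + 1) → ℂ) (j : Fin (n + 1)) : PowerSeries ℂ :=
  PowerSeries.mk fun i => a i j

theorem ps_ser {r : ℝ} {a : ℕ → Fin (n + 1) → ℂ} {f : ℂ → Fin (n + 1) → ℂ}
    (hs : HasSeries r a f) (j : Fin (n + 1)) : PS r (ser a j) (fun z => f z j) := by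
  intro z hz
  have h1 := (Pi.hasSum.1 (hs z hz)) j
  simpa only [ser, PowerSeries.coeff_mk, Pi.smul_apply, smul_eq_mul, mul_comm] using h1

theorem Curve.rel {r : ℝ} {a : ℕ → Fin (n + 1) → ℂ} {f : ℂ → Fin (n + 1) → ℂ}
    (h : Curve p Q r a f) {H : MvPolynomial (Fin (n + 1)) ℂ} (hH : H ∈ p) (hf : IsForm H) :
    aeval (ser a) H = 0 :=
  PS.eq_zero h.pos (PS.aeval (ps_ser h.series) H) fun z hz => h.mem z hz H hH hf

theorem Curve.relQ {r : ℝ} {a : ℕ → Fin (n + 1) → ℂ} {f : ℂ → Fin (n + 1) → ℂ}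
    (h : Curve p Q r a f) : ∃ c : ℂ, c ≠ 0 ∧ aeval (ser a) Q = algebraMap ℂ (PowerSeries ℂ) c := by
  obtain ⟨c, hc0, hc⟩ := h.off
  refine ⟨c, hc0, ?_⟩
  have h1 := (PS.aeval (ps_ser h.series) Q).add (PS.const r (-c))
  have h2 := PS.eq_zero h.pos h1 fun z hz => by rw [hc z hz, add_neg_cancel]
  rw [map_neg, ← sub_eq_add_neg] at h2
  exact sub_eq_zero.1 h2

/-- relations hold along the lines given by an isolated block -/
theorem line_eval {D : ℕ} (hD : 1 ≤ D) {a : ℕ → Fin (n + 1) → ℂ} {β γ : ℕ}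
    (hI : IsoBlock D a β γ) {F : MvPolynomial (Fin (n + 1)) ℂ} {d : ℕ} (hd : d ≤ D)
    (hF : F.IsHomogeneous d) {c : ℂ} (h0 : aeval (ser a) F = algebraMap ℂ (PowerSeries ℂ) c)
    (z w : ℂ) :
    eval (part a (Finset.range β) z + w • part a (Finset.Icc β γ) z) F = c := by
  classical
  have hβ : 0 < β := by
    rcases Nat.eq_zero_or_pos β with h | h
    · have := hI.short
      rw [h, mul_zero] at this
      omega
    · exact h
  -- the last exponent before the gap
  obtain ⟨α, hα⟩ : ∃ α, α = (β - 1) / D := ⟨_, rfl⟩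
  have hα1 : D * α < β := by
    have := Nat.mul_div_le (β - 1) D
    rw [← hα] at this
    omega
  have hα2 : ∀ i, α < i → i < β → a i = 0 := by
    intro i h1 h2
    apply hI.below i h2
    have h3 : (β - 1) / D < i := hα ▸ h1
    rw [Nat.div_lt_iff_lt_mul (by omega)] at h3
    rw [mul_comm]
    omega
  have hαγ : α ≤ γ := by
    have : α ≤ D * α := Nat.le_mul_of_pos_left _ (by omega)
    have := hI.le
    omega
  have hTα : ∀ j i, (pp a (Finset.range β) j).coeff i ≠ 0 → i ≤ α := by
    intro j i h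
    rw [coeff_pp] at h
    split_ifs at h with h1
    · by_contra h2
      rw [Finset.mem_range] at h1
      rw [hα2 i (by omega) h1] at h
      exact h rfl
    · exact absurd rfl h
  have hSβ : ∀ j i, (pp a (Finset.Icc β γ) j).coeff i ≠ 0 → β ≤ i ∧ i ≤ γ := by
    intro j i h
    rw [coeff_pp] at h
    split_ifs at h with h1
    · exact Finset.mem_Icc.1 h1
    · exact absurd rfl h
  have hTS : ∀ j, ∀ i < D * γ + 1, PowerSeries.coeff i (ser a j) =
      (pp a (Finset.range β) j + pp a (Finset.Icc β γ) j).coeff i := by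
    intro j i hi
    rw [Polynomial.coeff_add, coeff_pp, coeff_pp, ser, PowerSeries.coeff_mk]
    by_cases h1 : i < β
    · rw [if_pos (Finset.mem_range.2 h1), if_neg (by rw [Finset.mem_Icc]; omega), add_zero]
    · rw [if_neg (by rw [Finset.mem_range]; omega), zero_add]
      by_cases h2 : i ≤ γ
      · rw [if_pos (Finset.mem_Icc.2 ⟨by omega, h2⟩)]
      · rw [if_neg (by rw [Finset.mem_Icc]; omega), hI.above i (by omega) (by omega)]
        rfl
  have h1 := line_rel (α := α) (β := β) (γ := γ) hTα hSβ hTS hαγ hα1 hI.short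
    (Nat.lt_succ_self _) hd hF h0
  have h2 := eval_ln (pp a (Finset.range β)) (pp a (Finset.Icc β γ)) F z w
  rw [h1] at h2
  have h3 : (algebraMap ℂ (Polynomial (Polynomial ℂ)) c) = Polynomial.C (Polynomial.C c) := rfl
  rw [h3, Polynomial.eval_C, Polynomial.eval_C] at h2
  rw [h2]
  congr 2
  funext j
  rw [eval_pp, eval_pp, Pi.add_apply, Pi.smul_apply, smul_eq_mul]

/-- a form which vanishes on a truncation of the curve vanishes on the curve to high order -/
theorem trunc_rel {a : ℕ → Fin (n + 1) → ℂ} {T : Fin (n + 1) → Polynomial ℂ} {ε : ℕ}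
    (hT : ∀ j, ∀ i < ε, PowerSeries.coeff i (ser a j) = (T j).coeff i)
    {G : MvPolynomial (Fin (n + 1)) ℂ} (hG : ∀ z, eval (fun j => (T j).eval z) G = 0) (m : ℕ)
    (hm : m < ε) : PowerSeries.coeff m (aeval (ser a) G) = 0 := by
  have hTG : (aeval T G : Polynomial ℂ) = 0 := by
    apply Polynomial.funext
    intro z
    have h2 := MvPolynomial.comp_aeval_apply (f := T) (Polynomial.aeval z) G
    rw [Polynomial.coe_aeval_eq_eval] at h2
    rw [h2, MvPolynomial.aeval_eq_eval, Polynomial.eval_zero]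
    exact hG z
  have h6 := aeval_congr_mod (ε := ε) (a := ser a)
    (b := fun j => ((T j : Polynomial ℂ) : PowerSeries ℂ)) (by
      intro j
      rw [PowerSeries.X_pow_dvd_iff]
      intro m hm
      rw [map_sub, Polynomial.coeff_coe, hT j m hm, sub_self]) G
  rw [PowerSeries.X_pow_dvd_iff] at h6
  have h8 : aeval (fun j => ((T j : Polynomial ℂ) : PowerSeries ℂ)) G =
      ((aeval T G : Polynomial ℂ) : PowerSeries ℂ) := by
    have := MvPolynomial.comp_aeval_apply (f := T) (Polynomial.coeToPowerSeries.algHom ℂ) G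
    rw [Polynomial.coeToPowerSeries.algHom_apply] at this
    rw [show ((aeval T G : Polynomial ℂ) : PowerSeries ℂ) =
      PowerSeries.map (algebraMap ℂ ℂ) (aeval T G : Polynomial ℂ) by
        simp, this]
    congr 2
  rw [h8, hTG] at h6
  have h9 := h6 m hm
  simpa using h9

theorem eval_zero_form (hQ : Q.IsHomogeneous q) (hq0 : 0 < q) :
    eval (0 : Fin (n + 1) → ℂ) Q = 0 := by
  rw [← MvPolynomial.aeval_eq_eval]
  rw [MvPolynomial.aeval_zero, MvPolynomial.constantCoeff_eq,
    hQ.coeff_eq_zero (by rw [map_zero]; omega), map_zero]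

/-- A block which is not zero is not proportional to the sum of the preceding terms, if the degree
of `Q` is positive. -/
theorem moving_of_ne {D : ℕ} (hD : 1 ≤ D) (hQ : Q.IsHomogeneous q) (hq0 : 0 < q) (hqD : q ≤ D)
    {r : ℝ} {a : ℕ → Fin (n + 1) → ℂ} {f : ℂ → Fin (n + 1) → ℂ} (hf : Curve p Q r a f) {β γ : ℕ}
    (hI : IsoBlock D a β γ) (hne : ∃ i ∈ Finset.Icc β γ, a i ≠ 0) : Moving a β γ := by
  by_contra hmov
  unfold Moving at hmov
  push Not at hmov
  obtain ⟨c, hc0, hc⟩ := hf.relQ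
  obtain ⟨i, hi, hai⟩ := hne
  obtain ⟨j, hj⟩ := Function.ne_iff.1 hai
  have hS : pp a (Finset.Icc β γ) j ≠ 0 := by
    intro h0
    have h1 := coeff_pp a (Finset.Icc β γ) j i
    rw [h0, if_pos hi, Polynomial.coeff_zero] at h1
    exact hj h1.symm
  obtain ⟨z, hz⟩ : ∃ z, (pp a (Finset.Icc β γ) j).eval z ≠ 0 := by
    by_contra hno
    push Not at hno
    exact hS (Polynomial.funext fun z => by rw [hno z, Polynomial.eval_zero])
  rw [eval_pp] at hz
  set T := part a (Finset.range β) z with hT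
  set S := part a (Finset.Icc β γ) z with hSd
  have h1 : T + (-(T j / S j)) • S = 0 := by
    funext k
    have h2 := hmov z j k
    rw [← hT, ← hSd] at h2
    rw [Pi.add_apply, Pi.smul_apply, smul_eq_mul, Pi.zero_apply]
    field_simp
    linear_combination -h2
  have h2 := line_eval hD hI hqD hQ hc z (-(T j / S j))
  rw [← hT, ← hSd, h1] at h2
  apply hc0
  rw [← h2]
  exact eval_zero_form hQ hq0

/-- the line given by an isolated block -/
theorem line_of_block {D : ℕ} (hD : 1 ≤ D) (hQ : Q.IsHomogeneous q) (hqD : q ≤ D)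
    (hcut : CutBy D p) {r : ℝ} {a : ℕ → Fin (n + 1) → ℂ} {f : ℂ → Fin (n + 1) → ℂ}
    (hf : Curve p Q r a f) {β γ : ℕ} (hI : IsoBlock D a β γ) {z : ℂ} {j k : Fin (n + 1)}
    (hne : part a (Finset.range β) z j * part a (Finset.Icc β γ) z k ≠
      part a (Finset.range β) z k * part a (Finset.Icc β γ) z j) :
    Line p Q (part a (Finset.range β) z) (part a (Finset.Icc β γ) z) := by
  obtain ⟨c, hc0, hc⟩ := hf.relQ
  refine ⟨fun H hH hHf w => ?_, ⟨c, hc0, fun w => line_eval hD hI hqD hQ hc z w⟩, j, k, hne⟩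
  refine hcut _ (fun F hF d hd hFd => ?_) H hH hHf
  exact line_eval hD hI hd hFd (c := 0) (by rw [map_zero]; exact hf.rel hF ⟨d, hFd⟩) z w

/-- **Lacunary curves.** A form which vanishes on all lines vanishes on all curves with infinitely
many isolated blocks of exponents. -/
theorem vanish {D : ℕ} (hD : 1 ≤ D) (hQ : Q.IsHomogeneous q) (hqD : q ≤ D) (hcut : CutBy D p)
    {G : MvPolynomial (Fin (n + 1)) ℂ}
    (hG : ∀ x v, Line p Q x v → ∀ t : ℂ, eval (x + t • v) G = 0) {r : ℝ}
    {a : ℕ → Fin (n + 1) → ℂ} {f : ℂ → Fin (n + 1) → ℂ} (hf : Curve p Q r a f)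
    (hb : ∀ L : ℕ, ∃ β γ, L ≤ γ ∧ IsoBlock D a β γ ∧ Moving a β γ) {z : ℂ} (hz : ‖z‖ < r) :
    eval (f z) G = 0 := by
  classical
  suffices hGA : aeval (ser a) G = 0 by
    have h1 := PS.aeval (ps_ser hf.series) G
    rw [hGA] at h1
    exact h1.zero hz
  ext m
  rw [map_zero]
  obtain ⟨β, γ, hL, hI, z0, j0, k0, hmov⟩ := hb m
  let T : Fin (n + 1) → Polynomial ℂ := fun j => pp a (Finset.range β) j + pp a (Finset.Icc β γ) j
  have hγ : γ ≤ D * γ := Nat.le_mul_of_pos_left _ (by omega)
  refine trunc_rel (T := T) (ε := D * γ + 1) ?_ ?_ m (by omega)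
  · intro j i hi
    change _ = (pp a (Finset.range β) j + pp a (Finset.Icc β γ) j).coeff i
    rw [Polynomial.coeff_add, coeff_pp, coeff_pp, ser, PowerSeries.coeff_mk]
    by_cases h1 : i < β
    · rw [if_pos (Finset.mem_range.2 h1), if_neg (by rw [Finset.mem_Icc]; omega), add_zero]
    · rw [if_neg (by rw [Finset.mem_range]; omega), zero_add]
      by_cases h2 : i ≤ γ
      · rw [if_pos (Finset.mem_Icc.2 ⟨by omega, h2⟩)]
      · rw [if_neg (by rw [Finset.mem_Icc]; omega), hI.above i (by omega) (by omega)]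
        rfl
  · have hT : ∀ z, (fun j => (T j).eval z) =
        part a (Finset.range β) z + part a (Finset.Icc β γ) z := by
      intro z
      funext j
      change (pp a (Finset.range β) j + pp a (Finset.Icc β γ) j).eval z = _
      rw [Polynomial.eval_add, eval_pp, eval_pp, Pi.add_apply]
    have hev : ∀ z, (aeval T G : Polynomial ℂ).eval z = eval (fun j => (T j).eval z) G := by
      intro z
      have h2 := MvPolynomial.comp_aeval_apply (f := T) (Polynomial.aeval z) G
      rw [Polynomial.coe_aeval_eq_eval] at h2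
      rw [h2, MvPolynomial.aeval_eq_eval]
    have hGz : ∀ z : ℂ, part a (Finset.range β) z j0 * part a (Finset.Icc β γ) z k0 ≠
        part a (Finset.range β) z k0 * part a (Finset.Icc β γ) z j0 →
        eval (fun j => (T j).eval z) G = 0 := by
      intro z hne
      have h1 := hG _ _ (line_of_block hD hQ hqD hcut hf hI hne) 1
      rwa [one_smul, ← hT] at h1
    have hpoly : (aeval T G : Polynomial ℂ) *
        (pp a (Finset.range β) j0 * pp a (Finset.Icc β γ) k0 -
          pp a (Finset.range β) k0 * pp a (Finset.Icc β γ) j0) = 0 := by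
      apply Polynomial.funext
      intro z
      rw [Polynomial.eval_mul, Polynomial.eval_sub, Polynomial.eval_mul, Polynomial.eval_mul,
        Polynomial.eval_zero, eval_pp, eval_pp, eval_pp, eval_pp]
      by_cases hne : part a (Finset.range β) z j0 * part a (Finset.Icc β γ) z k0 =
        part a (Finset.range β) z k0 * part a (Finset.Icc β γ) z j0
      · rw [hne, sub_self, mul_zero]
      · rw [hev, hGz z hne, zero_mul]
    have hmin : pp a (Finset.range β) j0 * pp a (Finset.Icc β γ) k0 -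
        pp a (Finset.range β) k0 * pp a (Finset.Icc β γ) j0 ≠ 0 := by
      intro h0
      have h1 := congrArg (Polynomial.eval z0) h0
      rw [Polynomial.eval_sub, Polynomial.eval_mul, Polynomial.eval_mul, Polynomial.eval_zero,
        eval_pp, eval_pp, eval_pp, eval_pp, sub_eq_zero] at h1
      exact hmov h1
    have hTSG : (aeval T G : Polynomial ℂ) = 0 := (mul_eq_zero.1 hpoly).resolve_right hmin
    intro z
    rw [← hev, hTSG, Polynomial.eval_zero]

/-- There is a gap in the exponents from `α` to `β`. -/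
def Gap (a : ℕ → Fin (n + 1) → ℂ) (α β : ℕ) : Prop := ∀ i, α < i → i < β → a i = 0

/-- **Gaps.** The partial sum before a gap is a polynomial curve. -/
theorem gap_eval {D : ℕ} (hD : 1 ≤ D) {a : ℕ → Fin (n + 1) → ℂ} {α β : ℕ}
    (hI : Gap a α β) (hαβ : D * α < β) {F : MvPolynomial (Fin (n + 1)) ℂ} {d : ℕ} (hd : d ≤ D)
    (hF : F.IsHomogeneous d) {c : ℂ} (h0 : aeval (ser a) F = algebraMap ℂ (PowerSeries ℂ) c)
    (z : ℂ) : eval (part a (Finset.range (α + 1)) z) F = c := by
  classical
  have hα : α ≤ D * α := Nat.le_mul_of_pos_left _ (by omega)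
  have hTα : ∀ j i, (pp a (Finset.range (α + 1)) j).coeff i ≠ 0 → i ≤ α := by
    intro j i h
    rw [coeff_pp] at h
    split_ifs at h with h1
    · rw [Finset.mem_range] at h1
      omega
    · exact absurd rfl h
  have hSβ : ∀ (j : Fin (n + 1)) i, ((fun _ => 0 : Fin (n + 1) → Polynomial ℂ) j).coeff i ≠ 0 →
      β ≤ i ∧ i ≤ α := by
    intro j i h
    exact absurd (Polynomial.coeff_zero i) h
  have hTS : ∀ j, ∀ i < β, PowerSeries.coeff i (ser a j) =
      (pp a (Finset.range (α + 1)) j + (fun _ => 0 : Fin (n + 1) → Polynomial ℂ) j).coeff i := by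
    intro j i hi
    rw [add_zero, coeff_pp, ser, PowerSeries.coeff_mk]
    by_cases h1 : i < α + 1
    · rw [if_pos (Finset.mem_range.2 h1)]
    · rw [if_neg (by rw [Finset.mem_range]; omega), hI i (by omega) hi]
      rfl
  have h1 := line_rel (α := α) (β := β) (γ := α) hTα hSβ hTS le_rfl hαβ
    (by rw [add_mul]; omega) hαβ hd hF h0
  have h2 := eval_ln (pp a (Finset.range (α + 1))) (fun _ => 0) F z 0
  rw [h1] at h2
  have h3 : (algebraMap ℂ (Polynomial (Polynomial ℂ)) c) = Polynomial.C (Polynomial.C c) := rfl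
  rw [h3, Polynomial.eval_C, Polynomial.eval_C] at h2
  rw [h2]
  congr 2
  funext j
  rw [eval_pp, zero_mul, add_zero]

end Pool.Agent.Q64.LC
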