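import Pool.Agent.Q64.LC.Alg
import Pool.Agent.Q64.LC.Ana

/-!
Lacunary holomorphic curves in affine varieties.
-/

set_option autoImplicit false

namespace Pool.Agent.Q64.LC.Af

open MvPolynomial Pool.Agent.Q64.LC

variable {α β γ d n : ℕ}

theorem sup_mono {e : ℕ} (h : e ≤ d) {P : Polynomial (Polynomial ℂ)} (hP : Sup α β γ e P) :
    Sup α β γ d P := by
  intro j i hji
  obtain ⟨h1, h2, h3⟩ := hP j i hji
  have h4 : e * α ≤ d * α := Nat.mul_le_mul_right _ h
  exact ⟨h1.trans h, h2, by omega⟩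

theorem sup_deg {W : Fin n → Polynomial (Polynomial ℂ)} (hW : ∀ j, Sup α β γ 1 (W j))
    {F : MvPolynomial (Fin n) ℂ} (hF : F.totalDegree ≤ d) : Sup α β γ d (aeval W F) := by
  rw [F.as_sum, map_sum]
  refine Sup.sum _ _ fun m hm => ?_
  rw [aeval_monomial, Finsupp.prod_fintype _ _ fun i => pow_zero _]
  have h1 : ∑ i, m i ≤ d := by
    refine le_trans ?_ hF
    refine le_trans (le_of_eq ?_) (le_totalDegree hm)
    rw [Finsupp.sum_fintype _ _ fun i => rfl]
  have h3 := (Sup.const (α := α) (β := β) (γ := γ) (coeff m F)).mul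
    (Sup.prod Finset.univ W m fun i _ => hW i)
  rw [zero_add] at h3
  exact sup_mono h1 h3

theorem eval_one (T S : Fin n → Polynomial ℂ) (F : MvPolynomial (Fin n) ℂ) :
    (aeval (fun j => ln (T j) (S j)) F).eval 1 = aeval (fun j => T j + S j) F := by
  have h := MvPolynomial.comp_aeval_apply (f := fun j => ln (T j) (S j))
    ((Polynomial.aeval (1 : Polynomial ℂ)).restrictScalars ℂ) F
  rw [AlgHom.restrictScalars_apply, Polynomial.coe_aeval_eq_eval] at h
  rw [h]
  congr 2
  funext j
  unfold ln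
  rw [AlgHom.restrictScalars_apply, Polynomial.coe_aeval_eq_eval]
  simp

theorem congr_mod {ε : ℕ} {a b : Fin n → PowerSeries ℂ}
    (h : ∀ j, (PowerSeries.X : PowerSeries ℂ) ^ ε ∣ a j - b j) (F : MvPolynomial (Fin n) ℂ) :
    (PowerSeries.X : PowerSeries ℂ) ^ ε ∣ aeval a F - aeval b F := by
  induction F using MvPolynomial.induction_on with
  | C c => rw [aeval_C, aeval_C, sub_self]; exact dvd_zero _
  | add p q hp hq =>
    rw [map_add, map_add, add_sub_add_comm]
    exact dvd_add hp hq
  | mul_X p i hp =>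
    rw [map_mul, map_mul, aeval_X, aeval_X]
    have : aeval a p * a i - aeval b p * b i =
      (aeval a p - aeval b p) * a i + aeval b p * (a i - b i) := by ring
    rw [this]
    exact dvd_add (hp.mul_right _) ((h i).mul_left _)

theorem coe_aeval (T : Fin n → Polynomial ℂ) (F : MvPolynomial (Fin n) ℂ) :
    aeval (fun j => ((T j : Polynomial ℂ) : PowerSeries ℂ)) F =
      ((aeval T F : Polynomial ℂ) : PowerSeries ℂ) := by
  have := MvPolynomial.comp_aeval_apply (f := T) (Polynomial.coeToPowerSeries.algHom ℂ) F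
  rw [Polynomial.coeToPowerSeries.algHom_apply] at this
  rw [show ((aeval T F : Polynomial ℂ) : PowerSeries ℂ) =
    PowerSeries.map (algebraMap ℂ ℂ) (aeval T F : Polynomial ℂ) by
      simp, this]
  congr 2

/-- **Relations are preserved along the line.** -/
theorem rel {D ε : ℕ} {a : Fin n → PowerSeries ℂ} {T S : Fin n → Polynomial ℂ}
    (hT : ∀ j i, (T j).coeff i ≠ 0 → i ≤ α) (hS : ∀ j i, (S j).coeff i ≠ 0 → β ≤ i ∧ i ≤ γ)
    (ha : ∀ j, ∀ i < ε, PowerSeries.coeff i (a j) = (T j + S j).coeff i)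
    (hαγ : α ≤ γ) (h1 : D * α < β) (h2 : D * γ < (D + 1) * β) (h3 : D * γ < ε)
    {F : MvPolynomial (Fin n) ℂ} (hF : F.totalDegree ≤ D) (h0 : aeval a F = 0) :
    aeval (fun j => ln (T j) (S j)) F = 0 := by
  have hs : Sup α β γ D (aeval (fun j => ln (T j) (S j)) F) :=
    sup_deg (fun j => Sup.ln (hT j) (hS j)) hF
  have he : (aeval (fun j => ln (T j) (S j)) F).eval 1 = aeval (fun j => T j + S j) F :=
    eval_one T S F
  have h5 : (aeval (fun j => ln (T j) (S j)) F).eval 1 = 0 := by
    ext i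
    rw [Polynomial.coeff_zero]
    rcases lt_or_ge i ε with hi | hi
    · rw [he]
      have h6 := congr_mod (ε := ε) (a := a)
        (b := fun j => ((T j + S j : Polynomial ℂ) : PowerSeries ℂ)) (by
          intro j
          rw [PowerSeries.X_pow_dvd_iff]
          intro m hm
          rw [map_sub, Polynomial.coeff_coe, ha j m hm, sub_self]) F
      rw [PowerSeries.X_pow_dvd_iff] at h6
      have h7 := h6 i hi
      rw [coe_aeval (fun j => T j + S j), h0, map_sub, map_zero, zero_sub, neg_eq_zero,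
        Polynomial.coeff_coe] at h7
      exact h7
    · by_contra hne
      rw [Polynomial.eval_eq_sum_range, Polynomial.finsetSum_coeff] at hne
      obtain ⟨j, -, hj⟩ := Finset.exists_ne_zero_of_sum_ne_zero hne
      rw [one_pow, mul_one] at hj
      obtain ⟨p1, p2, p3⟩ := hs j i hj
      obtain ⟨e, rfl⟩ : ∃ e, D = j + e := ⟨D - j, by omega⟩
      have q1 : e * α ≤ e * γ := Nat.mul_le_mul_left _ hαγ
      nlinarith
  exact Sup.sep le_rfl h1 h2 hs h5

theorem evalLn (T S : Fin n → Polynomial ℂ) (F : MvPolynomial (Fin n) ℂ) (z w : ℂ) :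
    ((aeval (fun j => ln (T j) (S j)) F).eval (Polynomial.C w)).eval z =
      eval (fun j => (T j).eval z + w * (S j).eval z) F := by
  have h := MvPolynomial.comp_aeval_apply (f := fun j => ln (T j) (S j))
    ((Polynomial.aeval z).comp
      ((Polynomial.aeval (Polynomial.C w : Polynomial ℂ)).restrictScalars ℂ)) F
  rw [AlgHom.comp_apply, AlgHom.restrictScalars_apply, Polynomial.coe_aeval_eq_eval,
    Polynomial.coe_aeval_eq_eval] at h
  rw [h, ← MvPolynomial.aeval_eq_eval]
  congr 2
  funext j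
  rw [AlgHom.comp_apply, AlgHom.restrictScalars_apply, Polynomial.coe_aeval_eq_eval,
    Polynomial.coe_aeval_eq_eval]
  unfold ln
  simp only [Polynomial.eval_add, Polynomial.eval_C, Polynomial.eval_mul, Polynomial.eval_X]

theorem ps_aeval {r : ℝ} {A : Fin n → PowerSeries ℂ} {f : ℂ → Fin n → ℂ}
    (h : ∀ j, PS r (A j) (fun z => f z j)) (F : MvPolynomial (Fin n) ℂ) :
    PS r (MvPolynomial.aeval A F) (fun z => eval (f z) F) := by
  induction F using MvPolynomial.induction_on with
  | C c =>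
    rw [aeval_C]
    simpa only [eval_C] using PS.const r c
  | add p q hp hq =>
    rw [map_add]
    simpa only [map_add] using hp.add hq
  | mul_X p i hp =>
    rw [map_mul, aeval_X]
    simpa only [map_mul, eval_X] using hp.mul (h i)

/-- The curve `f` in the affine space is given on the disc `|z| < r` by the power series
`∑ z ^ i a i`. -/
def Series (r : ℝ) (a : ℕ → Fin n → ℂ) (f : ℂ → Fin n → ℂ) : Prop :=
  ∀ z : ℂ, ‖z‖ < r → HasSum (fun i => z ^ i • a i) (f z)

/-- The block of exponents `[β, γ]` of the power series `∑ z ^ i a i` is not zero and is isolated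
with the factor `D`: it is short, `D γ < (D + 1) β`, and there are no other exponents between
`β / D` and `D γ`. -/
structure Block (D : ℕ) (a : ℕ → Fin n → ℂ) (β γ : ℕ) : Prop where
  le : β ≤ γ
  short : D * γ < (D + 1) * β
  below : ∀ i, i < β → β ≤ D * i → a i = 0
  above : ∀ i, γ < i → i ≤ D * γ → a i = 0
  ne : ∃ i, β ≤ i ∧ i ≤ γ ∧ a i ≠ 0

/-- The power series has infinitely many nonzero isolated blocks of exponents. -/
def Blocks (D : ℕ) (a : ℕ → Fin n → ℂ) : Prop := ∀ L : ℕ, ∃ β γ, L ≤ γ ∧ Block D a β γ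

/-- The power series has infinitely many gaps `(α, β)` with `D α < β`. -/
def Gaps (D : ℕ) (a : ℕ → Fin n → ℂ) : Prop :=
  ∀ L : ℕ, ∃ α β, L ≤ β ∧ D * α < β ∧ ∀ i, α < i → i < β → a i = 0

noncomputable def ser (a : ℕ → Fin n → ℂ) (j : Fin n) : PowerSeries ℂ :=
  PowerSeries.mk fun i => a i j

noncomputable def tp (a : ℕ → Fin n → ℂ) (s : Finset ℕ) (j : Fin n) : Polynomial ℂ :=
  ∑ i ∈ s, Polynomial.monomial i (a i j)

theorem coeff_tp (a : ℕ → Fin n → ℂ) (s : Finset ℕ) (j : Fin n) (i : ℕ) :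
    (tp a s j).coeff i = if i ∈ s then a i j else 0 := by
  unfold tp
  rw [Polynomial.finsetSum_coeff]
  simp only [Polynomial.coeff_monomial]
  rw [Finset.sum_ite_eq' s i]

theorem ps_ser {r : ℝ} {a : ℕ → Fin n → ℂ} {f : ℂ → Fin n → ℂ} (hs : Series r a f) (j : Fin n) :
    PS r (ser a j) (fun z => f z j) := by
  intro z hz
  have h1 := (Pi.hasSum.1 (hs z hz)) j
  simpa only [ser, PowerSeries.coeff_mk, Pi.smul_apply, smul_eq_mul, mul_comm] using h1

theorem rel_zero {r : ℝ} (hr : 0 < r) {a : ℕ → Fin n → ℂ} {f : ℂ → Fin n → ℂ}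
    (hs : Series r a f) {F : MvPolynomial (Fin n) ℂ} (h : ∀ z : ℂ, ‖z‖ < r → eval (f z) F = 0) :
    aeval (ser a) F = 0 := PS.eq_zero hr (ps_aeval (ps_ser hs) F) h

/-- the line given by a block -/
theorem line_eval {D : ℕ} (hD : 1 ≤ D) {a : ℕ → Fin n → ℂ} {β γ : ℕ}
    (hI : Block D a β γ) {F : MvPolynomial (Fin n) ℂ} (hF : F.totalDegree ≤ D)
    (h0 : aeval (ser a) F = 0) (z w : ℂ) :
    eval (fun j => (tp a (Finset.range β) j).eval z + w * (tp a (Finset.Icc β γ) j).eval z) F =
      0 := by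
  classical
  have hβ : 0 < β := by
    rcases Nat.eq_zero_or_pos β with h | h
    · have := hI.short
      rw [h, mul_zero] at this
      omega
    · exact h
  -- the last exponent before the gap
  obtain ⟨α, hα⟩ : ∃ α, α = (β - 1) / D := ⟨_, rfl⟩
  have hα1 : D * α < β := by
    have := Nat.mul_div_le (β - 1) D
    rw [← hα] at this
    omega
  have hα2 : ∀ i, α < i → i < β → a i = 0 := by
    intro i h1 h2
    apply hI.below i h2
    have h3 : (β - 1) / D < i := hα ▸ h1
    rw [Nat.div_lt_iff_lt_mul (by omega)] at h3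
    rw [mul_comm]
    omega
  have hαγ : α ≤ γ := by
    have : α ≤ D * α := Nat.le_mul_of_pos_left _ (by omega)
    have := hI.le
    omega
  have hTα : ∀ j i, (tp a (Finset.range β) j).coeff i ≠ 0 → i ≤ α := by
    intro j i h
    rw [coeff_tp] at h
    split_ifs at h with h1
    · by_contra h2
      rw [Finset.mem_range] at h1
      rw [hα2 i (by omega) h1] at h
      exact h rfl
    · exact absurd rfl h
  have hSβ : ∀ j i, (tp a (Finset.Icc β γ) j).coeff i ≠ 0 → β ≤ i ∧ i ≤ γ := by
    intro j i h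
    rw [coeff_tp] at h
    split_ifs at h with h1
    · exact Finset.mem_Icc.1 h1
    · exact absurd rfl h
  have hTS : ∀ j, ∀ i < D * γ + 1, PowerSeries.coeff i (ser a j) =
      (tp a (Finset.range β) j + tp a (Finset.Icc β γ) j).coeff i := by
    intro j i hi
    rw [Polynomial.coeff_add, coeff_tp, coeff_tp, ser, PowerSeries.coeff_mk]
    by_cases h1 : i < β
    · rw [if_pos (Finset.mem_range.2 h1), if_neg (by rw [Finset.mem_Icc]; omega), add_zero]
    · rw [if_neg (by rw [Finset.mem_range]; omega), zero_add]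
      by_cases h2 : i ≤ γ
      · rw [if_pos (Finset.mem_Icc.2 ⟨by omega, h2⟩)]
      · rw [if_neg (by rw [Finset.mem_Icc]; omega), hI.above i (by omega) (by omega)]
        rfl
  have h1 := rel (α := α) (β := β) (γ := γ) hTα hSβ hTS hαγ hα1 hI.short
    (Nat.lt_succ_self _) hF h0
  have h2 := evalLn (tp a (Finset.range β)) (tp a (Finset.Icc β γ)) F z w
  rw [h1, Polynomial.eval_zero, Polynomial.eval_zero] at h2
  exact h2.symm

theorem eval_aeval (T : Fin n → Polynomial ℂ) (G : MvPolynomial (Fin n) ℂ) (z : ℂ) :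
    (aeval T G : Polynomial ℂ).eval z = eval (fun j => (T j).eval z) G := by
  have h2 := MvPolynomial.comp_aeval_apply (f := T) (Polynomial.aeval z) G
  rw [Polynomial.coe_aeval_eq_eval] at h2
  rw [h2, MvPolynomial.aeval_eq_eval]

theorem trunc {a : ℕ → Fin n → ℂ} {T : Fin n → Polynomial ℂ} {ε : ℕ}
    (hT : ∀ j, ∀ i < ε, PowerSeries.coeff i (ser a j) = (T j).coeff i)
    {G : MvPolynomial (Fin n) ℂ} (hG : (aeval T G : Polynomial ℂ) = 0) (m : ℕ)
    (hm : m < ε) : PowerSeries.coeff m (aeval (ser a) G) = 0 := by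
  have h6 := congr_mod (ε := ε) (a := ser a)
    (b := fun j => ((T j : Polynomial ℂ) : PowerSeries ℂ)) (by
      intro j
      rw [PowerSeries.X_pow_dvd_iff]
      intro m hm
      rw [map_sub, Polynomial.coeff_coe, hT j m hm, sub_self]) G
  rw [PowerSeries.X_pow_dvd_iff] at h6
  rw [coe_aeval, hG] at h6
  have h9 := h6 m hm
  simpa using h9

/-- **Lacunary curves in affine varieties.** `X` is a set of points which is the zero set of
polynomials of degree at most `D`; a polynomial which vanishes on all lines in `X` vanishes on all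
curves in `X` with infinitely many isolated blocks. -/
theorem vanish {D : ℕ} (hD : 1 ≤ D) {X : Set (Fin n → ℂ)}
    (hX : ∀ x, (∀ F : MvPolynomial (Fin n) ℂ, F.totalDegree ≤ D → (∀ y ∈ X, eval y F = 0) →
      eval x F = 0) → x ∈ X) {G : MvPolynomial (Fin n) ℂ}
    (hG : ∀ x v : Fin n → ℂ, v ≠ 0 → (∀ t : ℂ, x + t • v ∈ X) → ∀ t : ℂ, eval (x + t • v) G = 0)
    {r : ℝ} (hr : 0 < r) {a : ℕ → Fin n → ℂ} {f : ℂ → Fin n → ℂ} (hs : Series r a f)
    (hf : ∀ z : ℂ, ‖z‖ < r → f z ∈ X) (hb : Blocks D a) {z : ℂ} (hz : ‖z‖ < r) :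
    eval (f z) G = 0 := by
  classical
  suffices hGA : aeval (ser a) G = 0 by
    have h1 := ps_aeval (ps_ser hs) G
    rw [hGA] at h1
    exact h1.zero hz
  ext m
  rw [map_zero]
  obtain ⟨β, γ, hL, hI⟩ := hb m
  obtain ⟨i0, hi1, hi2, hi3⟩ := hI.ne
  obtain ⟨j0, hj0⟩ := Function.ne_iff.1 hi3
  let T : Fin n → Polynomial ℂ := fun j => tp a (Finset.range β) j + tp a (Finset.Icc β γ) j
  have hγ : γ ≤ D * γ := Nat.le_mul_of_pos_left _ (by omega)
  refine trunc (T := T) (ε := D * γ + 1) ?_ ?_ m (by omega)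
  · intro j i hi
    change _ = (tp a (Finset.range β) j + tp a (Finset.Icc β γ) j).coeff i
    rw [Polynomial.coeff_add, coeff_tp, coeff_tp, ser, PowerSeries.coeff_mk]
    by_cases h1 : i < β
    · rw [if_pos (Finset.mem_range.2 h1), if_neg (by rw [Finset.mem_Icc]; omega), add_zero]
    · rw [if_neg (by rw [Finset.mem_range]; omega), zero_add]
      by_cases h2 : i ≤ γ
      · rw [if_pos (Finset.mem_Icc.2 ⟨by omega, h2⟩)]
      · rw [if_neg (by rw [Finset.mem_Icc]; omega), hI.above i (by omega) (by omega)]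
        rfl
  · have hGz : ∀ z : ℂ, (tp a (Finset.Icc β γ) j0).eval z ≠ 0 →
        eval (fun j => (T j).eval z) G = 0 := by
      intro z hne
      have h1 := hG (fun j => (tp a (Finset.range β) j).eval z)
        (fun j => (tp a (Finset.Icc β γ) j).eval z) (fun h0 => hne (congrFun h0 j0)) (by
          intro w
          apply hX
          intro F hF hFX
          exact line_eval hD hI hF (rel_zero hr hs fun z hz => hFX _ (hf z hz)) z w) 1
      have h2 : (fun j => (T j).eval z) = (fun j => (tp a (Finset.range β) j).eval z) +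
          (1 : ℂ) • fun j => (tp a (Finset.Icc β γ) j).eval z := by
        funext j
        simp only [T, Polynomial.eval_add, Pi.add_apply, one_smul]
      rw [h2]
      exact h1
    have hpoly : (aeval T G : Polynomial ℂ) * tp a (Finset.Icc β γ) j0 = 0 := by
      apply Polynomial.funext
      intro z
      rw [Polynomial.eval_mul, Polynomial.eval_zero]
      by_cases hne : (tp a (Finset.Icc β γ) j0).eval z = 0
      · rw [hne, mul_zero]
      · rw [eval_aeval, hGz z hne, zero_mul]
    refine (mul_eq_zero.1 hpoly).resolve_right fun h0 => hj0 ?_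
    have h1 := coeff_tp a (Finset.Icc β γ) j0 i0
    rw [h0, Polynomial.coeff_zero, if_pos (Finset.mem_Icc.2 ⟨hi1, hi2⟩)] at h1
    exact h1.symm

/-- **Gaps.** A polynomial which vanishes on all nonconstant polynomial curves in `X` vanishes on
all nonconstant curves in `X` with infinitely many gaps. -/
theorem vanish_gap {D : ℕ} (hD : 1 ≤ D) {X : Set (Fin n → ℂ)}
    (hX : ∀ x, (∀ F : MvPolynomial (Fin n) ℂ, F.totalDegree ≤ D → (∀ y ∈ X, eval y F = 0) →
      eval x F = 0) → x ∈ X) {G : MvPolynomial (Fin n) ℂ}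
    (hG : ∀ T : Fin n → Polynomial ℂ, (∀ t : ℂ, (fun j => (T j).eval t) ∈ X) →
      (∃ u v j, (T j).eval u ≠ (T j).eval v) → ∀ t : ℂ, eval (fun j => (T j).eval t) G = 0)
    {r : ℝ} (hr : 0 < r) {a : ℕ → Fin n → ℂ} {f : ℂ → Fin n → ℂ} (hs : Series r a f)
    (hf : ∀ z : ℂ, ‖z‖ < r → f z ∈ X) (hnc : ∃ s t : ℂ, ‖s‖ < r ∧ ‖t‖ < r ∧ f s ≠ f t)
    (hb : Gaps D a) {z : ℂ} (hz : ‖z‖ < r) : eval (f z) G = 0 := by
  classical
  suffices hGA : aeval (ser a) G = 0 by
    have h1 := ps_aeval (ps_ser hs) G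
    rw [hGA] at h1
    exact h1.zero hz
  -- a nonzero coefficient
  obtain ⟨i0, hi0, hai0⟩ : ∃ i, i ≠ 0 ∧ a i ≠ 0 := by
    by_contra hno
    push Not at hno
    obtain ⟨s, t, hs', ht', hst⟩ := hnc
    apply hst
    have h1 : ∀ z : ℂ, ‖z‖ < r → f z = a 0 := by
      intro z hz
      have h2 := hasSum_single (f := fun i => z ^ i • a i) 0 (by
        intro i hi
        rw [hno i hi, smul_zero])
      rw [pow_zero, one_smul] at h2
      exact (hs z hz).unique h2
    rw [h1 s hs', h1 t ht']
  obtain ⟨j0, hj0⟩ := Function.ne_iff.1 hai0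
  ext m
  rw [map_zero]
  obtain ⟨α, β, hL, hαβ, hgap⟩ := hb (max (i0 + 1) (m + 1))
  have hα : α ≤ D * α := Nat.le_mul_of_pos_left _ (by omega)
  have hco : ∀ j, ∀ i < β, (tp a (Finset.range (α + 1)) j).coeff i = a i j := by
    intro j i hi
    rw [coeff_tp]
    split_ifs with h
    · rfl
    · rw [hgap i (by rw [Finset.mem_range] at h; omega) hi]
      rfl
  refine trunc (T := tp a (Finset.range (α + 1))) (ε := β) ?_ ?_ m (by omega)
  · intro j i hi
    rw [hco j i hi, ser, PowerSeries.coeff_mk]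
  · apply Polynomial.funext
    intro z
    rw [eval_aeval, Polynomial.eval_zero]
    refine hG _ (fun t => ?_) ?_ z
    · apply hX
      intro F hF hFX
      have hTα : ∀ j i, (tp a (Finset.range (α + 1)) j).coeff i ≠ 0 → i ≤ α := by
        intro j i h
        rw [coeff_tp] at h
        split_ifs at h with h1
        · rw [Finset.mem_range] at h1
          omega
        · exact absurd rfl h
      have hSβ : ∀ (j : Fin n) i, ((fun _ => 0 : Fin n → Polynomial ℂ) j).coeff i ≠ 0 →
          β ≤ i ∧ i ≤ α := by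
        intro j i h
        exact absurd (Polynomial.coeff_zero i) h
      have hTS : ∀ j, ∀ i < β, PowerSeries.coeff i (ser a j) =
          (tp a (Finset.range (α + 1)) j + (fun _ => 0 : Fin n → Polynomial ℂ) j).coeff i := by
        intro j i hi
        rw [add_zero, hco j i hi, ser, PowerSeries.coeff_mk]
      have h1 := rel (α := α) (β := β) (γ := α) hTα hSβ hTS le_rfl hαβ
        (by rw [add_mul]; omega) hαβ hF (rel_zero hr hs fun z hz => hFX _ (hf z hz))
      have h2 := evalLn (tp a (Finset.range (α + 1))) (fun _ => 0) F t 0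
      rw [h1, Polynomial.eval_zero, Polynomial.eval_zero] at h2
      rw [h2]
      congr 2
      funext j
      rw [zero_mul, add_zero]
    · by_contra hcon
      push Not at hcon
      have h1 : tp a (Finset.range (α + 1)) j0 =
          Polynomial.C ((tp a (Finset.range (α + 1)) j0).eval 0) := Polynomial.funext fun u => by
        rw [Polynomial.eval_C]
        exact hcon u 0 j0
      have h2 := hco j0 i0 (by omega)
      rw [h1, Polynomial.coeff_C, if_neg hi0] at h2
      exact hj0 h2.symm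

open Classical in
/-- the coefficients of the gap series through the line -/
noncomputable def lac (D : ℕ) (x v : Fin n → ℂ) (i : ℕ) : Fin n → ℂ :=
  if i = 0 then x else if ∃ k : ℕ, i = (D + 1) ^ (k + 1) then ((i.factorial : ℂ)⁻¹) • v else 0

theorem lac_ne {D : ℕ} {x v : Fin n → ℂ} {i : ℕ} (h : lac D x v i ≠ 0) :
    i = 0 ∨ ∃ k : ℕ, i = (D + 1) ^ (k + 1) := by
  unfold lac at h
  split_ifs at h with h1 h2
  · exact Or.inl h1
  · exact Or.inr h2
  · exact absurd rfl h

/-- Every point of a line is on an entire curve in the line with infinitely many isolated blocks. -/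
theorem lac_curve {D : ℕ} (hD : 1 ≤ D) (x : Fin n → ℂ) {v : Fin n → ℂ} (hv : v ≠ 0) :
    ∃ (a : ℕ → Fin n → ℂ) (f : ℂ → Fin n → ℂ), (∀ r : ℝ, Series r a f) ∧ Blocks D a ∧ f 0 = x ∧
      ∀ z, ∃ t : ℂ, f z = x + t • v := by
  classical
  let b : ℕ → ℂ := fun i => if i ≠ 0 ∧ ∃ k : ℕ, i = (D + 1) ^ (k + 1) then
    ((i.factorial : ℂ)⁻¹) else 0
  have hb : ∀ z : ℂ, Summable fun i => z ^ i * b i := by
    intro z
    refine Summable.of_norm_bounded (NormedSpace.expSeries_div_summable z).norm fun i => ?_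
    change ‖z ^ i * b i‖ ≤ ‖z ^ i / (i.factorial : ℂ)‖
    rw [norm_mul, norm_div, div_eq_mul_inv, ← norm_inv]
    refine mul_le_mul_of_nonneg_left ?_ (norm_nonneg _)
    change ‖(if i ≠ 0 ∧ ∃ k : ℕ, i = (D + 1) ^ (k + 1) then ((i.factorial : ℂ)⁻¹) else 0)‖ ≤ _
    split_ifs
    · exact le_rfl
    · rw [norm_zero]; exact norm_nonneg _
  let g : ℂ → ℂ := fun z => ∑' i, z ^ i * b i
  have hg : ∀ z, HasSum (fun i => z ^ i * b i) (g z) := fun z => (hb z).hasSum
  have hb0 : b 0 = 0 := if_neg (fun h => h.1 rfl)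
  have hg0 : g 0 = 0 := by
    have h1 := hg 0
    have h2 : (fun i => (0 : ℂ) ^ i * b i) = fun _ => 0 := by
      funext i
      rcases Nat.eq_zero_or_pos i with rfl | hi
      · rw [hb0, mul_zero]
      · rw [zero_pow hi.ne', zero_mul]
    rw [h2] at h1
    exact h1.unique hasSum_zero
  have hlac : ∀ i, lac D x v i = (if i = 0 then x else 0) + b i • v := by
    intro i
    unfold lac
    by_cases h0 : i = 0
    · subst h0
      rw [if_pos rfl, if_pos rfl, hb0, zero_smul, add_zero]
    · rw [if_neg h0, if_neg h0, zero_add]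
      change _ = (if i ≠ 0 ∧ ∃ k : ℕ, i = (D + 1) ^ (k + 1) then ((i.factorial : ℂ)⁻¹) else 0) • v
      by_cases h1 : ∃ k : ℕ, i = (D + 1) ^ (k + 1)
      · rw [if_pos h1, if_pos ⟨h0, h1⟩]
      · rw [if_neg h1, if_neg (fun h => h1 h.2), zero_smul]
  refine ⟨lac D x v, fun z => x + g z • v, fun r z _ => ?_, ?_, ?_, fun z => ⟨g z, rfl⟩⟩
  · have h1 : HasSum (fun i => z ^ i • ((if i = 0 then x else 0 : Fin n → ℂ))) x := by
      have h2 := hasSum_single (f := fun i => z ^ i • ((if i = 0 then x else 0 :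
        Fin n → ℂ))) 0 (by
          intro i hi
          rw [if_neg hi, smul_zero])
      rwa [pow_zero, if_pos rfl, one_smul] at h2
    have h3 : HasSum (fun i => (z ^ i * b i) • v) (g z • v) := (hg z).smul_const v
    refine (h1.add h3).congr_fun ?_
    intro i
    rw [hlac, smul_add, smul_smul]
  · intro L
    refine ⟨(D + 1) ^ (L + 1), (D + 1) ^ (L + 1), ?_, le_rfl, ?_, ?_, ?_,
      (D + 1) ^ (L + 1), le_rfl, le_rfl, ?_⟩
    · have h1 : L + 1 < (D + 1) ^ (L + 1) := Nat.lt_pow_self (by omega)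
      omega
    · have h1 : 0 < (D + 1) ^ (L + 1) := by positivity
      rw [add_mul]
      omega
    · intro i h1 h2
      by_contra h3
      rcases lac_ne h3 with h4 | ⟨k, h4⟩
      · rw [h4, mul_zero] at h2
        have h1 : 0 < (D + 1) ^ (L + 1) := by positivity
        omega
      · have h5 : k + 1 < L + 1 := by
          by_contra h6
          have := Nat.pow_le_pow_right (show 0 < D + 1 by omega) (show L + 1 ≤ k + 1 by omega)
          omega
        have h6 : (D + 1) ^ (k + 2) ≤ (D + 1) ^ (L + 1) :=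
          Nat.pow_le_pow_right (by omega) (by omega)
        have h7 : (D + 1) ^ (k + 2) = (D + 1) * (D + 1) ^ (k + 1) := by ring
        have h8 : 0 < (D + 1) ^ (k + 1) := by positivity
        rw [h4] at h2
        rw [h7, add_mul] at h6
        omega
    · intro i h1 h2
      by_contra h3
      rcases lac_ne h3 with h4 | ⟨k, h4⟩
      · omega
      · have h5 : L + 1 < k + 1 := by
          by_contra h6
          have := Nat.pow_le_pow_right (show 0 < D + 1 by omega) (show k + 1 ≤ L + 1 by omega)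
          omega
        have h6 : (D + 1) ^ (L + 2) ≤ (D + 1) ^ (k + 1) :=
          Nat.pow_le_pow_right (by omega) (by omega)
        have h7 : (D + 1) ^ (L + 2) = (D + 1) * (D + 1) ^ (L + 1) := by ring
        have h8 : 0 < (D + 1) ^ (L + 1) := by positivity
        rw [h7, add_mul] at h6
        omega
    · have hN : 0 < (D + 1) ^ (L + 1) := by positivity
      unfold lac
      rw [if_neg hN.ne', if_pos ⟨L, rfl⟩]
      exact smul_ne_zero (inv_ne_zero (Nat.cast_ne_zero.2 (Nat.factorial_ne_zero _))) hv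
  · change x + g 0 • v = x
    rw [hg0, zero_smul, add_zero]

theorem map_eval₂ {R A A' : Type} [CommRing R] [CommRing A] [CommRing A'] (φ : R →+* A)
    (g : A →+* A') (p : Fin n → Polynomial A) (G : MvPolynomial (Fin n) R) :
    (eval₂ (Polynomial.C.comp φ) p G).map g =
      eval₂ (Polynomial.C.comp (g.comp φ)) (fun j => (p j).map g) G := by
  rw [← Polynomial.coe_mapRingHom, eval₂_comp_left]
  congr 1
  · ext r
    simp

theorem ev_eval₂ {R A : Type} [CommRing R] [CommRing A] (φ : R →+* A) (p : Fin n → Polynomial A)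
    (G : MvPolynomial (Fin n) R) (u : A) :
    (eval₂ (Polynomial.C.comp φ) p G).eval u = eval₂ φ (fun j => (p j).eval u) G := by
  rw [← Polynomial.coe_evalRingHom, eval₂_comp_left]
  congr 1
  ext r
  simp

/-- the line as a polynomial curve -/
noncomputable def lnp {A : Type} [CommRing A] (x v : Fin n → A) (j : Fin n) : Polynomial A :=
  Polynomial.C (x j) + Polynomial.X * Polynomial.C (v j)

theorem map_lnp {A A' : Type} [CommRing A] [CommRing A'] (g : A →+* A') (x v : Fin n → A) :
    (fun j => (lnp x v j).map g) = lnp (fun j => g (x j)) (fun j => g (v j)) := by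
  funext j
  simp [lnp]

theorem ev_lnp {A : Type} [CommRing A] (x v : Fin n → A) (t : A) :
    (fun j => (lnp x v j).eval t) = x + t • v := by
  funext j
  simp only [lnp, Polynomial.eval_add, Polynomial.eval_C, Polynomial.eval_mul, Polynomial.eval_X,
    Pi.add_apply, Pi.smul_apply, smul_eq_mul]

/-- **Specialization of lines.** -/
theorem spec_aff {R k E : Type} [CommRing R] [Field k] [Field E] [Algebra k E] (φ : R →+* k)
    {I I' : Ideal (MvPolynomial (Fin n) R)} {x v : Fin n → E} (hv : v ≠ 0)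
    (hX : ∀ G ∈ I, eval₂ (Polynomial.C.comp ((algebraMap k E).comp φ)) (lnp x v) G = 0)
    (hne : ∃ G ∈ I', eval₂ (Polynomial.C.comp ((algebraMap k E).comp φ)) (lnp x v) G ≠ 0) :
    ∃ (L : Type) (_ : Field L) (_ : Algebra k L) (_ : FiniteDimensional k L)
      (x' v' : Fin n → L), v' ≠ 0 ∧
      (∀ G ∈ I, eval₂ (Polynomial.C.comp ((algebraMap k L).comp φ)) (lnp x' v') G = 0) ∧
      ∃ G ∈ I', eval₂ (Polynomial.C.comp ((algebraMap k L).comp φ)) (lnp x' v') G ≠ 0 := by
  classical
  obtain ⟨G', hG', hne⟩ := hne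
  obtain ⟨j0, hj0⟩ := Function.ne_iff.1 hv
  have hj0' : v j0 ≠ 0 := hj0
  let s : Finset E := Finset.univ.image x ∪ Finset.univ.image v ∪
    {(v j0)⁻¹, (eval₂ (Polynomial.C.comp ((algebraMap k E).comp φ)) (lnp x v) G').leadingCoeff⁻¹}
  let A := Algebra.adjoin k (s : Set E)
  have hs : ∀ x ∈ s, x ∈ A := fun x hx => Algebra.subset_adjoin hx
  have hA : Algebra.FiniteType k A :=
    ⟨(Subalgebra.fg_top A).2 ⟨s, rfl⟩⟩
  obtain ⟨m, hm⟩ := Ideal.exists_maximal A
  let _ : Field (A ⧸ m) := Ideal.Quotient.field m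
  have hft : Algebra.FiniteType k (A ⧸ m) :=
    Algebra.FiniteType.of_surjective (Ideal.Quotient.mkₐ k m) Ideal.Quotient.mk_surjective
  have hfin : Module.Finite k (A ⧸ m) := finite_of_finite_type_of_isJacobsonRing k (A ⧸ m)
  let θ : A →ₐ[k] A ⧸ m := Ideal.Quotient.mkₐ k m
  let X0 : Fin n → A := fun j => ⟨x j, hs _ (by simp [s])⟩
  let V0 : Fin n → A := fun j => ⟨v j, hs _ (by simp [s])⟩
  have hinj : Function.Injective (algebraMap A E) := Subtype.val_injective
  have hcur : ∀ G, (eval₂ (Polynomial.C.comp ((algebraMap k A).comp φ)) (lnp X0 V0) G).map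
      (algebraMap A E) = eval₂ (Polynomial.C.comp ((algebraMap k E).comp φ)) (lnp x v) G := by
    intro G
    rw [map_eval₂, map_lnp]
    congr 1
  have hcur' : ∀ G, (eval₂ (Polynomial.C.comp ((algebraMap k A).comp φ)) (lnp X0 V0) G).map
      (θ : A →+* A ⧸ m) = eval₂ (Polynomial.C.comp ((algebraMap k (A ⧸ m)).comp φ))
        (lnp (fun j => θ (X0 j)) fun j => θ (V0 j)) G := by
    intro G
    rw [map_eval₂, map_lnp]
    congr 1
  have hunit : ∀ x : A, ((x : E))⁻¹ ∈ s → (x : E) ≠ 0 → θ x ≠ 0 := by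
    intro x hx hx0 h0
    have h2 : x * ⟨_, hs _ hx⟩ = 1 := Subtype.ext (mul_inv_cancel₀ hx0)
    have h3 := congrArg θ h2
    rw [map_mul, h0, zero_mul, map_one] at h3
    exact zero_ne_one h3
  refine ⟨A ⧸ m, inferInstance, inferInstance, hfin, fun j => θ (X0 j), fun j => θ (V0 j), ?_,
    fun G hG => ?_, ⟨G', hG', ?_⟩⟩
  · intro h0
    exact hunit (V0 j0) (by simp [s, V0]) hj0' (congrFun h0 j0)
  · have h2 : eval₂ (Polynomial.C.comp ((algebraMap k A).comp φ)) (lnp X0 V0) G = 0 := by
      apply Polynomial.map_injective _ hinj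
      rw [hcur, hX G hG, Polynomial.map_zero]
    rw [← hcur', h2, Polynomial.map_zero]
  · rw [← hcur']
    intro h0
    set q := eval₂ (Polynomial.C.comp ((algebraMap k A).comp φ)) (lnp X0 V0) G' with hq
    have h2 : (q.leadingCoeff : E) =
        (eval₂ (Polynomial.C.comp ((algebraMap k E).comp φ)) (lnp x v) G').leadingCoeff := by
      rw [← hcur, Polynomial.leadingCoeff_map_of_injective hinj]
      rfl
    refine hunit q.leadingCoeff ?_ ?_ ?_
    · rw [h2]
      simp [s]
    · rw [h2]
      exact Polynomial.leadingCoeff_ne_zero.2 hne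
    · have h3 := congrArg (fun f => Polynomial.coeff f q.natDegree) h0
      simp only [Polynomial.coeff_map, Polynomial.coeff_zero] at h3
      exact h3

end Pool.Agent.Q64.LC.Af
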