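import Mathlib

/-!
Lacunary curves: algebraic relations between power series with an isolated block of exponents.
-/

set_option autoImplicit false

namespace Pool.Agent.Q64.LC

open MvPolynomial

/-- The coefficient of `w ^ j` has its exponents in `[j β, j γ + (d - j) α]`, and `j ≤ d`. -/
def Sup (α β γ d : ℕ) (P : Polynomial (Polynomial ℂ)) : Prop :=
  ∀ j i, (P.coeff j).coeff i ≠ 0 → j ≤ d ∧ j * β ≤ i ∧ i + j * α ≤ j * γ + d * α

variable {α β γ d : ℕ}

theorem Sup.mul {d' : ℕ} {P Q : Polynomial (Polynomial ℂ)} (hP : Sup α β γ d P)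
    (hQ : Sup α β γ d' Q) : Sup α β γ (d + d') (P * Q) := by
  intro j i h
  rw [Polynomial.coeff_mul, Polynomial.finsetSum_coeff] at h
  obtain ⟨⟨a, b⟩, hab, h1⟩ := Finset.exists_ne_zero_of_sum_ne_zero h
  rw [Polynomial.coeff_mul] at h1
  obtain ⟨⟨c, e⟩, hce, h2⟩ := Finset.exists_ne_zero_of_sum_ne_zero h1
  rw [Finset.HasAntidiagonal.mem_antidiagonal] at hab hce
  simp only at hab hce h2
  obtain ⟨p1, p2, p3⟩ := hP a c (left_ne_zero_of_mul h2)
  obtain ⟨q1, q2, q3⟩ := hQ b e (right_ne_zero_of_mul h2)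
  subst hab hce
  refine ⟨by omega, ?_, ?_⟩
  · rw [add_mul]; omega
  · rw [add_mul, add_mul, add_mul]; omega

theorem Sup.add {P Q : Polynomial (Polynomial ℂ)} (hP : Sup α β γ d P)
    (hQ : Sup α β γ d Q) : Sup α β γ d (P + Q) := by
  intro j i h
  rw [Polynomial.coeff_add, Polynomial.coeff_add] at h
  by_cases h1 : (P.coeff j).coeff i = 0
  · rw [h1, zero_add] at h
    exact hQ j i h
  · exact hP j i h1

theorem Sup.zero : Sup α β γ d 0 := by
  intro j i h
  simp at h

theorem Sup.const (c : ℂ) : Sup α β γ 0 (algebraMap ℂ (Polynomial (Polynomial ℂ)) c) := by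
  intro j i h
  have h1 : algebraMap ℂ (Polynomial (Polynomial ℂ)) c = Polynomial.C (Polynomial.C c) := rfl
  rw [h1, Polynomial.coeff_C] at h
  split_ifs at h with hj
  · subst hj
    rw [Polynomial.coeff_C] at h
    split_ifs at h with hi
    · subst hi; simp
    · exact absurd rfl h
  · simp at h

theorem Sup.sum {ι : Type*} (s : Finset ι) (P : ι → Polynomial (Polynomial ℂ))
    (h : ∀ i ∈ s, Sup α β γ d (P i)) : Sup α β γ d (∑ i ∈ s, P i) := by
  classical
  induction s using Finset.induction_on with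
  | empty => simpa using Sup.zero
  | insert a s ha ih =>
    rw [Finset.sum_insert ha]
    exact (h a (Finset.mem_insert_self _ _)).add (ih fun i hi => h i (Finset.mem_insert_of_mem hi))

theorem Sup.pow {P : Polynomial (Polynomial ℂ)} (hP : Sup α β γ 1 P) (k : ℕ) :
    Sup α β γ k (P ^ k) := by
  induction k with
  | zero => simpa using Sup.const (α := α) (β := β) (γ := γ) 1
  | succ k ih =>
    rw [pow_succ]
    exact ih.mul hP

theorem Sup.prod {ι : Type*} (s : Finset ι) (P : ι → Polynomial (Polynomial ℂ)) (m : ι → ℕ)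
    (h : ∀ i ∈ s, Sup α β γ 1 (P i)) : Sup α β γ (∑ i ∈ s, m i) (∏ i ∈ s, P i ^ m i) := by
  classical
  induction s using Finset.induction_on with
  | empty => simpa using Sup.const (α := α) (β := β) (γ := γ) 1
  | insert a s ha ih =>
    rw [Finset.sum_insert ha, Finset.prod_insert ha]
    exact ((h a (Finset.mem_insert_self _ _)).pow _).mul
      (ih fun i hi => h i (Finset.mem_insert_of_mem hi))

/-- the line `T + w S` -/
noncomputable def ln (T S : Polynomial ℂ) : Polynomial (Polynomial ℂ) :=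
  Polynomial.C T + Polynomial.X * Polynomial.C S

theorem Sup.ln {T S : Polynomial ℂ} (hT : ∀ i, T.coeff i ≠ 0 → i ≤ α)
    (hS : ∀ i, S.coeff i ≠ 0 → β ≤ i ∧ i ≤ γ) : Sup α β γ 1 (ln T S) := by
  intro j i h
  unfold LC.ln at h
  rw [Polynomial.coeff_add, Polynomial.coeff_add] at h
  match j, h with
  | 0, h =>
    rw [Polynomial.coeff_C_zero, Polynomial.mul_coeff_zero, Polynomial.coeff_X_zero, zero_mul,
      Polynomial.coeff_zero, add_zero] at h
    have := hT i h
    exact ⟨by omega, by omega, by omega⟩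
  | 1, h =>
    rw [Polynomial.coeff_X_mul, Polynomial.coeff_C_zero,
      Polynomial.coeff_C_of_ne_zero one_ne_zero, Polynomial.coeff_zero, zero_add] at h
    obtain ⟨h1, h2⟩ := hS i h
    exact ⟨le_rfl, by omega, by omega⟩
  | j + 2, h =>
    rw [Polynomial.coeff_X_mul, Polynomial.coeff_C_of_ne_zero (by omega),
      Polynomial.coeff_C_of_ne_zero (by omega)] at h
    simp at h

theorem Sup.form {n : ℕ} {W : Fin (n + 1) → Polynomial (Polynomial ℂ)}
    (hW : ∀ j, Sup α β γ 1 (W j)) {F : MvPolynomial (Fin (n + 1)) ℂ} (hF : F.IsHomogeneous d) :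
    Sup α β γ d (aeval W F) := by
  rw [F.as_sum, map_sum]
  refine Sup.sum _ _ fun m hm => ?_
  rw [aeval_monomial, Finsupp.prod_fintype _ _ fun i => pow_zero _]
  have h1 : ∑ i, m i = d := by
    have h2 := hF (mem_support_iff.1 hm)
    have h4 : Finsupp.degree m = d := by
      rw [← h2, Finsupp.degree_eq_weight_one]
      rfl
    rw [Finsupp.degree_eq_sum] at h4
    exact h4
  have h3 := (Sup.const (α := α) (β := β) (γ := γ) (coeff m F)).mul
    (Sup.prod Finset.univ W m fun i _ => hW i)
  rwa [zero_add, h1] at h3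

/-- **Separation.** -/
theorem Sup.sep {D : ℕ} (hd : d ≤ D) (h1 : D * α < β) (h2 : D * γ < (D + 1) * β)
    {P : Polynomial (Polynomial ℂ)} (hP : Sup α β γ d P) (h0 : P.eval 1 = 0) : P = 0 := by
  ext j i
  rw [Polynomial.coeff_zero, Polynomial.coeff_zero]
  by_contra hji
  have key : ∀ j j' : ℕ, j < j' → (P.coeff j).coeff i ≠ 0 → (P.coeff j').coeff i ≠ 0 → False := by
    intro j j' hjj a b
    obtain ⟨-, -, a3⟩ := hP j i a
    obtain ⟨b1, b2, -⟩ := hP j' i b
    obtain ⟨e, rfl⟩ : ∃ e, d = j + (e + 1) := ⟨d - j - 1, by omega⟩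
    have c1 : (j + 1) * β ≤ j' * β := Nat.mul_le_mul_right _ hjj
    have c2 : (j + 1) * β + j * α ≤ j * γ + (j + (e + 1)) * α := by omega
    have c3 : D * ((j + 1) * β + j * α) ≤ D * (j * γ + (j + (e + 1)) * α) :=
      Nat.mul_le_mul_left _ c2
    have c4 : j * (D * γ) ≤ j * ((D + 1) * β) := Nat.mul_le_mul_left _ h2.le
    have c5 : (e + 1) * (D * α + 1) ≤ (e + 1) * β := Nat.mul_le_mul_left _ h1
    have c6 : (j + (e + 1)) * β ≤ D * β := Nat.mul_le_mul_right _ hd
    nlinarith
  rw [Polynomial.eval_eq_sum_range] at h0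
  have h3 := congrArg (fun q : Polynomial ℂ => q.coeff i) h0
  simp only [one_pow, mul_one, Polynomial.finsetSum_coeff, Polynomial.coeff_zero] at h3
  rw [Finset.sum_eq_single j] at h3
  · exact hji h3
  · intro j' _ hne
    by_contra hne'
    rcases lt_or_gt_of_ne hne with h | h
    · exact key j' j h hne' hji
    · exact key j j' h hji hne'
  · intro hj
    rw [Finset.mem_range, not_lt] at hj
    rw [Polynomial.coeff_eq_zero_of_natDegree_lt (show P.natDegree < j by omega),
      Polynomial.coeff_zero]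

theorem eval_one_aeval {n : ℕ} (T S : Fin (n + 1) → Polynomial ℂ)
    (F : MvPolynomial (Fin (n + 1)) ℂ) :
    (aeval (fun j => ln (T j) (S j)) F).eval 1 = aeval (fun j => T j + S j) F := by
  have h := MvPolynomial.comp_aeval_apply (f := fun j => ln (T j) (S j))
    ((Polynomial.aeval (1 : Polynomial ℂ)).restrictScalars ℂ) F
  rw [AlgHom.restrictScalars_apply, Polynomial.coe_aeval_eq_eval] at h
  rw [h]
  congr 2
  funext j
  unfold ln
  rw [AlgHom.restrictScalars_apply, Polynomial.coe_aeval_eq_eval]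
  simp

theorem aeval_congr_mod {n ε : ℕ} {a b : Fin (n + 1) → PowerSeries ℂ}
    (h : ∀ j, (PowerSeries.X : PowerSeries ℂ) ^ ε ∣ a j - b j) (F : MvPolynomial (Fin (n + 1)) ℂ) :
    (PowerSeries.X : PowerSeries ℂ) ^ ε ∣ aeval a F - aeval b F := by
  induction F using MvPolynomial.induction_on with
  | C c => rw [aeval_C, aeval_C, sub_self]; exact dvd_zero _
  | add p q hp hq =>
    rw [map_add, map_add, add_sub_add_comm]
    exact dvd_add hp hq
  | mul_X p i hp =>
    rw [map_mul, map_mul, aeval_X, aeval_X]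
    have : aeval a p * a i - aeval b p * b i =
      (aeval a p - aeval b p) * a i + aeval b p * (a i - b i) := by ring
    rw [this]
    exact dvd_add (hp.mul_right _) ((h i).mul_left _)

/-- **Relations are preserved along the line.** -/
theorem line_rel {n D ε : ℕ} {a : Fin (n + 1) → PowerSeries ℂ} {T S : Fin (n + 1) → Polynomial ℂ}
    (hT : ∀ j i, (T j).coeff i ≠ 0 → i ≤ α) (hS : ∀ j i, (S j).coeff i ≠ 0 → β ≤ i ∧ i ≤ γ)
    (ha : ∀ j, ∀ i < ε, PowerSeries.coeff i (a j) = (T j + S j).coeff i)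
    (hαγ : α ≤ γ) (h1 : D * α < β) (h2 : D * γ < (D + 1) * β) (h3 : D * γ < ε)
    {F : MvPolynomial (Fin (n + 1)) ℂ} (hd : d ≤ D) (hF : F.IsHomogeneous d)
    {c : ℂ} (h0 : aeval a F = algebraMap ℂ (PowerSeries ℂ) c) :
    aeval (fun j => ln (T j) (S j)) F = algebraMap ℂ (Polynomial (Polynomial ℂ)) c := by
  have hs : Sup α β γ d (aeval (fun j => ln (T j) (S j)) F) := Sup.form (fun j => Sup.ln (hT j) (hS j)) hF
  have hs0 : Sup α β γ d (algebraMap ℂ (Polynomial (Polynomial ℂ)) (-c)) := by
    intro j i h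
    obtain ⟨p1, p2, p3⟩ := Sup.const (α := α) (β := β) (γ := γ) (-c) j i h
    exact ⟨by omega, p2, by omega⟩
  have hs' := hs.add hs0
  have he : (aeval (fun j => ln (T j) (S j)) F +
      algebraMap ℂ (Polynomial (Polynomial ℂ)) (-c)).eval 1 =
      aeval (fun j => T j + S j) F + Polynomial.C (-c) := by
    rw [Polynomial.eval_add, eval_one_aeval]
    congr 1
    exact Polynomial.eval_C
  have h5 : (aeval (fun j => ln (T j) (S j)) F +
      algebraMap ℂ (Polynomial (Polynomial ℂ)) (-c)).eval 1 = 0 := by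
    ext i
    rw [Polynomial.coeff_zero]
    rcases lt_or_ge i ε with hi | hi
    · rw [he]
      have h6 := aeval_congr_mod (ε := ε) (a := a)
        (b := fun j => ((T j + S j : Polynomial ℂ) : PowerSeries ℂ)) (by
          intro j
          rw [PowerSeries.X_pow_dvd_iff]
          intro m hm
          rw [map_sub, Polynomial.coeff_coe, ha j m hm, sub_self]) F
      rw [PowerSeries.X_pow_dvd_iff] at h6
      have h7 := h6 i hi
      have h8 : aeval (fun j => ((T j + S j : Polynomial ℂ) : PowerSeries ℂ)) F =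
          ((aeval (fun j => T j + S j) F : Polynomial ℂ) : PowerSeries ℂ) := by
        have := MvPolynomial.comp_aeval_apply (f := fun j => T j + S j)
          (Polynomial.coeToPowerSeries.algHom ℂ) F
        rw [Polynomial.coeToPowerSeries.algHom_apply] at this
        rw [show ((aeval (fun j => T j + S j) F : Polynomial ℂ) : PowerSeries ℂ) =
          PowerSeries.map (algebraMap ℂ ℂ) (aeval (fun j => T j + S j) F : Polynomial ℂ) by
            simp, this]
        congr 2
      rw [h8, h0, map_sub, Polynomial.coeff_coe] at h7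
      have h9 : PowerSeries.coeff i (algebraMap ℂ (PowerSeries ℂ) c) =
          (Polynomial.C c : Polynomial ℂ).coeff i := by
        rw [← Polynomial.coeff_coe]
        simp
      rw [h9] at h7
      rw [Polynomial.coeff_add, Polynomial.C_neg, Polynomial.coeff_neg]
      linear_combination -h7
    · by_contra hne
      rw [Polynomial.eval_eq_sum_range, Polynomial.finsetSum_coeff] at hne
      obtain ⟨j, -, hj⟩ := Finset.exists_ne_zero_of_sum_ne_zero hne
      rw [one_pow, mul_one] at hj
      obtain ⟨p1, p2, p3⟩ := hs' j i hj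
      obtain ⟨e, rfl⟩ : ∃ e, d = j + e := ⟨d - j, by omega⟩
      have q1 : e * α ≤ e * γ := Nat.mul_le_mul_left _ hαγ
      have q2 : (j + e) * γ ≤ D * γ := Nat.mul_le_mul_right _ hd
      nlinarith
  have h6 := Sup.sep hd h1 h2 hs' h5
  have h7 : algebraMap ℂ (Polynomial (Polynomial ℂ)) (-c) =
      - algebraMap ℂ (Polynomial (Polynomial ℂ)) c := map_neg _ _
  rw [h7, ← sub_eq_add_neg] at h6
  exact sub_eq_zero.1 h6

end Pool.Agent.Q64.LC
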