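import Pool.Agent.Q64.LC.Main

/-!
Power series with small coefficients in long blocks of exponents.
-/

set_option autoImplicit false

namespace Pool.Agent.Q64.LC

open MvPolynomial Filter Topology Pool.Agent.TH143.GT Pool.Agent.W602.GT Pool.Agent.W603.GR

variable {n : ℕ} {p : Ideal (MvPolynomial (Fin (n + 1)) ℂ)} {Q : MvPolynomial (Fin (n + 1)) ℂ}
  {q : ℕ}

/-- the polynomials with the coefficients `a i`, `i < M` -/
noncomputable def pf {M : ℕ} (a : Fin M → Fin (n + 1) → ℂ) (j : Fin (n + 1)) : Polynomial ℂ :=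
  ∑ i : Fin M, Polynomial.C (a i j) * Polynomial.X ^ (i : ℕ)

theorem coeff_pf {M : ℕ} (a : Fin M → Fin (n + 1) → ℂ) (j : Fin (n + 1)) {k : ℕ} (h : k < M) :
    (pf a j).coeff k = a ⟨k, h⟩ j := by
  unfold pf
  rw [Polynomial.finsetSum_coeff, Finset.sum_eq_single ⟨k, h⟩]
  · rw [Polynomial.coeff_C_mul, Polynomial.coeff_X_pow, if_pos rfl, mul_one]
  · intro i _ hne
    rw [Polynomial.coeff_C_mul, Polynomial.coeff_X_pow, if_neg, mul_zero]
    intro h1
    exact hne (Fin.ext h1.symm)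
  · exact fun h => absurd (Finset.mem_univ _) h

theorem coeff_pf' {M : ℕ} (a : Fin M → Fin (n + 1) → ℂ) (j : Fin (n + 1)) {k : ℕ} (h : M ≤ k) :
    (pf a j).coeff k = 0 := by
  unfold pf
  rw [Polynomial.finsetSum_coeff]
  refine Finset.sum_eq_zero fun i _ => ?_
  rw [Polynomial.coeff_C_mul, Polynomial.coeff_X_pow, if_neg, mul_zero]
  have := i.2
  omega

theorem continuous_pf {M : ℕ} (j : Fin (n + 1)) (k : ℕ) :
    Continuous fun a : Fin M → Fin (n + 1) → ℂ => (pf a j).coeff k := by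
  rcases lt_or_ge k M with h | h
  · simp only [coeff_pf _ _ h]
    exact (continuous_apply j).comp (continuous_apply (⟨k, h⟩ : Fin M))
  · simp only [coeff_pf' _ _ h]
    exact continuous_const

/-- the coefficients of a form depend continuously on the coefficients of the curve -/
theorem continuous_coeff {M : ℕ} (F : MvPolynomial (Fin (n + 1)) ℂ) (k : ℕ) :
    Continuous fun a : Fin M → Fin (n + 1) → ℂ => (aeval (pf a) F : Polynomial ℂ).coeff k := by
  induction F using MvPolynomial.induction_on generalizing k with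
  | C c =>
    simp only [MvPolynomial.algHom_C]
    exact continuous_const
  | add F G hF hG =>
    simp only [map_add, Polynomial.coeff_add]
    exact (hF k).add (hG k)
  | mul_X F i hF =>
    simp only [map_mul, aeval_X, Polynomial.coeff_mul]
    exact continuous_finsetSum _ fun x _ => (hF _).mul (continuous_pf _ _)

/-- **Compactness.** Approximate polynomial curves are close to polynomial curves. -/
theorem exists_eps {D : ℕ} (hQ : Q.IsHomogeneous q) (hqD : q ≤ D) (hcut : CutBy D p)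
    (m : ℕ) {η R δ : ℝ} (hη : 0 < η) (hδ : 0 < δ) :
    ∃ ε : ℝ, 0 < ε ∧ ∀ a : Fin (D * m + 1) → Fin (n + 1) → ℂ,
      (∀ i : Fin (D * m + 1), (i : ℕ) ≤ m → ‖a i‖ ≤ R) →
      (∀ i : Fin (D * m + 1), m < (i : ℕ) → ‖a i‖ ≤ ε) →
      (∃ (i i' : Fin (D * m + 1)) (j k : Fin (n + 1)), δ ≤ ‖a i j * a i' k - a i k * a i' j‖) →
      (∀ F ∈ p, ∀ d ≤ D, F.IsHomogeneous d → ∀ k ≤ D * m, (aeval (pf a) F : Polynomial ℂ).coeff k = 0)
      → (∃ c : ℂ, δ ≤ ‖c‖ ∧ ∀ k ≤ D * m, (aeval (pf a) Q : Polynomial ℂ).coeff k =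
        (Polynomial.C c).coeff k) →
      ∃ T, PolyCurve p Q T ∧ (∀ j, (T j).natDegree ≤ m) ∧
        ∀ (j : Fin (n + 1)) (i : Fin (D * m + 1)), ‖(T j).coeff i - a i j‖ ≤ η := by
  classical
  by_contra hno
  push Not at hno
  have hk : ∀ k : ℕ, (0 : ℝ) < 1 / (k + 1) := fun k => by positivity
  choose a h1 h2 h3 h4 h5 h6 using fun k : ℕ => hno _ (hk k)
  choose c hc1 hc2 using h5
  -- a convergent subsequence
  have hmem : ∀ k, a k ∈ Metric.closedBall (0 : Fin (D * m + 1) → Fin (n + 1) → ℂ)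
      (max R 1) := by
    intro k
    rw [mem_closedBall_zero_iff, pi_norm_le_iff_of_nonneg (by positivity)]
    intro i
    rcases le_or_gt (i : ℕ) m with hi | hi
    · exact (h1 k i hi).trans (le_max_left _ _)
    · refine (h2 k i hi).trans (le_trans ?_ (le_max_right _ _))
      rw [div_le_one (by positivity)]
      have : (0 : ℝ) ≤ k := Nat.cast_nonneg _
      linarith
  obtain ⟨b, -, φ, hφ, hb⟩ := (isCompact_closedBall _ _).tendsto_subseq hmem
  have hbi : ∀ i, Tendsto (fun k => a (φ k) i) atTop (𝓝 (b i)) := fun i =>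
    ((continuous_apply i).tendsto b).comp hb
  have hb0 : ∀ i : Fin (D * m + 1), m < (i : ℕ) → b i = 0 := by
    intro i hi
    have e1 : Tendsto (fun k : ℕ => (1 : ℝ) / ((φ k : ℝ) + 1)) atTop (𝓝 0) :=
      tendsto_one_div_add_atTop_nhds_zero_nat.comp hφ.tendsto_atTop
    have e2 : Tendsto (fun k => a (φ k) i) atTop (𝓝 0) :=
      squeeze_zero_norm (fun k => h2 (φ k) i hi) e1
    exact tendsto_nhds_unique (hbi i) e2
  -- the limit
  have hdeg : ∀ j, (pf b j).natDegree ≤ m := by
    intro j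
    rw [Polynomial.natDegree_le_iff_coeff_eq_zero]
    intro k hk
    rcases lt_or_ge k (D * m + 1) with h | h
    · rw [coeff_pf _ _ h, hb0 _ hk]
      rfl
    · exact coeff_pf' _ _ h
  have hcoef : ∀ (F : MvPolynomial (Fin (n + 1)) ℂ) (k : ℕ),
      Tendsto (fun l => (aeval (pf (a (φ l))) F : Polynomial ℂ).coeff k) atTop
        (𝓝 ((aeval (pf b) F : Polynomial ℂ).coeff k)) := fun F k =>
    ((continuous_coeff F k).tendsto b).comp hb
  have hhigh : ∀ (F : MvPolynomial (Fin (n + 1)) ℂ) (d : ℕ), d ≤ D → F.IsHomogeneous d →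
      ∀ k, D * m < k → (aeval (pf b) F : Polynomial ℂ).coeff k = 0 := by
    intro F d hd hF k hk
    apply Polynomial.coeff_eq_zero_of_natDegree_lt
    have h7 := MvPolynomial.aeval_natDegree_le F hF.totalDegree_le (pf b) hdeg
    have h8 : d * m ≤ D * m := Nat.mul_le_mul_right _ hd
    omega
  have hF0 : ∀ F ∈ p, ∀ d ≤ D, F.IsHomogeneous d → (aeval (pf b) F : Polynomial ℂ) = 0 := by
    intro F hF d hd hFd
    ext k
    rw [Polynomial.coeff_zero]
    rcases le_or_gt k (D * m) with h | h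
    · have h7 : Tendsto (fun l => (aeval (pf (a (φ l))) F : Polynomial ℂ).coeff k) atTop (𝓝 0) := by
        simp only [h4 _ F hF d hd hFd k h]
        exact tendsto_const_nhds
      exact tendsto_nhds_unique (hcoef F k) h7
    · exact hhigh F d hd hFd k h
  have hQc : ∃ c0 : ℂ, c0 ≠ 0 ∧ (aeval (pf b) Q : Polynomial ℂ) = Polynomial.C c0 := by
    refine ⟨(aeval (pf b) Q : Polynomial ℂ).coeff 0, ?_, ?_⟩
    · have h7 := (hcoef Q 0).norm
      have h8 : δ ≤ ‖(aeval (pf b) Q : Polynomial ℂ).coeff 0‖ := by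
        refine ge_of_tendsto h7 (Eventually.of_forall fun l => ?_)
        rw [hc2 _ 0 (Nat.zero_le _), Polynomial.coeff_C_zero]
        exact hc1 _
      exact norm_pos_iff.1 (hδ.trans_le h8)
    · ext k
      rcases Nat.eq_zero_or_pos k with h | h
      · rw [h, Polynomial.coeff_C_zero]
      · rw [Polynomial.coeff_C_of_ne_zero h.ne']
        rcases le_or_gt k (D * m) with h' | h'
        · have h7 : Tendsto (fun l => (aeval (pf (a (φ l))) Q : Polynomial ℂ).coeff k) atTop
              (𝓝 0) := by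
            simp only [hc2 _ k h', Polynomial.coeff_C_of_ne_zero h.ne']
            exact tendsto_const_nhds
          exact tendsto_nhds_unique (hcoef Q k) h7
        · exact hhigh Q q hqD hQ k h'
  have hmin : ∃ (i i' : Fin (D * m + 1)) (j k : Fin (n + 1)),
      δ ≤ ‖b i j * b i' k - b i k * b i' j‖ := by
    have hcl : IsClosed {x : Fin (D * m + 1) → Fin (n + 1) → ℂ | ∃ (i i' : Fin (D * m + 1))
        (j k : Fin (n + 1)), δ ≤ ‖x i j * x i' k - x i k * x i' j‖} := by
      simp only [Set.ofPred_exists]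
      refine isClosed_iUnion_of_finite fun i => isClosed_iUnion_of_finite fun i' =>
        isClosed_iUnion_of_finite fun j => isClosed_iUnion_of_finite fun k => ?_
      refine isClosed_le continuous_const (Continuous.norm ?_)
      have hc : ∀ (i : Fin (D * m + 1)) (j : Fin (n + 1)),
          Continuous fun x : Fin (D * m + 1) → Fin (n + 1) → ℂ => x i j := fun i j =>
        (continuous_apply j).comp (continuous_apply i)
      exact ((hc i j).mul (hc i' k)).sub ((hc i k).mul (hc i' j))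
    exact hcl.mem_of_tendsto hb (Eventually.of_forall fun l => h3 _)
  have hT : PolyCurve p Q (pf b) := by
    have hev : ∀ (G : MvPolynomial (Fin (n + 1)) ℂ) (z : ℂ),
        eval (fun j => (pf b j).eval z) G = (aeval (pf b) G : Polynomial ℂ).eval z := by
      intro G z
      have h7 := MvPolynomial.comp_aeval_apply (f := pf b) (Polynomial.aeval z) G
      rw [Polynomial.coe_aeval_eq_eval] at h7
      rw [h7, MvPolynomial.aeval_eq_eval]
    refine ⟨fun H hH hHf z => ?_, ?_, ?_⟩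
    · refine hcut _ (fun F hF d hd hFd => ?_) H hH hHf
      rw [hev, hF0 F hF d hd hFd, Polynomial.eval_zero]
    · obtain ⟨c0, hc0, h7⟩ := hQc
      refine ⟨c0, hc0, fun z => ?_⟩
      rw [hev, h7, Polynomial.eval_C]
    · obtain ⟨i, i', j, k, h7⟩ := hmin
      by_contra hno
      push Not at hno
      have h8 : ∀ t : ℂ, b i j * (pf b k).eval t = b i k * (pf b j).eval t := by
        intro t
        have h9 : pf b j * Polynomial.C ((pf b k).eval t) =
            pf b k * Polynomial.C ((pf b j).eval t) := by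
          apply Polynomial.funext
          intro s
          rw [Polynomial.eval_mul, Polynomial.eval_mul, Polynomial.eval_C, Polynomial.eval_C]
          exact hno s t j k
        have h10 := congrArg (fun P => Polynomial.coeff P (i : ℕ)) h9
        simp only [Polynomial.coeff_mul_C] at h10
        rwa [coeff_pf b j i.2, coeff_pf b k i.2] at h10
      have h9 : Polynomial.C (b i j) * pf b k = Polynomial.C (b i k) * pf b j := by
        apply Polynomial.funext
        intro t
        rw [Polynomial.eval_mul, Polynomial.eval_mul, Polynomial.eval_C, Polynomial.eval_C]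
        exact h8 t
      have h10 := congrArg (fun P => Polynomial.coeff P (i' : ℕ)) h9
      simp only [Polynomial.coeff_C_mul] at h10
      rw [coeff_pf b k i'.2, coeff_pf b j i'.2] at h10
      rw [Fin.eta] at h10
      rw [h10, sub_self, norm_zero] at h7
      exact absurd h7 (not_le.2 hδ)
  -- the contradiction
  have h7 : ∀ᶠ l in atTop, ‖b - a (φ l)‖ ≤ η := by
    have h8 : Tendsto (fun l => ‖b - a (φ l)‖) atTop (𝓝 0) := by
      have h9 := (tendsto_const_nhds (x := b)).sub hb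
      rw [sub_self] at h9
      have h10 := h9.norm
      rwa [norm_zero] at h10
    exact h8.eventually (eventually_le_nhds hη) 
  obtain ⟨l, hl⟩ := h7.exists
  obtain ⟨j, i, hji⟩ := h6 (φ l) (pf b) hT hdeg
  rw [coeff_pf b j i.2, Fin.eta] at hji
  refine absurd hji (not_lt.2 ?_)
  have h8 : ‖(b - a (φ l)) i j‖ ≤ ‖b - a (φ l)‖ :=
    (norm_le_pi_norm ((b - a (φ l)) i) j).trans (norm_le_pi_norm (b - a (φ l)) i)
  exact h8.trans hl

/-- There are infinitely many blocks `(m, D m]` with coefficients of norm at most `ε m`. -/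
def AGaps (D : ℕ) (ε : ℕ → ℝ) (a : ℕ → Fin (n + 1) → ℂ) : Prop :=
  ∀ L : ℕ, ∃ m, L ≤ m ∧ ∀ i, m < i → i ≤ D * m → ‖a i‖ ≤ ε m

/-- the points on the nonconstant polynomial curves -/
def ratPts (p : Ideal (MvPolynomial (Fin (n + 1)) ℂ)) (Q : MvPolynomial (Fin (n + 1)) ℂ) :
    Set (Fin (n + 1) → ℂ) := {x | ∃ T, PolyCurve p Q T ∧ ∃ u : ℂ, x = fun j => (T j).eval u}

/-- low coefficients -/
theorem low_coeff {M : ℕ} {a : ℕ → Fin (n + 1) → ℂ} {F : MvPolynomial (Fin (n + 1)) ℂ} {c : ℂ}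
    (h0 : aeval (ser a) F = algebraMap ℂ (PowerSeries ℂ) c) {k : ℕ} (hk : k < M) :
    (aeval (pf fun i : Fin M => a i) F : Polynomial ℂ).coeff k = (Polynomial.C c).coeff k := by
  have h6 := aeval_congr_mod (ε := M) (a := ser a)
    (b := fun j => ((pf (fun i : Fin M => a i) j : Polynomial ℂ) : PowerSeries ℂ)) (by
      intro j
      rw [PowerSeries.X_pow_dvd_iff]
      intro m hm
      rw [map_sub, Polynomial.coeff_coe, coeff_pf _ _ hm, ser, PowerSeries.coeff_mk, sub_self]) F
  rw [PowerSeries.X_pow_dvd_iff] at h6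
  have h7 := h6 k hk
  have h8 : aeval (fun j => ((pf (fun i : Fin M => a i) j : Polynomial ℂ) : PowerSeries ℂ)) F =
      ((aeval (pf fun i : Fin M => a i) F : Polynomial ℂ) : PowerSeries ℂ) := by
    have := MvPolynomial.comp_aeval_apply (f := pf fun i : Fin M => a i)
      (Polynomial.coeToPowerSeries.algHom ℂ) F
    rw [Polynomial.coeToPowerSeries.algHom_apply] at this
    rw [show ((aeval (pf fun i : Fin M => a i) F : Polynomial ℂ) : PowerSeries ℂ) =
      PowerSeries.map (algebraMap ℂ ℂ) (aeval (pf fun i : Fin M => a i) F : Polynomial ℂ) by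
        simp, this]
    congr 2
  rw [h8, h0, map_sub, Polynomial.coeff_coe] at h7
  have h9 : PowerSeries.coeff k (algebraMap ℂ (PowerSeries ℂ) c) =
      (Polynomial.C c : Polynomial ℂ).coeff k := by
    rw [← Polynomial.coeff_coe]
    simp
  rw [h9] at h7
  exact (sub_eq_zero.1 h7).symm

theorem growth {r : ℝ} {a : ℕ → Fin (n + 1) → ℂ} {f : ℂ → Fin (n + 1) → ℂ} (hr : 0 < r)
    (hs : HasSeries r a f) : ∃ A B : ℝ, 1 ≤ A ∧ 1 ≤ B ∧ ∀ i, ‖a i‖ ≤ A * B ^ i := by
  have h1 : ‖((r / 2 : ℝ) : ℂ)‖ < r := by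
    rw [Complex.norm_real, Real.norm_eq_abs, abs_of_pos (by positivity)]
    linarith
  have h2 := (hs _ h1).summable.tendsto_atTop_zero.norm
  rw [norm_zero] at h2
  obtain ⟨C, hC⟩ := h2.bddAbove_range
  refine ⟨max C 1, max (2 / r) 1, le_max_right _ _, le_max_right _ _, fun i => ?_⟩
  have h3 := hC ⟨i, rfl⟩
  simp only at h3
  rw [norm_smul, norm_pow, Complex.norm_real, Real.norm_eq_abs, abs_of_pos (by positivity)] at h3
  have h4 : 0 < (r / 2) ^ i := by positivity
  have h5 : ‖a i‖ = (r / 2) ^ i * ‖a i‖ * (2 / r) ^ i := by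
    have h6 : (r / 2) ^ i * (2 / r) ^ i = 1 := by
      rw [← mul_pow]
      have : r / 2 * (2 / r) = 1 := by field_simp
      rw [this, one_pow]
    calc ‖a i‖ = ((r / 2) ^ i * (2 / r) ^ i) * ‖a i‖ := by rw [h6, one_mul]
      _ = _ := by ring
  rw [h5]
  refine mul_le_mul (h3.trans (le_max_left _ _)) ?_ (by positivity) (by positivity)
  exact pow_le_pow_left₀ (by positivity) (le_max_left _ _) i

/-- **Approximate gaps.** There is a sequence `ε` of positive numbers, depending only on the variety,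
such that all nonconstant holomorphic curves `∑ z ^ i a i` with infinitely many blocks of
coefficients of norm at most `ε m` lie in the closure of the union of the polynomial curves. -/
theorem approx {D : ℕ} (hD : 1 ≤ D) (hQ : Q.IsHomogeneous q) (hqD : q ≤ D) (hcut : CutBy D p) :
    ∃ ε : ℕ → ℝ, (∀ m, 0 < ε m) ∧ ∀ (r : ℝ) (a : ℕ → Fin (n + 1) → ℂ)
      (f : ℂ → Fin (n + 1) → ℂ), Curve p Q r a f → NonConst r f → AGaps D ε a →
      ∀ z : ℂ, ‖z‖ < r → f z ∈ closure (ratPts p Q) := by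
  classical
  have hη : ∀ m : ℕ, (0 : ℝ) < ((m : ℝ) + 1) ^ (m + 1) := fun m => by positivity
  choose ε hε hmain using fun m : ℕ => exists_eps hQ hqD hcut m (inv_pos.2 (hη m))
    (R := ((m : ℝ) + 1) ^ (m + 1)) (δ := 1 / ((m : ℝ) + 1)) (by positivity)
  refine ⟨ε, hε, fun r a f hf hnc hb z hz => ?_⟩
  obtain ⟨i0, i0', j0, k0, hne⟩ := coeffs_of_nonconst hf.series hnc
  obtain ⟨A, B, hA, hB, hAB⟩ := growth hf.pos hf.series
  obtain ⟨c, hc0, hc⟩ := hf.relQ
  rw [Metric.mem_closure_iff]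
  intro e he
  set C : ℝ := max 1 ‖z‖ with hCd
  have hC1 : 1 ≤ C := le_max_left _ _
  -- the partial sums
  have h1 : Tendsto (fun m => ∑ i ∈ Finset.range (m + 1), z ^ i • a i) atTop (𝓝 (f z)) :=
    ((hf.series z hz).tendsto_sum_nat).comp (tendsto_add_atTop_nat 1)
  obtain ⟨L1, hL1⟩ := Metric.tendsto_atTop.1 h1 (e / 2) (by positivity)
  have h2 : Tendsto (fun m : ℕ => (1 / 2 : ℝ) ^ m) atTop (𝓝 0) :=
    tendsto_pow_atTop_nhds_zero_of_lt_one (by norm_num) (by norm_num)
  obtain ⟨L2, hL2⟩ := Metric.tendsto_atTop.1 h2 (e / 2) (by positivity)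
  obtain ⟨L3, hL3⟩ := exists_nat_ge (max (max A B) (max (2 * C) (max
    (‖a i0 j0 * a i0' k0 - a i0 k0 * a i0' j0‖⁻¹) (‖c‖⁻¹))))
  obtain ⟨m, hm, hsmall⟩ := hb (max (max L1 L2) (max L3 (max i0 i0')))
  have hm1 : L1 ≤ m := by omega
  have hm2 : L2 ≤ m := by omega
  have hm3 : (L3 : ℝ) ≤ m := by
    have : L3 ≤ m := by omega
    exact_mod_cast this
  have hmA : A ≤ (m : ℝ) + 1 := by
    have := (le_max_left A B).trans ((le_max_left _ _).trans hL3)
    linarith
  have hmB : B ≤ (m : ℝ) + 1 := by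
    have := (le_max_right A B).trans ((le_max_left _ _).trans hL3)
    linarith
  have hmC : 2 * C ≤ (m : ℝ) + 1 := by
    have := (le_max_left (2 * C) _).trans ((le_max_right (max A B) _).trans hL3)
    linarith
  have hmμ : ‖a i0 j0 * a i0' k0 - a i0 k0 * a i0' j0‖⁻¹ ≤ (m : ℝ) + 1 := by
    have := (le_max_left (‖a i0 j0 * a i0' k0 - a i0 k0 * a i0' j0‖⁻¹) (‖c‖⁻¹)).trans
      ((le_max_right (2 * C) _).trans ((le_max_right (max A B) _).trans hL3))
    linarith
  have hmc : ‖c‖⁻¹ ≤ (m : ℝ) + 1 := by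
    have := (le_max_right (‖a i0 j0 * a i0' k0 - a i0 k0 * a i0' j0‖⁻¹) (‖c‖⁻¹)).trans
      ((le_max_right (2 * C) _).trans ((le_max_right (max A B) _).trans hL3))
    linarith
  have hDm : m ≤ D * m := Nat.le_mul_of_pos_left _ hD
  have g1 : ∀ i : Fin (D * m + 1), (i : ℕ) ≤ m → ‖a i‖ ≤ ((m : ℝ) + 1) ^ (m + 1) := by
    intro i hi
    refine (hAB i).trans ?_
    rw [pow_succ, mul_comm]
    refine mul_le_mul ?_ hmA (by linarith) (by positivity)
    calc B ^ (i : ℕ) ≤ B ^ m := pow_le_pow_right₀ hB hi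
      _ ≤ ((m : ℝ) + 1) ^ m := pow_le_pow_left₀ (by linarith) hmB m
  have g2 : ∀ i : Fin (D * m + 1), m < (i : ℕ) → ‖a i‖ ≤ ε m := fun i hi =>
    hsmall i hi (by have := i.2; omega)
  have g3 : 1 / ((m : ℝ) + 1) ≤ ‖a i0 j0 * a i0' k0 - a i0 k0 * a i0' j0‖ := by
    rw [div_le_iff₀ (by positivity)]
    have h3 : 0 < ‖a i0 j0 * a i0' k0 - a i0 k0 * a i0' j0‖ := norm_pos_iff.2 (sub_ne_zero.2 hne)
    rw [inv_le_iff_one_le_mul₀ h3] at hmμ
    linarith
  have g4 : ∀ F ∈ p, ∀ d ≤ D, F.IsHomogeneous d → ∀ k ≤ D * m,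
      (aeval (pf fun i : Fin (D * m + 1) => a i) F : Polynomial ℂ).coeff k = 0 := by
    intro F hF d hd hFd k hk
    have h3 : aeval (ser a) F = algebraMap ℂ (PowerSeries ℂ) 0 := by
      rw [map_zero]
      exact hf.rel hF ⟨d, hFd⟩
    rw [low_coeff h3 (by omega), map_zero, Polynomial.coeff_zero]
  have g5 : 1 / ((m : ℝ) + 1) ≤ ‖c‖ := by
    rw [div_le_iff₀ (by positivity)]
    have h3 : 0 < ‖c‖ := norm_pos_iff.2 hc0
    rw [inv_le_iff_one_le_mul₀ h3] at hmc
    linarith
  obtain ⟨T, hT, hTd, hTc⟩ := hmain m (fun i => a i) g1 g2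
    ⟨⟨i0, by omega⟩, ⟨i0', by omega⟩, j0, k0, g3⟩ g4
    ⟨c, g5, fun k hk => low_coeff hc (by omega)⟩
  refine ⟨fun j => (T j).eval z, ⟨T, hT, z, rfl⟩, ?_⟩
  have h3 := hL1 m hm1
  have h4 : dist (∑ i ∈ Finset.range (m + 1), z ^ i • a i) (fun j => (T j).eval z) ≤
      (1 / 2) ^ m := by
    rw [dist_pi_le_iff (by positivity)]
    intro j
    rw [dist_eq_norm, Finset.sum_apply]
    have h5 : (T j).eval z = ∑ i ∈ Finset.range (m + 1), (T j).coeff i * z ^ i :=
      Polynomial.eval_eq_sum_range' (Nat.lt_succ_of_le (hTd j)) z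
    rw [h5, ← Finset.sum_sub_distrib]
    have h6 : ∀ i ∈ Finset.range (m + 1), ‖(z ^ i • a i) j - (T j).coeff i * z ^ i‖ ≤
        C ^ m * (((m : ℝ) + 1) ^ (m + 1))⁻¹ := by
      intro i hi
      rw [Finset.mem_range] at hi
      have h7 : (z ^ i • a i) j - (T j).coeff i * z ^ i = -(z ^ i * ((T j).coeff i - a i j)) := by
        rw [Pi.smul_apply, smul_eq_mul]
        ring
      rw [h7, norm_neg, norm_mul, norm_pow]
      have h8 := hTc j ⟨i, by omega⟩
      refine mul_le_mul ?_ h8 (norm_nonneg _) (by positivity)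
      calc ‖z‖ ^ i ≤ C ^ i := pow_le_pow_left₀ (norm_nonneg _) (le_max_right _ _) i
        _ ≤ C ^ m := pow_le_pow_right₀ hC1 (by omega)
    refine (norm_sum_le_of_le _ h6).trans ?_
    rw [Finset.sum_const, Finset.card_range, nsmul_eq_mul]
    have h9 : ((m + 1 : ℕ) : ℝ) * (C ^ m * (((m : ℝ) + 1) ^ (m + 1))⁻¹) =
        (C / ((m : ℝ) + 1)) ^ m := by
      rw [div_pow, pow_succ]
      push_cast
      field_simp
    rw [h9]
    refine pow_le_pow_left₀ (by positivity) ?_ m
    rw [div_le_div_iff₀ (by positivity) (by norm_num)]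
    linarith
  have h5 := hL2 m hm2
  rw [dist_zero_right, Real.norm_eq_abs, abs_of_nonneg (by positivity)] at h5
  calc dist (f z) (fun j => (T j).eval z) ≤ dist (f z) (∑ i ∈ Finset.range (m + 1), z ^ i • a i) +
        dist (∑ i ∈ Finset.range (m + 1), z ^ i • a i) (fun j => (T j).eval z) :=
      dist_triangle _ _ _
    _ < e / 2 + e / 2 := by
      rw [dist_comm (f z)]
      exact add_lt_add h3 (h4.trans_lt h5)
    _ = e := by ring

end Pool.Agent.Q64.LC
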