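import Pool.Agent.Q64.LC.Main
import Pool.Agent.TH600.LC.Lang
import Pool.Agent.TH600.LC.Seq

/-!
Gap series and isolated blocks of exponents in projective varieties over a subring of the complex
numbers.
-/

set_option autoImplicit false

namespace Pool.Agent.Q64.LC

open MvPolynomial Pool.Agent.TH143.HE Pool.Agent.TH600.LC Pool.Agent.W602.GT

variable {R : Type} [CommRing R] {N : ℕ}

/-- The variety of `I` is cut out by the forms of degree at most `D` in `I`. -/
def Cut (D : ℕ) (φ : R →+* ℂ) (I : Ideal (MvPolynomial (Fin (N + 1)) R)) : Prop :=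
  ∀ x : Fin (N + 1) → ℂ, (∀ F ∈ I, ∀ d ≤ D, F.IsHomogeneous d → eval₂ φ x F = 0) → IsPtP φ I x

/-- the ideal over the complex numbers -/
noncomputable def cx (φ : R →+* ℂ) (I : Ideal (MvPolynomial (Fin (N + 1)) R)) :
    Ideal (MvPolynomial (Fin (N + 1)) ℂ) := Ideal.span (forms φ I)

variable {φ : R →+* ℂ} {I I' : Ideal (MvPolynomial (Fin (N + 1)) R)}

theorem isPtP_cx {x : Fin (N + 1) → ℂ} (h : IsPtP φ I x) {G : MvPolynomial (Fin (N + 1)) ℂ}
    (hG : G ∈ cx φ I) : eval x G = 0 := by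
  have h1 : cx φ I ≤ RingHom.ker (eval x) := by
    apply Ideal.span_le.2
    rintro _ ⟨H, hH, hd, rfl⟩
    change eval x (map φ H) = 0
    rw [eval_map]
    exact h H hH hd
  exact h1 hG

theorem isPtP_of_cx {x : Fin (N + 1) → ℂ} (h : ∀ G ∈ cx φ I, IsForm G → eval x G = 0) :
    IsPtP φ I x := by
  rintro H hH ⟨d, hd⟩
  have h1 := h (map φ H) (Ideal.subset_span ⟨H, hH, ⟨d, hd⟩, rfl⟩) ⟨d, hd.map φ⟩
  rwa [eval_map] at h1

theorem cutBy_cx {D : ℕ} (h : Cut D φ I) : CutBy D (cx φ I) := by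
  intro x hx H hH _
  refine isPtP_cx (h x fun F hF d hd hFd => ?_) hH
  have h1 := hx (map φ F) (Ideal.subset_span ⟨F, hF, ⟨d, hFd⟩, rfl⟩) d hd (hFd.map φ)
  rwa [eval_map] at h1

/-- `f` is a holomorphic curve on the disc `|z| < r` in the variety of `I`, with the power series
`∑ z ^ i a i`. -/
structure DiscIn (φ : R →+* ℂ) (I : Ideal (MvPolynomial (Fin (N + 1)) R)) (r : ℝ)
    (a : ℕ → Fin (N + 1) → ℂ) (f : ℂ → Fin (N + 1) → ℂ) : Prop where
  pos : 0 < r
  series : HasSeries r a f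
  mem : ∀ z : ℂ, ‖z‖ < r → IsPtP φ I (f z)

theorem DiscIn.curve {r : ℝ} {a : ℕ → Fin (N + 1) → ℂ} {f : ℂ → Fin (N + 1) → ℂ}
    (h : DiscIn φ I r a f) : Curve (cx φ I) 1 r a f :=
  ⟨h.pos, h.series, fun z hz _ hH _ => isPtP_cx (h.mem z hz) hH, 1, one_ne_zero,
    fun z _ => by rw [map_one]⟩

/-- All nonconstant holomorphic curves on discs in the variety of `I` with infinitely many gaps
`(α, β)`, `D α < β`, in the exponents lie in the variety of `I'`. -/
def GapDiscsIn (D : ℕ) (φ : R →+* ℂ) (I I' : Ideal (MvPolynomial (Fin (N + 1)) R)) : Prop :=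
  ∀ (r : ℝ) (a : ℕ → Fin (N + 1) → ℂ) (f : ℂ → Fin (N + 1) → ℂ), DiscIn φ I r a f →
    NonConst r f → Gaps D a → ∀ z : ℂ, ‖z‖ < r → IsPtP φ I' (f z)

/-- The same for the entire curves. -/
def GapEntireIn (D : ℕ) (φ : R →+* ℂ) (I I' : Ideal (MvPolynomial (Fin (N + 1)) R)) : Prop :=
  ∀ (a : ℕ → Fin (N + 1) → ℂ) (f : ℂ → Fin (N + 1) → ℂ), (∀ r > 0, DiscIn φ I r a f) →
    (∃ r, NonConst r f) → Gaps D a → ∀ z : ℂ, IsPtP φ I' (f z)

/-- All holomorphic curves on discs in the variety of `I` with infinitely many isolated blocks of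
exponents lie in the variety of `I'`. -/
def IsoDiscsIn (D : ℕ) (φ : R →+* ℂ) (I I' : Ideal (MvPolynomial (Fin (N + 1)) R)) : Prop :=
  ∀ (r : ℝ) (a : ℕ → Fin (N + 1) → ℂ) (f : ℂ → Fin (N + 1) → ℂ), DiscIn φ I r a f →
    Isolated D a → ∀ z : ℂ, ‖z‖ < r → IsPtP φ I' (f z)

/-- The same for the entire curves. -/
def IsoEntireIn (D : ℕ) (φ : R →+* ℂ) (I I' : Ideal (MvPolynomial (Fin (N + 1)) R)) : Prop :=
  ∀ (a : ℕ → Fin (N + 1) → ℂ) (f : ℂ → Fin (N + 1) → ℂ), (∀ r > 0, DiscIn φ I r a f) →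
    Isolated D a → ∀ z : ℂ, IsPtP φ I' (f z)

/-- All lines in the variety of `I` lie in the variety of `I'`. -/
def LinesIn (φ : R →+* ℂ) (I I' : Ideal (MvPolynomial (Fin (N + 1)) R)) : Prop :=
  ∀ x v : Fin (N + 1) → ℂ, (∃ j k, x j * v k ≠ x k * v j) →
    (∀ t : ℂ, IsPtP φ I (x + t • v)) → ∀ t : ℂ, IsPtP φ I' (x + t • v)

theorem gapDiscs_of_rat {D : ℕ} (hD : 1 ≤ D) (hcut : Cut D φ I) (h : RatCurvesIn φ I I') :
    GapDiscsIn D φ I I' := by
  rintro r a f hf hnc hb z hz G' hG' ⟨d, hd⟩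
  have h1 := vanish_gap hD (isHomogeneous_one _ _) (Nat.zero_le _) (cutBy_cx hcut)
    (G := map φ G') (fun T hT u => ?_) hf.curve hnc hb hz
  · rwa [eval_map] at h1
  · rw [eval_map]
    obtain ⟨s, t, j, k, hst⟩ := hT.ind
    exact h T (fun u => isPtP_of_cx fun G hG hf => hT.mem G hG hf u) ⟨j, k, s, t, hst⟩ u G' hG'
      ⟨d, hd⟩

theorem gapEntire_of_discs {D : ℕ} (h : GapDiscsIn D φ I I') : GapEntireIn D φ I I' := by
  intro a f hf hnc hb z
  obtain ⟨r, s, t, hs, ht, hst⟩ := hnc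
  have h1 : r ≤ |r| + ‖z‖ + 1 := by
    have := le_abs_self r
    have := norm_nonneg z
    linarith
  have h2 : ‖z‖ < |r| + ‖z‖ + 1 := by
    have := abs_nonneg r
    linarith
  exact h _ a f (hf _ (by positivity)) ⟨s, t, hs.trans_le h1, ht.trans_le h1, hst⟩ hb z h2

theorem rat_of_gapEntire {D : ℕ} (h : GapEntireIn D φ I I') : RatCurvesIn φ I I' := by
  intro T hT hnc z
  have hser : ∀ z : ℂ, HasSum (fun i => z ^ i • fun j => (T j).coeff i)
      (fun j => (T j).eval z) := by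
    intro z
    rw [Pi.hasSum]
    intro j
    have h1 : (T j).eval z = ∑ i ∈ Finset.range ((T j).natDegree + 1),
        (z ^ i • fun j => (T j).coeff i) j := by
      rw [Polynomial.eval_eq_sum_range]
      exact Finset.sum_congr rfl fun i _ => mul_comm _ _
    rw [h1]
    apply hasSum_sum_of_ne_finset_zero
    intro i hi
    rw [Finset.mem_range, not_lt] at hi
    rw [Pi.smul_apply, Polynomial.coeff_eq_zero_of_natDegree_lt (by omega), smul_zero]
  have hnc' : ∃ r, NonConst r fun z j => (T j).eval z := by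
    obtain ⟨j, k, s, t, h1⟩ := hnc
    refine ⟨‖s‖ + ‖t‖ + 1, s, t, ?_, ?_, j, k, h1⟩
    · have := norm_nonneg t
      linarith
    · have := norm_nonneg s
      linarith
  refine h _ _ (fun r hr => ⟨hr, fun z _ => hser z, fun z _ => hT z⟩) hnc' (fun L => ?_) z
  obtain ⟨m, hm⟩ : ∃ m, ∀ j, (T j).natDegree ≤ m :=
    ⟨Finset.univ.sup fun j => (T j).natDegree, fun j =>
      Finset.le_sup (f := fun j => (T j).natDegree) (Finset.mem_univ j)⟩
  refine ⟨m, L + D * m + 1, by omega, by omega, fun i hi _ => ?_⟩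
  funext j
  exact Polynomial.coeff_eq_zero_of_natDegree_lt (lt_of_le_of_lt (hm j) hi)

theorem isoDiscs_of_lines {D : ℕ} (hD : 1 ≤ D) (hcut : Cut D φ I) (h : LinesIn φ I I') :
    IsoDiscsIn D φ I I' := by
  rintro r a f hf hb z hz G' hG' ⟨d, hd⟩
  have h1 := vanish hD (isHomogeneous_one _ _) (Nat.zero_le _) (cutBy_cx hcut)
    (G := map φ G') (fun x v hl t => ?_) hf.curve hb hz
  · rwa [eval_map] at h1
  · rw [eval_map]
    exact h x v hl.ind (fun t => isPtP_of_cx fun G hG hf => hl.mem G hG hf t) t G' hG' ⟨d, hd⟩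

theorem isoEntire_of_discs {D : ℕ} (h : IsoDiscsIn D φ I I') : IsoEntireIn D φ I I' :=
  fun a f hf hb z => h (‖z‖ + 1) a f (hf _ (by positivity)) hb z (by linarith)

theorem lines_of_isoEntire {D : ℕ} (hD : 1 ≤ D) (h : IsoEntireIn D φ I I') : LinesIn φ I I' := by
  intro x v hind hX t
  have hl : Line (cx φ I) 1 x v := ⟨fun G hG _ w => isPtP_cx (hX w) hG,
    ⟨1, one_ne_zero, fun w => by rw [map_one]⟩, hind⟩
  obtain ⟨a, f, hf, hb, hf0⟩ := lac_curve hD (hl.shift t)
  have h1 := h a f (fun r hr => ⟨hr, (hf r hr).series, fun z hz => isPtP_of_cx fun G hG hGf =>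
    (hf r hr).mem z hz G hG hGf⟩) hb 0
  rwa [hf0] at h1

/-- specialization of lines -/
theorem spec_line {k E : Type} [Field k] [Field E] [Algebra k E] (φ : R →+* k)
    {I I' : Ideal (MvPolynomial (Fin (N + 1)) R)} {p : Fin (N + 1) → Polynomial E}
    (h : RCur ((algebraMap k E).comp φ) I I' p) {D : ℕ} (hdeg : ∀ j, (p j).natDegree ≤ D) :
    ∃ (L : Type) (_ : Field L) (_ : Algebra k L) (_ : FiniteDimensional k L)
      (p' : Fin (N + 1) → Polynomial L), RCur ((algebraMap k L).comp φ) I I' p' ∧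
        ∀ j, (p' j).natDegree ≤ D := by
  classical
  obtain ⟨h1, ⟨G', hG', hGh, hne⟩, j, j', i, i', hc⟩ := h
  set cc : E := (p j).coeff i * (p j').coeff i' - (p j').coeff i * (p j).coeff i' with hcc
  have hcc0 : cc ≠ 0 := sub_ne_zero.2 hc
  let s : Finset E := (Finset.univ.biUnion fun j => (p j).coeffs) ∪
    {cc⁻¹, (eval₂ (Polynomial.C.comp ((algebraMap k E).comp φ)) p G').leadingCoeff⁻¹}
  let A := Algebra.adjoin k (s : Set E)
  have hs : ∀ x ∈ s, x ∈ A := fun x hx => Algebra.subset_adjoin hx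
  have hA : Algebra.FiniteType k A :=
    ⟨(Subalgebra.fg_top A).2 ⟨s, rfl⟩⟩
  obtain ⟨m, hm⟩ := Ideal.exists_maximal A
  let _ : Field (A ⧸ m) := Ideal.Quotient.field m
  have hft : Algebra.FiniteType k (A ⧸ m) :=
    Algebra.FiniteType.of_surjective (Ideal.Quotient.mkₐ k m) Ideal.Quotient.mk_surjective
  have hfin : Module.Finite k (A ⧸ m) := finite_of_finite_type_of_isJacobsonRing k (A ⧸ m)
  let θ : A →ₐ[k] A ⧸ m := Ideal.Quotient.mkₐ k m
  -- lifts
  have hlift : ∀ j, ∃ q : Polynomial A, q.map (algebraMap A E) = p j := by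
    intro j
    have h2 : p j ∈ Polynomial.lifts (algebraMap A E) := by
      rw [Polynomial.lifts_iff_coeff_lifts]
      intro t
      by_cases ht : (p j).coeff t = 0
      · exact ⟨0, by rw [ht, map_zero]⟩
      · refine ⟨⟨(p j).coeff t, hs _ ?_⟩, rfl⟩
        exact Finset.mem_union_left _ (Finset.mem_biUnion.2
          ⟨j, Finset.mem_univ _, Polynomial.coeff_mem_coeffs ht⟩)
    exact (Polynomial.mem_lifts _).1 h2
  choose P hP using hlift
  have hinj : Function.Injective (algebraMap A E) := Subtype.val_injective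
  have hcur : ∀ G, (eval₂ (Polynomial.C.comp ((algebraMap k A).comp φ)) P G).map
      (algebraMap A E) = eval₂ (Polynomial.C.comp ((algebraMap k E).comp φ)) p G := by
    intro G
    rw [eval₂_map']
    congr 1
    funext j
    exact hP j
  have hcur' : ∀ G, (eval₂ (Polynomial.C.comp ((algebraMap k A).comp φ)) P G).map
      (θ : A →+* A ⧸ m) = eval₂ (Polynomial.C.comp ((algebraMap k (A ⧸ m)).comp φ))
        (fun j => (P j).map (θ : A →+* A ⧸ m)) G := by
    intro G
    rw [eval₂_map']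
    congr 1
  have hunit : ∀ x : A, ((x : E))⁻¹ ∈ s → (x : E) ≠ 0 → θ x ≠ 0 := by
    intro x hx hx0 h0
    have h2 : x * ⟨_, hs _ hx⟩ = 1 := Subtype.ext (mul_inv_cancel₀ hx0)
    have h3 := congrArg θ h2
    rw [map_mul, h0, zero_mul, map_one] at h3
    exact zero_ne_one h3
  have hPc : ∀ j i, (((P j).coeff i : A) : E) = (p j).coeff i := by
    intro j i
    rw [← hP j, Polynomial.coeff_map]
    rfl
  refine ⟨A ⧸ m, inferInstance, inferInstance, hfin, fun j => (P j).map (θ : A →+* A ⧸ m),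
    ⟨fun G hG hGf => ?_, ⟨G', hG', hGh, ?_⟩, j, j', i, i', ?_⟩, fun j => ?_⟩
  · have h2 : eval₂ (Polynomial.C.comp ((algebraMap k A).comp φ)) P G = 0 := by
      apply Polynomial.map_injective _ hinj
      rw [hcur, h1 G hG hGf, Polynomial.map_zero]
    rw [← hcur', h2, Polynomial.map_zero]
  · rw [← hcur']
    intro h0
    set q := eval₂ (Polynomial.C.comp ((algebraMap k A).comp φ)) P G' with hq
    have h2 : (q.leadingCoeff : E) =
        (eval₂ (Polynomial.C.comp ((algebraMap k E).comp φ)) p G').leadingCoeff := by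
      rw [← hcur, Polynomial.leadingCoeff_map_of_injective hinj]
      rfl
    refine hunit q.leadingCoeff ?_ ?_ ?_
    · rw [h2]
      simp [s]
    · rw [h2]
      exact Polynomial.leadingCoeff_ne_zero.2 hne
    · have h3 := congrArg (fun f => Polynomial.coeff f q.natDegree) h0
      simp only [Polynomial.coeff_map, Polynomial.coeff_zero] at h3
      exact h3
  · simp only [Polynomial.coeff_map]
    intro h0
    have h2 : (((P j).coeff i * (P j').coeff i' - (P j').coeff i * (P j).coeff i' : A) : E) =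
        cc := by
      rw [hcc, ← hPc, ← hPc, ← hPc, ← hPc]
      rfl
    refine hunit ((P j).coeff i * (P j').coeff i' - (P j').coeff i * (P j).coeff i') ?_ ?_ ?_
    · rw [h2]
      simp [s]
    · rw [h2]
      exact hcc0
    · rw [map_sub, map_mul, map_mul, sub_eq_zero]
      exact h0
  · refine Polynomial.natDegree_map_le.trans ?_
    rw [← Polynomial.natDegree_map_eq_of_injective hinj, hP]
    exact hdeg j

end Pool.Agent.Q64.LC
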