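import Pool.Agent.Q64.LC.Spr

/-!
Varieties covered by polynomial curves, and the Hausdorff dimension of open subsets of cones.
-/

set_option autoImplicit false

namespace Pool.Agent.Q64.LC

open MvPolynomial Filter Topology Pool.Agent.TH143.GT Pool.Agent.W602.GT Pool.Agent.W603.GR
  Pool.Agent.W603.PV
open scoped NNReal ENNReal

variable {n : ℕ} {p : Ideal (MvPolynomial (Fin (n + 1)) ℂ)} {Q : MvPolynomial (Fin (n + 1)) ℂ}
  {q : ℕ}

/-- the coordinates of the cone generate the function field of the cone -/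
theorem adjoin_cy {K : Type} [Field K] [Algebra ℂ K] {y : Fin (n + 1) → K} (hne : y ≠ 0)
    (hgen : coords ℂ y = ⊤) : IntermediateField.adjoin ℂ (Set.range (cy y)) = ⊤ := by
  obtain ⟨k, hk⟩ := Function.ne_iff.1 hne
  have hk' : y k ≠ 0 := hk
  set L := IntermediateField.adjoin ℂ (Set.range (cy y)) with hL
  have hcy : ∀ j, cy y j ∈ L := fun j => IntermediateField.subset_adjoin _ _ ⟨j, rfl⟩
  have hcy' : ∀ j, cy y j = RatFunc.X * algebraMap K (RatFunc K) (y j) := by
    intro j
    unfold cy rf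
    rw [RatFunc.algebraMap_X, RatFunc.algebraMap_C]
    rfl
  -- the constants
  have h1 : ∀ a : K, algebraMap K (RatFunc K) a ∈ L := by
    intro a
    let f : K →ₐ[ℂ] RatFunc K := IsScalarTower.toAlgHom ℂ K (RatFunc K)
    have h2 : coords ℂ y ≤ L.comap f := by
      unfold coords
      rw [IntermediateField.adjoin_le_iff]
      rintro _ ⟨i, j, hj, rfl⟩
      change algebraMap K (RatFunc K) (y i / y j) ∈ L
      have h3 : algebraMap K (RatFunc K) (y i / y j) = cy y i / cy y j := by
        rw [hcy', hcy', map_div₀, mul_div_mul_left _ _ RatFunc.X_ne_zero]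
      rw [h3]
      exact L.div_mem (hcy i) (hcy j)
    have h4 : a ∈ L.comap f := h2 (by rw [hgen]; exact IntermediateField.mem_top)
    exact h4
  have hX : (RatFunc.X : RatFunc K) ∈ L := by
    have h2 : (RatFunc.X : RatFunc K) = cy y k / algebraMap K (RatFunc K) (y k) := by
      rw [hcy', mul_div_assoc, div_self, mul_one]
      rwa [Ne, map_eq_zero_iff _ (algebraMap K (RatFunc K)).injective]
    rw [h2]
    exact L.div_mem (hcy k) (h1 _)
  have hP : ∀ P : Polynomial K, algebraMap (Polynomial K) (RatFunc K) P ∈ L := by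
    intro P
    induction P using Polynomial.induction_on' with
    | add P1 P2 e1 e2 =>
      rw [map_add]
      exact L.add_mem e1 e2
    | monomial i a =>
      rw [← Polynomial.C_mul_X_pow_eq_monomial, map_mul, map_pow, RatFunc.algebraMap_X,
        RatFunc.algebraMap_C]
      exact L.mul_mem (h1 a) (L.pow_mem hX i)
  rw [eq_top_iff]
  intro z _
  rw [← RatFunc.num_div_denom z]
  exact L.div_mem (hP _) (hP _)

/-- algebraically independent coordinates of the cone -/
theorem exists_basis_cy {K : Type} [Field K] [Algebra ℂ K] {w : ℕ} {y : Fin (n + 1) → K}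
    (hy : FunField p Q K w y) : ∃ (ι : Type) (_ : Fintype ι) (σ : ι → Fin (n + 1)),
      Fintype.card ι = w + 1 ∧ AlgebraicIndependent ℂ fun i => cy y (σ i) := by
  classical
  have h1 := adjoin_cy hy.sub.ne hy.sub.gen
  have h2 : Algebra.IsAlgebraic (Algebra.adjoin ℂ (Set.range (cy y))) (RatFunc K) := by
    refine ⟨fun z => ?_⟩
    have hz : z ∈ IntermediateField.adjoin ℂ (Set.range (cy y)) := by
      rw [h1]
      exact IntermediateField.mem_top
    obtain ⟨r, hr, s, hs, hrs⟩ := IntermediateField.mem_adjoin_iff_div.1 hz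
    by_cases hs0 : s = 0
    · rw [hrs, hs0, div_zero]
      exact isAlgebraic_zero
    · refine ⟨Polynomial.C (⟨s, hs⟩ : Algebra.adjoin ℂ (Set.range (cy y))) * Polynomial.X -
        Polynomial.C ⟨r, hr⟩, fun h0 => hs0 ?_, ?_⟩
      · have h3 := congrArg (fun P => Polynomial.coeff P 1) h0
        simp only [Polynomial.coeff_sub, Polynomial.coeff_C_mul, Polynomial.coeff_X_one, mul_one,
          Polynomial.coeff_C_succ, sub_zero, Polynomial.coeff_zero] at h3
        exact congrArg Subtype.val h3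
      · simp only [map_sub, map_mul, Polynomial.aeval_C, Polynomial.aeval_X]
        change s * z - r = 0
        rw [hrs, mul_div_cancel₀ _ hs0, sub_self]
  obtain ⟨t, ht, htb⟩ := exists_isTranscendenceBasis_subset (R := ℂ) (Set.range (cy y))
  have hfin : t.Finite := (Set.finite_range (cy y)).subset ht
  have hft : Fintype t := hfin.fintype
  have hσ : ∀ i : t, ∃ j, cy y j = i := fun i => ht i.2
  choose σ hσ using hσ
  refine ⟨t, hft, σ, ?_, ?_⟩
  · have h3 := htb.cardinalMk_eq_trdeg
    rw [trdeg_ratFunc (k := ℂ) (M := K) hy.sub.dim, Cardinal.mk_fintype] at h3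
    exact_mod_cast h3
  · have h4 : (fun i => cy y (σ i)) = ((↑) : t → RatFunc K) := funext hσ
    rw [h4]
    exact htb.1

/-- **Open subsets of cones** have full Hausdorff dimension. -/
theorem le_dimH_open (hp : IsHomog p) {K : Type} [Field K] [Algebra ℂ K] {w : ℕ}
    {y : Fin (n + 1) → K} (hy : FunField p Q K w y) {G : MvPolynomial (Fin (n + 1)) ℂ}
    (hG : IsForm G) (hGp : G ∉ p) :
    ((2 * w + 2 : ℕ) : ℝ≥0∞) ≤
      dimH {x : Fin (n + 1) → ℂ | (∀ H ∈ p, eval x H = 0) ∧ eval x G ≠ 0} := by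
  classical
  obtain ⟨ι, hι, σ, hcard, hind⟩ := exists_basis_cy hy
  -- the ring of the cone
  have hmem : ∀ H : MvPolynomial (Fin (n + 1)) ℂ, aeval (cy y) H = 0 ↔ H ∈ p := by
    intro H
    refine ⟨fun h => cy_zero hp hy h, fun h => ?_⟩
    rw [← sum_homogeneousComponent H, map_sum]
    refine Finset.sum_eq_zero fun d _ => ?_
    rw [cy_form (homogeneousComponent_isHomogeneous d H), hy.sub.mem _ (hp H h d),
      Polynomial.C_0, zero_mul, rf_zero]
  let A := (aeval (cy y) : MvPolynomial (Fin (n + 1)) ℂ →ₐ[ℂ] RatFunc K).range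
  have hA : Algebra.FiniteType ℂ A :=
    Algebra.FiniteType.of_surjective
      (aeval (cy y) : MvPolynomial (Fin (n + 1)) ℂ →ₐ[ℂ] RatFunc K).rangeRestrict
      (AlgHom.rangeRestrict_surjective _)
  let π : MvPolynomial (Fin (n + 1)) ℂ →ₐ[ℂ] A :=
    (aeval (cy y) : MvPolynomial (Fin (n + 1)) ℂ →ₐ[ℂ] RatFunc K).rangeRestrict
  have hπ : ∀ H, π H = 0 ↔ H ∈ p := by
    intro H
    rw [← hmem H]
    exact ⟨fun h => congrArg Subtype.val h, fun h => Subtype.ext h⟩
  let ψ : MvPolynomial ι ℂ →ₐ[ℂ] A := aeval fun i => π (X (σ i))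
  have hψ : ∀ P, ψ P = 0 → P = 0 := by
    intro P hP
    refine (algebraicIndependent_iff.1 hind) P ?_
    have h1 := congrArg A.val hP
    rw [map_zero] at h1
    have h2 := MvPolynomial.comp_aeval_apply (f := fun i => π (X (σ i))) A.val P
    rw [← h1]
    refine (h2.trans ?_).symm
    congr 2
    funext i
    change aeval (cy y) (X (σ i)) = _
    rw [aeval_X]
  obtain ⟨D, hD, hDt⟩ := chevK hA ψ (π G) (fun h => hGp ((hπ G).1 h))
  have hD0 : D ≠ 0 := by
    rintro rfl
    exact hD (map_zero _)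
  let S : Set (Fin (n + 1) → ℂ) := {x | (∀ H ∈ p, eval x H = 0) ∧ eval x G ≠ 0}
  let U : (Fin (n + 1) → ℂ) → ι → ℂ := fun x i => x (σ i)
  have himg : {t : ι → ℂ | eval t D ≠ 0} ⊆ U '' S := by
    intro t ht
    obtain ⟨χ, hχ, hχt⟩ := hDt t (fun x hx => by rw [hψ x hx, map_zero]) ht
    have hev : ∀ H : MvPolynomial (Fin (n + 1)) ℂ, eval (fun j => χ (π (X j))) H = χ (π H) := by
      intro H
      have h1 := MvPolynomial.comp_aeval_apply (f := (X : Fin (n + 1) → _)) (χ.comp π) H
      rw [aeval_X_left, AlgHom.id_apply] at h1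
      rw [← MvPolynomial.aeval_eq_eval]
      exact h1.symm
    refine ⟨fun j => χ (π (X j)), ⟨fun H hH => ?_, ?_⟩, ?_⟩
    · rw [hev, (hπ H).2 hH, map_zero]
    · rwa [hev]
    · funext i
      have h1 := hχt i
      have h2 : ψ (X i) = π (X (σ i)) := aeval_X _ _
      rw [h2] at h1
      exact h1
  have hopen : IsOpen {t : ι → ℂ | eval t D ≠ 0} :=
    isOpen_ne_fun (MvPolynomial.continuous_eval D) continuous_const
  have hne : {t : ι → ℂ | eval t D ≠ 0}.Nonempty := by
    by_contra hno
    rw [Set.not_nonempty_iff_eq_empty, Set.eq_empty_iff_forall_notMem] at hno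
    apply hD0
    apply MvPolynomial.funext
    intro t
    rw [map_zero]
    by_contra h1
    exact hno t h1
  have h1 : dimH {t : ι → ℂ | eval t D ≠ 0} = ((2 * w + 2 : ℕ) : ℝ≥0∞) := by
    have h2 : (interior {t : ι → ℂ | eval t D ≠ 0}).Nonempty := by
      rw [hopen.interior_eq]
      exact hne
    rw [Real.dimH_of_nonempty_interior h2]
    have h3 : Module.finrank ℝ (ι → ℂ) = 2 * w + 2 := by
      rw [Module.finrank_pi_fintype]
      simp only [Complex.finrank_real_complex, Finset.sum_const, Finset.card_univ, hcard,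
        smul_eq_mul]
      ring
    rw [h3]
  have hLip : LipschitzWith 1 U := by
    refine LipschitzWith.of_dist_le_mul fun x x' => ?_
    rw [NNReal.coe_one, one_mul, dist_pi_le_iff dist_nonneg]
    intro i
    exact dist_le_pi_dist x x' (σ i)
  rw [← h1]
  exact (dimH_mono himg).trans (hLip.dimH_image_le S)

/-- The variety is covered by polynomial curves: a family of polynomial curves in `X - D`,
parametrised by the extension field `M` of `ℂ`, passes through the generic point, and the quotient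
of two forms of the same degree is not constant along these curves. -/
def PolyCovered {K : Type} [Field K] [Algebra ℂ K] (Q : MvPolynomial (Fin (n + 1)) ℂ)
    (y : Fin (n + 1) → K) : Prop :=
  ∃ (M : Type) (_ : Field M) (_ : Algebra ℂ M) (W : Fin (n + 1) → Polynomial M), Fam y Q W 0 ∧
    ∃ (d : ℕ) (g1 g0 : MvPolynomial (Fin (n + 1)) ℂ), g1.IsHomogeneous d ∧ g0.IsHomogeneous d ∧
      Polynomial.derivative (aeval W g1 : Polynomial M) * aeval W g0 ≠
        aeval W g1 * Polynomial.derivative (aeval W g0 : Polynomial M)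

/-- without such families, the curves of bounded degree lie in hypersurface sections -/
theorem forms_of_not_covered {K : Type} [Field K] [Algebra ℂ K] {w : ℕ} {y : Fin (n + 1) → K}
    (hy : FunField p Q K w y) (h : ¬ PolyCovered Q y) (m : ℕ) :
    ∃ G, IsForm G ∧ G ∉ p ∧ ∀ T, PolyCurve p Q T → (∀ j, (T j).natDegree ≤ m) →
      ∀ z : ℂ, eval (fun j => (T j).eval z) G = 0 := by
  classical
  have hval : ∀ G, IsForm G → (W602.GT.val y G = 0 ↔ G ∈ p) :=
    fun G hG => ⟨hy.mem G hG, hy.sub.mem G⟩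
  have h1 : ∀ jk : Fin (n + 1) × Fin (n + 1), ∃ G, IsForm G ∧ G ∉ p ∧ ∀ T, PolyCurve p Q T →
      (∀ j, (T j).natDegree ≤ m) → NCAlong (X jk.1) (X jk.2) T →
      ∀ z : ℂ, eval (fun j => (T j).eval z) G = 0 := by
    rintro ⟨j, k⟩
    by_contra hno
    obtain ⟨M, i1, i2, m', W, hm, hF, hne⟩ := fam_of_dense hy m hno
    exact h ⟨M, i1, i2, W, hF, 1, X j, X k, isHomogeneous_X _ _, isHomogeneous_X _ _, hne⟩
  choose G hG hGp hGT using h1
  have hprod : ∀ s : Finset (Fin (n + 1) × Fin (n + 1)),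
      IsForm (∏ jk ∈ s, G jk) ∧ ∏ jk ∈ s, G jk ∉ p := by
    intro s
    induction s using Finset.induction_on with
    | empty =>
      rw [Finset.prod_empty]
      refine ⟨⟨0, isHomogeneous_one _ _⟩, fun h2 => ?_⟩
      have h3 := hy.sub.mem _ h2
      unfold W602.GT.val at h3
      rw [map_one] at h3
      exact one_ne_zero h3
    | insert a s ha ih =>
      rw [Finset.prod_insert ha]
      obtain ⟨⟨d1, e1⟩, h2⟩ := ih
      obtain ⟨d2, e2⟩ := hG a
      refine ⟨⟨d2 + d1, e2.mul e1⟩, fun h3 => ?_⟩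
      have h4 := hy.sub.mem _ h3
      unfold W602.GT.val at h4
      rw [map_mul] at h4
      rcases mul_eq_zero.1 h4 with h5 | h5
      · exact hGp a ((hval _ ⟨d2, e2⟩).1 h5)
      · exact h2 ((hval _ ⟨d1, e1⟩).1 h5)
  refine ⟨∏ jk, G jk, (hprod _).1, (hprod _).2, fun T hT hd z => ?_⟩
  have h2 : ∃ j k, NCAlong (X j) (X k) T := by
    by_contra hno
    push Not at hno
    obtain ⟨s, t, j, k, hst⟩ := hT.ind
    apply hst
    have h3 := hno j k
    unfold NCAlong at h3
    rw [not_not] at h3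
    have h4 := poly_const h3 s t
    rw [aeval_X, aeval_X] at h4
    rw [h4]
    ring
  obtain ⟨j, k, hjk⟩ := h2
  rw [map_prod]
  exact Finset.prod_eq_zero (Finset.mem_univ (j, k)) (hGT (j, k) T hT hd hjk z)

/-- **Covered varieties.** -/
theorem covered_tfae (hp : IsHomog p) (hQ : Q.IsHomogeneous q) {K : Type} [Field K] [Algebra ℂ K]
    {w : ℕ} {y : Fin (n + 1) → K} (hy : FunField p Q K w y) :
    [PolyCovered Q y,
      ∃ G, IsForm G ∧ G ∉ p ∧ ∀ x : Fin (n + 1) → ℂ, (∀ H ∈ p, eval x H = 0) → eval x G ≠ 0 →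
        x ∈ ratPts p Q,
      ((2 * w + 2 : ℕ) : ℝ≥0∞) ≤ dimH (ratPts p Q),
      ((2 * w : ℕ) : ℝ≥0∞) < dimH (ratPts p Q)].TFAE := by
  tfae_have 1 → 2 := by
    rintro ⟨M, _, _, W, hF, d, g1, g0, h1, h0, hne⟩
    exact cover_of_fam hp hQ hy hF h1 h0 hne
  tfae_have 2 → 3 := by
    rintro ⟨G, hG, hGp, h⟩
    exact (le_dimH_open hp hy hG hGp).trans (dimH_mono fun x hx => h x hx.1 hx.2)
  tfae_have 3 → 4 := by
    intro h
    refine lt_of_lt_of_le ?_ h
    exact_mod_cast (by omega : 2 * w < 2 * w + 2)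
  tfae_have 4 → 1 := by
    intro h
    by_contra hno
    exact absurd (dimH_ratPts hp hy (forms_of_not_covered hy hno)) (not_le.2 h)
  tfae_finish

/-- proportional polynomials over a field of characteristic zero -/
theorem prop_of_deriv {M : Type} [Field M] [CharZero M] {a b : Polynomial M} (hb : b ≠ 0)
    (h : Polynomial.derivative a * b = a * Polynomial.derivative b) :
    ∃ c : M, a = Polynomial.C c * b := by
  classical
  set g := gcd a b with hg
  have hg0 : g ≠ 0 := gcd_ne_zero_of_right hb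
  obtain ⟨a0, ha0⟩ : g ∣ a := gcd_dvd_left a b
  obtain ⟨b0, hb0⟩ : g ∣ b := gcd_dvd_right a b
  have hc : IsCoprime a0 b0 := by
    have h1 := isCoprime_div_gcd_div_gcd (p := a) hb
    rw [← hg] at h1
    rwa [ha0, hb0, mul_div_cancel_left₀ _ hg0, mul_div_cancel_left₀ _ hg0] at h1
  have h1 : Polynomial.wronskian a0 b0 = 0 := by
    have h2 : g ^ 2 * Polynomial.wronskian a0 b0 = 0 := by
      unfold Polynomial.wronskian
      rw [ha0, hb0, Polynomial.derivative_mul, Polynomial.derivative_mul] at h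
      linear_combination -h
    exact (mul_eq_zero.1 h2).resolve_left (pow_ne_zero _ hg0)
  rw [hc.wronskian_eq_zero_iff] at h1
  obtain ⟨α, hα⟩ := Polynomial.natDegree_eq_zero.1
    (Polynomial.derivative_eq_zero.1 h1.1)
  obtain ⟨β, hβ⟩ := Polynomial.natDegree_eq_zero.1
    (Polynomial.derivative_eq_zero.1 h1.2)
  have hβ0 : β ≠ 0 := by
    rintro rfl
    apply hb
    rw [hb0, ← hβ, Polynomial.C_0, mul_zero]
  refine ⟨α / β, ?_⟩
  rw [ha0, hb0, ← hα, ← hβ]
  rw [show Polynomial.C (α / β) * (g * Polynomial.C β) = g * (Polynomial.C (α / β) *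
    Polynomial.C β) by ring, ← Polynomial.C_mul, div_mul_cancel₀ _ hβ0]

/-- **Uniruled varieties.** In the projective case, families of polynomial curves through the generic
point exist if and only if the variety is covered by rational curves. -/
theorem polyCovered_iff {K : Type} [Field K] [Algebra ℂ K] {w : ℕ} {y : Fin (n + 1) → K}
    (hy : FunField p 1 K w y) : PolyCovered 1 y ↔ Covered K := by
  classical
  constructor
  · rintro ⟨M, i1, i2, W, hF, d, g1, g0, h1, h0, hne⟩
    obtain ⟨φ, hφ⟩ := Fam.emb hy.sub.ne hy.sub.gen hF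
    have hW0 : aeval W g0 ≠ 0 := by
      intro h2
      apply hne
      rw [h2, mul_zero, Polynomial.derivative_zero, mul_zero]
    have hv : W602.GT.val y g0 ≠ 0 := fun h2 => hW0 ((hF.rel g0 ⟨d, h0⟩).1 h2)
    refine ⟨M, i1, i2, φ, W602.GT.val y g1 / W602.GT.val y g0, fun c hc => hne ?_⟩
    rw [hφ d g1 g0 h1 h0 hv, div_eq_iff (by rwa [Ne, rf_zero])] at hc
    have h2 : aeval W g1 = Polynomial.C c * aeval W g0 := by
      apply rf_inj
      rw [hc, rf_mul]
      congr 1
    rw [h2, Polynomial.derivative_mul, Polynomial.derivative_C]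
    ring
  · rintro ⟨M, i1, i2, φ, r, hr⟩
    have hM : CharZero M := charZero_of_injective_algebraMap (algebraMap ℂ M).injective
    obtain ⟨k, hk⟩ := Function.ne_iff.1 hy.sub.ne
    have hk' : y k ≠ 0 := hk
    let D : Polynomial M := ∏ j, (φ (y j / y k)).denom
    have hD : D ≠ 0 := Finset.prod_ne_zero_iff.2 fun j _ => RatFunc.denom_ne_zero _
    let W : Fin (n + 1) → Polynomial M := fun j =>
      (φ (y j / y k)).num * ∏ i ∈ Finset.univ.erase j, (φ (y i / y k)).denom
    have hW : ∀ j, rf (W j) = rf D * φ (y j / y k) := by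
      intro j
      have h2 : D = (φ (y j / y k)).denom * ∏ i ∈ Finset.univ.erase j, (φ (y i / y k)).denom :=
        (Finset.mul_prod_erase _ _ (Finset.mem_univ j)).symm
      have h3 : rf (φ (y j / y k)).num = rf (φ (y j / y k)).denom * φ (y j / y k) := by
        have h4 := RatFunc.num_div_denom (φ (y j / y k))
        unfold rf
        have h5 : algebraMap (Polynomial M) (RatFunc M) (φ (y j / y k)).denom ≠ 0 := by
          rw [Ne, map_eq_zero_iff _ (RatFunc.algebraMap_injective M)]
          exact RatFunc.denom_ne_zero _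
        rw [mul_comm]
        exact (div_eq_iff h5).1 h4
      rw [h2, rf_mul, rf_mul, h3]
      ring
    have hWG : ∀ (G : MvPolynomial (Fin (n + 1)) ℂ) (e : ℕ), G.IsHomogeneous e →
        rf (aeval W G) = rf D ^ e * φ (ch y k G) := by
      intro G e hG
      have h2 := val_rf (k := ℂ) W G
      unfold W602.GT.val at h2
      rw [← h2]
      have h3 : (fun j => rf (W j)) = fun j => rf D * φ (y j / y k) := funext hW
      rw [h3, aeval_scaleR hG]
      congr 1
      unfold ch
      exact (MvPolynomial.comp_aeval_apply (f := fun j => y j / y k) φ G).symm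
    have hφ0 : ∀ a, φ a = 0 ↔ a = 0 := fun a => map_eq_zero_iff φ φ.toRingHom.injective
    have hrD : rf D ≠ 0 := by rwa [Ne, rf_zero]
    have hF : Fam y (1 : MvPolynomial (Fin (n + 1)) ℂ) W 0 := by
      refine ⟨fun G hG => ?_, 1, one_ne_zero, ?_⟩
      · obtain ⟨e, he⟩ := hG
        rw [← rf_zero, hWG G e he, mul_eq_zero_iff_left (pow_ne_zero _ hrD), hφ0,
          ch_form hk' ⟨e, he⟩]
      · rw [map_one, Polynomial.C_1, pow_zero, mul_one]
    obtain ⟨d, g1, g0, h1, h0, hv0, rfl⟩ := exists_frac hy.sub.gen r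
    refine ⟨M, i1, i2, W, hF, d, g1, g0, h1, h0, fun h2 => ?_⟩
    have hW0 : aeval W g0 ≠ 0 := fun h3 => hv0 ((hF.rel g0 ⟨d, h0⟩).2 h3)
    obtain ⟨c, hc⟩ := prop_of_deriv hW0 h2
    apply hr c
    have h3 : ∀ (G : MvPolynomial (Fin (n + 1)) ℂ), G.IsHomogeneous d →
        W602.GT.val y G = y k ^ d * ch y k G := fun G hG => val_scale hk' hG
    have h4 : ch y k g0 ≠ 0 := by
      rw [Ne, ch_form hk' ⟨d, h0⟩]
      exact hv0
    rw [h3 g1 h1, h3 g0 h0, mul_div_mul_left _ _ (pow_ne_zero _ hk'), map_div₀,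
      div_eq_iff ((hφ0 _).not.2 h4)]
    apply mul_left_cancel₀ (pow_ne_zero d hrD)
    rw [← hWG g1 d h1, hc, rf_mul, hWG g0 d h0]
    have h5 : rf (Polynomial.C c) = algebraMap M (RatFunc M) c := by
      unfold rf
      rw [RatFunc.algebraMap_C]
      rfl
    rw [h5]
    ring

end Pool.Agent.Q64.LC
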