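import Pool.Agent.Q64.LC.Sub
import Pool.Agent.Q64.LC.Ultra

/-!
If the polynomial curves of bounded degree are Zariski-dense then the variety is covered by rational
curves.
-/

set_option autoImplicit false

namespace Pool.Agent.Q64.LC

open MvPolynomial Filter Pool.Agent.TH143.GT Pool.Agent.W602.GT
open Pool.Agent.W603.GR

variable {n : ℕ} {p : Ideal (MvPolynomial (Fin (n + 1)) ℂ)} {Q : MvPolynomial (Fin (n + 1)) ℂ}
  {q : ℕ}

/-- the polynomials of degree at most `m` with the given coefficients -/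
noncomputable def fp {R : Type} [CommRing R] (m : ℕ) (c : Fin (n + 1) → ℕ → R) (j : Fin (n + 1)) :
    Polynomial R :=
  ∑ i ∈ Finset.range (m + 1), Polynomial.monomial i (c j i)

theorem map_fp {R R' : Type} [CommRing R] [CommRing R'] (g : R →+* R') (m : ℕ)
    (c : Fin (n + 1) → ℕ → R) (j : Fin (n + 1)) :
    (fp m c j).map g = fp m (fun j i => g (c j i)) j := by
  unfold fp
  rw [Polynomial.map_sum]
  exact Finset.sum_congr rfl fun i _ => Polynomial.map_monomial g

theorem fp_coeff {m : ℕ} {T : Fin (n + 1) → Polynomial ℂ} {j : Fin (n + 1)}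
    (h : (T j).natDegree ≤ m) : fp m (fun j i => (T j).coeff i) j = T j := by
  unfold fp
  exact ((T j).as_sum_range' (m + 1) (Nat.lt_succ_of_le h)).symm

section fam

variable {I : Type} {U : Ultrafilter I}

/-- the ultraproduct of polynomial curves -/
theorem fp_nul (m : ℕ) (c : I → Fin (n + 1) → ℕ → ℂ) (G : MvPolynomial (Fin (n + 1)) ℂ) :
    aeval (fp m (fun j l => Ideal.Quotient.mkₐ ℂ (nul U) fun i => c i j l)) G = 0 ↔
      ∀ᶠ i in (U : Filter I), aeval (fp m (c i)) G = 0 := by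
  have hmap : ∀ {R R' : Type} [CommRing R] [CommRing R'] [Algebra ℂ R] [Algebra ℂ R']
      (f : R →ₐ[ℂ] R') (c : Fin (n + 1) → ℕ → R),
      (aeval (fp m c) G).map (f : R →+* R') = aeval (fp m fun j l => f (c j l)) G := by
    intro R R' _ _ _ _ f c
    rw [map_aeval']
    congr 2
    funext j
    exact map_fp (f : R →+* R') m c j
  rw [← hmap (Ideal.Quotient.mkₐ ℂ (nul U)) fun j l i => c i j l]
  set P : Polynomial (I → ℂ) := aeval (fp m fun j l i => c i j l) G with hP
  have hi : ∀ i, P.map ((Pi.evalAlgHom ℂ (fun _ : I => ℂ) i : (I → ℂ) →ₐ[ℂ] ℂ) : (I → ℂ) →+* ℂ) =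
      aeval (fp m (c i)) G := fun i => hmap (Pi.evalAlgHom ℂ (fun _ : I => ℂ) i) _
  have hc : ∀ i k, (aeval (fp m (c i)) G : Polynomial ℂ).coeff k = P.coeff k i := by
    intro i k
    rw [← hi i, Polynomial.coeff_map]
    rfl
  have h0 : P.map ((Ideal.Quotient.mkₐ ℂ (nul U) : (I → ℂ) →ₐ[ℂ] (I → ℂ) ⧸ nul U) :
      (I → ℂ) →+* (I → ℂ) ⧸ nul U) = 0 ↔
      ∀ k, P.coeff k ∈ nul U := by
    constructor
    · intro h k
      have h1 := congrArg (fun q => Polynomial.coeff q k) h
      rw [Polynomial.coeff_map] at h1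
      exact Ideal.Quotient.eq_zero_iff_mem.1 h1
    · intro h
      ext k
      rw [Polynomial.coeff_map, Polynomial.coeff_zero]
      exact Ideal.Quotient.eq_zero_iff_mem.2 (h k)
  refine h0.trans ?_
  constructor
  · intro h
    have h1 : ∀ᶠ i in (U : Filter I), ∀ k ∈ Finset.range (P.natDegree + 1), P.coeff k i = 0 :=
      (Filter.eventually_all_finset _).2 fun k _ => h k
    filter_upwards [h1] with i h2
    ext k
    rw [hc, Polynomial.coeff_zero]
    rcases lt_or_ge k (P.natDegree + 1) with hk | hk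
    · exact h2 k (Finset.mem_range.2 hk)
    · rw [Polynomial.coeff_eq_zero_of_natDegree_lt (show P.natDegree < k by omega)]
      rfl
  · intro h k
    rw [mem_nul]
    filter_upwards [h] with i h1
    rw [← hc, h1, Polynomial.coeff_zero]

end fam

/-- **Families of bounded degree.** If no hypersurface section of the variety contains all the
polynomial curves of degree at most `m`, then the variety is covered by rational curves, all its
logarithmic pluricanonical forms vanish, and it is not of logarithmic general type. -/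
theorem polys_main {K : Type} [Field K] [Algebra ℂ K] {w : ℕ} {y : Fin (n + 1) → K}
    (hy : FunField p Q K w y) (hQ : Q.IsHomogeneous q) (m : ℕ)
    (h : ¬ ∃ G, IsForm G ∧ G ∉ p ∧ ∀ T, PolyCurve p Q T → (∀ j, (T j).natDegree ≤ m) →
      ∀ z : ℂ, eval (fun j => (T j).eval z) G = 0) :
    Covered K ∧ ∀ N, 0 < N → ∀ ω : (Fin w → Derivation ℂ K K) → K,
      LogSec ℂ K w N (OffQ Q q y) ω → ω = 0 := by
  classical
  push Not at h
  let I : Type := {G : MvPolynomial (Fin (n + 1)) ℂ // IsForm G ∧ G ∉ p}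
  have hval : ∀ G, IsForm G → (W602.GT.val y G = 0 ↔ G ∈ p) :=
    fun G hG => ⟨hy.mem G hG, hy.sub.mem G⟩
  have hx : ∀ G : I, ∃ T, PolyCurve p Q T ∧ (∀ j, (T j).natDegree ≤ m) ∧
      (aeval T G.1 : Polynomial ℂ) ≠ 0 := by
    intro G
    obtain ⟨T, hT, hd, t, ht⟩ := h G.1 G.2.1 G.2.2
    refine ⟨T, hT, hd, fun h0 => ht ?_⟩
    rw [← ev_aeval, h0, Polynomial.eval_zero]
  choose T hT hTd hG using hx
  have hTf : ∀ G : I, fp m (fun j i => (T G j).coeff i) = T G := fun G =>
    funext fun j => fp_coeff (hTd G j)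
  have h1 : W602.GT.val y (1 : MvPolynomial (Fin (n + 1)) ℂ) ≠ 0 := by
    unfold W602.GT.val
    rw [map_one]
    exact one_ne_zero
  have hf1 : IsForm (1 : MvPolynomial (Fin (n + 1)) ℂ) := ⟨0, isHomogeneous_one _ _⟩
  have hne : Nonempty I := ⟨⟨1, hf1, fun h2 => h1 ((hval 1 hf1).2 h2)⟩⟩
  let A : I → Set I := fun G => {H | G.1 ∣ H.1}
  have hdir : Directed (· ≥ ·) fun G : I => (𝓟 (A G) : Filter I) := by
    intro G1 G2
    have hf : IsForm (G1.1 * G2.1) := by
      obtain ⟨d1, e1⟩ := G1.2.1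
      obtain ⟨d2, e2⟩ := G2.2.1
      exact ⟨d1 + d2, e1.mul e2⟩
    have hnp : G1.1 * G2.1 ∉ p := by
      intro h2
      have h3 := (hval _ hf).2 h2
      unfold W602.GT.val at h3
      rw [map_mul] at h3
      rcases mul_eq_zero.1 h3 with h4 | h4
      · exact G1.2.2 ((hval _ G1.2.1).1 h4)
      · exact G2.2.2 ((hval _ G2.2.1).1 h4)
    refine ⟨⟨G1.1 * G2.1, hf, hnp⟩, ?_, ?_⟩
    · change (𝓟 _ : Filter I) ≤ 𝓟 _
      rw [Filter.principal_mono]
      intro H hH
      exact (Dvd.intro _ rfl).trans hH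
    · change (𝓟 _ : Filter I) ≤ 𝓟 _
      rw [Filter.principal_mono]
      intro H hH
      exact (Dvd.intro_left _ rfl).trans hH
  have hF : (⨅ G : I, (𝓟 (A G) : Filter I)).NeBot := by
    refine Filter.iInf_neBot_of_directed' hdir fun G => ?_
    rw [Filter.principal_neBot_iff]
    exact ⟨G, dvd_refl _⟩
  let U : Ultrafilter I := Ultrafilter.of (⨅ G : I, (𝓟 (A G) : Filter I))
  have hU : ∀ G : I, ∀ᶠ H : I in (U : Filter I), G.1 ∣ H.1 := by
    intro G
    have h2 : A G ∈ (⨅ G : I, (𝓟 (A G) : Filter I)) :=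
      Filter.mem_iInf_of_mem G (Filter.mem_principal_self _)
    exact Ultrafilter.of_le _ h2
  let c : I → Fin (n + 1) → ℕ → ℂ := fun i j l => (T i j).coeff l
  have hTc : ∀ i, fp m (c i) = T i := hTf
  let W : Fin (n + 1) → Polynomial ((I → ℂ) ⧸ nul U) :=
    fp m (fun j l => Ideal.Quotient.mkₐ ℂ (nul U) fun i => c i j l)
  have hrel : ∀ G : MvPolynomial (Fin (n + 1)) ℂ, IsForm G →
      (W602.GT.val y G = 0 ↔ aeval W G = 0) := by
    intro G hGf
    rw [hval G hGf]
    constructor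
    · intro hGp
      refine (fp_nul m c G).2 (Eventually.of_forall fun i => ?_)
      rw [hTc]
      apply Polynomial.funext
      intro t
      rw [ev_aeval, Polynomial.eval_zero]
      exact (hT i).mem G hGp hGf t
    · intro h0
      by_contra hGp
      have h2 := (fp_nul m c G).1 h0
      obtain ⟨H, h3, k, h4⟩ := (h2.and (hU ⟨G, hGf, hGp⟩)).exists
      apply hG H
      rw [h4, map_mul, ← hTc H, h3, zero_mul]
  choose d hd0 hd using fun i => (hT i).off
  have hWQ : aeval W Q = Polynomial.C (Ideal.Quotient.mkₐ ℂ (nul U) d) := by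
    have hmap : ∀ {R R' : Type} [CommRing R] [CommRing R'] [Algebra ℂ R] [Algebra ℂ R']
        (f : R →ₐ[ℂ] R') (c : Fin (n + 1) → ℕ → R),
        (aeval (fp m c) Q).map (f : R →+* R') = aeval (fp m fun j l => f (c j l)) Q := by
      intro R R' _ _ _ _ f c
      rw [map_aeval']
      congr 2
      funext j
      exact map_fp (f : R →+* R') m c j
    have h2 := hmap (Ideal.Quotient.mkₐ ℂ (nul U)) fun j l i => c i j l
    change _ = aeval W Q at h2
    have h3 : (aeval (fp m fun j l i => c i j l) Q : Polynomial (I → ℂ)) = Polynomial.C d := by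
      ext k i
      have h4 := hmap (Pi.evalAlgHom ℂ (fun _ : I => ℂ) i) fun j l i => c i j l
      have h5 : (aeval (fp m (c i)) Q : Polynomial ℂ) = Polynomial.C (d i) := by
        rw [hTc]
        apply Polynomial.funext
        intro t
        rw [ev_aeval, Polynomial.eval_C]
        exact hd i t
      have h6 := congrArg (fun q => Polynomial.coeff q k) (h4.trans h5)
      rw [Polynomial.coeff_map] at h6
      refine Eq.trans h6 ?_
      rw [Polynomial.coeff_C, Polynomial.coeff_C]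
      split_ifs <;> rfl
    rw [← h2, h3, Polynomial.map_C]
    rfl
  have hcne : Ideal.Quotient.mkₐ ℂ (nul U) d ≠ 0 := by
    intro h2
    have h3 := Ideal.Quotient.eq_zero_iff_mem.1 h2
    obtain ⟨i, hi⟩ := (mem_nul.1 h3).exists
    exact hd0 i hi
  -- the Wronskians
  obtain ⟨j, k, hjk⟩ : ∃ j k, ∀ᶠ i in (U : Filter I),
      Polynomial.derivative (T i j) * T i k ≠ T i j * Polynomial.derivative (T i k) := by
    by_contra hno
    push Not at hno
    have h2 : ∀ j k, ∀ᶠ i in (U : Filter I),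
        Polynomial.derivative (T i j) * T i k = T i j * Polynomial.derivative (T i k) := hno
    have h3 : ∀ᶠ i in (U : Filter I), ∀ j k,
        Polynomial.derivative (T i j) * T i k = T i j * Polynomial.derivative (T i k) := by
      rw [Filter.eventually_all]
      intro j
      rw [Filter.eventually_all]
      exact h2 j
    obtain ⟨i, hi⟩ := h3.exists
    obtain ⟨s, t, j, k, h4⟩ := (hT i).ind
    apply h4
    rw [poly_const (hi j k) s t]
    ring
  have hder : Polynomial.derivative (aeval W (X j : MvPolynomial (Fin (n + 1)) ℂ)) *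
      aeval W (X k : MvPolynomial (Fin (n + 1)) ℂ) ≠
      aeval W (X j : MvPolynomial (Fin (n + 1)) ℂ) *
        Polynomial.derivative (aeval W (X k : MvPolynomial (Fin (n + 1)) ℂ)) := by
    rw [aeval_X, aeval_X]
    intro h2
    let P : Fin (n + 1) → Polynomial (I → ℂ) := fp m fun j l i => c i j l
    have hWP : ∀ j, W j = (P j).map ((Ideal.Quotient.mkₐ ℂ (nul U) : (I → ℂ) →ₐ[ℂ]
        (I → ℂ) ⧸ nul U) : (I → ℂ) →+* (I → ℂ) ⧸ nul U) := fun j =>
      (map_fp ((Ideal.Quotient.mkₐ ℂ (nul U) : (I → ℂ) →ₐ[ℂ]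
        (I → ℂ) ⧸ nul U) : (I → ℂ) →+* (I → ℂ) ⧸ nul U) m (fun j l i => c i j l) j).symm
    have hiP : ∀ i j, (P j).map ((Pi.evalAlgHom ℂ (fun _ : I => ℂ) i : (I → ℂ) →ₐ[ℂ] ℂ) :
        (I → ℂ) →+* ℂ) = T i j := by
      intro i j
      rw [← hTc i]
      exact map_fp ((Pi.evalAlgHom ℂ (fun _ : I => ℂ) i : (I → ℂ) →ₐ[ℂ] ℂ) :
        (I → ℂ) →+* ℂ) m (fun j l i => c i j l) j
    set V : Polynomial (I → ℂ) := Polynomial.derivative (P j) * P k -
      P j * Polynomial.derivative (P k) with hV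
    have h3 : V.map ((Ideal.Quotient.mkₐ ℂ (nul U) : (I → ℂ) →ₐ[ℂ]
        (I → ℂ) ⧸ nul U) : (I → ℂ) →+* (I → ℂ) ⧸ nul U) = 0 := by
      rw [hV, Polynomial.map_sub, Polynomial.map_mul, Polynomial.map_mul,
        ← Polynomial.derivative_map, ← Polynomial.derivative_map, ← hWP, ← hWP, h2, sub_self]
    have h4 : ∀ l, V.coeff l ∈ nul U := by
      intro l
      have h5 := congrArg (fun q => Polynomial.coeff q l) h3
      rw [Polynomial.coeff_map] at h5
      exact Ideal.Quotient.eq_zero_iff_mem.1 h5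
    have h5 : ∀ᶠ i in (U : Filter I), ∀ l ∈ Finset.range (V.natDegree + 1), V.coeff l i = 0 :=
      (Filter.eventually_all_finset _).2 fun l _ => h4 l
    obtain ⟨i, h6, h7⟩ := (h5.and hjk).exists
    apply h7
    rw [← hiP i j, ← hiP i k, Polynomial.derivative_map, Polynomial.derivative_map,
      ← Polynomial.map_mul, ← Polynomial.map_mul, ← sub_eq_zero, ← Polynomial.map_sub, ← hV]
    ext l
    rw [Polynomial.coeff_map, Polynomial.coeff_zero]
    rcases lt_or_ge l (V.natDegree + 1) with hl | hl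
    · exact h6 l (Finset.mem_range.2 hl)
    · rw [Polynomial.coeff_eq_zero_of_natDegree_lt (show V.natDegree < l by omega), map_zero]
  obtain ⟨M, i1, i2, m', hm, W', e1, e2, e3⟩ := desc2 W
  have hQ0 : (aeval W' Q).natDegree = 0 := by
    rw [e2, hWQ, Polynomial.natDegree_C]
  have hQne : aeval W' Q ≠ 0 := by
    rw [Ne, e1, hWQ, Polynomial.C_eq_zero]
    exact hcne
  obtain ⟨c', hc'⟩ : ∃ c' : M, aeval W' Q = Polynomial.C c' :=
    ⟨_, Polynomial.eq_C_of_natDegree_eq_zero hQ0⟩
  have hF : Fam y Q W' 0 := by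
    refine ⟨fun G hGf => (hrel G hGf).trans (e1 G).symm, c', ?_, ?_⟩
    · rintro rfl
      exact hQne (by rw [hc', Polynomial.C_0])
    · rw [hc', pow_zero, mul_one]
  have hder' := e3 (X k) (X j) hder
  have hyk : W602.GT.val y (X k : MvPolynomial (Fin (n + 1)) ℂ) ≠ 0 := by
    intro h0
    apply hder'
    rw [(hF.rel (X k) ⟨1, isHomogeneous_X _ _⟩).1 h0, mul_zero, Polynomial.derivative_zero,
      mul_zero]
  constructor
  · obtain ⟨φ, hφ⟩ := hF.emb hy.sub.ne hy.sub.gen
    refine ⟨M, inferInstance, inferInstance, φ,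
      W602.GT.val y (X j : MvPolynomial (Fin (n + 1)) ℂ) /
        W602.GT.val y (X k : MvPolynomial (Fin (n + 1)) ℂ), fun c hc => ?_⟩
    rw [hφ 1 (X j) (X k) (isHomogeneous_X _ _) (isHomogeneous_X _ _) hyk] at hc
    have hb : (aeval W' (X k : MvPolynomial (Fin (n + 1)) ℂ) : Polynomial M) ≠ 0 := by
      rw [Ne, ← hF.rel (X k) ⟨1, isHomogeneous_X _ _⟩]
      exact hyk
    have hb' : rf (aeval W' (X k : MvPolynomial (Fin (n + 1)) ℂ) : Polynomial M) ≠ 0 := by
      rwa [Ne, rf_zero]
    apply hder'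
    rw [div_eq_iff hb'] at hc
    have h2 : (aeval W' (X j : MvPolynomial (Fin (n + 1)) ℂ) : Polynomial M) =
        Polynomial.C c * aeval W' (X k : MvPolynomial (Fin (n + 1)) ℂ) := by
      apply rf_inj
      rw [hc, rf_mul]
      congr 1
    rw [h2, Polynomial.derivative_C_mul]
    ring
  · intro N hN ω hω
    funext D
    have hnf : ∃ r : K, ¬ Flat ℂ y W' r :=
      ⟨W602.GT.val y (X j : MvPolynomial (Fin (n + 1)) ℂ) /
          W602.GT.val y (X k : MvPolynomial (Fin (n + 1)) ℂ), fun h => hder' (h 1 (X j) (X k)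
        (isHomogeneous_X _ _) (isHomogeneous_X _ _) hyk rfl)⟩
    exact (hF.main hy.sub.dim hm hy.sub.ne hy.sub.gen hQ).2.2.2 rfl hnf N hN ω hω D

end Pool.Agent.Q64.LC
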