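import Pool.Agent.Q64.LC.Uni

/-!
The universal growth function: points, dimensions, algebraic points.
-/

set_option autoImplicit false

namespace Pool.Agent.Q64.LC

open MvPolynomial Filter Topology Pool.Agent.TH143.GT Pool.Agent.W602.GT Pool.Agent.W603.GR
  Pool.Agent.W603.PV
open MeasureTheory
open scoped NNReal ENNReal

variable {n : ℕ} {p : Ideal (MvPolynomial (Fin (n + 1)) ℂ)} {Q : MvPolynomial (Fin (n + 1)) ℂ}
  {q : ℕ}

/-- multiples of the values at `r` points -/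
noncomputable def evMul (r : ℕ) (x : EC n × (Fin r → ℂ × ℂ)) : Fin r → Fin (n + 1) → ℂ :=
  fun i => (x.2 i).2 • x.1.1 (x.2 i).1

theorem continuous_evMul (r : ℕ) : Continuous (evMul (n := n) r) := by
  refine continuous_pi fun i => ?_
  have h1 : Continuous fun x : EC n × (Fin r → ℂ × ℂ) => x.2 i :=
    (continuous_apply i).comp continuous_snd
  have h2 : Continuous fun x : EC n × (Fin r → ℂ × ℂ) => x.1.1 (x.2 i).1 :=
    (continuous_evalPt (n := n)).comp (continuous_fst.prodMk (continuous_fst.comp h1))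
  exact (continuous_snd.comp h1).smul h2

/-- the parameters and multiples of the values at `r` points -/
noncomputable def evPar (r : ℕ) (x : EC n × (Fin r → ℂ × ℂ)) : Fin r → ℂ × (Fin (n + 1) → ℂ) :=
  fun i => ((x.2 i).1, (x.2 i).2 • x.1.1 (x.2 i).1)

theorem continuous_evPar (r : ℕ) : Continuous (evPar (n := n) r) := by
  refine continuous_pi fun i => ?_
  have h1 : Continuous fun x : EC n × (Fin r → ℂ × ℂ) => x.2 i :=
    (continuous_apply i).comp continuous_snd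
  have h2 : Continuous fun x : EC n × (Fin r → ℂ × ℂ) => x.1.1 (x.2 i).1 :=
    (continuous_evalPt (n := n)).comp (continuous_fst.prodMk (continuous_fst.comp h1))
  exact (continuous_fst.comp h1).prodMk ((continuous_snd.comp h1).smul h2)

/-- **Countable sets of values.** -/
theorem good_countable {P Y : Type} [TopologicalSpace P] [SigmaCompactSpace P] [MetricSpace Y]
    [MeasurableSpace Y] [BorelSpace Y] (hp : IsHomog p) (hQ : Q.IsHomogeneous q)
    {Φ : EC n × P → Y} (hΦ : Continuous Φ) {S : Set Y} (hS : S.Countable) :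
    Good p Q fun f => ∀ (hc : Continuous f) (hd : Differentiable ℂ f) (x : P),
      Φ (⟨⟨f, hc⟩, hd⟩, x) ∈ S → Φ (⟨⟨f, hc⟩, hd⟩, x) ∈ polyVals p Q Φ := by
  have hSc : Countable S := hS.to_subtype
  obtain ⟨N, h1, -, h3⟩ := good_functional hp hQ hΦ
    (Measure.sum (fun s : S => Measure.dirac s.1))
  refine h3.mono fun f hf hc hd x hx => ?_
  rcases hf hc hd x with h | h
  · exact h
  · exact absurd h (notMem_of_sum_dirac h1 hx)

/-- The entire curve `f` and the points with coordinates in `k`. -/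
def KPoints (k : Subfield ℂ) (p : Ideal (MvPolynomial (Fin (n + 1)) ℂ))
    (Q : MvPolynomial (Fin (n + 1)) ℂ) (r : ℕ) (f : ℂ → Fin (n + 1) → ℂ) : Prop :=
  (∀ x : Fin r → Fin (n + 1) → ℂ, (∀ i j, x i j ∈ k) → (∀ i, ∃ z c : ℂ, x i = c • f z) →
    ∃ T, PolyCurve p Q T ∧ ∀ i, ∃ u c : ℂ, x i = c • fun j => (T j).eval u) ∧
  (∀ (z : Fin r → ℂ) (x : Fin r → Fin (n + 1) → ℂ), (∀ i, z i ∈ k) → (∀ i j, x i j ∈ k) →
    (∀ i, ∃ c : ℂ, x i = c • f (z i)) →
    ∃ T, PolyCurve p Q T ∧ ∀ i, ∃ c : ℂ, x i = c • fun j => (T j).eval (z i))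

theorem good_kPoints (k : Subfield ℂ) [Countable k] (hp : IsHomog p) (hQ : Q.IsHomogeneous q)
    (r : ℕ) : Good p Q fun f => Differentiable ℂ f → KPoints k p Q r f := by
  have hS : {x : Fin r → Fin (n + 1) → ℂ | ∀ i j, x i j ∈ k}.Countable := by
    refine (Set.countable_range fun (y : Fin r → Fin (n + 1) → k) i j => ((y i j : k) : ℂ)).mono ?_
    intro x hx
    exact ⟨fun i j => ⟨x i j, hx i j⟩, rfl⟩
  have hS' : {x : Fin r → ℂ × (Fin (n + 1) → ℂ) | ∀ i, (x i).1 ∈ k ∧ ∀ j, (x i).2 j ∈ k}.Countable := by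
    refine (Set.countable_range fun (y : Fin r → k × (Fin (n + 1) → k)) i =>
      (((y i).1 : ℂ), fun j => (((y i).2 j : k) : ℂ))).mono ?_
    intro x hx
    exact ⟨fun i => (⟨(x i).1, (hx i).1⟩, fun j => ⟨(x i).2 j, (hx i).2 j⟩), rfl⟩
  refine ((good_countable hp hQ (continuous_evMul (n := n) r) hS).and
    (good_countable hp hQ (continuous_evPar (n := n) r) hS')).mono fun f hf hd => ?_
  refine ⟨fun x hx hxf => ?_, fun z x hz hx hxf => ?_⟩
  · choose z c hzc using hxf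
    have h1 : evMul r (⟨⟨f, hd.continuous⟩, hd⟩, fun i => (z i, c i)) = x := by
      funext i
      rw [hzc i]
      rfl
    have h2 := hf.1 hd.continuous hd (fun i => (z i, c i)) (by rw [h1]; exact hx)
    rw [h1] at h2
    obtain ⟨T, hT, v, hv⟩ := h2
    refine ⟨T, hT, fun i => ⟨(v i).1, (v i).2, ?_⟩⟩
    rw [← hv]
    rfl
  · choose c hc using hxf
    have h1 : evPar r (⟨⟨f, hd.continuous⟩, hd⟩, fun i => (z i, c i)) = fun i => (z i, x i) := by
      funext i
      rw [hc i]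
      rfl
    have h2 := hf.2 hd.continuous hd (fun i => (z i, c i)) (by
      rw [h1]
      exact fun i => ⟨hz i, hx i⟩)
    rw [h1] at h2
    obtain ⟨T, hT, v, hv⟩ := h2
    refine ⟨T, hT, fun i => ⟨(v i).2, ?_⟩⟩
    have h3 := congrFun hv i
    have h4 : (v i).1 = z i := congrArg Prod.fst h3
    have h5 : (v i).2 • (fun j => (T j).eval (v i).1) = x i := congrArg Prod.snd h3
    rw [← h5, h4]

/-- **The universal growth function.** -/
theorem uni_main (k : Subfield ℂ) [Countable k] :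
    ∃ Ψ : ℝ → ℝ, SuperPoly Ψ ∧ ∀ (n : ℕ) (p : Ideal (MvPolynomial (Fin (n + 1)) ℂ))
      (Q : MvPolynomial (Fin (n + 1)) ℂ) (q : ℕ), IsHomog p → Q.IsHomogeneous q →
      OverK k p → CoeffK k Q →
      dimH (slowPts p Q Ψ) = dimH (ratPts p Q) ∧
      (∀ f, Entire p Q f → GrowthLe Ψ f → ∀ z, f z ∈ closure (ratPts p Q)) ∧
      ((∀ m, FinCl p Q m) → ∀ f, Entire p Q f → GrowthLe Ψ f → InPoly p Q f) ∧
      ∀ r f, Entire p Q f → GrowthLe Ψ f → KPoints k p Q r f := by
  classical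
  have hN : ∀ (n : ℕ) (p : Ideal (MvPolynomial (Fin (n + 1)) ℂ))
      (Q : MvPolynomial (Fin (n + 1)) ℂ), ∃ N : Set (Fin (n + 1) → ℂ),
      dimH N ≤ dimH (ratPts p Q) ∧ (IsHomog p → (∃ q, Q.IsHomogeneous q) →
        Good p Q fun f => Differentiable ℂ f → ∀ z : ℂ, f z ∈ ratPts p Q ∪ N) := by
    intro n p Q
    by_cases h : IsHomog p ∧ ∃ q, Q.IsHomogeneous q
    · obtain ⟨q, hq⟩ := h.2
      obtain ⟨N, -, h1, h2⟩ := good_points h.1 hq 0
      exact ⟨N, h1, fun _ _ => h2⟩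
    · refine ⟨∅, by rw [dimH_empty]; exact zero_le, fun h1 h2 => absurd ⟨h1, h2⟩ h⟩
  choose N hN1 hN2 using hN
  obtain ⟨Ψ, h1, h2⟩ := universal k (ι := ℕ)
    (fun r n p Q f => IsHomog p → (∃ q, Q.IsHomogeneous q) →
      ((Differentiable ℂ f → ∀ z : ℂ, f z ∈ ratPts p Q ∪ N n p Q) ∧
        (∀ z, f z ∈ closure (ratPts p Q))) ∧ (((∀ m, FinCl p Q m) → InPoly p Q f) ∧
        (Differentiable ℂ f → KPoints k p Q r f)))
    (by
      intro r n p Q _ _
      by_cases h : IsHomog p ∧ ∃ q, Q.IsHomogeneous q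
      · obtain ⟨q, hq⟩ := h.2
        have g1 := hN2 n p Q h.1 h.2
        have g2 := good_closure h.1 hq
        have g3 : Good p Q fun f => (∀ m, FinCl p Q m) → InPoly p Q f := by
          by_cases hf : ∀ m, FinCl p Q m
          · exact (good_inPoly h.1 hq hf).mono fun f hf' _ => hf'
          · exact Good.of_forall fun f hf' => absurd hf' hf
        have g4 := good_kPoints k h.1 hq r
        exact ((g1.and g2).and (g3.and g4)).mono fun f hf _ _ => hf
      · exact Good.of_forall fun f h3 h4 => absurd ⟨h3, h4⟩ h)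
  refine ⟨Ψ, h1, fun n p Q q hp hQ hpk hQk => ?_⟩
  have h3 := fun f hf hg r => h2 n p Q hpk hQk f hf hg r hp ⟨q, hQ⟩
  refine ⟨le_antisymm ?_ (dimH_mono (ratPts_subset h1)), fun f hf hg => (h3 f hf hg 0).1.2,
    fun hfin f hf hg => (h3 f hf hg 0).2.1 hfin, fun r f hf hg => (h3 f hf hg r).2.2 hf.diff⟩
  have hsub : slowPts p Q Ψ ⊆ ratPts p Q ∪ N n p Q := by
    rintro _ ⟨f, hf, hg, z, rfl⟩
    exact (h3 f hf hg 0).1.1 hf.diff z
  refine (dimH_mono hsub).trans ?_
  rw [dimH_union]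
  exact max_le le_rfl (hN1 n p Q)

/-- The variety with function field `K` has a nonzero logarithmic pluricanonical form, or it is not
covered by rational curves. -/
def NonNeg (Q : MvPolynomial (Fin (n + 1)) ℂ) (q : ℕ) {K : Type} [Field K] [Algebra ℂ K] (w : ℕ)
    (y : Fin (n + 1) → K) : Prop :=
  ¬ Covered K ∨ ∃ N : ℕ, 0 < N ∧ ∃ ω : (Fin w → Derivation ℂ K K) → K,
    LogSec ℂ K w N (OffQ Q q y) ω ∧ ω ≠ 0

theorem NonNeg.exists_form {K : Type} [Field K] [Algebra ℂ K] {w : ℕ} {y : Fin (n + 1) → K}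
    (h : NonNeg Q q w y) (hy : FunField p Q K w y) (hQ : Q.IsHomogeneous q) (m : ℕ) :
    ∃ G, IsForm G ∧ G ∉ p ∧ ∀ T, PolyCurve p Q T → (∀ j, (T j).natDegree ≤ m) →
      ∀ z : ℂ, eval (fun j => (T j).eval z) G = 0 := by
  by_contra hno
  obtain ⟨h1, h2⟩ := polys_main hy hQ m hno
  rcases h with h3 | ⟨N, hN, ω, hω, hω0⟩
  · exact h3 h1
  · exact hω0 (h2 N hN ω hω)

theorem NonNeg.finCl {K : Type} [Field K] [Algebra ℂ K] {y : Fin (n + 1) → K}
    (h : NonNeg Q q 2 y) (hy : FunField p Q K 2 y) (hQ : Q.IsHomogeneous q) (m : ℕ) :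
    FinCl p Q m := by
  obtain ⟨G, hG, hGp, hGT⟩ := h.exists_form hy hQ m
  obtain ⟨L, hL, cl, hcl⟩ := finite_classes hy (fun _ => True) hG hGp
    fun T hT hd _ => hGT T hT hd
  exact ⟨L, hL, cl, fun T T' hT hd hT' hd' hc => hcl T T' hT hd trivial hT' hd' trivial hc⟩

end Pool.Agent.Q64.LC
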