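import Pool.Agent.Q64.LC.Arith
import Pool.Agent.Q64.LC.Uma
import Pool.Agent.Y166.GM.Spec

/-!
Descent of polynomial curves with prescribed values to an algebraically closed subfield.
-/

set_option autoImplicit false

namespace Pool.Agent.Q64.LC

open MvPolynomial Filter Topology Pool.Agent.TH143.GT Pool.Agent.W602.GT Pool.Agent.W603.GR
  Pool.Agent.W603.PV
open Pool.Agent.Y166.GM (exists_spec_field)
open Pool.Agent.TH143.HE (nc_iff)

section lift

variable {k E : Type} [Field k] [Field E] [Algebra k E] {n : ℕ}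

theorem map_aeval_gen {A B : Type} [CommRing A] [CommRing B] [Algebra k A] [Algebra k B]
    (f : A →ₐ[k] B) (W : Fin (n + 1) → Polynomial A) (G : MvPolynomial (Fin (n + 1)) k) :
    (aeval W G).map (f : A →+* B) = aeval (fun j => (W j).map (f : A →+* B)) G :=
  MvPolynomial.comp_aeval_apply (f := W) (Polynomial.mapAlgHom f) G

/-- finitely many polynomials and elements are defined over a finitely generated subring -/
theorem exists_liftk (W : Fin (n + 1) → Polynomial E) {r : ℕ} (u c : Fin r → E) :
    ∃ (A : Type) (_ : CommRing A) (_ : IsDomain A) (_ : Algebra k A) (_ : Algebra.FiniteType k A)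
      (ι : A →ₐ[k] E) (_ : Function.Injective ι) (W' : Fin (n + 1) → Polynomial A)
      (u' c' : Fin r → A), (∀ j, (W' j).map (ι : A →+* E) = W j) ∧ (∀ i, ι (u' i) = u i) ∧
        ∀ i, ι (c' i) = c i := by
  classical
  let S : Finset E := (Finset.univ.biUnion fun j : Fin (n + 1) =>
    (Finset.range ((W j).natDegree + 1)).image (W j).coeff) ∪
      (Finset.univ.image u ∪ Finset.univ.image c)
  let R : Subalgebra k E := Algebra.adjoin k (S : Set E)
  have hR : Algebra.FiniteType k R := by
    rw [← Subalgebra.fg_iff_finiteType]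
    exact Subalgebra.fg_adjoin_finset S
  have hS : ∀ x ∈ S, x ∈ R := fun x hx => Algebra.subset_adjoin (Finset.mem_coe.2 hx)
  have hcoef : ∀ j i, (W j).coeff i ∈ R := by
    intro j i
    rcases lt_or_ge i ((W j).natDegree + 1) with hi | hi
    · exact hS _ (Finset.mem_union_left _ (Finset.mem_biUnion.2
        ⟨j, Finset.mem_univ j, Finset.mem_image.2 ⟨i, Finset.mem_range.2 hi, rfl⟩⟩))
    · rw [Polynomial.coeff_eq_zero_of_natDegree_lt (by omega)]
      exact Subalgebra.zero_mem _
  have hlift : ∀ j, ∃ P : Polynomial R, P.map (R.val : R →+* E) = W j := by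
    intro j
    have h2 : W j ∈ Polynomial.lifts (R.val : R →+* E) := by
      rw [Polynomial.lifts_iff_coeff_lifts]
      intro i
      exact ⟨⟨_, hcoef j i⟩, rfl⟩
    exact h2
  choose W' hW' using hlift
  refine ⟨R, inferInstance, inferInstance, inferInstance, hR, R.val, Subtype.val_injective, W',
    fun i => ⟨u i, hS _ (Finset.mem_union_right _ (Finset.mem_union_left _
      (Finset.mem_image_of_mem _ (Finset.mem_univ i))))⟩,
    fun i => ⟨c i, hS _ (Finset.mem_union_right _ (Finset.mem_union_right _
      (Finset.mem_image_of_mem _ (Finset.mem_univ i))))⟩, hW', fun i => rfl, fun i => rfl⟩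

/-- **Descent.** -/
theorem descend_gen [IsAlgClosed k] (W : Fin (n + 1) → Polynomial E)
    (hnc : ∃ j l i i', (W j).coeff i * (W l).coeff i' ≠ (W l).coeff i * (W j).coeff i')
    {r : ℕ} (x : Fin r → Fin (n + 1) → k) (u c : Fin r → E)
    (hx : ∀ i j, algebraMap k E (x i j) = c i * (W j).eval (u i))
    {Q G : MvPolynomial (Fin (n + 1)) k} {b : E} (hb : b ≠ 0)
    (hQ : (aeval W Q : Polynomial E) = Polynomial.C b) (hG : (aeval W G : Polynomial E) ≠ 0) :
    ∃ (T : Fin (n + 1) → Polynomial k) (v d : Fin r → k),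
      (∃ j l i i', (T j).coeff i * (T l).coeff i' ≠ (T l).coeff i * (T j).coeff i') ∧
      (∀ i j, x i j = d i * (T j).eval (v i)) ∧
      (∀ H : MvPolynomial (Fin (n + 1)) k, (aeval W H : Polynomial E) = 0 →
        (aeval T H : Polynomial k) = 0) ∧
      (∃ b' : k, b' ≠ 0 ∧ (aeval T Q : Polynomial k) = Polynomial.C b') ∧
      (aeval T G : Polynomial k) ≠ 0 ∧
      ∀ i (a : k), u i = algebraMap k E a → v i = a := by
  classical
  obtain ⟨A, i1, i2, i3, hft, ι, hι, W', u', c', hW', hu', hc'⟩ := exists_liftk (k := k) W u c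
  have hι' : Function.Injective (ι : A →+* E) := hι
  have hmap : ∀ H : MvPolynomial (Fin (n + 1)) k,
      (aeval W' H : Polynomial A).map (ι : A →+* E) = aeval W H := by
    intro H
    rw [map_aeval_gen]
    congr 2
    funext j
    exact hW' j
  have hco : ∀ j i, ι ((W' j).coeff i) = (W j).coeff i := by
    intro j i
    rw [← hW' j, Polynomial.coeff_map]
    rfl
  obtain ⟨j, l, i, i', hjl⟩ := hnc
  set cc : A := (W' j).coeff i * (W' l).coeff i' - (W' l).coeff i * (W' j).coeff i' with hcc
  have hcc0 : cc ≠ 0 := by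
    intro h0
    apply hjl
    have h1 := congrArg ι h0
    rw [hcc, map_sub, map_mul, map_mul, hco, hco, hco, hco, map_zero] at h1
    exact sub_eq_zero.1 h1
  -- the constant
  have hQ' : ∃ b' : A, b' ≠ 0 ∧ (aeval W' Q : Polynomial A) = Polynomial.C b' := by
    have h2 : (aeval W' Q : Polynomial A).natDegree = 0 := by
      rw [← Polynomial.natDegree_map_eq_of_injective hι', hmap, hQ, Polynomial.natDegree_C]
    refine ⟨_, ?_, Polynomial.eq_C_of_natDegree_eq_zero h2⟩
    intro h0
    apply hb
    have h3 := congrArg (fun P => Polynomial.coeff P 0) (hmap Q)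
    simp only [hQ, Polynomial.coeff_map, Polynomial.coeff_C_zero] at h3
    rw [← h3, h0, map_zero]
  obtain ⟨b', hb', hQb⟩ := hQ'
  -- the form
  have hG0 : (aeval W' G : Polynomial A) ≠ 0 := by
    intro h0
    apply hG
    rw [← hmap, h0, Polynomial.map_zero]
  obtain ⟨e, he⟩ : ∃ e, (aeval W' G : Polynomial A).coeff e ≠ 0 := by
    by_contra hno
    push Not at hno
    exact hG0 (Polynomial.ext fun e => by rw [hno e, Polynomial.coeff_zero])
  obtain ⟨χ, hχ⟩ := exists_spec_field (k := k) (C := A) hft (cc * b' *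
    (aeval W' G : Polynomial A).coeff e) (mul_ne_zero (mul_ne_zero hcc0 hb') he)
  rw [map_mul, map_mul] at hχ
  have hχc := left_ne_zero_of_mul (left_ne_zero_of_mul hχ)
  have hχb := right_ne_zero_of_mul (left_ne_zero_of_mul hχ)
  have hχG := right_ne_zero_of_mul hχ
  have hmap' : ∀ H : MvPolynomial (Fin (n + 1)) k,
      (aeval W' H : Polynomial A).map (χ : A →+* k) = aeval (fun j => (W' j).map (χ : A →+* k)) H :=
    fun H => map_aeval_gen χ W' H
  refine ⟨fun j => (W' j).map (χ : A →+* k), fun i => χ (u' i), fun i => χ (c' i),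
    ⟨j, l, i, i', ?_⟩, fun i j => ?_, fun H hH => ?_, ⟨χ b', hχb, ?_⟩, fun h0 => ?_,
    fun i a hi => ?_⟩
  · simp only [Polynomial.coeff_map]
    intro h0
    apply hχc
    rw [hcc, map_sub, map_mul, map_mul, sub_eq_zero]
    exact h0
  · have h1 : algebraMap k A (x i j) = c' i * (W' j).eval (u' i) := by
      apply hι
      rw [AlgHom.commutes, hx, map_mul, hc']
      congr 1
      have h2 := Polynomial.eval_map_apply (f := (ι : A →+* E)) (p := W' j) (u' i)
      rw [hW' j] at h2
      rw [← hu' i]
      exact h2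
    have h2 := congrArg χ h1
    rw [AlgHom.commutes, map_mul] at h2
    have h3 := Polynomial.eval_map_apply (f := (χ : A →+* k)) (p := W' j) (u' i)
    change _ = χ (Polynomial.eval (u' i) (W' j)) at h3
    rw [← h3] at h2
    exact h2
  · rw [← hmap']
    have h1 : (aeval W' H : Polynomial A) = 0 := by
      apply Polynomial.map_injective _ hι'
      rw [hmap, hH, Polynomial.map_zero]
    rw [h1, Polynomial.map_zero]
  · rw [← hmap', hQb, Polynomial.map_C]
    rfl
  · apply hχG
    have h1 := congrArg (fun P => Polynomial.coeff P e) ((hmap' G).trans h0)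
    simp only [Polynomial.coeff_map, Polynomial.coeff_zero] at h1
    exact h1
  · have h1 : u' i = algebraMap k A a := by
      apply hι
      rw [hu', AlgHom.commutes, hi]
    simp only [h1, AlgHom.commutes]
    rfl

end lift

end Pool.Agent.Q64.LC
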