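import Pool.Agent.Q64.LC.Cov
import Pool.Agent.Q64.LC.Rig
import Pool.Agent.TH143.GT.Close

/-!
Varieties without subvarieties of dimension at least two which are covered by polynomial curves.
-/

set_option autoImplicit false

namespace Pool.Agent.Q64.LC

open MvPolynomial Filter Topology Pool.Agent.TH143.GT Pool.Agent.W602.GT Pool.Agent.W603.GR
  Pool.Agent.W603.PV

variable {n : ℕ} {p : Ideal (MvPolynomial (Fin (n + 1)) ℂ)} {Q : MvPolynomial (Fin (n + 1)) ℂ}
  {q : ℕ}

section Graded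

attribute [local instance] MvPolynomial.gradedAlgebra

theorem homog_iff {J : Ideal (MvPolynomial (Fin (n + 1)) ℂ)} :
    IsHomog J ↔ J.IsHomogeneous (homogeneousSubmodule (Fin (n + 1)) ℂ) := by
  constructor
  · intro h i r hr
    have h1 := h r hr i
    rwa [← decomposition.decompose'_apply] at h1
  · intro h f hf d
    exact (mem_iff_homogeneousComponent_mem h f).mp hf d

theorem homog_sup {J : Ideal (MvPolynomial (Fin (n + 1)) ℂ)} (hJ : IsHomog J)
    {G : MvPolynomial (Fin (n + 1)) ℂ} (hG : IsForm G) : IsHomog (J ⊔ Ideal.span {G}) := by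
  rw [homog_iff] at hJ ⊢
  refine hJ.sup (Ideal.homogeneous_span _ _ fun x hx => ?_)
  rw [Set.mem_singleton_iff] at hx
  rw [hx]
  obtain ⟨d, hd⟩ := hG
  exact ⟨d, (mem_homogeneousSubmodule d _).mpr hd⟩

theorem homog_prime {J : Ideal (MvPolynomial (Fin (n + 1)) ℂ)} (hJ : IsHomog J) (hne : J ≠ ⊤)
    (h : ∀ G1 G2 : MvPolynomial (Fin (n + 1)) ℂ, IsForm G1 → IsForm G2 → G1 * G2 ∈ J →
      G1 ∈ J ∨ G2 ∈ J) : J.IsPrime := by
  rw [homog_iff] at hJ
  refine hJ.isPrime_of_homogeneous_mem_or_mem hne fun {x y} hx hy hxy => ?_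
  obtain ⟨d, hd⟩ := hx
  obtain ⟨e, he⟩ := hy
  exact h x y ⟨d, (mem_homogeneousSubmodule d _).mp hd⟩ ⟨e, (mem_homogeneousSubmodule e _).mp he⟩ hxy

end Graded

/-- **The generic point** of a projective variety. -/
theorem exists_gen {J : Ideal (MvPolynomial (Fin (n + 1)) ℂ)} (hJ : IsHomog J) (hP : J.IsPrime)
    {j0 : Fin (n + 1)} (h0 : (X j0 : MvPolynomial (Fin (n + 1)) ℂ) ∉ J) :
    ∃ (K : Type) (_ : Field K) (_ : Algebra ℂ K) (w : ℕ) (y : Fin (n + 1) → K), y ≠ 0 ∧
      coords ℂ y = ⊤ ∧ Algebra.trdeg ℂ K = w ∧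
      (∀ G : MvPolynomial (Fin (n + 1)) ℂ, IsForm G → (W602.GT.val y G = 0 ↔ G ∈ J)) ∧
      (∀ G ∈ J, W602.GT.val y G = 0) := by
  classical
  let R := MvPolynomial (Fin (n + 1)) ℂ ⧸ J
  have hdom : IsDomain R := Ideal.Quotient.isDomain J
  let F := FractionRing R
  let i : R →ₐ[ℂ] F := IsScalarTower.toAlgHom ℂ R F
  have hi : Function.Injective i := IsFractionRing.injective R F
  let a : Fin (n + 1) → R := fun j => Ideal.Quotient.mkₐ ℂ J (X j)
  have ha : ∀ G, aeval a G = Ideal.Quotient.mkₐ ℂ J G := by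
    intro G
    have h1 := MvPolynomial.comp_aeval_apply (f := X) (Ideal.Quotient.mkₐ ℂ J) G
    rw [aeval_X_left_apply] at h1
    exact h1.symm
  have ha' : ∀ G, aeval a G = 0 ↔ G ∈ J := fun G => by
    rw [ha]
    exact Ideal.Quotient.eq_zero_iff_mem
  have ha0 : a j0 ≠ 0 := fun h => h0 (Ideal.Quotient.eq_zero_iff_mem.1 h)
  have hia0 : i (a j0) ≠ 0 := by rwa [Ne, map_eq_zero_iff i hi]
  let y' : Fin (n + 1) → F := fun j => i (a j) / i (a j0)
  have hy'0 : y' j0 = 1 := div_self hia0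
  have hmem : ∀ j, y' j ∈ coords ℂ y' := by
    intro j
    apply IntermediateField.subset_adjoin
    refine ⟨j, j0, by rw [hy'0]; exact one_ne_zero, ?_⟩
    rw [hy'0, div_one]
  let y : Fin (n + 1) → coords ℂ y' := fun j => ⟨y' j, hmem j⟩
  have hy0 : y j0 = 1 := Subtype.ext hy'0
  have hval : ∀ G : MvPolynomial (Fin (n + 1)) ℂ, ((W602.GT.val y G : coords ℂ y') : F) =
      W602.GT.val y' G := by
    intro G
    have h4 := MvPolynomial.comp_aeval_apply (f := y) (coords ℂ y').val G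
    exact h4
  have hgen : coords ℂ y = ⊤ := by
    have h1 : (coords ℂ y).map (coords ℂ y').val = coords ℂ y' := by
      unfold coords
      rw [IntermediateField.adjoin_map]
      congr 1
      ext z
      constructor
      · rintro ⟨_, ⟨i, j, hj, rfl⟩, rfl⟩
        refine ⟨i, j, fun h => hj (Subtype.ext h), ?_⟩
        rw [map_div₀]
        rfl
      · rintro ⟨i, j, hj, rfl⟩
        exact ⟨y i / y j, ⟨i, j, fun h => hj (congrArg Subtype.val h), rfl⟩, rfl⟩
    apply IntermediateField.map_injective (coords ℂ y').val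
    rw [h1]
    ext z
    simp only [IntermediateField.mem_map, IntermediateField.mem_top, true_and]
    constructor
    · intro hz
      exact ⟨⟨z, hz⟩, rfl⟩
    · rintro ⟨x, rfl⟩
      exact x.2
  have hess : Algebra.EssFiniteType ℂ (coords ℂ y') := ess_of_coords hgen
  obtain ⟨w, hw⟩ := Cardinal.lt_aleph0.1 (trdeg_lt_aleph0 ℂ (coords ℂ y'))
  have hrel : ∀ G : MvPolynomial (Fin (n + 1)) ℂ, IsForm G →
      (W602.GT.val y G = 0 ↔ G ∈ J) := by
    rintro G ⟨d, hG⟩
    have h1 : W602.GT.val y G = 0 ↔ W602.GT.val y' G = 0 := by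
      rw [← hval G]
      exact (map_eq_zero_iff (coords ℂ y').val (coords ℂ y').val.injective).symm
    have h2 : i (a j0) ^ d * W602.GT.val y' G = i (aeval a G) := by
      have h3 : i (aeval a G) = aeval (fun j => i (a j)) G :=
        MvPolynomial.comp_aeval_apply (f := a) i G
      rw [h3]
      refine (Pool.Agent.W603.PV.aeval_scale hG y' (i (a j0))).symm.trans ?_
      congr 2
      funext j
      exact mul_div_cancel₀ _ hia0
    rw [h1, ← ha', ← map_eq_zero_iff i hi, ← h2]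
    constructor
    · intro h
      rw [h, mul_zero]
    · intro h
      exact (mul_eq_zero.1 h).resolve_left (pow_ne_zero _ hia0)
  refine ⟨coords ℂ y', inferInstance, inferInstance, w, y, ?_, hgen, hw, hrel, fun G hG => ?_⟩
  · exact Function.ne_iff.2 ⟨j0, by rw [hy0]; exact one_ne_zero⟩
  · rw [← sum_homogeneousComponent G]
    unfold W602.GT.val
    rw [map_sum]
    exact Finset.sum_eq_zero fun d _ => (hrel _ ⟨d, homogeneousComponent_isHomogeneous d G⟩).2
      (hJ G hG d)

/-- the union of two closed subsets -/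
theorem finCl_union {J J1 J2 : Ideal (MvPolynomial (Fin (n + 1)) ℂ)} {m : ℕ}
    (h : ∀ T, PolyCurve J Q T → (∀ j, (T j).natDegree ≤ m) → PolyCurve J1 Q T ∨ PolyCurve J2 Q T)
    (h1 : FinCl J1 Q m) (h2 : FinCl J2 Q m) : FinCl J Q m := by
  classical
  obtain ⟨L1, f1, c1, g1⟩ := h1
  obtain ⟨L2, f2, c2, g2⟩ := h2
  refine ⟨L1 ⊕ L2, inferInstance, fun T => if PolyCurve J1 Q T then Sum.inl (c1 T) else
    Sum.inr (c2 T), fun T T' hT hd hT' hd' hc => ?_⟩
  simp only at hc
  by_cases e1 : PolyCurve J1 Q T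
  · rw [if_pos e1] at hc
    by_cases e2 : PolyCurve J1 Q T'
    · rw [if_pos e2] at hc
      exact g1 T T' e1 hd e2 hd' (Sum.inl_injective hc)
    · rw [if_neg e2] at hc
      exact absurd hc Sum.inl_ne_inr
  · rw [if_neg e1] at hc
    by_cases e2 : PolyCurve J1 Q T'
    · rw [if_pos e2] at hc
      exact absurd hc Sum.inr_ne_inl
    · rw [if_neg e2] at hc
      exact g2 T T' ((h T hT hd).resolve_left e1) hd ((h T' hT' hd').resolve_left e2) hd'
        (Sum.inr_injective hc)

theorem PolyCurve.sup {J : Ideal (MvPolynomial (Fin (n + 1)) ℂ)} {T : Fin (n + 1) → Polynomial ℂ}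
    (hT : PolyCurve J Q T) {G : MvPolynomial (Fin (n + 1)) ℂ}
    (hG : ∀ z : ℂ, eval (fun j => (T j).eval z) G = 0) (hJ : IsHomog J) :
    PolyCurve (J ⊔ Ideal.span {G}) Q T := by
  refine ⟨fun H hH _ z => ?_, hT.off, hT.ind⟩
  have h1 : J ⊔ Ideal.span {G} ≤ RingHom.ker (eval fun j => (T j).eval z) := by
    apply sup_le
    · intro x hx
      rw [RingHom.mem_ker, ← sum_homogeneousComponent x, map_sum]
      exact Finset.sum_eq_zero fun d _ => hT.mem _ (hJ x hx d)
        ⟨d, homogeneousComponent_isHomogeneous d x⟩ z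
    · rw [Ideal.span_singleton_le_iff_mem]
      exact hG z
  exact h1 hH

/-- **Finiteness.** If no subvariety of dimension at least two is covered by rational curves, or all
have a nonzero logarithmic pluricanonical form, then the polynomial curves of every bounded degree
have finitely many Zariski closures. -/
theorem finCl_of_sub (hp : IsHomog p) (hQ : Q.IsHomogeneous q)
    (h : ∀ (w : ℕ) (K : Type) [Field K] [Algebra ℂ K] (y : Fin (n + 1) → K), SubVarP p Q K w y →
      2 ≤ w → ¬ Covered K ∨ ∃ N : ℕ, 0 < N ∧ ∃ ω : (Fin w → Derivation ℂ K K) → K,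
        LogSec ℂ K w N (OffQ Q q y) ω ∧ ω ≠ 0) (m : ℕ) : FinCl p Q m := by
  classical
  suffices H : ∀ J : Ideal (MvPolynomial (Fin (n + 1)) ℂ), IsHomog J → p ≤ J → FinCl J Q m from
    H p hp le_rfl
  intro J
  induction J using WellFoundedGT.induction with
  | ind J ih =>
  intro hJ hpJ
  by_cases hex : ∃ T0, PolyCurve J Q T0 ∧ ∀ j, (T0 j).natDegree ≤ m
  swap
  · push Not at hex
    refine ⟨Unit, inferInstance, fun _ => (), fun T T' hT hd => ?_⟩
    obtain ⟨j, hj⟩ := hex T hT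
    exact absurd (hd j) (not_le.2 hj)
  obtain ⟨T0, hT0, hd0⟩ := hex
  have step : ∀ G : MvPolynomial (Fin (n + 1)) ℂ, IsForm G → G ∉ J →
      FinCl (J ⊔ Ideal.span {G}) Q m := by
    intro G hG hGJ
    refine ih _ ?_ (homog_sup hJ hG) (hpJ.trans le_sup_left)
    refine lt_of_le_of_ne le_sup_left fun he => hGJ ?_
    rw [he]
    exact Ideal.mem_sup_right (Ideal.mem_span_singleton_self G)
  by_cases hpr : ∀ G1 G2 : MvPolynomial (Fin (n + 1)) ℂ, IsForm G1 → IsForm G2 → G1 * G2 ∈ J →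
      G1 ∈ J ∨ G2 ∈ J
  swap
  · push Not at hpr
    obtain ⟨G1, G2, hG1, hG2, h12, h1, h2⟩ := hpr
    refine finCl_union (fun T hT hd => ?_) (step G1 hG1 h1) (step G2 hG2 h2)
    have hf12 : IsForm (G1 * G2) := by
      obtain ⟨d1, e1⟩ := hG1
      obtain ⟨d2, e2⟩ := hG2
      exact ⟨d1 + d2, e1.mul e2⟩
    have h3 : (aeval T G1 : Polynomial ℂ) * aeval T G2 = 0 := by
      rw [← map_mul]
      apply Polynomial.funext
      intro z
      rw [ev_aeval, Polynomial.eval_zero]
      exact hT.mem _ h12 hf12 z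
    rcases mul_eq_zero.1 h3 with h4 | h4
    · left
      refine hT.sup (fun z => ?_) hJ
      rw [← ev_aeval, h4, Polynomial.eval_zero]
    · right
      refine hT.sup (fun z => ?_) hJ
      rw [← ev_aeval, h4, Polynomial.eval_zero]
  have hne : J ≠ ⊤ := by
    intro h1
    have h2 : (1 : MvPolynomial (Fin (n + 1)) ℂ) ∈ J := by
      rw [h1]
      exact Submodule.mem_top
    have h3 := hT0.mem 1 h2 ⟨0, isHomogeneous_one _ _⟩ 0
    rw [map_one] at h3
    exact one_ne_zero h3
  have hP := homog_prime hJ hne hpr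
  obtain ⟨j0, hj0⟩ : ∃ j0, (X j0 : MvPolynomial (Fin (n + 1)) ℂ) ∉ J := by
    by_contra hno
    push Not at hno
    obtain ⟨s, t, j, k, hst⟩ := hT0.ind
    apply hst
    have h1 : ∀ j z, (T0 j).eval z = 0 := by
      intro j z
      have := hT0.mem _ (hno j) ⟨1, isHomogeneous_X _ _⟩ z
      rwa [eval_X] at this
    rw [h1 j s, h1 k s, zero_mul, zero_mul]
  obtain ⟨K, i1, i2, w, y, e1, e2, e3, e4, e5⟩ := exists_gen hJ hP hj0
  have hQJ : Q ∉ J := by
    intro h1
    obtain ⟨c, hc, h2⟩ := hT0.off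
    have h3 := hT0.mem Q h1 ⟨q, hQ⟩ 0
    rw [h2] at h3
    exact hc h3
  have hsub : SubVarP p Q K w y :=
    ⟨e1, fun H hH => e5 H (hpJ hH), fun h0 => hQJ ((e4 Q ⟨q, hQ⟩).1 h0), e2, e3⟩
  have hfun : FunField J Q K w y :=
    ⟨⟨e1, e5, fun h0 => hQJ ((e4 Q ⟨q, hQ⟩).1 h0), e2, e3⟩, fun G hG h0 => (e4 G hG).1 h0⟩
  rcases Nat.lt_or_ge w 2 with hw | hw
  · -- all the curves are dense
    have hdense : ∀ T, PolyCurve J Q T → ∀ G : MvPolynomial (Fin (n + 1)) ℂ, IsForm G →
        ((∀ z : ℂ, eval (fun j => (T j).eval z) G = 0) ↔ G ∈ J) := by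
      intro T hT G hG
      refine ⟨fun h0 => ?_, fun hGJ z => hT.mem G hGJ hG z⟩
      by_contra hGJ
      obtain ⟨k, hk⟩ : ∃ k, gp T k ≠ 0 := by
        by_contra hno
        push Not at hno
        obtain ⟨s, t, j, k, hst⟩ := hT.ind
        apply hst
        have h1 : ∀ j, T j = 0 := fun j => rf_zero.1 (hno j)
        rw [h1 j, h1 k]
      have hyk : y k ≠ 0 := by
        intro h1
        have h2 : W602.GT.val y (X k : MvPolynomial (Fin (n + 1)) ℂ) = 0 := by
          unfold W602.GT.val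
          rw [aeval_X, h1]
        rw [e4 _ ⟨1, isHomogeneous_X _ _⟩] at h2
        apply hk
        rw [gp, rf_zero]
        apply Polynomial.funext
        intro z
        have h3 := hT.mem _ h2 ⟨1, isHomogeneous_X _ _⟩ z
        rw [eval_X] at h3
        rw [h3, Polynomial.eval_zero]
      obtain ⟨j, hj⟩ := exists_ratio hT.ind k hk
      have h1 : AlgebraicIndependent ℂ (fun _ : Unit => ch (gp T) k (X j)) := by
        rw [algebraicIndependent_unique_type_iff]
        unfold ch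
        rwa [aeval_X]
      have h2 := chain (φ := ch y k) (φ' := ch (gp T) k) (ch_le hyk hk fun G hG hv => by
        rw [gp_val]
        exact hT.mem G ((e4 G hG).1 hv) hG) (u := fun _ : Unit => X j) h1 (g := G)
        (by rw [ch_form hk hG, gp_val]; exact h0) (by rw [Ne, ch_form hyk hG, e4 G hG]; exact hGJ)
      have h3 := card_le e3 h2
      rw [Fintype.card_option, Fintype.card_unit] at h3
      omega
    exact ⟨Unit, inferInstance, fun _ => (), fun T T' hT _ hT' _ _ G hG =>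
      (hdense T hT G hG).trans (hdense T' hT' G hG).symm⟩
  · have hG : ∃ G, IsForm G ∧ G ∉ J ∧ ∀ T, PolyCurve J Q T → (∀ j, (T j).natDegree ≤ m) →
        ∀ z : ℂ, eval (fun j => (T j).eval z) G = 0 := by
      by_contra hno
      obtain ⟨h1, h2⟩ := polys_main hfun hQ m hno
      rcases h w K y hsub hw with h3 | ⟨N, hN, ω, hω, hω0⟩
      · exact h3 h1
      · exact hω0 (h2 N hN ω hω)
    obtain ⟨G, hG, hGJ, hGT⟩ := hG
    exact finCl_union (fun T hT hd => Or.inl (hT.sup (hGT T hT hd) hJ)) (step G hG hGJ)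
      (step G hG hGJ)

end Pool.Agent.Q64.LC
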