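import Pool.Agent.Q64.LC.Cov
import Pool.Agent.Q64.LC.Rig

/-!
Rational functions which are constant along all families of polynomial curves.
-/

set_option autoImplicit false

namespace Pool.Agent.Q64.LC

open MvPolynomial Filter Topology Pool.Agent.TH143.GT Pool.Agent.W602.GT
open Pool.Agent.W603.GR FF

variable {n : ℕ} {p : Ideal (MvPolynomial (Fin (n + 1)) ℂ)} {Q : MvPolynomial (Fin (n + 1)) ℂ}
  {q : ℕ}

/-- The quotient `g1 / g0` is not constant along the polynomial curve `T`. -/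
def NCAlong (g1 g0 : MvPolynomial (Fin (n + 1)) ℂ) (T : Fin (n + 1) → Polynomial ℂ) : Prop :=
  Polynomial.derivative (aeval T g1 : Polynomial ℂ) * aeval T g0 ≠
    aeval T g1 * Polynomial.derivative (aeval T g0 : Polynomial ℂ)

/-- **Families.** If no hypersurface section contains all the polynomial curves of degree at most `m`
along which `g1 / g0` is not constant, then there is a family of such curves through the generic
point. -/
theorem fam_of_dense {K : Type} [Field K] [Algebra ℂ K] {w : ℕ} {y : Fin (n + 1) → K}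
    (hy : FunField p Q K w y) (m : ℕ) {g1 g0 : MvPolynomial (Fin (n + 1)) ℂ}
    (h : ¬ ∃ G, IsForm G ∧ G ∉ p ∧ ∀ T, PolyCurve p Q T → (∀ j, (T j).natDegree ≤ m) →
      NCAlong g1 g0 T → ∀ z : ℂ, eval (fun j => (T j).eval z) G = 0) :
    ∃ (M : Type) (_ : Field M) (_ : Algebra ℂ M) (m' : ℕ) (W : Fin (n + 1) → Polynomial M),
      Algebra.trdeg ℂ M = m' ∧ Fam y Q W 0 ∧
      Polynomial.derivative (aeval W g1 : Polynomial M) * aeval W g0 ≠
        aeval W g1 * Polynomial.derivative (aeval W g0 : Polynomial M) := by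
  classical
  push Not at h
  let I : Type := {G : MvPolynomial (Fin (n + 1)) ℂ // IsForm G ∧ G ∉ p}
  have hval : ∀ G, IsForm G → (W602.GT.val y G = 0 ↔ G ∈ p) :=
    fun G hG => ⟨hy.mem G hG, hy.sub.mem G⟩
  have hx : ∀ G : I, ∃ T, PolyCurve p Q T ∧ (∀ j, (T j).natDegree ≤ m) ∧ NCAlong g1 g0 T ∧
      (aeval T G.1 : Polynomial ℂ) ≠ 0 := by
    intro G
    obtain ⟨T, hT, hd, hnc, t, ht⟩ := h G.1 G.2.1 G.2.2
    refine ⟨T, hT, hd, hnc, fun h0 => ht ?_⟩
    rw [← ev_aeval, h0, Polynomial.eval_zero]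
  choose T hT hTd hTn hG using hx
  have hTf : ∀ G : I, fp m (fun j i => (T G j).coeff i) = T G := fun G =>
    funext fun j => fp_coeff (hTd G j)
  have h1 : W602.GT.val y (1 : MvPolynomial (Fin (n + 1)) ℂ) ≠ 0 := by
    unfold W602.GT.val
    rw [map_one]
    exact one_ne_zero
  have hf1 : IsForm (1 : MvPolynomial (Fin (n + 1)) ℂ) := ⟨0, isHomogeneous_one _ _⟩
  have hne : Nonempty I := ⟨⟨1, hf1, fun h2 => h1 ((hval 1 hf1).2 h2)⟩⟩
  let A : I → Set I := fun G => {H | G.1 ∣ H.1}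
  have hdir : Directed (· ≥ ·) fun G : I => (𝓟 (A G) : Filter I) := by
    intro G1 G2
    have hf : IsForm (G1.1 * G2.1) := by
      obtain ⟨d1, e1⟩ := G1.2.1
      obtain ⟨d2, e2⟩ := G2.2.1
      exact ⟨d1 + d2, e1.mul e2⟩
    have hnp : G1.1 * G2.1 ∉ p := by
      intro h2
      have h3 := (hval _ hf).2 h2
      unfold W602.GT.val at h3
      rw [map_mul] at h3
      rcases mul_eq_zero.1 h3 with h4 | h4
      · exact G1.2.2 ((hval _ G1.2.1).1 h4)
      · exact G2.2.2 ((hval _ G2.2.1).1 h4)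
    refine ⟨⟨G1.1 * G2.1, hf, hnp⟩, ?_, ?_⟩
    · change (𝓟 _ : Filter I) ≤ 𝓟 _
      rw [Filter.principal_mono]
      intro H hH
      exact (Dvd.intro _ rfl).trans hH
    · change (𝓟 _ : Filter I) ≤ 𝓟 _
      rw [Filter.principal_mono]
      intro H hH
      exact (Dvd.intro_left _ rfl).trans hH
  have hF : (⨅ G : I, (𝓟 (A G) : Filter I)).NeBot := by
    refine Filter.iInf_neBot_of_directed' hdir fun G => ?_
    rw [Filter.principal_neBot_iff]
    exact ⟨G, dvd_refl _⟩
  let U : Ultrafilter I := Ultrafilter.of (⨅ G : I, (𝓟 (A G) : Filter I))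
  have hU : ∀ G : I, ∀ᶠ H : I in (U : Filter I), G.1 ∣ H.1 := by
    intro G
    have h2 : A G ∈ (⨅ G : I, (𝓟 (A G) : Filter I)) :=
      Filter.mem_iInf_of_mem G (Filter.mem_principal_self _)
    exact Ultrafilter.of_le _ h2
  let c : I → Fin (n + 1) → ℕ → ℂ := fun i j l => (T i j).coeff l
  have hTc : ∀ i, fp m (c i) = T i := hTf
  let W : Fin (n + 1) → Polynomial ((I → ℂ) ⧸ nul U) :=
    fp m (fun j l => Ideal.Quotient.mkₐ ℂ (nul U) fun i => c i j l)
  have hrel : ∀ G : MvPolynomial (Fin (n + 1)) ℂ, IsForm G →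
      (W602.GT.val y G = 0 ↔ aeval W G = 0) := by
    intro G hGf
    rw [hval G hGf]
    constructor
    · intro hGp
      refine (fp_nul m c G).2 (Eventually.of_forall fun i => ?_)
      rw [hTc]
      apply Polynomial.funext
      intro t
      rw [ev_aeval, Polynomial.eval_zero]
      exact (hT i).mem G hGp hGf t
    · intro h0
      by_contra hGp
      have h2 := (fp_nul m c G).1 h0
      obtain ⟨H, h3, k, h4⟩ := (h2.and (hU ⟨G, hGf, hGp⟩)).exists
      apply hG H
      rw [h4, map_mul, ← hTc H, h3, zero_mul]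
  choose d hd0 hd using fun i => (hT i).off
  -- the polynomials over the product
  let P : Fin (n + 1) → Polynomial (I → ℂ) := fp m fun j l i => c i j l
  have hWP : ∀ G : MvPolynomial (Fin (n + 1)) ℂ, aeval W G =
      (aeval P G).map ((Ideal.Quotient.mkₐ ℂ (nul U) : (I → ℂ) →ₐ[ℂ]
        (I → ℂ) ⧸ nul U) : (I → ℂ) →+* (I → ℂ) ⧸ nul U) := by
    intro G
    rw [map_aeval']
    congr 2
    funext j
    exact (map_fp ((Ideal.Quotient.mkₐ ℂ (nul U) : (I → ℂ) →ₐ[ℂ]
      (I → ℂ) ⧸ nul U) : (I → ℂ) →+* (I → ℂ) ⧸ nul U) m (fun j l i => c i j l) j).symm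
  have hiP : ∀ i (G : MvPolynomial (Fin (n + 1)) ℂ),
      (aeval P G).map ((Pi.evalAlgHom ℂ (fun _ : I => ℂ) i : (I → ℂ) →ₐ[ℂ] ℂ) :
        (I → ℂ) →+* ℂ) = aeval (T i) G := by
    intro i G
    rw [map_aeval']
    congr 2
    funext j
    rw [← hTc i]
    exact map_fp ((Pi.evalAlgHom ℂ (fun _ : I => ℂ) i : (I → ℂ) →ₐ[ℂ] ℂ) :
      (I → ℂ) →+* ℂ) m (fun j l i => c i j l) j
  have hWQ : aeval W Q = Polynomial.C (Ideal.Quotient.mkₐ ℂ (nul U) d) := by
    have h3 : aeval P Q = Polynomial.C d := by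
      ext k i
      have h5 : (aeval (T i) Q : Polynomial ℂ) = Polynomial.C (d i) := by
        apply Polynomial.funext
        intro t
        rw [ev_aeval, Polynomial.eval_C]
        exact hd i t
      have h6 := congrArg (fun q => Polynomial.coeff q k) ((hiP i Q).trans h5)
      rw [Polynomial.coeff_map] at h6
      refine Eq.trans h6 ?_
      rw [Polynomial.coeff_C, Polynomial.coeff_C]
      split_ifs <;> rfl
    rw [hWP, h3, Polynomial.map_C]
    rfl
  have hcne : Ideal.Quotient.mkₐ ℂ (nul U) d ≠ 0 := by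
    intro h2
    have h3 := Ideal.Quotient.eq_zero_iff_mem.1 h2
    obtain ⟨i, hi⟩ := (mem_nul.1 h3).exists
    exact hd0 i hi
  -- the Wronskian
  have hder : Polynomial.derivative (aeval W g1) * aeval W g0 ≠
      aeval W g1 * Polynomial.derivative (aeval W g0) := by
    intro h2
    set V : Polynomial (I → ℂ) := Polynomial.derivative (aeval P g1) * aeval P g0 -
      aeval P g1 * Polynomial.derivative (aeval P g0) with hV
    have h3 : V.map ((Ideal.Quotient.mkₐ ℂ (nul U) : (I → ℂ) →ₐ[ℂ]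
        (I → ℂ) ⧸ nul U) : (I → ℂ) →+* (I → ℂ) ⧸ nul U) = 0 := by
      rw [hV, Polynomial.map_sub, Polynomial.map_mul, Polynomial.map_mul,
        ← Polynomial.derivative_map, ← Polynomial.derivative_map, ← hWP, ← hWP, h2, sub_self]
    have h4 : ∀ l, V.coeff l ∈ nul U := by
      intro l
      have h5 := congrArg (fun q => Polynomial.coeff q l) h3
      rw [Polynomial.coeff_map] at h5
      exact Ideal.Quotient.eq_zero_iff_mem.1 h5
    have h5 : ∀ᶠ i in (U : Filter I), ∀ l ∈ Finset.range (V.natDegree + 1), V.coeff l i = 0 :=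
      (Filter.eventually_all_finset _).2 fun l _ => h4 l
    obtain ⟨i, h6⟩ := h5.exists
    apply hTn i
    rw [← hiP i g1, ← hiP i g0, Polynomial.derivative_map, Polynomial.derivative_map,
      ← Polynomial.map_mul, ← Polynomial.map_mul, ← sub_eq_zero, ← Polynomial.map_sub, ← hV]
    ext l
    rw [Polynomial.coeff_map, Polynomial.coeff_zero]
    rcases lt_or_ge l (V.natDegree + 1) with hl | hl
    · exact h6 l (Finset.mem_range.2 hl)
    · rw [Polynomial.coeff_eq_zero_of_natDegree_lt (show V.natDegree < l by omega), map_zero]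
  obtain ⟨M, i1, i2, m', hm, W', e1, e2, e3⟩ := desc2 W
  have hQ0 : (aeval W' Q).natDegree = 0 := by
    rw [e2, hWQ, Polynomial.natDegree_C]
  have hQne : aeval W' Q ≠ 0 := by
    rw [Ne, e1, hWQ, Polynomial.C_eq_zero]
    exact hcne
  obtain ⟨c', hc'⟩ : ∃ c' : M, aeval W' Q = Polynomial.C c' :=
    ⟨_, Polynomial.eq_C_of_natDegree_eq_zero hQ0⟩
  refine ⟨M, i1, i2, m', W', hm, ⟨fun G hGf => (hrel G hGf).trans (e1 G).symm, c', ?_, ?_⟩,
    e3 g0 g1 hder⟩
  · rintro rfl
    exact hQne (by rw [hc', Polynomial.C_0])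
  · rw [hc', pow_zero, mul_one]

/-- The rational function `r` is constant along all families of polynomial curves in `X - D` through
the generic point. -/
def PolyFlat {K : Type} [Field K] [Algebra ℂ K] (Q : MvPolynomial (Fin (n + 1)) ℂ)
    (y : Fin (n + 1) → K) (r : K) : Prop :=
  ∀ (M : Type) [Field M] [Algebra ℂ M] (m' : ℕ) (W : Fin (n + 1) → Polynomial M),
    Algebra.trdeg ℂ M = m' → Fam y Q W 0 → Flat ℂ y W r

/-- **Flat functions.** -/
theorem flat_main {K : Type} [Field K] [Algebra ℂ K] {w : ℕ} {y : Fin (n + 1) → K}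
    (hy : FunField p Q K w y) {d : ℕ} {g1 g0 : MvPolynomial (Fin (n + 1)) ℂ}
    (h1 : g1.IsHomogeneous d) (h0 : g0.IsHomogeneous d) (hg0 : g0 ∉ p)
    (hr : PolyFlat Q y (W602.GT.val y g1 / W602.GT.val y g0)) (m : ℕ) :
    ∃ G, IsForm G ∧ G ∉ p ∧ ∀ T, PolyCurve p Q T → (∀ j, (T j).natDegree ≤ m) →
      NCAlong g1 g0 T → ∀ z : ℂ, eval (fun j => (T j).eval z) G = 0 := by
  by_contra hno
  obtain ⟨M, i1, i2, m', W, hm, hF, hne⟩ := fam_of_dense hy m hno
  exact hne (hr M m' W hm hF d g1 g0 h1 h0 (fun h => hg0 (hy.mem g0 ⟨d, h0⟩ h)) rfl)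

/-- Bogomolov sheaves give flat functions. -/
theorem polyFlat_bog {K : Type} [Field K] [Algebra ℂ K] {w : ℕ} {y : Fin (n + 1) → K}
    (hy : FunField p Q K w y) (hQ : Q.IsHomogeneous q) {e : ℕ}
    (θ : AlternatingMap K (Derivation ℂ K K) K (Fin e)) (hθ : θ ≠ 0) {N : ℕ} (hN : 0 < N)
    {J : Type} (g : J → K)
    (hlog : ∀ v : Place ℂ K, Divisorial w v → ∀ D : Fin e → Derivation ℂ K K,
      (∀ i, DerLog v (D i)) → ∀ j, v.Reg (g j * θ D ^ N))
    (hreg : ∀ v : Place ℂ K, Divisorial w v → ¬ OffQ Q q y v →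
      ∀ D : Fin e → Derivation ℂ K K, (∀ i, DerReg v (D i)) → ∀ j, v.Reg (g j * θ D ^ N))
    (j0 j1 : J) : PolyFlat Q y (g j1 / g j0) := by
  intro M _ _ m' W hm hF
  refine (hF.main hy.sub.dim hm hy.sub.ne hy.sub.gen hQ).1 e
    (θ : MultilinearMap K (fun _ : Fin e => Derivation ℂ K K) K) ?_ N hN J g hlog hreg j0 j1
  intro h0
  apply hθ
  ext D
  exact congrFun (congrArg DFunLike.coe h0) D

end Pool.Agent.Q64.LC
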