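import Mathlib.Topology.MetricSpace.HausdorffDimension
import Mathlib.MeasureTheory.Constructions.BorelSpace.Metric
import Mathlib.MeasureTheory.OuterMeasure.BorelCantelli
import Mathlib.MeasureTheory.Measure.WithDensityFinite
import Mathlib.Analysis.SpecificLimits.Basic

/-!
Small neighbourhoods of compact sets: measures and Hausdorff dimension.
-/

set_option autoImplicit false

namespace Pool.Agent.Q64.LC

open MeasureTheory MeasureTheory.Measure Filter Topology Metric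
open scoped NNReal ENNReal

/-- **Measures.** -/
theorem exists_thick {Y : Type} [PseudoMetricSpace Y] [MeasurableSpace Y] [OpensMeasurableSpace Y]
    (μ : Measure Y) [IsFiniteMeasure μ] (R : ℕ → Set Y) (hR : ∀ m, IsCompact (R m))
    (hR' : ∀ m, IsClosed (R m)) :
    ∃ η : ℕ → ℝ, (∀ m, 0 < η m) ∧
      μ (limsup (fun m => thickening (η m) (R m)) atTop \ ⋃ m, R m) = 0 := by
  have h : ∀ m, ∃ η : ℝ, 0 < η ∧ μ (thickening η (R m) \ R m) ≤ (1 / 2 : ℝ≥0∞) ^ m := by
    intro m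
    have h1 := tendsto_measure_thickening_of_isClosed (μ := μ) (s := R m)
      ⟨1, one_pos, measure_ne_top μ _⟩ (hR' m)
    have h2 : μ (R m) < μ (R m) + (1 / 2 : ℝ≥0∞) ^ m := by
      apply ENNReal.lt_add_right (measure_ne_top μ _)
      exact pow_ne_zero _ (by norm_num)
    obtain ⟨η, h4, h5⟩ := ((h1.eventually (gt_mem_nhds h2)).and self_mem_nhdsWithin).exists
    refine ⟨η, h5, ?_⟩
    rw [measure_diff (self_subset_thickening h5 _) (hR' m).measurableSet.nullMeasurableSet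
      (measure_ne_top μ _)]
    exact tsub_le_iff_left.2 h4.le
  choose η hη hη' using h
  refine ⟨η, hη, ?_⟩
  have h1 : μ (limsup (fun m => thickening (η m) (R m) \ R m) atTop) = 0 := by
    apply measure_limsup_atTop_eq_zero
    have h1 : ∑' m : ℕ, μ (thickening (η m) (R m) \ R m) ≤ ∑' m : ℕ, (1 / 2 : ℝ≥0∞) ^ m :=
      ENNReal.tsum_le_tsum hη'
    refine ne_top_of_le_ne_top ?_ h1
    rw [ENNReal.tsum_geometric]
    apply ENNReal.inv_ne_top.2
    rw [Ne, tsub_eq_zero_iff_le, not_le]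
    norm_num
  refine measure_mono_null ?_ h1
  rintro x ⟨hx, hx'⟩
  rw [mem_limsup_iff_frequently_mem] at hx ⊢
  refine hx.mono fun m hm => ⟨hm, fun h => hx' (Set.mem_iUnion.2 ⟨m, h⟩)⟩

section dim

variable {Y : Type} [MetricSpace Y] [MeasurableSpace Y] [BorelSpace Y]

/-- **Covers.** A compact set of measure zero is covered by finitely many balls. -/
theorem exists_balls {K : Set Y} (hK : IsCompact K) {d : ℝ} (hd : 0 < d) (h0 : μH[d] K = 0)
    {e : ℝ} (he : 0 < e) :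
    ∃ (N : ℕ) (x : Fin N → Y) (r : Fin N → ℝ), (∀ i, 0 < r i ∧ r i ≤ e) ∧
      K ⊆ ⋃ i, ball (x i) (r i) ∧ ∑ i, (2 * r i) ^ d ≤ e := by
  classical
  set e1 : ℝ := e / (2 * 4 ^ d) with he1
  have h4 : (0 : ℝ) < 4 ^ d := by positivity
  have he1p : 0 < e1 := by positivity
  -- a countable cover
  obtain ⟨t, ht, htd, hts⟩ : ∃ t : ℕ → Set Y, K ⊆ ⋃ n, t n ∧
      (∀ n, ediam (t n) ≤ ENNReal.ofReal (e / 2)) ∧
      ∑' n, ⨆ _ : (t n).Nonempty, ediam (t n) ^ d < ENNReal.ofReal e1 := by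
    rw [hausdorffMeasure_apply] at h0
    have h1 := (ENNReal.iSup_eq_zero.1 h0 (ENNReal.ofReal (e / 2)))
    have h2 := ENNReal.iSup_eq_zero.1 h1 (by rw [ENNReal.ofReal_pos]; positivity)
    have h3 : (⨅ (t : ℕ → Set Y) (_ : K ⊆ ⋃ n, t n) (_ : ∀ n, ediam (t n) ≤ ENNReal.ofReal (e / 2)),
        ∑' n, ⨆ _ : (t n).Nonempty, ediam (t n) ^ d) < ENNReal.ofReal e1 := by
      rw [h2, ENNReal.ofReal_pos]
      exact he1p
    rw [iInf_lt_iff] at h3
    obtain ⟨t, h3⟩ := h3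
    rw [iInf_lt_iff] at h3
    obtain ⟨h4, h3⟩ := h3
    rw [iInf_lt_iff] at h3
    obtain ⟨h5, h3⟩ := h3
    exact ⟨t, h4, h5, h3⟩
  -- small numbers
  let D : ℕ → ℝ := fun n => (ediam (t n)).toReal
  have hD : ∀ n, ediam (t n) = ENNReal.ofReal (D n) := fun n =>
    (ENNReal.ofReal_toReal (ne_top_of_le_ne_top ENNReal.ofReal_ne_top (htd n))).symm
  have hD0 : ∀ n, 0 ≤ D n := fun n => ENNReal.toReal_nonneg
  have hDe : ∀ n, D n ≤ e / 2 := fun n => by
    have h1 := htd n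
    rw [hD n, ENNReal.ofReal_le_ofReal_iff (by positivity)] at h1
    exact h1
  have hu : ∀ n : ℕ, ∃ u : ℝ, 0 < u ∧ u ≤ e / 2 ∧ (4 * u) ^ d ≤ e / 4 * (1 / 2) ^ n := by
    intro n
    set v : ℝ := (e / 4 * (1 / 2) ^ n) ^ (1 / d) / 4 with hv
    have hvp : 0 < v := by positivity
    refine ⟨min v (e / 2), lt_min hvp (by positivity), min_le_right _ _, ?_⟩
    calc (4 * min v (e / 2)) ^ d ≤ (4 * v) ^ d := by
          refine Real.rpow_le_rpow (by positivity) ?_ hd.le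
          have := min_le_left v (e / 2)
          linarith
      _ = e / 4 * (1 / 2) ^ n := by
          rw [hv, mul_div_cancel₀ _ (by norm_num : (4 : ℝ) ≠ 0), ← Real.rpow_mul (by positivity),
            one_div_mul_cancel hd.ne', Real.rpow_one]
  choose u hu0 hue hud using hu
  -- the balls
  have hcov : K ⊆ ⋃ n : {n : ℕ // (t n).Nonempty}, ball n.2.some (D n.1 + u n.1) := by
    intro y hy
    obtain ⟨n, hn⟩ := Set.mem_iUnion.1 (ht hy)
    refine Set.mem_iUnion.2 ⟨⟨n, ⟨y, hn⟩⟩, ?_⟩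
    rw [mem_ball, dist_edist]
    have h1 : edist y (Set.Nonempty.some ⟨y, hn⟩) ≤ ediam (t n) :=
      edist_le_ediam_of_mem hn (Set.Nonempty.some_mem _)
    rw [hD n] at h1
    have h2 := ENNReal.toReal_mono ENNReal.ofReal_ne_top h1
    rw [ENNReal.toReal_ofReal (hD0 n)] at h2
    have := hu0 n
    linarith
  obtain ⟨F, hF⟩ := hK.elim_finite_subcover (fun n : {n : ℕ // (t n).Nonempty} =>
    ball n.2.some (D n.1 + u n.1)) (fun _ => isOpen_ball) hcov
  let φ := F.equivFin.symm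
  refine ⟨F.card, fun i => (φ i).1.2.some, fun i => D (φ i).1.1 + u (φ i).1.1, fun i => ⟨?_, ?_⟩,
    ?_, ?_⟩
  · have := hu0 (φ i).1.1
    have := hD0 (φ i).1.1
    linarith
  · have := hue (φ i).1.1
    have := hDe (φ i).1.1
    linarith
  · intro y hy
    obtain ⟨n, hn, hy'⟩ := Set.mem_iUnion₂.1 (hF hy)
    refine Set.mem_iUnion.2 ⟨φ.symm ⟨n, hn⟩, ?_⟩
    simp only [Equiv.apply_symm_apply]
    exact hy'
  · -- the sum
    have h1 : ∑ i : Fin F.card, (2 * (D (φ i).1.1 + u (φ i).1.1)) ^ d =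
        ∑ n ∈ F, (2 * (D n.1 + u n.1)) ^ d := by
      rw [← Finset.sum_coe_sort F]
      exact Equiv.sum_comp φ fun n : F => (2 * (D n.1.1 + u n.1.1)) ^ d
    rw [h1]
    have h2 : ∀ n ∈ F, (2 * (D n.1 + u n.1)) ^ d ≤ 4 ^ d * (D n.1) ^ d + e / 4 * (1 / 2) ^ n.1 := by
      intro n _
      have h3 : (2 * (D n.1 + u n.1)) ^ d ≤ (4 * D n.1) ^ d + (4 * u n.1) ^ d := by
        rcases le_total (D n.1) (u n.1) with h | h
        · refine (Real.rpow_le_rpow ?_ (by linarith : 2 * (D n.1 + u n.1) ≤ 4 * u n.1) hd.le).trans ?_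
          · have := hD0 n.1
            have := hu0 n.1
            positivity
          · have := Real.rpow_nonneg (mul_nonneg (by norm_num : (0 : ℝ) ≤ 4) (hD0 n.1)) d
            linarith
        · refine (Real.rpow_le_rpow ?_ (by linarith : 2 * (D n.1 + u n.1) ≤ 4 * D n.1) hd.le).trans ?_
          · have := hD0 n.1
            have := hu0 n.1
            positivity
          · have := Real.rpow_nonneg (mul_nonneg (by norm_num : (0 : ℝ) ≤ 4) (hu0 n.1).le) d
            linarith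
      refine h3.trans (add_le_add ?_ (hud n.1))
      rw [Real.mul_rpow (by norm_num) (hD0 _)]
    refine (Finset.sum_le_sum h2).trans ?_
    rw [Finset.sum_add_distrib, ← Finset.mul_sum]
    have h3 : ∑ n ∈ F, (D n.1) ^ d ≤ e1 := by
      have h4 : ENNReal.ofReal (∑ n ∈ F, (D n.1) ^ d) ≤ ENNReal.ofReal e1 := by
        rw [ENNReal.ofReal_sum_of_nonneg fun n _ => Real.rpow_nonneg (hD0 _) _]
        refine le_trans ?_ hts.le
        have h5 : ∑ n ∈ F, ENNReal.ofReal ((D n.1) ^ d) =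
            ∑ n ∈ F.map ⟨Subtype.val, Subtype.val_injective⟩, ⨆ _ : (t n).Nonempty, ediam (t n) ^ d := by
          rw [Finset.sum_map]
          refine Finset.sum_congr rfl fun n _ => ?_
          have h6 : (⨆ _ : (t n.1).Nonempty, ediam (t n.1) ^ d) = ediam (t n.1) ^ d :=
            ciSup_pos n.2
          change _ = ⨆ _ : (t n.1).Nonempty, ediam (t n.1) ^ d
          rw [h6, hD n.1, ENNReal.ofReal_rpow_of_nonneg (hD0 _) hd.le]
        rw [h5]
        exact ENNReal.sum_le_tsum _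
      rwa [ENNReal.ofReal_le_ofReal_iff he1p.le] at h4
    have h44 : ∑ n ∈ F, e / 4 * (1 / 2 : ℝ) ^ n.1 ≤ e / 2 := by
      have h5 : ∑ n ∈ F, e / 4 * (1 / 2 : ℝ) ^ n.1 =
          ∑ n ∈ F.map ⟨Subtype.val, Subtype.val_injective⟩, e / 4 * (1 / 2 : ℝ) ^ n := by
        rw [Finset.sum_map]
        rfl
      rw [h5]
      have h6 : HasSum (fun n : ℕ => e / 4 * (1 / 2 : ℝ) ^ n) (e / 4 * 2) :=
        hasSum_geometric_two.mul_left _
      have h7 := sum_le_hasSum (F.map ⟨Subtype.val, Subtype.val_injective⟩)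
        (fun n _ => by positivity) h6
      linarith
    have h5 : 4 ^ d * ∑ n ∈ F, (D n.1) ^ d ≤ e / 2 := by
      calc 4 ^ d * ∑ n ∈ F, (D n.1) ^ d ≤ 4 ^ d * e1 := mul_le_mul_of_nonneg_left h3 h4.le
        _ = e / 2 := by
          rw [he1]
          field_simp
    linarith

/-- **Hausdorff dimension.** -/
theorem exists_thick_dim (R : ℕ → Set Y) (hR : ∀ m, IsCompact (R m)) :
    ∃ η : ℕ → ℝ, (∀ m, 0 < η m) ∧
      dimH (limsup (fun m => thickening (η m) (R m)) atTop) ≤ dimH (⋃ m, R m) := by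
  classical
  by_cases htop : dimH (⋃ m, R m) = ⊤
  · exact ⟨fun _ => 1, fun _ => one_pos, by rw [htop]; exact le_top⟩
  obtain ⟨s0, hs0⟩ : ∃ s0 : ℝ≥0, (s0 : ℝ≥0∞) = dimH (⋃ m, R m) :=
    ⟨_, ENNReal.coe_toNNReal htop⟩
  have hdm : ∀ m : ℕ, dimH (R m) < ((s0 + 1 / ((m : ℝ≥0) + 1) : ℝ≥0) : ℝ≥0∞) := by
    intro m
    refine (dimH_mono (Set.subset_iUnion R m)).trans_lt ?_
    rw [← hs0, ENNReal.coe_lt_coe]
    exact lt_add_of_pos_right _ (by positivity)
  have hex : ∀ m : ℕ, ∃ (N : ℕ) (x : Fin N → Y) (r : Fin N → ℝ),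
      (∀ i, 0 < r i ∧ r i ≤ (1 / 2) ^ (m + 1)) ∧ R m ⊆ ⋃ i, ball (x i) (r i) ∧
      ∑ i, (2 * r i) ^ ((s0 + 1 / ((m : ℝ≥0) + 1) : ℝ≥0) : ℝ) ≤ (1 / 2) ^ (m + 1) := fun m =>
    exists_balls (hR m) (by positivity) (hausdorffMeasure_of_dimH_lt (hdm m)) (by positivity)
  choose N x r hr hcov hsum using hex
  have hη : ∀ m, ∃ η : ℝ, 0 < η ∧ thickening η (R m) ⊆ ⋃ i, ball (x m i) (r m i) := fun m =>
    (hR m).exists_thickening_subset_open (isOpen_iUnion fun _ => isOpen_ball) (hcov m)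
  choose η hη0 hη1 using hη
  refine ⟨η, hη0, ?_⟩
  rw [← hs0]
  -- all larger exponents
  refine ENNReal.le_of_forall_pos_le_add fun δ hδ _ => ?_
  rw [← ENNReal.coe_add]
  apply dimH_le_of_hausdorffMeasure_ne_top
  suffices h : μH[((s0 + δ : ℝ≥0) : ℝ)] (limsup (fun m => thickening (η m) (R m)) atTop) = 0 by
    rw [h]
    exact ENNReal.zero_ne_top
  obtain ⟨M0, hM0⟩ := exists_nat_one_div_lt hδ
  have hdle : ∀ m : ℕ, M0 ≤ m → s0 + 1 / ((m : ℝ≥0) + 1) ≤ s0 + δ := by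
    intro m hm
    have h1 : (1 : ℝ≥0) / ((m : ℝ≥0) + 1) ≤ 1 / ((M0 : ℝ≥0) + 1) := by
      have h2 : (M0 : ℝ≥0) ≤ m := by exact_mod_cast hm
      gcongr
    exact add_le_add le_rfl (h1.trans hM0.le)
  have hpow : ∀ k : ℕ, (ENNReal.ofReal ((1 / 2 : ℝ) ^ k)) = (1 / 2 : ℝ≥0∞) ^ k := by
    intro k
    rw [ENNReal.ofReal_pow (by norm_num)]
    congr 1
    rw [ENNReal.ofReal_div_of_pos (by norm_num)]
    simp
  have hbound : ∀ M : ℕ, M0 ≤ M →
      ∑' i : (Σ k : ℕ, Fin (N (M + k))), ediam (ball (x (M + i.1) i.2) (r (M + i.1) i.2)) ^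
        ((s0 + δ : ℝ≥0) : ℝ) ≤ (1 / 2 : ℝ≥0∞) ^ M := by
    intro M hM
    rw [ENNReal.tsum_sigma']
    have h1 : ∀ k : ℕ, ∑' i : Fin (N (M + k)), ediam (ball (x (M + k) i) (r (M + k) i)) ^
        ((s0 + δ : ℝ≥0) : ℝ) ≤ (1 / 2 : ℝ≥0∞) ^ (M + k + 1) := by
      intro k
      rw [tsum_fintype, ← hpow]
      refine le_trans ?_ (ENNReal.ofReal_le_ofReal (hsum (M + k)))
      rw [ENNReal.ofReal_sum_of_nonneg fun i _ => Real.rpow_nonneg (by
        have := (hr (M + k) i).1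
        positivity) _]
      refine Finset.sum_le_sum fun i _ => ?_
      have hr1 := (hr (M + k) i).1
      have hr2 := (hr (M + k) i).2
      have h2 : ediam (ball (x (M + k) i) (r (M + k) i)) ≤ ENNReal.ofReal (2 * r (M + k) i) := by
        rw [← Metric.eball_ofReal]
        refine ediam_eball_le.trans (le_of_eq ?_)
        rw [ENNReal.ofReal_mul (by norm_num)]
        simp
      have h3 : 2 * r (M + k) i ≤ 1 := by
        have h4 : ((1 : ℝ) / 2) ^ (M + k + 1) ≤ (1 / 2) ^ 1 :=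
          pow_le_pow_of_le_one (by norm_num) (by norm_num) (by omega)
        linarith
      refine (ENNReal.rpow_le_rpow h2 (NNReal.coe_nonneg _)).trans ?_
      rw [ENNReal.ofReal_rpow_of_pos (by positivity)]
      refine ENNReal.ofReal_le_ofReal ?_
      refine Real.rpow_le_rpow_of_exponent_ge (by positivity) h3 ?_
      exact_mod_cast hdle (M + k) (by omega)
    refine (ENNReal.tsum_le_tsum h1).trans (le_of_eq ?_)
    have h2 : ∀ k : ℕ, (1 / 2 : ℝ≥0∞) ^ (M + k + 1) = (1 / 2) ^ M * ((1 / 2) * (1 / 2) ^ k) := by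
      intro k
      rw [pow_succ, pow_add]
      ring
    simp only [h2]
    rw [ENNReal.tsum_mul_left, ENNReal.tsum_mul_left, ENNReal.tsum_geometric]
    have h3 : (1 : ℝ≥0∞) - 1 / 2 = 1 / 2 := by
      rw [one_div]
      exact ENNReal.one_sub_inv_two
    rw [h3, one_div, ENNReal.mul_inv_cancel (by norm_num) (by norm_num), mul_one]
  have hle := hausdorffMeasure_le_liminf_tsum (ι := fun M : ℕ => Σ k : ℕ, Fin (N (M + k)))
    ((s0 + δ : ℝ≥0) : ℝ) (limsup (fun m => thickening (η m) (R m)) atTop) (l := atTop)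
    (fun M : ℕ => 2 * (1 / 2 : ℝ≥0∞) ^ M) (by
      have h1 : Tendsto (fun M : ℕ => (1 / 2 : ℝ≥0∞) ^ M) atTop (𝓝 0) := by
        apply ENNReal.tendsto_pow_atTop_nhds_zero_of_lt_one
        norm_num
      have h2 := ENNReal.Tendsto.const_mul (a := 2) h1 (Or.inr (by norm_num))
      rwa [mul_zero] at h2)
    (fun M i => ball (x (M + i.1) i.2) (r (M + i.1) i.2))
    (Eventually.of_forall fun M i => by
      have hr1 := (hr (M + i.1) i.2).1
      have hr2 := (hr (M + i.1) i.2).2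
      have h2 : ediam (ball (x (M + i.1) i.2) (r (M + i.1) i.2)) ≤
          2 * ENNReal.ofReal (r (M + i.1) i.2) := by
        rw [← Metric.eball_ofReal]
        exact ediam_eball_le
      refine h2.trans ?_
      rw [← hpow M]
      gcongr
      refine hr2.trans ?_
      exact pow_le_pow_of_le_one (by norm_num) (by norm_num) (by omega))
    (Eventually.of_forall fun M y hy => by
      rw [mem_limsup_iff_frequently_mem] at hy
      obtain ⟨m, hm, hym⟩ := (hy.and_eventually (eventually_ge_atTop M)).exists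
      obtain ⟨i, hi⟩ := Set.mem_iUnion.1 (hη1 m hm)
      obtain ⟨k, rfl⟩ : ∃ k, m = M + k := ⟨m - M, by omega⟩
      exact Set.mem_iUnion.2 ⟨⟨k, i⟩, hi⟩)
  refine le_antisymm (hle.trans ?_) (by positivity)
  have h1 : Tendsto (fun M : ℕ => (1 / 2 : ℝ≥0∞) ^ M) atTop (𝓝 0) := by
    apply ENNReal.tendsto_pow_atTop_nhds_zero_of_lt_one
    norm_num
  rw [← h1.liminf_eq]
  refine liminf_le_liminf ?_
  filter_upwards [eventually_ge_atTop M0] with M hM
  exact hbound M hM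

end dim

end Pool.Agent.Q64.LC
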