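import Pool.Agent.Q64.LC.Rig
import Pool.Agent.Q64.LC.Hdf
import Mathlib.Topology.UniformSpace.CompactConvergence

/-!
Continuous functionals of entire curves with small Taylor coefficients.
-/

set_option autoImplicit false

namespace Pool.Agent.Q64.LC

open MvPolynomial Filter Topology Pool.Agent.TH143.GT Pool.Agent.W602.GT Pool.Agent.W603.GR
open MeasureTheory Metric
open scoped NNReal ENNReal Uniformity

variable {n : ℕ} {p : Ideal (MvPolynomial (Fin (n + 1)) ℂ)} {Q : MvPolynomial (Fin (n + 1)) ℂ}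
  {q : ℕ}

/-- The space of the entire maps to `ℂ ^ (n + 1)`, with the topology of locally uniform
convergence. -/
abbrev EC (n : ℕ) : Type := {f : C(ℂ, Fin (n + 1) → ℂ) // Differentiable ℂ f}

/-- the entire map given by polynomials -/
noncomputable def polyEC (T : Fin (n + 1) → Polynomial ℂ) : EC n :=
  ⟨⟨fun z j => (T j).eval z, continuous_pi fun j => (T j).continuous⟩,
    differentiable_pi.2 fun j => (T j).differentiable⟩

theorem polyEC_apply (T : Fin (n + 1) → Polynomial ℂ) (z : ℂ) :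
    (polyEC T).1 z = fun j => (T j).eval z := rfl

theorem continuous_polyEC (m : ℕ) :
    Continuous fun c : Fin (m + 1) → Fin (n + 1) → ℂ => polyEC (pf c) := by
  apply Continuous.subtype_mk
  have h1 : Continuous fun x : (Fin (m + 1) → Fin (n + 1) → ℂ) × ℂ =>
      (fun j => (pf x.1 j).eval x.2 : Fin (n + 1) → ℂ) := by
    refine continuous_pi fun j => ?_
    have h1 : ∀ x : (Fin (m + 1) → Fin (n + 1) → ℂ) × ℂ,
        (pf x.1 j).eval x.2 = ∑ i : Fin (m + 1), x.1 i j * x.2 ^ (i : ℕ) := by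
      intro x
      unfold pf
      rw [Polynomial.eval_finsetSum]
      refine Finset.sum_congr rfl fun i _ => ?_
      rw [Polynomial.eval_mul, Polynomial.eval_C, Polynomial.eval_pow, Polynomial.eval_X]
    simp only [h1]
    refine continuous_finsetSum _ fun i _ => ?_
    have h2 : Continuous fun x : (Fin (m + 1) → Fin (n + 1) → ℂ) × ℂ => x.1 i j :=
      (continuous_apply j).comp ((continuous_apply i).comp continuous_fst)
    exact h2.mul (continuous_snd.pow _)
  exact (ContinuousMap.curry ⟨_, h1⟩).continuous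

/-- The coefficients of the polynomial curves of the level `m`. -/
def KK (p : Ideal (MvPolynomial (Fin (n + 1)) ℂ)) (Q : MvPolynomial (Fin (n + 1)) ℂ) (m : ℕ) :
    Set (Fin (m + 1) → Fin (n + 1) → ℂ) :=
  {c | (∀ i j, ‖c i j‖ ≤ ((m : ℝ) + 1) ^ (m + 1) + 1) ∧
    (∀ H ∈ p, IsForm H → ∀ z : ℂ, eval (fun j => (pf c j).eval z) H = 0) ∧
    (∀ z : ℂ, eval (fun j => (pf c j).eval z) Q = eval (fun j => (pf c j).eval 0) Q) ∧
    1 / (2 * ((m : ℝ) + 1)) ≤ ‖eval (fun j => (pf c j).eval 0) Q‖ ∧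
    ∃ (i i' : Fin (m + 1)) (j k : Fin (n + 1)),
      1 / (2 * ((m : ℝ) + 1)) ≤ ‖c i j * c i' k - c i k * c i' j‖}

theorem isCompact_KK (m : ℕ) : IsCompact (KK p Q m) := by
  have hc : ∀ (i : Fin (m + 1)) (j : Fin (n + 1)),
      Continuous fun x : Fin (m + 1) → Fin (n + 1) → ℂ => x i j := fun i j =>
    (continuous_apply j).comp (continuous_apply i)
  refine IsCompact.of_isClosed_subset (isCompact_closedBall (0 : Fin (m + 1) → Fin (n + 1) → ℂ)
    (((m : ℝ) + 1) ^ (m + 1) + 1)) ?_ ?_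
  · have e1 : IsClosed {c : Fin (m + 1) → Fin (n + 1) → ℂ |
        ∀ i j, ‖c i j‖ ≤ ((m : ℝ) + 1) ^ (m + 1) + 1} := by
      simp only [Set.ofPred_forall]
      exact isClosed_iInter fun i => isClosed_iInter fun j =>
        isClosed_le (hc i j).norm continuous_const
    have e2 : IsClosed {c : Fin (m + 1) → Fin (n + 1) → ℂ |
        ∀ H ∈ p, IsForm H → ∀ z : ℂ, eval (fun j => (pf c j).eval z) H = 0} := by
      simp only [Set.ofPred_forall]
      exact isClosed_iInter fun H => isClosed_iInter fun _ => isClosed_iInter fun _ =>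
        isClosed_iInter fun z => isClosed_eq (continuous_pfeval z H) continuous_const
    have e3 : IsClosed {c : Fin (m + 1) → Fin (n + 1) → ℂ | ∀ z : ℂ,
        eval (fun j => (pf c j).eval z) Q = eval (fun j => (pf c j).eval 0) Q} := by
      simp only [Set.ofPred_forall]
      exact isClosed_iInter fun z => isClosed_eq (continuous_pfeval z Q) (continuous_pfeval 0 Q)
    have e4 : IsClosed {c : Fin (m + 1) → Fin (n + 1) → ℂ |
        1 / (2 * ((m : ℝ) + 1)) ≤ ‖eval (fun j => (pf c j).eval 0) Q‖} :=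
      isClosed_le continuous_const (continuous_pfeval 0 Q).norm
    have e5 : IsClosed {c : Fin (m + 1) → Fin (n + 1) → ℂ | ∃ (i i' : Fin (m + 1))
        (j k : Fin (n + 1)), 1 / (2 * ((m : ℝ) + 1)) ≤ ‖c i j * c i' k - c i k * c i' j‖} := by
      simp only [Set.ofPred_exists]
      refine isClosed_iUnion_of_finite fun i => isClosed_iUnion_of_finite fun i' =>
        isClosed_iUnion_of_finite fun j => isClosed_iUnion_of_finite fun k => ?_
      refine isClosed_le continuous_const (Continuous.norm ?_)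
      exact ((hc i j).mul (hc i' k)).sub ((hc i k).mul (hc i' j))
    exact e1.inter (e2.inter (e3.inter (e4.inter e5)))
  · intro c hcm
    rw [mem_closedBall_zero_iff, pi_norm_le_iff_of_nonneg (by positivity)]
    intro i
    rw [pi_norm_le_iff_of_nonneg (by positivity)]
    exact hcm.1 i

theorem KK_poly {m : ℕ} {c : Fin (m + 1) → Fin (n + 1) → ℂ} (h : c ∈ KK p Q m) :
    PolyCurve p Q (pf c) := by
  obtain ⟨-, h2, h3, h4, i, i', j, k, h5⟩ := h
  have hpos : (0 : ℝ) < 1 / (2 * ((m : ℝ) + 1)) := by positivity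
  refine ⟨h2, ⟨_, norm_pos_iff.1 (hpos.trans_le h4), h3⟩, ?_⟩
  apply ind_of_minor (i := i) (i' := i') (j := j) (k := k)
  intro h6
  rw [h6, sub_self, norm_zero] at h5
  exact absurd h5 (not_le.2 hpos)

theorem Lev.mem_KK {m : ℕ} {T : Fin (n + 1) → Polynomial ℂ} (h : Lev p Q m T) :
    (fun (i : Fin (m + 1)) j => (T j).coeff i) ∈ KK p Q m := by
  have h0 := pf_coeffs h.deg
  refine ⟨fun i j => h.bd j i, ?_, ?_, ?_, ?_⟩
  · rw [h0]
    exact h.poly.mem
  · rw [h0]
    obtain ⟨c, -, hc⟩ := h.poly.off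
    intro z
    rw [hc, hc]
  · rw [h0]
    have h1 := h.offb
    simp only [Polynomial.coeff_zero_eq_eval_zero] at h1
    exact h1
  · obtain ⟨i, i', j, k, h1⟩ := h.minor
    have hpos : (0 : ℝ) < 1 / (2 * ((m : ℝ) + 1)) := by positivity
    have hi : i < m + 1 := by
      by_contra hi
      push Not at hi
      have h2 : ∀ j, (T j).coeff i = 0 := fun j =>
        Polynomial.coeff_eq_zero_of_natDegree_lt (by have := h.deg j; omega)
      rw [h2, h2, zero_mul, zero_mul, sub_zero, norm_zero] at h1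
      exact absurd h1 (not_le.2 hpos)
    have hi' : i' < m + 1 := by
      by_contra hi
      push Not at hi
      have h2 : ∀ j, (T j).coeff i' = 0 := fun j =>
        Polynomial.coeff_eq_zero_of_natDegree_lt (by have := h.deg j; omega)
      rw [h2, h2, mul_zero, mul_zero, sub_zero, norm_zero] at h1
      exact absurd h1 (not_le.2 hpos)
    exact ⟨⟨i, hi⟩, ⟨i', hi'⟩, j, k, h1⟩

/-- **Uniformity.** -/
theorem exists_close {P Y : Type} [TopologicalSpace P] [PseudoMetricSpace Y] {Φ : EC n × P → Y}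
    (hΦ : Continuous Φ) {A : Set (EC n)} (hA : IsCompact A) {P₀ : Set P} (hP : IsCompact P₀)
    {η : ℝ} (hη : 0 < η) :
    ∃ (M δ : ℝ), 0 ≤ M ∧ 0 < δ ∧ ∀ T ∈ A, ∀ f : EC n, (∀ z : ℂ, ‖z‖ ≤ M → dist (f.1 z) (T.1 z) ≤ δ) →
      ∀ x ∈ P₀, dist (Φ (f, x)) (Φ (T, x)) < η := by
  have hcomp : CompactSpace P₀ := isCompact_iff_compactSpace.1 hP
  let F : C(EC n × P₀, Y) := ⟨fun x => Φ (x.1, x.2.1), hΦ.comp
    (continuous_fst.prodMk (continuous_subtype_val.comp continuous_snd))⟩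
  let g : C(EC n, C(P₀, Y)) := F.curry
  have h1 := hA.uniformContinuousAt_of_continuousAt g (fun a _ => g.continuous.continuousAt)
    (dist_mem_uniformity hη)
  rw [uniformity_subtype, mem_comap] at h1
  obtain ⟨V, hV, h2⟩ := h1
  obtain ⟨K, W, hK, hW, h3⟩ := (ContinuousMap.mem_compactConvergence_entourage_iff V).1 hV
  obtain ⟨δ, hδ, h4⟩ := mem_uniformity_dist.1 hW
  obtain ⟨M, hM⟩ := hK.isBounded.subset_closedBall 0
  refine ⟨max M 0, δ / 2, le_max_right _ _, by positivity, fun T hT f hf x hx => ?_⟩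
  have h5 : ((T, f) : EC n × EC n) ∈ (fun q : EC n × EC n => ((q.1 : C(ℂ, Fin (n + 1) → ℂ)),
      (q.2 : C(ℂ, Fin (n + 1) → ℂ)))) ⁻¹' V := by
    apply h3
    intro z hz
    apply h4
    have h6 := hM hz
    rw [mem_closedBall_zero_iff] at h6
    have h7 := hf z (h6.trans (le_max_left _ _))
    rw [dist_comm]
    exact h7.trans_lt (half_lt_self hδ)
  have h6 := h2 h5 hT
  have h7 : dist (g T) (g f) < η := h6
  have h8 := (ContinuousMap.dist_apply_le_dist (f := g T) (g := g f) ⟨x, hx⟩).trans_lt h7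
  rw [dist_comm]
  exact h8

section main

variable {P Y : Type} [TopologicalSpace P] [SigmaCompactSpace P] [MetricSpace Y]

/-- the values on the polynomial curves of the level `m` -/
def RR (p : Ideal (MvPolynomial (Fin (n + 1)) ℂ)) (Q : MvPolynomial (Fin (n + 1)) ℂ)
    (Φ : EC n × P → Y) (m : ℕ) : Set Y :=
  Φ '' (((fun c => polyEC (pf c)) '' KK p Q m) ×ˢ compactCovering P m)

theorem isCompact_RR {Φ : EC n × P → Y} (hΦ : Continuous Φ) (m : ℕ) : IsCompact (RR p Q Φ m) :=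
  (((isCompact_KK m).image (continuous_polyEC m)).prod (isCompact_compactCovering P m)).image hΦ

/-- The values of the functional on the polynomial curves. -/
def polyVals (p : Ideal (MvPolynomial (Fin (n + 1)) ℂ)) (Q : MvPolynomial (Fin (n + 1)) ℂ)
    (Φ : EC n × P → Y) : Set Y :=
  {y | ∃ T, PolyCurve p Q T ∧ ∃ x : P, Φ (polyEC T, x) = y}

omit [MetricSpace Y] in
theorem RR_subset {Φ : EC n × P → Y} (m : ℕ) : RR p Q Φ m ⊆ polyVals p Q Φ := by
  rintro _ ⟨⟨_, x⟩, ⟨⟨c, hc, rfl⟩, -⟩, rfl⟩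
  exact ⟨pf c, KK_poly hc, x, rfl⟩

/-- **The approximation.** -/
theorem core {D : ℕ} (hD : 1 ≤ D) (hQ : Q.IsHomogeneous q) (hqD : q ≤ D) (hcut : CutBy D p)
    {Φ : EC n × P → Y} (hΦ : Continuous Φ) {η : ℕ → ℝ} (hη : ∀ m, 0 < η m) :
    ∃ ε : ℕ → ℝ, (∀ i, 0 < ε i) ∧ ∀ (a : ℕ → Fin (n + 1) → ℂ) (f : EC n),
      (∀ r > 0, Curve p Q r a f.1) → (∃ r, NonConst r f.1) → (∃ L : ℕ, ∀ i, L ≤ i → ‖a i‖ ≤ ε i) →
      ∀ x : P, ∀ᶠ m in atTop, Φ (f, x) ∈ thickening (η m) (RR p Q Φ m) := by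
  classical
  choose M δ hM hδ hcl using fun m => exists_close hΦ
    ((isCompact_KK (p := p) (Q := Q) m).image (continuous_polyEC m)) (isCompact_compactCovering P m)
    (hη m)
  obtain ⟨ε, hε, hmain⟩ := master hD hQ hqD hcut hδ hM
  refine ⟨ε, hε, fun a f hf hnc hL x => ?_⟩
  obtain ⟨m0, hm0⟩ := hmain a f.1 hf hnc hL
  obtain ⟨m1, hm1⟩ := exists_mem_compactCovering x
  filter_upwards [eventually_ge_atTop (max m0 m1)] with m hm
  obtain ⟨T, hT, -, h3⟩ := hm0 m ((le_max_left _ _).trans hm)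
  have hTc : polyEC T ∈ (fun c => polyEC (pf c)) '' KK p Q m :=
    ⟨_, hT.mem_KK, by
      simp only
      rw [pf_coeffs hT.deg]⟩
  have hx : x ∈ compactCovering P m := compactCovering_subset P ((le_max_right _ _).trans hm) hm1
  rw [mem_thickening_iff]
  exact ⟨_, ⟨(polyEC T, x), ⟨hTc, hx⟩, rfl⟩, hcl m _ hTc f h3 x hx⟩

variable [MeasurableSpace Y] [BorelSpace Y]

/-- **Functionals.** -/
theorem functional {D : ℕ} (hD : 1 ≤ D) (hQ : Q.IsHomogeneous q) (hqD : q ≤ D) (hcut : CutBy D p)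
    {Φ : EC n × P → Y} (hΦ : Continuous Φ) (μ : Measure Y) [SFinite μ] :
    ∃ ε : ℕ → ℝ, (∀ i, 0 < ε i) ∧ ∃ N : Set Y, μ N = 0 ∧ dimH N ≤ dimH (polyVals p Q Φ) ∧
      ∀ (a : ℕ → Fin (n + 1) → ℂ) (f : EC n),
      (∀ r > 0, Curve p Q r a f.1) → (∃ r, NonConst r f.1) → (∃ L : ℕ, ∀ i, L ≤ i → ‖a i‖ ≤ ε i) →
      ∀ x : P, Φ (f, x) ∈ polyVals p Q Φ ∪ N := by
  classical
  obtain ⟨η1, h1, h1'⟩ := exists_thick μ.toFinite (RR p Q Φ) (isCompact_RR hΦ) fun m =>
    (isCompact_RR hΦ m).isClosed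
  obtain ⟨η2, h2, h2'⟩ := exists_thick_dim (RR p Q Φ) (isCompact_RR hΦ)
  obtain ⟨ε, hε, hmain⟩ := core hD hQ hqD hcut hΦ (η := fun m => min (η1 m) (η2 m))
    fun m => lt_min (h1 m) (h2 m)
  have hle1 : limsup (fun m => thickening (min (η1 m) (η2 m)) (RR p Q Φ m)) atTop ⊆
      limsup (fun m => thickening (η1 m) (RR p Q Φ m)) atTop := by
    intro y hy
    rw [mem_limsup_iff_frequently_mem] at hy ⊢
    exact hy.mono fun m hm => thickening_mono (min_le_left _ _) _ hm
  have hle2 : limsup (fun m => thickening (min (η1 m) (η2 m)) (RR p Q Φ m)) atTop ⊆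
      limsup (fun m => thickening (η2 m) (RR p Q Φ m)) atTop := by
    intro y hy
    rw [mem_limsup_iff_frequently_mem] at hy ⊢
    exact hy.mono fun m hm => thickening_mono (min_le_right _ _) _ hm
  have hsub : ⋃ m, RR p Q Φ m ⊆ polyVals p Q Φ := Set.iUnion_subset fun m => RR_subset m
  refine ⟨ε, hε, limsup (fun m => thickening (min (η1 m) (η2 m)) (RR p Q Φ m)) atTop \
    ⋃ m, RR p Q Φ m, ?_, ?_, fun a f hf hnc hL x => ?_⟩
  · have h3 : μ.toFinite (limsup (fun m => thickening (min (η1 m) (η2 m)) (RR p Q Φ m)) atTop \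
        ⋃ m, RR p Q Φ m) = 0 := measure_mono_null (Set.sdiff_subset_sdiff_left hle1) h1'
    exact (absolutelyContinuous_toFinite μ) h3
  · exact (dimH_mono (Set.sdiff_subset.trans hle2)).trans (h2'.trans (dimH_mono hsub))
  · by_cases h3 : Φ (f, x) ∈ ⋃ m, RR p Q Φ m
    · exact Or.inl (hsub h3)
    · right
      refine ⟨?_, h3⟩
      rw [mem_limsup_iff_frequently_mem]
      exact (hmain a f hf hnc hL x).frequently

end main

end Pool.Agent.Q64.LC
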