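import Pool.Agent.Q64.LC.Aff
import Pool.Agent.Results.MP_e97a4d_nt.LacunaryEquivalence

/-!
# Integral points and holomorphic curves with gaps in affine varieties

Let `F₀` be a number field, embedded in `ℂ` by `ε`, let `V` and `V'` be the closed subschemes of the
affine `n`-space over the integers of `F₀` with the ideals `I` and `I'`, and let `V` be cut out over
`ℂ` by polynomials of degree at most `D` in `I`.

The following are equivalent: all nonconstant entire curves in `V` whose power series has infinitely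
many gaps `(α, β)` with `D α < β` lie in `V'`; the same for the holomorphic curves on discs; all
nonconstant polynomial curves in `V` over `ℂ` lie in `V'`; all polynomial sequences of `S`-integral
points of `V` outside of `V'` have finitely many different terms.

The following are equivalent: all entire curves in `V` whose power series has infinitely many
nonzero isolated blocks of exponents lie in `V'`; the same for holomorphic curves on discs; all
lines in `V` over `ℂ` lie in `V'`; all arithmetic progressions of `S`-integral points of `V` outside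
of `V'` have finitely many different terms.

Hence condition (ii) implies that all these holomorphic curves lie in `V'`.
-/

set_option autoImplicit false

namespace Pool.Agent.Results.MP_e97a4d_nt.GapSeriesEquivalence

open MvPolynomial IsDedekindDomain NumberField Pool.Agent.TH143 Pool.Agent.TH143.HE
  Pool.Agent.TH600.LC Pool.Agent.Q64.LC.Af Pool.Agent.Results.MP_e97a4d_nt.LacunaryEquivalence

variable {F₀ : Type} [Field F₀] [NumberField F₀] {n : ℕ}

/-- the embedding of the integers of `F₀` -/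
noncomputable abbrev emb (ε : F₀ →+* ℂ) : 𝓞 F₀ →+* ℂ := ε.comp (algebraMap (𝓞 F₀) F₀)

/-- The complex points of `V` are the zeros of the polynomials of degree at most `D` in `I`. -/
def Cut (D : ℕ) (ε : F₀ →+* ℂ) (I : Ideal (MvPolynomial (Fin n) (𝓞 F₀))) : Prop :=
  ∀ x : Fin n → ℂ, (∀ F ∈ I, F.totalDegree ≤ D → eval₂ (emb ε) x F = 0) → IsPt (emb ε) I x

/-- All nonconstant holomorphic curves on discs in `V(ℂ)`, whose power series has infinitely many
gaps `(α, β)` with `D α < β`, lie in `V'(ℂ)`. -/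
def GapDiscs (D : ℕ) (ε : F₀ →+* ℂ) (I I' : Ideal (MvPolynomial (Fin n) (𝓞 F₀))) : Prop :=
  ∀ (r : ℝ) (a : ℕ → Fin n → ℂ) (f : ℂ → Fin n → ℂ), 0 < r → Series r a f →
    (∀ z : ℂ, ‖z‖ < r → IsPt (emb ε) I (f z)) → (∃ s t : ℂ, ‖s‖ < r ∧ ‖t‖ < r ∧ f s ≠ f t) →
    Gaps D a → ∀ z : ℂ, ‖z‖ < r → IsPt (emb ε) I' (f z)

/-- The same for entire curves. -/
def GapEntire (D : ℕ) (ε : F₀ →+* ℂ) (I I' : Ideal (MvPolynomial (Fin n) (𝓞 F₀))) : Prop :=
  ∀ (a : ℕ → Fin n → ℂ) (f : ℂ → Fin n → ℂ), (∀ r, Series r a f) →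
    (∀ z : ℂ, IsPt (emb ε) I (f z)) → (∃ s t : ℂ, f s ≠ f t) → Gaps D a →
    ∀ z : ℂ, IsPt (emb ε) I' (f z)

/-- All holomorphic curves on discs in `V(ℂ)`, whose power series has infinitely many nonzero
isolated blocks of exponents, lie in `V'(ℂ)`. -/
def BlockDiscs (D : ℕ) (ε : F₀ →+* ℂ) (I I' : Ideal (MvPolynomial (Fin n) (𝓞 F₀))) : Prop :=
  ∀ (r : ℝ) (a : ℕ → Fin n → ℂ) (f : ℂ → Fin n → ℂ), 0 < r → Series r a f →
    (∀ z : ℂ, ‖z‖ < r → IsPt (emb ε) I (f z)) → Blocks D a →
    ∀ z : ℂ, ‖z‖ < r → IsPt (emb ε) I' (f z)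

/-- The same for entire curves. -/
def BlockEntire (D : ℕ) (ε : F₀ →+* ℂ) (I I' : Ideal (MvPolynomial (Fin n) (𝓞 F₀))) : Prop :=
  ∀ (a : ℕ → Fin n → ℂ) (f : ℂ → Fin n → ℂ), (∀ r, Series r a f) →
    (∀ z : ℂ, IsPt (emb ε) I (f z)) → Blocks D a → ∀ z : ℂ, IsPt (emb ε) I' (f z)

/-- All lines in `V(ℂ)` lie in `V'(ℂ)`. -/
def Lines (ε : F₀ →+* ℂ) (I I' : Ideal (MvPolynomial (Fin n) (𝓞 F₀))) : Prop :=
  ∀ x v : Fin n → ℂ, v ≠ 0 → (∀ t : ℂ, IsPt (emb ε) I (x + t • v)) →
    ∀ t : ℂ, IsPt (emb ε) I' (x + t • v)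

/-- Condition (ii) for arithmetic progressions: all arithmetic progressions `u + m v`,
`m = 0, 1, …`, of `S`-integral points of `V` outside of `V'` have only finitely many different
terms. -/
def CondIILin (I I' : Ideal (MvPolynomial (Fin n) (𝓞 F₀))) : Prop :=
  ∀ (F : Type) [Field F] [NumberField F] [Algebra F₀ F] (S : Set (HeightOneSpectrum (𝓞 F))),
    S.Finite → ∀ u v : Fin n → F, (∀ m : ℕ, u + m • v ∈ OffPts F S I I') →
    (Set.range fun m : ℕ => u + m • v).Finite

theorem nsm {L : Type} [Field L] (v : Fin n → L) (m : ℕ) (j : Fin n) :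
    (m • v) j = (m : L) * v j := by
  rw [Pi.smul_apply, nsmul_eq_mul]

theorem degree_map {R A : Type} [CommRing R] [CommRing A] (φ : R →+* A)
    (F : MvPolynomial (Fin n) R) : (map φ F).totalDegree ≤ F.totalDegree := by
  unfold MvPolynomial.totalDegree
  exact Finset.sup_mono (support_map_subset _ _)

theorem isPt_of {ε : F₀ →+* ℂ} {I : Ideal (MvPolynomial (Fin n) (𝓞 F₀))} {D : ℕ}
    (hcut : Cut D ε I) (x : Fin n → ℂ) (h : ∀ F : MvPolynomial (Fin n) ℂ, F.totalDegree ≤ D →
      (∀ y ∈ {y | IsPt (emb ε) I y}, eval y F = 0) → eval x F = 0) :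
    x ∈ {y | IsPt (emb ε) I y} := by
  refine hcut x fun F hF hd => ?_
  rw [← eval_map]
  refine h _ ((degree_map _ _).trans hd) fun y hy => ?_
  rw [eval_map]
  exact hy F hF

theorem gap_of_a1 {ε : F₀ →+* ℂ} {I I' : Ideal (MvPolynomial (Fin n) (𝓞 F₀))} {D : ℕ}
    (hD : 1 ≤ D) (hcut : Cut D ε I) (h : A1CurvesIn (emb ε) I I') : GapDiscs D ε I I' := by
  intro r a f hr hs hf hnc hb z hz G' hG'
  have h1 := vanish_gap hD (isPt_of hcut) (G := map (emb ε) G') (fun T hT hnT t => ?_) hr hs hf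
    hnc hb hz
  · rwa [eval_map] at h1
  · rw [eval_map]
    exact h T hT hnT t G' hG'

theorem a1_of_gap {ε : F₀ →+* ℂ} {I I' : Ideal (MvPolynomial (Fin n) (𝓞 F₀))} {D : ℕ}
    (h : GapEntire D ε I I') : A1CurvesIn (emb ε) I I' := by
  intro T hT hnc z
  have hser : ∀ r : ℝ, Series r (fun i j => (T j).coeff i) (fun z j => (T j).eval z) := by
    intro r z _
    rw [Pi.hasSum]
    intro j
    change HasSum (fun i => (z ^ i • fun j => (T j).coeff i) j) ((T j).eval z)
    have h1 : (T j).eval z = ∑ i ∈ Finset.range ((T j).natDegree + 1),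
        (z ^ i • fun j => (T j).coeff i) j := by
      rw [Polynomial.eval_eq_sum_range]
      exact Finset.sum_congr rfl fun i _ => mul_comm _ _
    rw [h1]
    apply hasSum_sum_of_ne_finset_zero
    intro i hi
    rw [Finset.mem_range, not_lt] at hi
    rw [Pi.smul_apply, Polynomial.coeff_eq_zero_of_natDegree_lt (by omega), smul_zero]
  obtain ⟨u, v, j, huv⟩ := hnc
  refine h _ _ hser hT ⟨u, v, fun h0 => huv (congrFun h0 j)⟩ (fun L => ?_) z
  obtain ⟨m, hm⟩ : ∃ m, ∀ j, (T j).natDegree ≤ m :=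
    ⟨Finset.univ.sup fun j => (T j).natDegree, fun j =>
      Finset.le_sup (f := fun j => (T j).natDegree) (Finset.mem_univ j)⟩
  refine ⟨m, L + D * m + 1, by omega, by omega, fun i hi _ => ?_⟩
  funext j
  exact Polynomial.coeff_eq_zero_of_natDegree_lt (lt_of_le_of_lt (hm j) hi)

theorem block_of_lines {ε : F₀ →+* ℂ} {I I' : Ideal (MvPolynomial (Fin n) (𝓞 F₀))} {D : ℕ}
    (hD : 1 ≤ D) (hcut : Cut D ε I) (h : Lines ε I I') : BlockDiscs D ε I I' := by
  intro r a f hr hs hf hb z hz G' hG'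
  have h1 := vanish hD (isPt_of hcut) (G := map (emb ε) G') (fun x v hv hX t => ?_) hr hs hf hb hz
  · rwa [eval_map] at h1
  · rw [eval_map]
    exact h x v hv hX t G' hG'

theorem lines_of_block {ε : F₀ →+* ℂ} {I I' : Ideal (MvPolynomial (Fin n) (𝓞 F₀))} {D : ℕ}
    (hD : 1 ≤ D) (h : BlockEntire D ε I I') : Lines ε I I' := by
  intro x v hv hX t
  obtain ⟨a, f, hs, hb, hf0, hf⟩ := lac_curve hD (x + t • v) hv
  have h1 := h a f hs (fun z => by
    obtain ⟨s, hs⟩ := hf z
    rw [hs, add_assoc, ← add_smul]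
    exact hX _) hb 0
  rwa [hf0] at h1

theorem lin_of_lines {ε : F₀ →+* ℂ} {I I' : Ideal (MvPolynomial (Fin n) (𝓞 F₀))}
    (h : Lines ε I I') : CondIILin I I' := by
  intro F _ _ _ S hS u v huv
  by_cases hv : v = 0
  · refine (Set.finite_singleton u).subset ?_
    rintro _ ⟨m, rfl⟩
    rw [Set.mem_singleton_iff]
    change u + m • v = u
    rw [hv, smul_zero, add_zero]
  exfalso
  let _ : Algebra F₀ ℂ := ε.toAlgebra
  have halg : Algebra.IsAlgebraic F₀ F := Algebra.IsAlgebraic.tower_top (K := ℚ) F₀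
  let e : F →ₐ[F₀] ℂ := IsAlgClosed.lift
  have he : (e : F →+* ℂ).comp (str F₀ F) = emb ε := by
    ext r
    exact e.commutes _
  have hpt : ∀ (J : Ideal (MvPolynomial (Fin n) (𝓞 F₀))) (y : Fin n → F),
      IsPt (emb ε) J (fun j => e (y j)) ↔ IsPt (str F₀ F) J y := by
    intro J y
    rw [← he]
    exact isPt_map (str F₀ F) (e : F →+* ℂ) (e : F →+* ℂ).injective J y
  have hev : ∀ m : ℕ, (fun j => e ((u + m • v) j)) =
      (fun j => e (u j)) + (m : ℂ) • (fun j => e (v j)) := by
    intro m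
    funext j
    simp [nsmul_eq_mul]
  have hX : ∀ t : ℂ, IsPt (emb ε) I ((fun j => e (u j)) + t • (fun j => e (v j))) := by
    intro t G hG
    have hP : ∀ t : ℂ, (eval₂ (Polynomial.C.comp (emb ε))
        (lnp (fun j => e (u j)) fun j => e (v j)) G).eval t =
        eval₂ (emb ε) ((fun j => e (u j)) + t • (fun j => e (v j))) G := by
      intro t
      rw [ev_eval₂, ev_lnp]
    have hP0 : eval₂ (Polynomial.C.comp (emb ε))
        (lnp (fun j => e (u j)) fun j => e (v j)) G = 0 := by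
      apply Polynomial.eq_zero_of_infinite_isRoot
      refine Set.Infinite.mono (s := Set.range fun m : ℕ => (m : ℂ)) ?_
        (Set.infinite_range_of_injective Nat.cast_injective)
      rintro _ ⟨m, rfl⟩
      change Polynomial.eval _ _ = 0
      rw [hP, ← hev]
      exact (hpt I _).2 (huv m).2.1 G hG
    rw [← hP, hP0, Polynomial.eval_zero]
  have h1 := h (fun j => e (u j)) (fun j => e (v j)) (fun h0 => hv (by
    funext j
    have := congrFun h0 j
    simpa using this)) hX ((0 : ℕ) : ℂ)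
  rw [← hev] at h1
  exact (huv 0).2.2 ((hpt I' _).1 h1)

theorem lines_of_lin {ε : F₀ →+* ℂ} {I I' : Ideal (MvPolynomial (Fin n) (𝓞 F₀))}
    (h : CondIILin I I') : Lines ε I I' := by
  classical
  intro x v hv hX t G' hG'
  by_contra hne
  let _ : Algebra F₀ ℂ := ε.toAlgebra
  have hX' : ∀ G ∈ I, eval₂ (Polynomial.C.comp ((algebraMap F₀ ℂ).comp
      (algebraMap (𝓞 F₀) F₀))) (lnp x v) G = 0 := by
    intro G hG
    apply Polynomial.funext
    intro t
    rw [ev_eval₂, ev_lnp, Polynomial.eval_zero]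
    exact hX t G hG
  have hne' : ∃ G ∈ I', eval₂ (Polynomial.C.comp ((algebraMap F₀ ℂ).comp
      (algebraMap (𝓞 F₀) F₀))) (lnp x v) G ≠ 0 := by
    refine ⟨G', hG', fun h0 => hne ?_⟩
    have h1 := ev_eval₂ ((algebraMap F₀ ℂ).comp (algebraMap (𝓞 F₀) F₀)) (lnp x v) G' t
    rw [h0, ev_lnp, Polynomial.eval_zero] at h1
    exact h1.symm
  obtain ⟨L, _, _, _, x', v', hv', hX1, G1, hG1, hne1⟩ :=
    spec_aff (k := F₀) (E := ℂ) (algebraMap (𝓞 F₀) F₀) hv hX' hne'
  have hchar : CharZero L := charZero_of_injective_algebraMap (algebraMap F₀ L).injective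
  have hfin : FiniteDimensional ℚ L := FiniteDimensional.trans ℚ F₀ L
  have hnf : NumberField L := ⟨⟩
  obtain ⟨s, hs⟩ : ∃ s : ℕ, ∀ m : ℕ, s ≤ m →
      (eval₂ (Polynomial.C.comp (str F₀ L)) (lnp x' v') G1).eval (m : L) ≠ 0 := by
    have h2 : {z : L | (eval₂ (Polynomial.C.comp (str F₀ L)) (lnp x' v') G1).IsRoot z}.Finite :=
      Polynomial.finite_setOfPred_isRoot hne1
    have h3 : {m : ℕ | (eval₂ (Polynomial.C.comp (str F₀ L)) (lnp x' v') G1).eval (m : L) =
        0}.Finite :=
      h2.preimage (f := fun m : ℕ => (m : L)) Nat.cast_injective.injOn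
    obtain ⟨s, hs⟩ := h3.bddAbove
    refine ⟨s + 1, fun m hm h0 => ?_⟩
    have := hs h0
    omega
  let S : Set (HeightOneSpectrum (𝓞 L)) :=
    ⋃ c ∈ (Finset.univ.image x' ∪ Finset.univ.image v' : Finset L),
        HeightOneSpectrum.Support (𝓞 L) c
  have hSfin : S.Finite :=
    (Finset.finite_toSet _).biUnion fun c _ => HeightOneSpectrum.Support.finite _ _
  have hcS : ∀ c ∈ (Finset.univ.image x' ∪ Finset.univ.image v' : Finset L), c ∈ S.integer L := by
    intro c hc v hv
    by_contra hcon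
    rw [not_le] at hcon
    exact hv (Set.mem_biUnion hc hcon)
  have hpt : ∀ m : ℕ, (x' + s • v') + m • v' = x' + ((s + m : ℕ) : L) • v' := by
    intro m
    funext j
    simp only [Pi.add_apply, nsm, Pi.smul_apply, smul_eq_mul]
    push_cast
    ring
  have h2 := h L S hSfin (x' + s • v') v' (fun m => ⟨fun j => ?_, fun G hG => ?_, fun hc => ?_⟩)
  · apply hv'
    obtain ⟨m, m', hmm, heq⟩ : ∃ m m' : ℕ, m ≠ m' ∧
        (x' + s • v') + m • v' = (x' + s • v') + m' • v' := by
      by_contra hno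
      push Not at hno
      refine Set.infinite_range_of_injective (f := fun m : ℕ => (x' + s • v') + m • v') ?_ h2
      intro m m' hmm
      by_contra hne
      exact hno m m' hne hmm
    funext j
    have h3 := congrFun heq j
    simp only [Pi.add_apply, nsm] at h3
    have h4 : ((m : L) - m') * v' j = 0 := by linear_combination h3
    rcases mul_eq_zero.1 h4 with h5 | h5
    · exact absurd (Nat.cast_injective (sub_eq_zero.1 h5)) hmm
    · exact h5
  · rw [hpt]
    refine (S.integer L).add_mem (hcS _ (by simp)) ?_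
    exact (S.integer L).mul_mem ((S.integer L).natCast_mem _) (hcS _ (by simp))
  · rw [hpt, ← ev_lnp, ← ev_eval₂]
    have h3 := hX1 G hG
    change (eval₂ (Polynomial.C.comp ((algebraMap F₀ L).comp (algebraMap (𝓞 F₀) F₀)))
      (lnp x' v') G).eval _ = 0
    rw [h3, Polynomial.eval_zero]
  · have h3 := hc G1 hG1
    rw [hpt, ← ev_lnp, ← ev_eval₂] at h3
    exact hs (s + m) (by omega) h3

theorem result (ε : F₀ →+* ℂ) (I I' : Ideal (MvPolynomial (Fin n) (𝓞 F₀))) {D : ℕ} (hD : 1 ≤ D)
    (hcut : Cut D ε I) :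
    -- gaps
    [GapEntire D ε I I', GapDiscs D ε I I', A1CurvesIn (emb ε) I I', CondIIPoly I I'].TFAE ∧
    -- isolated blocks
    [BlockEntire D ε I I', BlockDiscs D ε I I', Lines ε I I', CondIILin I I'].TFAE ∧
    -- condition (ii)
    (CondII I I' → GapDiscs D ε I I' ∧ BlockDiscs D ε I I') := by
  have h0 := LacunaryEquivalence.result ε I I'
  have h24 : CondIIPoly I I' ↔ A1CurvesIn (emb ε) I I' := h0.1.out 1 2
  have hA : [GapEntire D ε I I', GapDiscs D ε I I', A1CurvesIn (emb ε) I I',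
      CondIIPoly I I'].TFAE := by
    tfae_have 3 → 2 := gap_of_a1 hD hcut
    tfae_have 2 → 1 := by
      intro h a f hs hf hnc hb z
      obtain ⟨s, t, hst⟩ := hnc
      have hpos : 0 < ‖s‖ + ‖t‖ + ‖z‖ + 1 := by positivity
      refine h (‖s‖ + ‖t‖ + ‖z‖ + 1) a f hpos (hs _) (fun z _ => hf z) ⟨s, t, ?_, ?_, hst⟩ hb z ?_
      · have := norm_nonneg t
        have := norm_nonneg z
        linarith
      · have := norm_nonneg s
        have := norm_nonneg z
        linarith
      · have := norm_nonneg s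
        have := norm_nonneg t
        linarith
    tfae_have 1 → 3 := a1_of_gap
    tfae_have 3 ↔ 4 := h24.symm
    tfae_finish
  have hB : [BlockEntire D ε I I', BlockDiscs D ε I I', Lines ε I I', CondIILin I I'].TFAE := by
    tfae_have 3 → 2 := block_of_lines hD hcut
    tfae_have 2 → 1 := fun h a f hs hf hb z =>
      h (‖z‖ + 1) a f (by positivity) (hs _) (fun z _ => hf z) hb z (by linarith)
    tfae_have 1 → 3 := lines_of_block hD
    tfae_have 3 → 4 := lin_of_lines
    tfae_have 4 → 3 := lines_of_lin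
    tfae_finish
  refine ⟨hA, hB, fun h => ⟨?_, ?_⟩⟩
  · apply (hA.out 1 3).2
    intro F _ _ _ S hS x hx _
    refine (h F S hS).subset ?_
    rintro _ ⟨m, rfl⟩
    exact hx m
  · apply (hB.out 1 3).2
    intro F _ _ _ S hS u v huv
    refine (h F S hS).subset ?_
    rintro _ ⟨m, rfl⟩
    exact huv m

end Pool.Agent.Results.MP_e97a4d_nt.GapSeriesEquivalence
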