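import Pool.Agent.Q64.LC.Apx

/-!
Entire curves of slow growth.
-/

set_option autoImplicit false

namespace Pool.Agent.Q64.LC

open MvPolynomial Filter Topology Pool.Agent.TH143.GT Pool.Agent.W602.GT Pool.Agent.W603.GR
open scoped NNReal ENNReal

variable {n : ℕ} {p : Ideal (MvPolynomial (Fin (n + 1)) ℂ)} {Q : MvPolynomial (Fin (n + 1)) ℂ}
  {q : ℕ}

/-- Cauchy's estimate -/
theorem cauchy {a : ℕ → Fin (n + 1) → ℂ} {f : ℂ → Fin (n + 1) → ℂ}
    (hs : ∀ z : ℂ, HasSum (fun i => z ^ i • a i) (f z)) {R C : ℝ} (hR : 0 < R)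
    (hC : ∀ z : ℂ, ‖z‖ = R → ‖f z‖ ≤ C) (i : ℕ) : ‖a i‖ ≤ C / R ^ i := by
  let P : FormalMultilinearSeries ℂ ℂ (Fin (n + 1) → ℂ) := fun i =>
    ContinuousMultilinearMap.mkPiRing ℂ (Fin i) (a i)
  have hP : ∀ i (y : ℂ), P i (fun _ => y) = y ^ i • a i := by
    intro i y
    simp [P]
  have hrad : P.radius = ⊤ := by
    apply FormalMultilinearSeries.radius_eq_top_of_summable_norm
    intro r
    have h1 := (hs (r : ℂ)).summable.norm
    refine h1.congr fun i => ?_
    rw [norm_smul, norm_pow]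
    have h2 : ‖((r : ℝ) : ℂ)‖ = (r : ℝ) := by
      rw [Complex.norm_real, Real.norm_eq_abs]
      exact NNReal.abs_eq r
    rw [h2, mul_comm]
    congr 1
    exact (ContinuousMultilinearMap.norm_mkPiRing (a i)).symm
  have hfp : HasFPowerSeriesOnBall f P 0 ⊤ := by
    refine ⟨le_of_eq hrad.symm, ENNReal.zero_lt_top, fun {y} _ => ?_⟩
    rw [zero_add]
    simp only [hP]
    exact hs y
  have h1 := hfp.factorial_smul (1 : ℂ) i
  rw [hP, one_pow, one_smul, ← iteratedDeriv_eq_iteratedFDeriv] at h1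
  have hd : DiffContOnCl ℂ f (Metric.ball 0 R) := by
    have h2 : DifferentiableOn ℂ f Set.univ := by
      have h3 := hfp.differentiableOn
      rwa [Metric.eball_top] at h3
    exact (differentiableOn_univ.1 h2).diffContOnCl
  have h2 := Complex.norm_iteratedDeriv_le_of_forall_mem_sphere_norm_le i hR hd (fun z hz => by
    rw [mem_sphere_zero_iff_norm] at hz
    exact hC z hz)
  rw [← h1, ← Nat.cast_smul_eq_nsmul ℝ, norm_smul, Real.norm_eq_abs,
    abs_of_nonneg (Nat.cast_nonneg _), mul_div_assoc] at h2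
  exact le_of_mul_le_mul_left h2 (Nat.cast_pos.2 (Nat.factorial_pos i))

/-- **Entire curves of slow growth.** There is a function `Ψ`, growing faster than all polynomials
and depending only on the variety, such that all nonconstant entire curves with `‖f z‖ ≤ Ψ ‖z‖` for
large `z` lie in the closure of the union of the polynomial curves. -/
theorem slow {D : ℕ} (hD : 1 ≤ D) (hQ : Q.IsHomogeneous q) (hqD : q ≤ D) (hcut : CutBy D p) :
    ∃ Ψ : ℝ → ℝ, (∀ k : ℕ, Tendsto (fun r => Ψ r / r ^ k) atTop atTop) ∧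
      ∀ (a : ℕ → Fin (n + 1) → ℂ) (f : ℂ → Fin (n + 1) → ℂ), (∀ r > 0, Curve p Q r a f) →
        (∃ r, NonConst r f) → (∃ R₀ : ℝ, ∀ z : ℂ, R₀ ≤ ‖z‖ → ‖f z‖ ≤ Ψ ‖z‖) →
        ∀ z : ℂ, f z ∈ closure (ratPts p Q) := by
  classical
  obtain ⟨ε, hε, hmain⟩ := approx hD hQ hqD hcut
  -- the running minimum
  let ε' : ℕ → ℝ := fun i => (Finset.range (i + 1)).inf' ⟨0, Finset.mem_range.2 (Nat.succ_pos i)⟩ ε
  have hε' : ∀ i, 0 < ε' i := fun i => (Finset.lt_inf'_iff _).2 fun m _ => hε m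
  have hε'' : ∀ m i, m ≤ i → ε' i ≤ ε m := fun m i hmi =>
    Finset.inf'_le _ (Finset.mem_range.2 (Nat.lt_succ_of_le hmi))
  -- the radii
  let R : ℕ → ℝ := fun k => Nat.rec 1 (fun k x => max x (1 / ε' (k + 1)) + 1) k
  have hRs : ∀ k, R (k + 1) = max (R k) (1 / ε' (k + 1)) + 1 := fun k => rfl
  have hR1 : ∀ k : ℕ, (k : ℝ) + 1 ≤ R k := by
    intro k
    induction k with
    | zero => simp [R]
    | succ k ih =>
      rw [hRs]
      have := le_max_left (R k) (1 / ε' (k + 1))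
      push_cast
      linarith
  have hRm : StrictMono R := by
    apply strictMono_nat_of_lt_succ
    intro k
    rw [hRs]
    have := le_max_left (R k) (1 / ε' (k + 1))
    linarith
  let K : ℝ → ℕ := fun r => @Nat.findGreatest (fun k : ℕ => R k ≤ r) (Classical.decPred _) ⌈r⌉₊
  have hK : ∀ (k : ℕ) (r : ℝ), R k ≤ r → k ≤ K r := by
    intro k r h
    refine @Nat.le_findGreatest k (fun k => R k ≤ r) (Classical.decPred _) _ ?_ h
    have h1 := (hR1 k).trans h
    have h2 : (k : ℝ) ≤ ⌈r⌉₊ := by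
      have := Nat.le_ceil r
      linarith
    exact_mod_cast h2
  have hK' : ∀ (k : ℕ) (r : ℝ), R k ≤ r → r < R (k + 1) → K r = k := by
    intro k r h1 h2
    refine le_antisymm ?_ (hK k r h1)
    by_contra h3
    push Not at h3
    have h4 : R (K r) ≤ r := @Nat.findGreatest_spec k (fun k => R k ≤ r) (Classical.decPred _) ⌈r⌉₊
      (by
        have h5 := (hR1 k).trans h1
        have h6 : (k : ℝ) ≤ ⌈r⌉₊ := by
          have := Nat.le_ceil r
          linarith
        exact_mod_cast h6) h1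
    have h5 := hRm.monotone h3
    linarith
  refine ⟨fun r => r ^ K r, fun k => ?_, fun a f hf hnc hslow z => ?_⟩
  · refine tendsto_atTop_mono' _ ?_ tendsto_id
    filter_upwards [eventually_ge_atTop (R (k + 1)), eventually_ge_atTop (1 : ℝ)] with r h1 h2
    have h3 := hK (k + 1) r h1
    have h4 : 0 < r ^ k := by positivity
    rw [le_div_iff₀ h4]
    calc id r * r ^ k = r ^ (k + 1) := by rw [id, pow_succ, mul_comm]
      _ ≤ r ^ K r := pow_le_pow_right₀ h2 h3
  · obtain ⟨R₀, hR₀⟩ := hslow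
    have hser : ∀ z : ℂ, HasSum (fun i => z ^ i • a i) (f z) := fun z =>
      (hf (‖z‖ + 1) (by positivity)).series z (by linarith)
    -- the coefficients
    have hco : ∀ i : ℕ, 1 ≤ i → R₀ ≤ i → ‖a i‖ ≤ ε' i := by
      intro i hi hi0
      obtain ⟨k, rfl⟩ : ∃ k, i = k + 1 := ⟨i - 1, by omega⟩
      set ρ := max (R k) (1 / ε' (k + 1)) with hρ
      have h1 : R k ≤ ρ := le_max_left _ _
      have h2 : ρ < R (k + 1) := by
        rw [hRs]
        linarith
      have h3 : (k : ℝ) + 1 ≤ ρ := (hR1 k).trans h1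
      have hρ0 : 0 < ρ := by
        have : (0 : ℝ) ≤ k := Nat.cast_nonneg _
        linarith
      have h4 := cauchy hser (R := ρ) (C := ρ ^ k) hρ0 (fun z hz => by
        have h5 := hR₀ z (by
          rw [hz]
          push_cast at hi0
          linarith)
        simp only [hz] at h5
        rwa [hK' k ρ h1 h2] at h5) (k + 1)
      refine h4.trans ?_
      rw [pow_succ, div_mul_eq_div_div, div_self (by positivity)]
      rw [div_le_iff₀ hρ0]
      have h5 : 1 / ε' (k + 1) ≤ ρ := le_max_right _ _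
      rw [div_le_iff₀ (hε' _)] at h5
      linarith
    obtain ⟨r, s, t, hs, ht, hst⟩ := hnc
    have h1 : r ≤ |r| + ‖z‖ + 1 := by
      have := le_abs_self r
      have := norm_nonneg z
      linarith
    have h2 : ‖z‖ < |r| + ‖z‖ + 1 := by
      have := abs_nonneg r
      linarith
    refine hmain _ a f (hf _ (by positivity)) ⟨s, t, hs.trans_le h1, ht.trans_le h1, hst⟩
      (fun L => ?_) z h2
    obtain ⟨L0, hL0⟩ := exists_nat_ge R₀
    refine ⟨max L L0, le_max_left _ _, fun i hi _ => (hco i (by omega) ?_).trans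
      (hε'' _ _ hi.le)⟩
    have h3 : L0 ≤ i := (le_max_right L L0).trans hi.le
    exact hL0.trans (by exact_mod_cast h3)

/-- The growth of `f` is bounded by `Ψ`. -/
def Slow (Ψ : ℝ → ℝ) (f : ℂ → Fin (n + 1) → ℂ) : Prop :=
  ∃ R₀ : ℝ, ∀ z : ℂ, R₀ ≤ ‖z‖ → ‖f z‖ ≤ Ψ ‖z‖

/-- The function grows faster than all powers. -/
def SuperPoly (Ψ : ℝ → ℝ) : Prop := ∀ k : ℕ, Tendsto (fun r => Ψ r / r ^ k) atTop atTop

/-- The entire functions `f j` give a nonconstant entire curve in `X - D`: all forms in `p` vanish on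
it, and `Q` is constant and not zero on it. -/
structure Entire (p : Ideal (MvPolynomial (Fin (n + 1)) ℂ)) (Q : MvPolynomial (Fin (n + 1)) ℂ)
    (f : ℂ → Fin (n + 1) → ℂ) : Prop where
  diff : Differentiable ℂ f
  mem : ∀ z : ℂ, ∀ H ∈ p, IsForm H → eval (f z) H = 0
  off : ∃ c : ℂ, c ≠ 0 ∧ ∀ z : ℂ, eval (f z) Q = c
  nc : ∃ (s t : ℂ) (j k : Fin (n + 1)), f s j * f t k ≠ f s k * f t j

theorem Entire.curve {f : ℂ → Fin (n + 1) → ℂ} (h : Entire p Q f) :
    ∃ a, (∀ r > 0, Curve p Q r a f) ∧ ∃ r, NonConst r f := by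
  refine ⟨fun i => ((i.factorial : ℂ)⁻¹) • iteratedDeriv i f 0, fun r hr => ⟨hr, fun z _ => ?_,
    fun z _ => h.mem z, ?_⟩, ?_⟩
  · have h1 := Complex.hasSum_taylorSeries_of_entire h.diff 0 z
    refine h1.congr_fun ?_
    intro i
    rw [sub_zero, smul_comm]
  · obtain ⟨c, hc, h1⟩ := h.off
    exact ⟨c, hc, fun z _ => h1 z⟩
  · obtain ⟨s, t, j, k, h1⟩ := h.nc
    refine ⟨‖s‖ + ‖t‖ + 1, s, t, ?_, ?_, j, k, h1⟩
    · have := norm_nonneg t
      linarith
    · have := norm_nonneg s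
      linarith

theorem slow_entire {D : ℕ} (hD : 1 ≤ D) (hQ : Q.IsHomogeneous q) (hqD : q ≤ D)
    (hcut : CutBy D p) : ∃ Ψ : ℝ → ℝ, SuperPoly Ψ ∧ ∀ f, Entire p Q f → Slow Ψ f →
      ∀ z : ℂ, f z ∈ closure (ratPts p Q) := by
  obtain ⟨Ψ, h1, h2⟩ := slow hD hQ hqD hcut
  refine ⟨Ψ, h1, fun f hf hs => ?_⟩
  obtain ⟨a, ha, hnc⟩ := hf.curve
  exact h2 a f ha hnc hs

/-- polynomial curves are slow -/
theorem slow_poly {Ψ : ℝ → ℝ} (hΨ : SuperPoly Ψ) (T : Fin (n + 1) → Polynomial ℂ) :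
    Slow Ψ fun z j => (T j).eval z := by
  obtain ⟨m, hm⟩ : ∃ m, ∀ j, (T j).natDegree ≤ m :=
    ⟨Finset.univ.sup fun j => (T j).natDegree, fun j =>
      Finset.le_sup (f := fun j => (T j).natDegree) (Finset.mem_univ j)⟩
  set C : ℝ := ∑ j, ∑ i ∈ Finset.range (m + 1), ‖(T j).coeff i‖ with hC
  have hC0 : 0 ≤ C := Finset.sum_nonneg fun j _ => Finset.sum_nonneg fun i _ => norm_nonneg _
  have h1 := (hΨ (m + 1)).eventually (eventually_ge_atTop 1)
  obtain ⟨R, hR⟩ := (h1.and ((eventually_ge_atTop (1 : ℝ)).and (eventually_ge_atTop C))).exists_forall_of_atTop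
  refine ⟨R, fun z hz => ?_⟩
  obtain ⟨h2, h3, h4⟩ := hR ‖z‖ hz
  have h5 : 0 < ‖z‖ ^ (m + 1) := by positivity
  rw [le_div_iff₀ h5, one_mul] at h2
  refine le_trans ?_ h2
  rw [pi_norm_le_iff_of_nonneg h5.le]
  intro j
  have h6 : ‖(T j).eval z‖ ≤ C * ‖z‖ ^ m := by
    rw [Polynomial.eval_eq_sum_range' (Nat.lt_succ_of_le (hm j))]
    have h7 : ∀ i ∈ Finset.range (m + 1), ‖(T j).coeff i * z ^ i‖ ≤ ‖(T j).coeff i‖ * ‖z‖ ^ m := by
      intro i hi
      rw [Finset.mem_range] at hi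
      rw [norm_mul, norm_pow]
      exact mul_le_mul_of_nonneg_left (pow_le_pow_right₀ h3 (by omega)) (norm_nonneg _)
    refine (norm_sum_le_of_le _ h7).trans ?_
    rw [← Finset.sum_mul]
    refine mul_le_mul_of_nonneg_right ?_ (by positivity)
    exact Finset.single_le_sum (f := fun j => ∑ i ∈ Finset.range (m + 1), ‖(T j).coeff i‖)
      (fun j _ => Finset.sum_nonneg fun i _ => norm_nonneg _) (Finset.mem_univ j)
  refine h6.trans ?_
  rw [pow_succ, mul_comm C]
  exact mul_le_mul_of_nonneg_left h4 (by positivity)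

theorem PolyCurve.entire {T : Fin (n + 1) → Polynomial ℂ} (h : PolyCurve p Q T) :
    Entire p Q fun z j => (T j).eval z := by
  refine ⟨?_, fun z H hH hf => h.mem H hH hf z, h.off, ?_⟩
  · rw [differentiable_pi]
    exact fun j => (T j).differentiable
  · obtain ⟨s, t, j, k, h1⟩ := h.ind
    exact ⟨s, t, j, k, h1⟩

/-- forms vanish on the closure -/
theorem eval_closure {G : MvPolynomial (Fin (n + 1)) ℂ}
    (hG : ∀ T, PolyCurve p Q T → ∀ z : ℂ, eval (fun j => (T j).eval z) G = 0)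
    {x : Fin (n + 1) → ℂ} (hx : x ∈ closure (ratPts p Q)) : eval x G = 0 := by
  have h1 : IsClosed {x : Fin (n + 1) → ℂ | eval x G = 0} :=
    isClosed_eq (MvPolynomial.continuous_eval G) continuous_const
  have h2 : ratPts p Q ⊆ {x : Fin (n + 1) → ℂ | eval x G = 0} := by
    rintro _ ⟨T, hT, u, rfl⟩
    exact hG T hT u
  exact (closure_minimal h2 h1) hx

end Pool.Agent.Q64.LC
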