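import Pool.Agent.Q64.LC.Fun
import Pool.Agent.Q64.LC.Fcl

/-!
Entire curves of slow growth: countably many conditions at once.
-/

set_option autoImplicit false

namespace Pool.Agent.Q64.LC

open MvPolynomial Filter Topology Pool.Agent.TH143.GT Pool.Agent.W602.GT Pool.Agent.W603.GR
  Pool.Agent.W603.PV
open MeasureTheory
open scoped NNReal ENNReal

/-- Homogeneous ideals are cut out by the forms of bounded degree. -/
theorem exists_cut {n : ℕ} {p : Ideal (MvPolynomial (Fin (n + 1)) ℂ)} (hp : IsHomog p) :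
    ∃ D0 : ℕ, ∀ D, D0 ≤ D → CutBy D p := by
  obtain ⟨s, hs⟩ : p.FG := IsNoetherian.noetherian p
  refine ⟨s.sup MvPolynomial.totalDegree, fun D hD x hx H hH _ => ?_⟩
  have h1 : p ≤ RingHom.ker (eval x) := by
    rw [← hs]
    rw [Submodule.span_le]
    intro g hg
    change eval x g = 0
    rw [← sum_homogeneousComponent g, map_sum]
    refine Finset.sum_eq_zero fun d hd => ?_
    rw [Finset.mem_range] at hd
    refine hx _ (hp g ?_ d) d ?_ (homogeneousComponent_isHomogeneous d g)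
    · rw [← hs]
      exact Submodule.subset_span hg
    · have h2 : g.totalDegree ≤ s.sup MvPolynomial.totalDegree := Finset.le_sup hg
      omega
  exact h1 hH

/-- The entire maps with small Taylor coefficients. -/
def SmallC {n : ℕ} (ε : ℕ → ℝ) (p : Ideal (MvPolynomial (Fin (n + 1)) ℂ))
    (Q : MvPolynomial (Fin (n + 1)) ℂ) (f : ℂ → Fin (n + 1) → ℂ) : Prop :=
  ∃ a : ℕ → Fin (n + 1) → ℂ, (∀ r > 0, Curve p Q r a f) ∧ (∃ r, NonConst r f) ∧
    ∃ L : ℕ, ∀ i, L ≤ i → ‖a i‖ ≤ ε i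

/-- The condition `C` holds for all entire curves with coefficients bounded by some sequence. -/
def Good {n : ℕ} (p : Ideal (MvPolynomial (Fin (n + 1)) ℂ))
    (Q : MvPolynomial (Fin (n + 1)) ℂ) (C : (ℂ → Fin (n + 1) → ℂ) → Prop) : Prop :=
  ∃ ε : ℕ → ℝ, (∀ i, 0 < ε i) ∧ ∀ f, SmallC ε p Q f → C f

theorem SmallC.mono {n : ℕ} {ε ε' : ℕ → ℝ} {p : Ideal (MvPolynomial (Fin (n + 1)) ℂ)}
    {Q : MvPolynomial (Fin (n + 1)) ℂ} {f : ℂ → Fin (n + 1) → ℂ} (h : SmallC ε p Q f)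
    (hε : ∃ L : ℕ, ∀ i, L ≤ i → ε i ≤ ε' i) : SmallC ε' p Q f := by
  obtain ⟨a, h1, h2, L, h3⟩ := h
  obtain ⟨L', h4⟩ := hε
  exact ⟨a, h1, h2, max L L', fun i hi => (h3 i (le_trans (le_max_left _ _) hi)).trans
    (h4 i (le_trans (le_max_right _ _) hi))⟩

theorem Good.and {n : ℕ} {p : Ideal (MvPolynomial (Fin (n + 1)) ℂ)}
    {Q : MvPolynomial (Fin (n + 1)) ℂ} {C C' : (ℂ → Fin (n + 1) → ℂ) → Prop}
    (h : Good p Q C) (h' : Good p Q C') : Good p Q fun f => C f ∧ C' f := by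
  obtain ⟨ε, h1, h2⟩ := h
  obtain ⟨ε', h1', h2'⟩ := h'
  refine ⟨fun i => min (ε i) (ε' i), fun i => lt_min (h1 i) (h1' i), fun f hf => ?_⟩
  exact ⟨h2 f (hf.mono ⟨0, fun i _ => min_le_left _ _⟩),
    h2' f (hf.mono ⟨0, fun i _ => min_le_right _ _⟩)⟩

theorem Entire.small {n : ℕ} {ε : ℕ → ℝ} {p : Ideal (MvPolynomial (Fin (n + 1)) ℂ)}
    {Q : MvPolynomial (Fin (n + 1)) ℂ} {f : ℂ → Fin (n + 1) → ℂ} (hf : Entire p Q f)
    {Ψ : ℝ → ℝ} (hg : GrowthLe Ψ f)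
    (hΨ : ∀ a : ℕ → Fin (n + 1) → ℂ, (∀ z : ℂ, HasSum (fun i => z ^ i • a i) (f z)) →
      GrowthLe Ψ f → ∃ L : ℕ, ∀ i, L ≤ i → ‖a i‖ ≤ ε i) : SmallC ε p Q f := by
  obtain ⟨a, h1, h2⟩ := hf.curve
  refine ⟨a, h1, h2, hΨ a (fun z => ?_) hg⟩
  exact (h1 (‖z‖ + 1) (by positivity)).series z (by linarith)

/-- **Countably many conditions.** If each of countably many conditions `C i` on the curves in
`X i - D i` holds for all curves with sufficiently small Taylor coefficients, then there is a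
function `Ψ`, growing faster than all polynomials, such that all the conditions hold for all entire
curves of growth at most `Ψ`. -/
theorem diag {ι : Type} [Countable ι] (n : ι → ℕ)
    (p : ∀ i, Ideal (MvPolynomial (Fin (n i + 1)) ℂ)) (Q : ∀ i, MvPolynomial (Fin (n i + 1)) ℂ)
    (C : ∀ i, (ℂ → Fin (n i + 1) → ℂ) → Prop) (h : ∀ i, Good (p i) (Q i) (C i)) :
    ∃ Ψ : ℝ → ℝ, SuperPoly Ψ ∧ ∀ i f, Entire (p i) (Q i) f → GrowthLe Ψ f → C i f := by
  classical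
  choose ε hε hmain using h
  obtain ⟨e, he⟩ := exists_injective_nat ι
  let ε' : ℕ → ℕ → ℝ := fun l k => if h : ∃ i, e i = l then ε h.choose k else 1
  have hε' : ∀ l k, 0 < ε' l k := by
    intro l k
    simp only [ε']
    split_ifs with h
    · exact hε _ _
    · exact one_pos
  have he' : ∀ i k, ε' (e i) k = ε i k := by
    intro i k
    simp only [ε']
    rw [dif_pos ⟨i, rfl⟩]
    have h1 : (⟨i, rfl⟩ : ∃ j, e j = e i).choose = i := he (⟨i, rfl⟩ : ∃ j, e j = e i).choose_spec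
    rw [h1]
  let δ : ℕ → ℝ := fun k =>
    (Finset.range (k + 1)).inf' ⟨0, Finset.mem_range.2 (Nat.succ_pos k)⟩ fun l => ε' l k
  have hδ : ∀ k, 0 < δ k := fun k => (Finset.lt_inf'_iff _).2 fun l _ => hε' l k
  obtain ⟨Ψ, h1, h2⟩ := exists_growth hδ
  refine ⟨Ψ, h1, fun i f hf hg => hmain i f ?_⟩
  have h3 : SmallC δ (p i) (Q i) f := hf.small hg fun a ha hg' => h2 (n i) a f ha hg'
  refine h3.mono ⟨e i, fun k hk => ?_⟩
  rw [← he' i k]
  exact Finset.inf'_le _ (Finset.mem_range.2 (Nat.lt_succ_of_le hk))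

section

variable {n : ℕ} {p : Ideal (MvPolynomial (Fin (n + 1)) ℂ)} {Q : MvPolynomial (Fin (n + 1)) ℂ}
  {q : ℕ}

/-- The curve lies in the Zariski closure of one polynomial curve. -/
def InPoly (p : Ideal (MvPolynomial (Fin (n + 1)) ℂ)) (Q : MvPolynomial (Fin (n + 1)) ℂ)
    (f : ℂ → Fin (n + 1) → ℂ) : Prop :=
  ∃ T, PolyCurve p Q T ∧ ∀ G : MvPolynomial (Fin (n + 1)) ℂ, IsForm G →
    (∀ z : ℂ, eval (fun j => (T j).eval z) G = 0) → ∀ z : ℂ, eval (f z) G = 0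

theorem good_inPoly (hp : IsHomog p) (hQ : Q.IsHomogeneous q) (hfin : ∀ m, FinCl p Q m) :
    Good p Q (InPoly p Q) := by
  obtain ⟨D0, hD0⟩ := exists_cut hp
  obtain ⟨ε, hε, h⟩ := rigid (D := max 1 (max q D0)) (le_max_left _ _) hQ
    ((le_max_left _ _).trans (le_max_right _ _))
    (hD0 _ ((le_max_right _ _).trans (le_max_right _ _))) hfin
  refine ⟨ε, hε, fun f hf => ?_⟩
  obtain ⟨a, h1, h2, h3⟩ := hf
  exact h a f h1 h2 h3

theorem good_closure (hp : IsHomog p) (hQ : Q.IsHomogeneous q) :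
    Good p Q fun f => ∀ z, f z ∈ closure (ratPts p Q) := by
  obtain ⟨D0, hD0⟩ := exists_cut hp
  obtain ⟨ε, hε, h⟩ := approx (D := max 1 (max q D0)) (le_max_left _ _) hQ
    ((le_max_left _ _).trans (le_max_right _ _))
    (hD0 _ ((le_max_right _ _).trans (le_max_right _ _)))
  let ε' : ℕ → ℝ := fun i => (Finset.range (i + 1)).inf' ⟨0, Finset.mem_range.2 (Nat.succ_pos i)⟩ ε
  have hε' : ∀ i, 0 < ε' i := fun i => (Finset.lt_inf'_iff _).2 fun m _ => hε m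
  have hε'' : ∀ m i, m ≤ i → ε' i ≤ ε m := fun m i hmi =>
    Finset.inf'_le _ (Finset.mem_range.2 (Nat.lt_succ_of_le hmi))
  refine ⟨ε', hε', fun f hf z => ?_⟩
  obtain ⟨a, h1, ⟨r, h2⟩, L, h3⟩ := hf
  have hr : 0 < r := by
    obtain ⟨s, t, hs, -⟩ := h2
    exact (norm_nonneg s).trans_lt hs
  have h4 : NonConst (max r (‖z‖ + 1)) f := by
    obtain ⟨s, t, hs, ht, h5⟩ := h2
    exact ⟨s, t, lt_max_of_lt_left hs, lt_max_of_lt_left ht, h5⟩
  refine h _ a f (h1 _ (lt_max_of_lt_left hr)) h4 (fun L0 => ⟨max L L0, le_max_right _ _, ?_⟩) z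
    (lt_max_of_lt_right (by linarith))
  intro i hi _
  exact (h3 i ((le_max_left _ _).trans hi.le)).trans (hε'' _ _ hi.le)

theorem good_functional {P Y : Type} [TopologicalSpace P] [SigmaCompactSpace P] [MetricSpace Y]
    [MeasurableSpace Y] [BorelSpace Y] (hp : IsHomog p) (hQ : Q.IsHomogeneous q)
    {Φ : EC n × P → Y} (hΦ : Continuous Φ) (μ : Measure Y) [SFinite μ] :
    ∃ N : Set Y, μ N = 0 ∧ dimH N ≤ dimH (polyVals p Q Φ) ∧
      Good p Q fun f => ∀ (hc : Continuous f) (hd : Differentiable ℂ f) (x : P),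
        Φ (⟨⟨f, hc⟩, hd⟩, x) ∈ polyVals p Q Φ ∪ N := by
  obtain ⟨D0, hD0⟩ := exists_cut hp
  obtain ⟨ε, hε, N, h1, h2, h⟩ := functional (D := max 1 (max q D0)) (le_max_left _ _) hQ
    ((le_max_left _ _).trans (le_max_right _ _))
    (hD0 _ ((le_max_right _ _).trans (le_max_right _ _))) hΦ μ
  refine ⟨N, h1, h2, ε, hε, fun f hf hc hd x => ?_⟩
  obtain ⟨a, g1, g2, g3⟩ := hf
  exact h a ⟨⟨f, hc⟩, hd⟩ g1 g2 g3 x

end

end Pool.Agent.Q64.LC
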