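import Pool.Agent.Q64.LC.Ana

/-!
The special sets of lacunary curves.
-/

set_option autoImplicit false

namespace Pool.Agent.Q64.LC

open MvPolynomial Filter Pool.Agent.TH143.GT Pool.Agent.W602.GT Pool.Agent.W603.GR

variable {n : ℕ} {p : Ideal (MvPolynomial (Fin (n + 1)) ℂ)} {Q : MvPolynomial (Fin (n + 1)) ℂ}
  {q : ℕ}

/-- The power series has infinitely many isolated blocks of exponents, each of which is not
proportional to the sum of the preceding terms. -/
def Isolated (D : ℕ) (a : ℕ → Fin (n + 1) → ℂ) : Prop :=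
  ∀ L : ℕ, ∃ β γ, L ≤ γ ∧ IsoBlock D a β γ ∧ Moving a β γ

/-- The power series has infinitely many gaps `(α, β)` with `D α < β`. -/
def Gaps (D : ℕ) (a : ℕ → Fin (n + 1) → ℂ) : Prop :=
  ∀ L : ℕ, ∃ α β, L ≤ β ∧ D * α < β ∧ Gap a α β

/-- The polynomials `T` give a nonconstant polynomial curve in the variety `X - D`, where the
equations of `X` are the forms in `p` and `D` is the hypersurface section `Q = 0`: all forms in `p`
vanish on it, and `Q` has a constant nonzero value on it. -/
structure PolyCurve (p : Ideal (MvPolynomial (Fin (n + 1)) ℂ))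
    (Q : MvPolynomial (Fin (n + 1)) ℂ) (T : Fin (n + 1) → Polynomial ℂ) : Prop where
  mem : ∀ H ∈ p, IsForm H → ∀ z : ℂ, eval (fun j => (T j).eval z) H = 0
  off : ∃ c : ℂ, c ≠ 0 ∧ ∀ z : ℂ, eval (fun j => (T j).eval z) Q = c
  ind : ∃ (s t : ℂ) (j k : Fin (n + 1)),
    (T j).eval s * (T k).eval t ≠ (T k).eval s * (T j).eval t

/-- The curve `f` on the disc `|z| < r` is not constant. -/
def NonConst (r : ℝ) (f : ℂ → Fin (n + 1) → ℂ) : Prop :=
  ∃ s t : ℂ, ‖s‖ < r ∧ ‖t‖ < r ∧ ∃ j k : Fin (n + 1), f s j * f t k ≠ f s k * f t j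

theorem coeffs_of_nonconst {r : ℝ} {a : ℕ → Fin (n + 1) → ℂ} {f : ℂ → Fin (n + 1) → ℂ}
    (hs : HasSeries r a f) (h : NonConst r f) :
    ∃ (i i' : ℕ) (j k : Fin (n + 1)), a i j * a i' k ≠ a i k * a i' j := by
  by_contra hno
  push Not at hno
  obtain ⟨s, t, hs', ht', j, k, hjk⟩ := h
  apply hjk
  have hS : ∀ z : ℂ, ‖z‖ < r → ∀ j, HasSum (fun i => z ^ i * a i j) (f z j) := by
    intro z hz j
    simpa only [Pi.smul_apply, smul_eq_mul] using (Pi.hasSum.1 (hs z hz)) j
  have h1 : ∀ i', f s j * a i' k = f s k * a i' j := by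
    intro i'
    have e1 := (hS s hs' j).mul_right (a i' k)
    have e2 := (hS s hs' k).mul_right (a i' j)
    have e3 : (fun i => s ^ i * a i j * a i' k) = fun i => s ^ i * a i k * a i' j := by
      funext i
      rw [mul_assoc, hno i i' j k, ← mul_assoc]
    rw [e3] at e1
    exact e1.unique e2
  have e1 := (hS t ht' k).mul_left (f s j)
  have e2 := (hS t ht' j).mul_left (f s k)
  have e3 : (fun i => f s j * (t ^ i * a i k)) = fun i => f s k * (t ^ i * a i j) := by
    funext i
    linear_combination (t ^ i) * h1 i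
  rw [e3] at e1
  exact e1.unique e2

/-- the partial sum before a gap -/
theorem polyCurve_of_gap {D : ℕ} (hD : 1 ≤ D) (hQ : Q.IsHomogeneous q) (hqD : q ≤ D)
    (hcut : CutBy D p) {r : ℝ} {a : ℕ → Fin (n + 1) → ℂ} {f : ℂ → Fin (n + 1) → ℂ}
    (hf : Curve p Q r a f) {α β : ℕ} (hI : Gap a α β) (hαβ : D * α < β) {i i' : ℕ}
    {j k : Fin (n + 1)} (hi : i < β) (hi' : i' < β) (hne : a i j * a i' k ≠ a i k * a i' j) :
    PolyCurve p Q (pp a (Finset.range (α + 1))) := by
  obtain ⟨c, hc0, hc⟩ := hf.relQ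
  have hT : ∀ z, (fun j => (pp a (Finset.range (α + 1)) j).eval z) =
      part a (Finset.range (α + 1)) z := fun z => funext fun j => eval_pp _ _ _ _
  have hc' : ∀ (j : Fin (n + 1)) (i : ℕ), i < β →
      (pp a (Finset.range (α + 1)) j).coeff i = a i j := by
    intro j i hi
    rw [coeff_pp]
    split_ifs with h
    · rfl
    · rw [hI i (by rw [Finset.mem_range] at h; omega) hi]
      rfl
  refine ⟨fun H hH hHf z => ?_, ⟨c, hc0, fun z => ?_⟩, ?_⟩
  · rw [hT]
    refine hcut _ (fun F hF d hd hFd => ?_) H hH hHf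
    exact gap_eval hD hI hαβ hd hFd (c := 0) (by rw [map_zero]; exact hf.rel hF ⟨d, hFd⟩) z
  · rw [hT]
    exact gap_eval hD hI hαβ hqD hQ hc z
  · by_contra hno
    push Not at hno
    apply hne
    have h1 : ∀ t : ℂ, a i j * (pp a (Finset.range (α + 1)) k).eval t =
        a i k * (pp a (Finset.range (α + 1)) j).eval t := by
      intro t
      have h2 : pp a (Finset.range (α + 1)) j *
          Polynomial.C ((pp a (Finset.range (α + 1)) k).eval t) =
          pp a (Finset.range (α + 1)) k *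
            Polynomial.C ((pp a (Finset.range (α + 1)) j).eval t) := by
        apply Polynomial.funext
        intro s
        rw [Polynomial.eval_mul, Polynomial.eval_mul, Polynomial.eval_C, Polynomial.eval_C]
        exact hno s t j k
      have h3 := congrArg (fun P => Polynomial.coeff P i) h2
      simp only [Polynomial.coeff_mul_C] at h3
      rwa [hc' j i hi, hc' k i hi] at h3
    have h2 : Polynomial.C (a i j) * pp a (Finset.range (α + 1)) k =
        Polynomial.C (a i k) * pp a (Finset.range (α + 1)) j := by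
      apply Polynomial.funext
      intro t
      rw [Polynomial.eval_mul, Polynomial.eval_mul, Polynomial.eval_C, Polynomial.eval_C]
      exact h1 t
    have h3 := congrArg (fun P => Polynomial.coeff P i') h2
    simp only [Polynomial.coeff_C_mul] at h3
    rwa [hc' k i' hi', hc' j i' hi'] at h3

/-- **Gap series.** A form which vanishes on all nonconstant polynomial curves vanishes on all
nonconstant curves with infinitely many gaps. -/
theorem vanish_gap {D : ℕ} (hD : 1 ≤ D) (hQ : Q.IsHomogeneous q) (hqD : q ≤ D) (hcut : CutBy D p)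
    {G : MvPolynomial (Fin (n + 1)) ℂ}
    (hG : ∀ T, PolyCurve p Q T → ∀ z : ℂ, eval (fun j => (T j).eval z) G = 0) {r : ℝ}
    {a : ℕ → Fin (n + 1) → ℂ} {f : ℂ → Fin (n + 1) → ℂ} (hf : Curve p Q r a f)
    (hnc : NonConst r f) (hb : Gaps D a) {z : ℂ} (hz : ‖z‖ < r) : eval (f z) G = 0 := by
  classical
  suffices hGA : aeval (ser a) G = 0 by
    have h1 := PS.aeval (ps_ser hf.series) G
    rw [hGA] at h1
    exact h1.zero hz
  obtain ⟨i, i', j, k, hne⟩ := coeffs_of_nonconst hf.series hnc
  ext m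
  rw [map_zero]
  obtain ⟨α, β, hL, hαβ, hgap⟩ := hb (max (max (i + 1) (i' + 1)) (m + 1))
  have h1 := polyCurve_of_gap hD hQ hqD hcut hf hgap hαβ (i := i) (i' := i') (by omega) (by omega)
    hne
  refine trunc_rel (T := pp a (Finset.range (α + 1))) (ε := β) ?_ (hG _ h1) m (by omega)
  intro j i hi
  rw [coeff_pp, ser, PowerSeries.coeff_mk]
  split_ifs with h
  · rfl
  · rw [hgap i (by rw [Finset.mem_range] at h; omega) hi]
    rfl

open Classical in
/-- the coefficients of the gap series through the line -/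
noncomputable def lac (D : ℕ) (x v : Fin (n + 1) → ℂ) (i : ℕ) : Fin (n + 1) → ℂ :=
  if i = 0 then x else if ∃ k : ℕ, i = (D + 1) ^ (k + 1) then ((i.factorial : ℂ)⁻¹) • v else 0

theorem lac_ne {D : ℕ} {x v : Fin (n + 1) → ℂ} {i : ℕ} (h : lac D x v i ≠ 0) :
    i = 0 ∨ ∃ k : ℕ, i = (D + 1) ^ (k + 1) := by
  unfold lac at h
  split_ifs at h with h1 h2
  · exact Or.inl h1
  · exact Or.inr h2
  · exact absurd rfl h

/-- Every line is contained in the union of the lacunary entire curves. -/
theorem lac_curve {D : ℕ} (hD : 1 ≤ D) {x v : Fin (n + 1) → ℂ} (h : Line p Q x v) :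
    ∃ (a : ℕ → Fin (n + 1) → ℂ) (f : ℂ → Fin (n + 1) → ℂ), (∀ r : ℝ, 0 < r → Curve p Q r a f) ∧
      Isolated D a ∧ f 0 = x := by
  classical
  let b : ℕ → ℂ := fun i => if i ≠ 0 ∧ ∃ k : ℕ, i = (D + 1) ^ (k + 1) then
    ((i.factorial : ℂ)⁻¹) else 0
  have hb : ∀ z : ℂ, Summable fun i => z ^ i * b i := by
    intro z
    refine Summable.of_norm_bounded (NormedSpace.expSeries_div_summable z).norm fun i => ?_
    change ‖z ^ i * b i‖ ≤ ‖z ^ i / (i.factorial : ℂ)‖
    rw [norm_mul, norm_div, div_eq_mul_inv, ← norm_inv]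
    refine mul_le_mul_of_nonneg_left ?_ (norm_nonneg _)
    change ‖(if i ≠ 0 ∧ ∃ k : ℕ, i = (D + 1) ^ (k + 1) then ((i.factorial : ℂ)⁻¹) else 0)‖ ≤ _
    split_ifs
    · exact le_rfl
    · rw [norm_zero]; exact norm_nonneg _
  let g : ℂ → ℂ := fun z => ∑' i, z ^ i * b i
  have hg : ∀ z, HasSum (fun i => z ^ i * b i) (g z) := fun z => (hb z).hasSum
  have hb0 : b 0 = 0 := if_neg (fun h => h.1 rfl)
  have hg0 : g 0 = 0 := by
    have h1 := hg 0
    have h2 : (fun i => (0 : ℂ) ^ i * b i) = fun _ => 0 := by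
      funext i
      rcases Nat.eq_zero_or_pos i with rfl | hi
      · rw [hb0, mul_zero]
      · rw [zero_pow hi.ne', zero_mul]
    rw [h2] at h1
    exact h1.unique hasSum_zero
  have hlac : ∀ i, lac D x v i = (if i = 0 then x else 0) + b i • v := by
    intro i
    unfold lac
    by_cases h0 : i = 0
    · subst h0
      rw [if_pos rfl, if_pos rfl, hb0, zero_smul, add_zero]
    · rw [if_neg h0, if_neg h0, zero_add]
      change _ = (if i ≠ 0 ∧ ∃ k : ℕ, i = (D + 1) ^ (k + 1) then ((i.factorial : ℂ)⁻¹) else 0) • v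
      by_cases h1 : ∃ k : ℕ, i = (D + 1) ^ (k + 1)
      · rw [if_pos h1, if_pos ⟨h0, h1⟩]
      · rw [if_neg h1, if_neg (fun h => h1 h.2), zero_smul]
  refine ⟨lac D x v, fun z => x + g z • v, fun r hr => ⟨hr, fun z _ => ?_, fun z _ H hH hf => ?_, ?_⟩,
    ?_, ?_⟩
  · have h1 : HasSum (fun i => z ^ i • ((if i = 0 then x else 0 : Fin (n + 1) → ℂ))) x := by
      have h2 := hasSum_single (f := fun i => z ^ i • ((if i = 0 then x else 0 :
        Fin (n + 1) → ℂ))) 0 (by
          intro i hi
          rw [if_neg hi, smul_zero])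
      rwa [pow_zero, if_pos rfl, one_smul] at h2
    have h3 : HasSum (fun i => (z ^ i * b i) • v) (g z • v) := (hg z).smul_const v
    refine (h1.add h3).congr_fun ?_
    intro i
    rw [hlac, smul_add, smul_smul]
  · exact h.mem H hH hf _
  · obtain ⟨c, hc, h1⟩ := h.off
    exact ⟨c, hc, fun z _ => h1 _⟩
  · intro L
    refine ⟨(D + 1) ^ (L + 1), (D + 1) ^ (L + 1), ?_, ⟨le_rfl, ?_, ?_, ?_⟩, 1, ?_⟩
    · have h1 : L + 1 < (D + 1) ^ (L + 1) := Nat.lt_pow_self (by omega)
      omega
    · have h1 : 0 < (D + 1) ^ (L + 1) := by positivity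
      rw [add_mul]
      omega
    · intro i h1 h2
      by_contra h3
      rcases lac_ne h3 with h4 | ⟨k, h4⟩
      · rw [h4, mul_zero] at h2
        have h1 : 0 < (D + 1) ^ (L + 1) := by positivity
        omega
      · have h5 : k + 1 < L + 1 := by
          by_contra h6
          have := Nat.pow_le_pow_right (show 0 < D + 1 by omega) (show L + 1 ≤ k + 1 by omega)
          omega
        have h6 : (D + 1) ^ (k + 2) ≤ (D + 1) ^ (L + 1) :=
          Nat.pow_le_pow_right (by omega) (by omega)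
        have h7 : (D + 1) ^ (k + 2) = (D + 1) * (D + 1) ^ (k + 1) := by ring
        have h8 : 0 < (D + 1) ^ (k + 1) := by positivity
        rw [h4] at h2
        rw [h7, add_mul] at h6
        omega
    · intro i h1 h2
      by_contra h3
      rcases lac_ne h3 with h4 | ⟨k, h4⟩
      · omega
      · have h5 : L + 1 < k + 1 := by
          by_contra h6
          have := Nat.pow_le_pow_right (show 0 < D + 1 by omega) (show k + 1 ≤ L + 1 by omega)
          omega
        have h6 : (D + 1) ^ (L + 2) ≤ (D + 1) ^ (k + 1) :=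
          Nat.pow_le_pow_right (by omega) (by omega)
        have h7 : (D + 1) ^ (L + 2) = (D + 1) * (D + 1) ^ (L + 1) := by ring
        have h8 : 0 < (D + 1) ^ (L + 1) := by positivity
        rw [h7, add_mul] at h6
        omega
    · obtain ⟨j, k, hjk⟩ := h.ind
      have hN : 0 < (D + 1) ^ (L + 1) := by positivity
      have hS : part (lac D x v) (Finset.Icc ((D + 1) ^ (L + 1)) ((D + 1) ^ (L + 1))) 1 =
          (((((D + 1) ^ (L + 1)).factorial : ℕ) : ℂ)⁻¹) • v := by
        unfold part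
        rw [Finset.Icc_self, Finset.sum_singleton, one_pow, one_smul]
        unfold lac
        rw [if_neg hN.ne', if_pos ⟨L, rfl⟩]
      have hT : ∃ μ : ℂ, part (lac D x v) (Finset.range ((D + 1) ^ (L + 1))) 1 = x + μ • v := by
        refine ⟨∑ i ∈ Finset.range ((D + 1) ^ (L + 1)), b i, ?_⟩
        unfold part
        simp only [one_pow, one_smul, hlac]
        rw [Finset.sum_add_distrib, Finset.sum_ite_eq', if_pos (Finset.mem_range.2 hN),
          Finset.sum_smul]
      obtain ⟨μ, hμ⟩ := hT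
      refine ⟨j, k, ?_⟩
      rw [hS, hμ]
      simp only [Pi.add_apply, Pi.smul_apply, smul_eq_mul]
      have hfac : (((((D + 1) ^ (L + 1)).factorial : ℕ) : ℂ)⁻¹) ≠ 0 :=
        inv_ne_zero (Nat.cast_ne_zero.2 (Nat.factorial_ne_zero _))
      intro h0
      apply hjk
      apply mul_left_cancel₀ hfac
      linear_combination h0
  · change x + g 0 • v = x
    rw [hg0, zero_smul, add_zero]

end Pool.Agent.Q64.LC
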