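import Pool.Agent.Q64.LC.Gro

/-!
Entire curves with small Taylor coefficients: exact polynomial curves near all Taylor polynomials.
-/

set_option autoImplicit false

namespace Pool.Agent.Q64.LC

open MvPolynomial Filter Topology Pool.Agent.TH143.GT Pool.Agent.W602.GT Pool.Agent.W603.GR
open scoped NNReal ENNReal

variable {n : ℕ} {p : Ideal (MvPolynomial (Fin (n + 1)) ℂ)} {Q : MvPolynomial (Fin (n + 1)) ℂ}
  {q : ℕ}

/-- The nonconstant polynomial curves of degree at most `m` in the variety `X - D` with bounded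
coefficients and a minor bounded below. -/
structure Lev (p : Ideal (MvPolynomial (Fin (n + 1)) ℂ)) (Q : MvPolynomial (Fin (n + 1)) ℂ)
    (m : ℕ) (T : Fin (n + 1) → Polynomial ℂ) : Prop where
  poly : PolyCurve p Q T
  deg : ∀ j, (T j).natDegree ≤ m
  bd : ∀ j i, ‖(T j).coeff i‖ ≤ ((m : ℝ) + 1) ^ (m + 1) + 1
  minor : ∃ (i i' : ℕ) (j k : Fin (n + 1)), 1 / (2 * ((m : ℝ) + 1)) ≤
    ‖(T j).coeff i * (T k).coeff i' - (T k).coeff i * (T j).coeff i'‖
  offb : 1 / (2 * ((m : ℝ) + 1)) ≤ ‖eval (fun j => (T j).coeff 0) Q‖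

theorem Lev.succ {m : ℕ} {T : Fin (n + 1) → Polynomial ℂ} (h : Lev p Q m T) :
    Lev p Q (m + 1) T := by
  refine ⟨h.poly, fun j => (h.deg j).trans (Nat.le_succ m), fun j i => (h.bd j i).trans ?_, ?_, ?_⟩
  · have h1 : ((m : ℝ) + 1) ^ (m + 1) ≤ (((m + 1 : ℕ) : ℝ) + 1) ^ (m + 1 + 1) := by
      calc ((m : ℝ) + 1) ^ (m + 1) ≤ (((m + 1 : ℕ) : ℝ) + 1) ^ (m + 1) := by
            refine pow_le_pow_left₀ (by positivity) ?_ _
            push_cast
            linarith
        _ ≤ (((m + 1 : ℕ) : ℝ) + 1) ^ (m + 1 + 1) := by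
            refine pow_le_pow_right₀ ?_ (Nat.le_succ _)
            push_cast
            have : (0 : ℝ) ≤ m := Nat.cast_nonneg _
            linarith
    linarith
  · obtain ⟨i, i', j, k, h1⟩ := h.minor
    refine ⟨i, i', j, k, le_trans ?_ h1⟩
    push_cast
    refine one_div_le_one_div_of_le (by positivity) ?_
    linarith
  · refine le_trans ?_ h.offb
    push_cast
    refine one_div_le_one_div_of_le (by positivity) ?_
    linarith

/-- uniform continuity of a polynomial on balls -/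
theorem exists_modulus (G : MvPolynomial (Fin (n + 1)) ℂ) (R : ℝ) {δ : ℝ} (hδ : 0 < δ) :
    ∃ κ : ℝ, 0 < κ ∧ ∀ x y : Fin (n + 1) → ℂ, ‖x‖ ≤ R → ‖y - x‖ ≤ κ →
      ‖eval y G - eval x G‖ ≤ δ := by
  have h1 := (isCompact_closedBall (0 : Fin (n + 1) → ℂ) R).uniformContinuousAt_of_continuousAt
    (fun x => eval x G) (fun x _ => (MvPolynomial.continuous_eval G).continuousAt)
    (Metric.dist_mem_uniformity hδ)
  obtain ⟨κ, hκ, h2⟩ := Metric.mem_uniformity_dist.1 h1
  refine ⟨κ / 2, by positivity, fun x y hx hy => ?_⟩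
  have h3 : dist x y < κ := by
    rw [dist_comm, dist_eq_norm]
    linarith
  have h4 := h2 h3 (by rwa [mem_closedBall_zero_iff])
  rw [← dist_eq_norm, dist_comm]
  exact le_of_lt h4

theorem minor_close {x y x' y' u v u' v' : ℂ} {R κ δ : ℝ} (hR : 0 ≤ R) (hκ : 0 ≤ κ)
    (h1 : ‖x‖ ≤ R) (h2 : ‖y‖ ≤ R) (h3 : ‖x'‖ ≤ R) (h4 : ‖y'‖ ≤ R) (g1 : ‖u - x‖ ≤ κ)
    (g2 : ‖v - y‖ ≤ κ) (g3 : ‖u' - x'‖ ≤ κ) (g4 : ‖v' - y'‖ ≤ κ)
    (hδ : δ ≤ ‖x * y' - y * x'‖) : δ - 2 * κ * (2 * R + κ) ≤ ‖u * v' - v * u'‖ := by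
  have e : u * v' - v * u' = (x * y' - y * x') +
      ((u - x) * v' + x * (v' - y')) - ((v - y) * u' + y * (u' - x')) := by ring
  have hv' : ‖v'‖ ≤ R + κ := by
    calc ‖v'‖ = ‖y' + (v' - y')‖ := by ring_nf
      _ ≤ ‖y'‖ + ‖v' - y'‖ := norm_add_le _ _
      _ ≤ R + κ := add_le_add h4 g4
  have hu' : ‖u'‖ ≤ R + κ := by
    calc ‖u'‖ = ‖x' + (u' - x')‖ := by ring_nf
      _ ≤ ‖x'‖ + ‖u' - x'‖ := norm_add_le _ _
      _ ≤ R + κ := add_le_add h3 g3
  have e1 : ‖(u - x) * v' + x * (v' - y')‖ ≤ κ * (R + κ) + R * κ := by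
    refine (norm_add_le _ _).trans (add_le_add ?_ ?_)
    · rw [norm_mul]
      exact mul_le_mul g1 hv' (norm_nonneg _) hκ
    · rw [norm_mul]
      exact mul_le_mul h1 g4 (norm_nonneg _) hR
  have e2 : ‖(v - y) * u' + y * (u' - x')‖ ≤ κ * (R + κ) + R * κ := by
    refine (norm_add_le _ _).trans (add_le_add ?_ ?_)
    · rw [norm_mul]
      exact mul_le_mul g2 hu' (norm_nonneg _) hκ
    · rw [norm_mul]
      exact mul_le_mul h2 g3 (norm_nonneg _) hR
  have e3 : ‖x * y' - y * x'‖ ≤ ‖u * v' - v * u'‖ + (κ * (R + κ) + R * κ) +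
      (κ * (R + κ) + R * κ) := by
    have h5 : x * y' - y * x' = (u * v' - v * u') - ((u - x) * v' + x * (v' - y')) +
        ((v - y) * u' + y * (u' - x')) := by ring
    calc ‖x * y' - y * x'‖ = _ := congrArg _ h5
      _ ≤ ‖(u * v' - v * u') - ((u - x) * v' + x * (v' - y'))‖ +
          ‖(v - y) * u' + y * (u' - x')‖ := norm_add_le _ _
      _ ≤ ‖u * v' - v * u'‖ + ‖(u - x) * v' + x * (v' - y')‖ +
          ‖(v - y) * u' + y * (u' - x')‖ := by
        gcongr
        exact norm_sub_le _ _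
      _ ≤ _ := by gcongr
  nlinarith

/-- **Exact polynomial curves near all Taylor polynomials.** For all prescribed precisions `η m` there
are bounds `ε i` such that, for every nonconstant entire curve in the variety with Taylor
coefficients of norm at most `ε i` for large `i`, there are polynomial curves of degree at most `m`
in the variety, for all large `m`, whose distance to the curve on the disc of radius `M m` is at
most `η m`. -/
theorem master {D : ℕ} (hD : 1 ≤ D) (hQ : Q.IsHomogeneous q) (hqD : q ≤ D) (hcut : CutBy D p)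
    {η M : ℕ → ℝ} (hη : ∀ m, 0 < η m) (hM : ∀ m, 0 ≤ M m) :
    ∃ ε : ℕ → ℝ, (∀ i, 0 < ε i) ∧ ∀ (a : ℕ → Fin (n + 1) → ℂ) (f : ℂ → Fin (n + 1) → ℂ),
      (∀ r > 0, Curve p Q r a f) → (∃ r, NonConst r f) → (∃ L : ℕ, ∀ i, L ≤ i → ‖a i‖ ≤ ε i) →
      ∃ m0 : ℕ, ∀ m, m0 ≤ m → ∃ T, Lev p Q m T ∧
        (∀ j i, i ≤ m → ‖(T j).coeff i - a i j‖ ≤ η m) ∧
        ∀ z : ℂ, ‖z‖ ≤ M m → dist (f z) (fun j => (T j).eval z) ≤ η m := by
  classical
  -- the precision at the level `m`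
  let R : ℕ → ℝ := fun m => ((m : ℝ) + 1) ^ (m + 1)
  have hR : ∀ m, 0 < R m := fun m => by positivity
  let S : ℕ → ℝ := fun m => ((m : ℝ) + 1) * (M m + 1) ^ m
  have hM1 : ∀ m, 1 ≤ M m + 1 := fun m => by linarith [hM m]
  have hS : ∀ m, 1 ≤ S m := fun m => by
    have h1 : (1 : ℝ) ≤ (m : ℝ) + 1 := by
      have : (0 : ℝ) ≤ m := Nat.cast_nonneg _
      linarith
    exact one_le_mul_of_one_le_of_one_le h1 (one_le_pow₀ (hM1 m))
  choose κQ hκQ hκQ' using fun m : ℕ => exists_modulus Q (R m) (δ := 1 / (2 * ((m : ℝ) + 1)))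
    (by positivity)
  let κ : ℕ → ℝ := fun m => min (min (η m / (2 * S m)) (κQ m))
    (1 / (8 * ((m : ℝ) + 1) * (R m + 1)))
  have hκ : ∀ m, 0 < κ m := fun m => lt_min (lt_min (div_pos (hη m) (by
    have := hS m; linarith)) (hκQ m)) (by have := hR m; positivity)
  choose e he hmain using fun m : ℕ => exists_eps hQ hqD hcut m (hκ m) (R := R m)
    (δ := 1 / ((m : ℝ) + 1)) (by positivity)
  let b : ℕ → ℕ → ℝ := fun i m => min (e m) (η m / (4 * (2 * (M m + 1)) ^ i))
  have hb : ∀ i m, 0 < b i m := fun i m => lt_min (he m) (div_pos (hη m) (by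
    have := hM1 m; positivity))
  let ε : ℕ → ℝ := fun i =>
    (Finset.range (i + 1)).inf' ⟨0, Finset.mem_range.2 (Nat.succ_pos i)⟩ (b i)
  have hε : ∀ i, 0 < ε i := fun i => (Finset.lt_inf'_iff _).2 fun m _ => hb i m
  have hε' : ∀ m i, m ≤ i → ε i ≤ b i m := fun m i hmi =>
    Finset.inf'_le _ (Finset.mem_range.2 (Nat.lt_succ_of_le hmi))
  refine ⟨ε, hε, fun a f hf hnc hsl => ?_⟩
  obtain ⟨L, hL⟩ := hsl
  obtain ⟨r, hncr⟩ := hnc
  have hrpos : 0 < r := by
    obtain ⟨s, t, hs, -⟩ := hncr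
    exact (norm_nonneg s).trans_lt hs
  obtain ⟨i0, i0', j0, k0, hne⟩ := coeffs_of_nonconst (hf r hrpos).series hncr
  obtain ⟨A, B, hA, hB, hAB⟩ := growth hrpos (hf r hrpos).series
  obtain ⟨c, hc0, hc⟩ := (hf r hrpos).relQ
  obtain ⟨L3, hL3⟩ := exists_nat_ge (max (max A B) (max
    (‖a i0 j0 * a i0' k0 - a i0 k0 * a i0' j0‖⁻¹) (‖c‖⁻¹)))
  refine ⟨max L (max L3 (max i0 i0')), fun m hm => ?_⟩
  have hmL : L ≤ m := by omega
  have hm3 : (L3 : ℝ) ≤ m := by
    have : L3 ≤ m := by omega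
    exact_mod_cast this
  have hmA : A ≤ (m : ℝ) + 1 := by
    have := (le_max_left A B).trans ((le_max_left _ _).trans hL3)
    linarith
  have hmB : B ≤ (m : ℝ) + 1 := by
    have := (le_max_right A B).trans ((le_max_left _ _).trans hL3)
    linarith
  have hmμ : ‖a i0 j0 * a i0' k0 - a i0 k0 * a i0' j0‖⁻¹ ≤ (m : ℝ) + 1 := by
    have := (le_max_left (‖a i0 j0 * a i0' k0 - a i0 k0 * a i0' j0‖⁻¹) (‖c‖⁻¹)).trans
      ((le_max_right (max A B) _).trans hL3)
    linarith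
  have hmc : ‖c‖⁻¹ ≤ (m : ℝ) + 1 := by
    have := (le_max_right (‖a i0 j0 * a i0' k0 - a i0 k0 * a i0' j0‖⁻¹) (‖c‖⁻¹)).trans
      ((le_max_right (max A B) _).trans hL3)
    linarith
  have hDm : m ≤ D * m := Nat.le_mul_of_pos_left _ hD
  have g1' : ∀ i : ℕ, i ≤ m → ‖a i‖ ≤ R m := by
    intro i hi
    refine (hAB i).trans ?_
    change _ ≤ ((m : ℝ) + 1) ^ (m + 1)
    rw [pow_succ, mul_comm]
    refine mul_le_mul ?_ hmA (by linarith) (by positivity)
    calc B ^ (i : ℕ) ≤ B ^ m := pow_le_pow_right₀ hB hi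
      _ ≤ ((m : ℝ) + 1) ^ m := pow_le_pow_left₀ (by linarith) hmB m
  have g2 : ∀ i : Fin (D * m + 1), m < (i : ℕ) → ‖a i‖ ≤ e m := fun i hi =>
    (hL i (by omega)).trans ((hε' m i hi.le).trans (min_le_left _ _))
  have g3 : 1 / ((m : ℝ) + 1) ≤ ‖a i0 j0 * a i0' k0 - a i0 k0 * a i0' j0‖ := by
    rw [div_le_iff₀ (by positivity)]
    have h3 : 0 < ‖a i0 j0 * a i0' k0 - a i0 k0 * a i0' j0‖ := norm_pos_iff.2 (sub_ne_zero.2 hne)
    rw [inv_le_iff_one_le_mul₀ h3] at hmμ
    linarith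
  have g4 : ∀ F ∈ p, ∀ d ≤ D, F.IsHomogeneous d → ∀ k ≤ D * m,
      (aeval (pf fun i : Fin (D * m + 1) => a i) F : Polynomial ℂ).coeff k = 0 := by
    intro F hF d hd hFd k hk
    have h3 : aeval (ser a) F = algebraMap ℂ (PowerSeries ℂ) 0 := by
      rw [map_zero]
      exact (hf r hrpos).rel hF ⟨d, hFd⟩
    rw [low_coeff h3 (by omega), map_zero, Polynomial.coeff_zero]
  have g5 : 1 / ((m : ℝ) + 1) ≤ ‖c‖ := by
    rw [div_le_iff₀ (by positivity)]
    have h3 : 0 < ‖c‖ := norm_pos_iff.2 hc0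
    rw [inv_le_iff_one_le_mul₀ h3] at hmc
    linarith
  obtain ⟨T, hT, hTd, hTc⟩ := hmain m (fun i => a i) (fun i hi => g1' i hi) g2
    ⟨⟨i0, by omega⟩, ⟨i0', by omega⟩, j0, k0, g3⟩ g4
    ⟨c, g5, fun k hk => low_coeff hc (by omega)⟩
  have hTc' : ∀ j i, i ≤ m → ‖(T j).coeff i - a i j‖ ≤ κ m := fun j i hi =>
    hTc j ⟨i, by omega⟩
  have hκη : κ m ≤ η m / (2 * S m) := (min_le_left _ _).trans (min_le_left _ _)
  have hκQm : κ m ≤ κQ m := (min_le_left _ _).trans (min_le_right _ _)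
  have hκ2 : κ m ≤ 1 / (8 * ((m : ℝ) + 1) * (R m + 1)) := min_le_right _ _
  have hR1 : 1 ≤ R m := one_le_pow₀ (by have : (0 : ℝ) ≤ m := Nat.cast_nonneg _; linarith)
  have hκη' : κ m ≤ η m := by
    refine hκη.trans (div_le_self (hη m).le ?_)
    have := hS m
    linarith
  have hm0 : (0 : ℝ) ≤ m := Nat.cast_nonneg _
  have hκ1 : κ m ≤ 1 := by
    refine hκ2.trans ?_
    rw [div_le_one (by positivity)]
    nlinarith
  refine ⟨T, ⟨hT, hTd, fun j i => ?_, ⟨i0, i0', j0, k0, ?_⟩, ?_⟩, fun j i hi =>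
    (hTc' j i hi).trans hκη', fun z hz => ?_⟩
  · rcases le_or_gt i m with hi | hi
    · have h3 : (T j).coeff i = a i j + ((T j).coeff i - a i j) := by ring
      rw [h3]
      refine (norm_add_le _ _).trans (add_le_add ?_ ?_)
      · exact (norm_le_pi_norm _ j).trans (g1' i hi)
      · exact (hTc' j i hi).trans hκ1
    · rw [Polynomial.coeff_eq_zero_of_natDegree_lt ((hTd j).trans_lt hi), norm_zero]
      positivity
  · have h3 := minor_close (hR m).le (hκ m).le ((norm_le_pi_norm (a i0) j0).trans (g1' i0 (by omega)))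
      ((norm_le_pi_norm (a i0) k0).trans (g1' i0 (by omega)))
      ((norm_le_pi_norm (a i0') j0).trans (g1' i0' (by omega)))
      ((norm_le_pi_norm (a i0') k0).trans (g1' i0' (by omega)))
      (hTc' j0 i0 (by omega)) (hTc' k0 i0 (by omega)) (hTc' j0 i0' (by omega))
      (hTc' k0 i0' (by omega)) g3
    refine le_trans ?_ h3
    have h4 : 2 * κ m * (2 * R m + κ m) ≤ 1 / (2 * ((m : ℝ) + 1)) := by
      have h5 : 2 * κ m * (2 * R m + κ m) ≤ 2 * κ m * (2 * (R m + 1)) := by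
        refine mul_le_mul_of_nonneg_left ?_ (by have := hκ m; positivity)
        linarith
      refine h5.trans ?_
      have h6 : κ m * (8 * ((m : ℝ) + 1) * (R m + 1)) ≤ 1 := by
        rwa [le_div_iff₀ (by have := hR m; positivity)] at hκ2
      rw [le_div_iff₀ (by positivity)]
      nlinarith
    have h7 : 1 / ((m : ℝ) + 1) = 1 / (2 * ((m : ℝ) + 1)) + 1 / (2 * ((m : ℝ) + 1)) := by
      field_simp
      norm_num
    linarith
  · -- the value of `Q`
    have h3 : ‖eval (fun j => (T j).coeff 0) Q - eval (a 0) Q‖ ≤ 1 / (2 * ((m : ℝ) + 1)) := by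
      apply hκQ' m _ _ (g1' 0 (Nat.zero_le _))
      rw [pi_norm_le_iff_of_nonneg (hκQ m).le]
      intro j
      exact (hTc' j 0 (Nat.zero_le _)).trans hκQm
    have h4 : eval (a 0) Q = c := by
      have h5 := low_coeff hc (M := 1) (k := 0) (by omega)
      rw [Polynomial.coeff_C_zero] at h5
      have h6 := MvPolynomial.comp_aeval_apply (f := pf fun i : Fin 1 => a i)
        (Polynomial.aeval (0 : ℂ)) Q
      rw [Polynomial.coe_aeval_eq_eval, ← Polynomial.coeff_zero_eq_eval_zero, h5,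
        MvPolynomial.aeval_eq_eval] at h6
      rw [h6]
      congr 2
      funext j
      rw [← Polynomial.coeff_zero_eq_eval_zero, coeff_pf _ _ (by omega)]
    rw [h4] at h3
    have h7 : 1 / ((m : ℝ) + 1) = 1 / (2 * ((m : ℝ) + 1)) + 1 / (2 * ((m : ℝ) + 1)) := by
      field_simp
      norm_num
    have h8 : ‖c‖ ≤ ‖eval (fun j => (T j).coeff 0) Q‖ +
        ‖eval (fun j => (T j).coeff 0) Q - c‖ := by
      calc ‖c‖ = ‖eval (fun j => (T j).coeff 0) Q - (eval (fun j => (T j).coeff 0) Q - c)‖ := by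
            congr 1
            ring
        _ ≤ _ := norm_sub_le _ _
    linarith
  · -- the distance on the disc
    have hser : HasSum (fun i => z ^ i • a i) (f z) :=
      (hf (‖z‖ + 1) (by positivity)).series z (by linarith)
    have hM0 : 0 < M m + 1 := by have := hM1 m; linarith
    have hz1 : ‖z‖ ≤ M m + 1 := by linarith
    have htail : dist (f z) (∑ i ∈ Finset.range (m + 1), z ^ i • a i) ≤ η m / 2 := by
      have h3 := (hasSum_nat_add_iff' (m + 1)).2 hser
      rw [dist_eq_norm, ← h3.tsum_eq]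
      have h4 : HasSum (fun i : ℕ => η m / 4 * (1 / 2 : ℝ) ^ i) (η m / 4 * 2) := by
        have h5 := hasSum_geometric_two
        exact h5.mul_left _
      have h5 : ∀ i : ℕ, ‖z ^ (i + (m + 1)) • a (i + (m + 1))‖ ≤ η m / 4 * (1 / 2 : ℝ) ^ i := by
        intro i
        rw [norm_smul, norm_pow]
        have h6 := (hL (i + (m + 1)) (by omega)).trans
          ((hε' m (i + (m + 1)) (by omega)).trans (min_le_right _ _))
        have h7 : ‖z‖ ^ (i + (m + 1)) ≤ (M m + 1) ^ (i + (m + 1)) :=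
          pow_le_pow_left₀ (norm_nonneg _) hz1 _
        calc ‖z‖ ^ (i + (m + 1)) * ‖a (i + (m + 1))‖ ≤ (M m + 1) ^ (i + (m + 1)) *
              (η m / (4 * (2 * (M m + 1)) ^ (i + (m + 1)))) :=
            mul_le_mul h7 h6 (norm_nonneg _) (by positivity)
          _ = η m / 4 * (1 / 2 : ℝ) ^ (i + (m + 1)) := by
            rw [mul_pow, div_pow, one_pow]
            field_simp
          _ ≤ η m / 4 * (1 / 2 : ℝ) ^ i := by
            refine mul_le_mul_of_nonneg_left ?_ (by have := hη m; positivity)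
            exact pow_le_pow_of_le_one (by norm_num) (by norm_num) (by omega)
      have h6 := tsum_of_norm_bounded h4 h5
      refine h6.trans (le_of_eq ?_)
      ring
    have h4 : dist (∑ i ∈ Finset.range (m + 1), z ^ i • a i) (fun j => (T j).eval z) ≤ η m / 2 := by
      rw [dist_pi_le_iff (by have := hη m; positivity)]
      intro j
      rw [dist_eq_norm, Finset.sum_apply]
      have h5 : (T j).eval z = ∑ i ∈ Finset.range (m + 1), (T j).coeff i * z ^ i :=
        Polynomial.eval_eq_sum_range' (Nat.lt_succ_of_le (hTd j)) z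
      rw [h5, ← Finset.sum_sub_distrib]
      have h6 : ∀ i ∈ Finset.range (m + 1), ‖(z ^ i • a i) j - (T j).coeff i * z ^ i‖ ≤
          (M m + 1) ^ m * κ m := by
        intro i hi
        rw [Finset.mem_range] at hi
        have h7 : (z ^ i • a i) j - (T j).coeff i * z ^ i = -(z ^ i * ((T j).coeff i - a i j)) := by
          rw [Pi.smul_apply, smul_eq_mul]
          ring
        rw [h7, norm_neg, norm_mul, norm_pow]
        refine mul_le_mul ?_ (hTc' j i (by omega)) (norm_nonneg _) (by positivity)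
        calc ‖z‖ ^ i ≤ (M m + 1) ^ i := pow_le_pow_left₀ (norm_nonneg _) hz1 i
          _ ≤ (M m + 1) ^ m := pow_le_pow_right₀ (hM1 m) (by omega)
      refine (norm_sum_le_of_le _ h6).trans ?_
      rw [Finset.sum_const, Finset.card_range, nsmul_eq_mul]
      have h9 : ((m + 1 : ℕ) : ℝ) * ((M m + 1) ^ m * κ m) = S m * κ m := by
        change _ = ((m : ℝ) + 1) * (M m + 1) ^ m * κ m
        push_cast
        ring
      rw [h9]
      have hS0 : 0 < S m := by have := hS m; linarith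
      have h10 : S m * κ m ≤ S m * (η m / (2 * S m)) :=
        mul_le_mul_of_nonneg_left hκη hS0.le
      refine h10.trans (le_of_eq ?_)
      have := hS0.ne'
      field_simp
    calc dist (f z) (fun j => (T j).eval z) ≤ _ + _ := dist_triangle _ _ _
      _ ≤ η m / 2 + η m / 2 := add_le_add htail h4
      _ = η m := add_halves _

/-- The norm of `f z` is at most a constant times `Ψ |z|` for large `z`. -/
def GrowthLe (Ψ : ℝ → ℝ) (f : ℂ → Fin (n + 1) → ℂ) : Prop :=
  ∃ C R₀ : ℝ, ∀ z : ℂ, R₀ ≤ ‖z‖ → ‖f z‖ ≤ C * Ψ ‖z‖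

/-- **Growth and coefficients.** For all `ε` there is a function `Ψ`, growing faster than all
polynomials, such that the Taylor coefficients of the entire maps with growth at most `Ψ` are
finally at most `ε i`. -/
theorem exists_growth {ε : ℕ → ℝ} (hε : ∀ i, 0 < ε i) :
    ∃ Ψ : ℝ → ℝ, SuperPoly Ψ ∧ ∀ (n : ℕ) (a : ℕ → Fin (n + 1) → ℂ) (f : ℂ → Fin (n + 1) → ℂ),
      (∀ z : ℂ, HasSum (fun i => z ^ i • a i) (f z)) → GrowthLe Ψ f →
      ∃ L : ℕ, ∀ i, L ≤ i → ‖a i‖ ≤ ε i := by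
  classical
  -- the radii
  let R : ℕ → ℝ := fun k => Nat.rec 1 (fun k x => max x (((k : ℝ) + 1) / ε (k + 1)) + 1) k
  have hRs : ∀ k, R (k + 1) = max (R k) (((k : ℝ) + 1) / ε (k + 1)) + 1 := fun k => rfl
  have hR1 : ∀ k : ℕ, (k : ℝ) + 1 ≤ R k := by
    intro k
    induction k with
    | zero => simp [R]
    | succ k ih =>
      rw [hRs]
      have := le_max_left (R k) (((k : ℝ) + 1) / ε (k + 1))
      push_cast
      linarith
  have hRm : StrictMono R := by
    apply strictMono_nat_of_lt_succ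
    intro k
    rw [hRs]
    have := le_max_left (R k) (((k : ℝ) + 1) / ε (k + 1))
    linarith
  let K : ℝ → ℕ := fun r => @Nat.findGreatest (fun k : ℕ => R k ≤ r) (Classical.decPred _) ⌈r⌉₊
  have hK : ∀ (k : ℕ) (r : ℝ), R k ≤ r → k ≤ K r := by
    intro k r h
    refine @Nat.le_findGreatest k (fun k => R k ≤ r) (Classical.decPred _) _ ?_ h
    have h1 := (hR1 k).trans h
    have h2 : (k : ℝ) ≤ ⌈r⌉₊ := by
      have := Nat.le_ceil r
      linarith
    exact_mod_cast h2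
  have hK' : ∀ (k : ℕ) (r : ℝ), R k ≤ r → r < R (k + 1) → K r = k := by
    intro k r h1 h2
    refine le_antisymm ?_ (hK k r h1)
    by_contra h3
    push Not at h3
    have h4 : R (K r) ≤ r := @Nat.findGreatest_spec k (fun k => R k ≤ r) (Classical.decPred _) ⌈r⌉₊
      (by
        have h5 := (hR1 k).trans h1
        have h6 : (k : ℝ) ≤ ⌈r⌉₊ := by
          have := Nat.le_ceil r
          linarith
        exact_mod_cast h6) h1
    have h5 := hRm.monotone h3
    linarith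
  refine ⟨fun r => r ^ K r, fun k => ?_, fun n a f hser hslow => ?_⟩
  · refine tendsto_atTop_mono' _ ?_ tendsto_id
    filter_upwards [eventually_ge_atTop (R (k + 1)), eventually_ge_atTop (1 : ℝ)] with r h1 h2
    have h3 := hK (k + 1) r h1
    have h4 : 0 < r ^ k := by positivity
    rw [le_div_iff₀ h4]
    calc id r * r ^ k = r ^ (k + 1) := by rw [id, pow_succ, mul_comm]
      _ ≤ r ^ K r := pow_le_pow_right₀ h2 h3
  · obtain ⟨C, R₀, hR₀⟩ := hslow
    obtain ⟨L0, hL0⟩ := exists_nat_ge (max R₀ C)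
    refine ⟨L0 + 1, fun i hi0 => ?_⟩
    obtain ⟨k, rfl⟩ : ∃ k, i = k + 1 := ⟨i - 1, by omega⟩
    have hkL : (L0 : ℝ) ≤ k := by exact_mod_cast (by omega : L0 ≤ k)
    have hkR : R₀ ≤ k := (le_max_left _ _).trans (hL0.trans hkL)
    have hkC : C ≤ k := (le_max_right _ _).trans (hL0.trans hkL)
    set ρ := max (R k) (((k : ℝ) + 1) / ε (k + 1)) with hρ
    have h1 : R k ≤ ρ := le_max_left _ _
    have h2 : ρ < R (k + 1) := by
      rw [hRs]
      linarith
    have h3 : (k : ℝ) + 1 ≤ ρ := (hR1 k).trans h1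
    have hk0 : (0 : ℝ) ≤ k := Nat.cast_nonneg _
    have hρ0 : 0 < ρ := by linarith
    have h4 := cauchy hser (R := ρ) (C := C * ρ ^ k) hρ0 (fun z hz => by
      have h5 := hR₀ z (by
        rw [hz]
        linarith)
      simp only [hz] at h5
      rwa [hK' k ρ h1 h2] at h5) (k + 1)
    refine h4.trans ?_
    have h6 : C * ρ ^ k / ρ ^ (k + 1) = C / ρ := by
      rw [pow_succ]
      field_simp
    rw [h6, div_le_iff₀ hρ0]
    have h5 : ((k : ℝ) + 1) / ε (k + 1) ≤ ρ := le_max_right _ _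
    rw [div_le_iff₀ (hε _)] at h5
    linarith

end Pool.Agent.Q64.LC
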