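import Pool.Agent.Q64.LC.Dsc

/-!
Polynomial curves over number fields with prescribed values.
-/

set_option autoImplicit false

namespace Pool.Agent.Q64.LC

open MvPolynomial Filter Topology Pool.Agent.TH143.GT Pool.Agent.W602.GT Pool.Agent.W603.GR
  Pool.Agent.W603.PV
open Pool.Agent.TH143.HE (nc_iff IsPtP eval₂_map' eval₂_eval eval₂_smul_homog RatCurvesIn
  ratCurvesIn_iff RCur)
open Pool.Agent.TH600.LC (PolySeq forms forms_homog)

/-- The field of the algebraic numbers. -/
noncomputable def Qbar : Subfield ℂ := (algebraicClosure ℚ ℂ).toSubfield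

theorem mem_qbar {x : ℂ} : x ∈ Qbar ↔ IsAlgebraic ℚ x := mem_algebraicClosure_iff

instance : Countable Qbar := by
  have h1 : Set.Countable {x : ℂ | IsAlgebraic ℚ x} := Algebraic.countable ℚ ℂ
  have h2 : (Qbar : Set ℂ) = {x : ℂ | IsAlgebraic ℚ x} := Set.ext fun x => mem_qbar
  rw [← h2] at h1
  exact h1.to_subtype

instance : IsAlgClosed Qbar :=
  (algebraicClosure.isAlgClosure ℚ ℂ).isAlgClosed

variable {K : Type} [Field K] [NumberField K] {N : ℕ}

theorem alg_mem (σ : K →+* ℂ) (a : K) : σ a ∈ Qbar := by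
  rw [mem_qbar]
  have h1 : IsAlgebraic ℚ a := Algebra.IsAlgebraic.isAlgebraic a
  exact h1.algHom σ.toRatAlgHom

/-- the homomorphism to the algebraic numbers -/
noncomputable def toQbar (σ : K →+* ℂ) : K →+* Qbar := σ.codRestrict Qbar (alg_mem σ)

theorem toQbar_comp (σ : K →+* ℂ) : Qbar.subtype.comp (toQbar σ) = σ := rfl

theorem overK_cx (σ : K →+* ℂ) (I : Ideal (MvPolynomial (Fin (N + 1)) K)) :
    OverK Qbar (cx σ I) := by
  refine ⟨Ideal.span {G | ∃ H ∈ I, (∃ d, H.IsHomogeneous d) ∧
    G = MvPolynomial.map (toQbar σ) H}, ?_⟩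
  rw [Ideal.map_span]
  unfold cx
  congr 1
  ext G
  constructor
  · rintro ⟨H, hH, hd, rfl⟩
    refine ⟨_, ⟨H, hH, hd, rfl⟩, ?_⟩
    rw [MvPolynomial.map_map, toQbar_comp]
  · rintro ⟨_, ⟨H, hH, hd, rfl⟩, rfl⟩
    refine ⟨H, hH, hd, ?_⟩
    rw [MvPolynomial.map_map, toQbar_comp]

section Graded

attribute [local instance] MvPolynomial.gradedAlgebra

theorem homog_cx (σ : K →+* ℂ) (I : Ideal (MvPolynomial (Fin (N + 1)) K)) :
    IsHomog (cx σ I) := by
  rw [homog_iff]
  refine Ideal.homogeneous_span _ _ fun x hx => ?_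
  obtain ⟨d, hd⟩ := forms_homog x hx
  exact ⟨d, (mem_homogeneousSubmodule d _).mpr hd⟩

end Graded

/-- finitely many algebraic numbers lie in a number field -/
theorem to_numberField (σ : K →+* ℂ) (T : Fin (N + 1) → Polynomial Qbar) {r : ℕ}
    (v : Fin r → Qbar) :
    ∃ (L : Type) (_ : Field L) (_ : NumberField L) (_ : Algebra K L) (e : L →+* ℂ),
      e.comp (algebraMap K L) = σ ∧ ∃ (S : Fin (N + 1) → Polynomial L) (w : Fin r → L),
        (∀ j, (S j).map e = (T j).map Qbar.subtype) ∧ ∀ i, e (w i) = v i := by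
  classical
  let _ : Algebra K ℂ := σ.toAlgebra
  let S0 : Finset ℂ := (Finset.univ.biUnion fun j : Fin (N + 1) =>
    (Finset.range ((T j).natDegree + 1)).image fun i => ((T j).coeff i : ℂ)) ∪
      Finset.univ.image fun i => (v i : ℂ)
  have hS0 : ∀ x ∈ S0, x ∈ Qbar := by
    intro x hx
    rcases Finset.mem_union.1 hx with h | h
    · obtain ⟨j, -, h⟩ := Finset.mem_biUnion.1 h
      obtain ⟨i, -, rfl⟩ := Finset.mem_image.1 h
      exact ((T j).coeff i).2
    · obtain ⟨i, -, rfl⟩ := Finset.mem_image.1 h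
      exact (v i).2
  let L := IntermediateField.adjoin K (S0 : Set ℂ)
  have hfin : FiniteDimensional K L := by
    apply IntermediateField.finiteDimensional_adjoin
    intro x hx
    have h1 : IsAlgebraic ℚ x := mem_qbar.1 (hS0 x (Finset.mem_coe.1 hx))
    have h2 : IsAlgebraic K x := h1.tower_top K
    exact h2.isIntegral
  have hchar : CharZero L := charZero_of_injective_algebraMap (algebraMap K L).injective
  have hfin' : FiniteDimensional ℚ L := FiniteDimensional.trans ℚ K L
  have hnf : NumberField L := ⟨⟩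
  have hL : ∀ x ∈ S0, x ∈ L := fun x hx => IntermediateField.subset_adjoin K _ (Finset.mem_coe.2 hx)
  have hlift : ∀ j, ∃ P : Polynomial L, P.map (L.val : L →+* ℂ) = (T j).map Qbar.subtype := by
    intro j
    have h2 : (T j).map Qbar.subtype ∈ Polynomial.lifts (L.val : L →+* ℂ) := by
      rw [Polynomial.lifts_iff_coeff_lifts]
      intro i
      rw [Polynomial.coeff_map]
      rcases lt_or_ge i ((T j).natDegree + 1) with hi | hi
      · exact ⟨⟨((T j).coeff i : ℂ), hL _ (Finset.mem_union_left _ (Finset.mem_biUnion.2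
          ⟨j, Finset.mem_univ j, Finset.mem_image.2 ⟨i, Finset.mem_range.2 hi, rfl⟩⟩))⟩, rfl⟩
      · rw [Polynomial.coeff_eq_zero_of_natDegree_lt (by omega), map_zero]
        exact ⟨0, map_zero _⟩
    exact h2
  choose S hS using hlift
  refine ⟨L, inferInstance, hnf, inferInstance, (L.val : L →+* ℂ), rfl, S, fun i => ⟨v i, hL _
    (Finset.mem_union_right _ (Finset.mem_image_of_mem _ (Finset.mem_univ i)))⟩, hS, fun i => rfl⟩

/-- division by the greatest common divisor -/
theorem exists_coprime {L : Type} [Field L] (S : Fin (N + 1) → Polynomial L) (h : ∃ j, S j ≠ 0) :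
    ∃ (g : Polynomial L) (S' a : Fin (N + 1) → Polynomial L), g ≠ 0 ∧ (∀ j, S j = g * S' j) ∧
      ∑ j, a j * S' j = 1 := by
  obtain ⟨j0, hj0⟩ := h
  let J : Ideal (Polynomial L) := Ideal.span (Set.range S)
  let g := Submodule.IsPrincipal.generator J
  have hg : ∀ j, g ∣ S j := fun j => (Submodule.IsPrincipal.mem_iff_generator_dvd J).1
    (Ideal.subset_span ⟨j, rfl⟩)
  choose S' hS' using hg
  have hg0 : g ≠ 0 := by
    intro h0
    apply hj0
    rw [hS' j0, h0, zero_mul]
  obtain ⟨a, ha⟩ := (Ideal.mem_span_range_iff_exists_fun (v := S)).1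
    (Submodule.IsPrincipal.generator_mem J)
  refine ⟨g, S', a, hg0, hS', ?_⟩
  apply mul_left_cancel₀ hg0
  rw [mul_one, Finset.mul_sum]
  refine Eq.trans (Finset.sum_congr rfl fun j _ => ?_) ha
  rw [hS' j]
  ring

/-- A morphism, defined over `L`, from the affine line to the projective variety of `I`. -/
structure MorL {L : Type} [Field L] [Algebra K L] (I : Ideal (MvPolynomial (Fin (N + 1)) K))
    (S : Fin (N + 1) → Polynomial L) : Prop where
  zero : ∀ G ∈ I, (∃ d, G.IsHomogeneous d) →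
    eval₂ (Polynomial.C.comp (algebraMap K L)) S G = 0
  bez : ∃ a : Fin (N + 1) → Polynomial L, ∑ j, a j * S j = 1
  nc : ∃ j l i i', (S j).coeff i * (S l).coeff i' ≠ (S l).coeff i * (S j).coeff i'

theorem MorL.ne {L : Type} [Field L] [Algebra K L] {I : Ideal (MvPolynomial (Fin (N + 1)) K)}
    {S : Fin (N + 1) → Polynomial L} (h : MorL I S) (z : L) : (fun j => (S j).eval z) ≠ 0 := by
  intro h0
  obtain ⟨a, ha⟩ := h.bez
  have h1 := congrArg (Polynomial.eval z) ha
  rw [Polynomial.eval_finsetSum, Polynomial.eval_one] at h1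
  refine zero_ne_one (Eq.trans (Eq.symm (Finset.sum_eq_zero fun j _ => ?_)) h1)
  rw [Polynomial.eval_mul, show (S j).eval z = 0 from congrFun h0 j, mul_zero]

theorem MorL.ne' {L : Type} [Field L] [Algebra K L] {I : Ideal (MvPolynomial (Fin (N + 1)) K)}
    {S : Fin (N + 1) → Polynomial L} (h : MorL I S) (e : L →+* ℂ) (z : ℂ) :
    (fun j => ((S j).map e).eval z) ≠ 0 := by
  intro h0
  obtain ⟨a, ha⟩ := h.bez
  have h1 := congrArg (fun P => Polynomial.eval z (Polynomial.map e P)) ha
  simp only [Polynomial.map_sum, Polynomial.eval_finsetSum, Polynomial.map_one,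
    Polynomial.eval_one, Polynomial.map_mul, Polynomial.eval_mul] at h1
  refine zero_ne_one (Eq.trans (Eq.symm (Finset.sum_eq_zero fun j _ => ?_)) h1)
  rw [show ((S j).map e).eval z = 0 from congrFun h0 j, mul_zero]

/-- **Curves over number fields.** A polynomial curve through finitely many points with algebraic
coordinates gives a curve over a number field through these points. -/
theorem alg_curve (σ : K →+* ℂ) {I : Ideal (MvPolynomial (Fin (N + 1)) K)}
    {T : Fin (N + 1) → Polynomial ℂ} (hT : PolyCurve (cx σ I) 1 T) {r : ℕ}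
    {x : Fin r → Fin (N + 1) → ℂ} (hx0 : ∀ i, x i ≠ 0) (hxa : ∀ i j, IsAlgebraic ℚ (x i j))
    (u c : Fin r → ℂ) (hx : ∀ i, x i = c i • fun j => (T j).eval (u i))
    {G : MvPolynomial (Fin (N + 1)) K} {dG : ℕ} (hGd : G.IsHomogeneous dG)
    (hG : ∃ z : ℂ, eval₂ σ (fun j => (T j).eval z) G ≠ 0) :
    ∃ (L : Type) (_ : Field L) (_ : NumberField L) (_ : Algebra K L) (e : L →+* ℂ)
      (_ : e.comp (algebraMap K L) = σ) (S : Fin (N + 1) → Polynomial L) (w : Fin r → L),
      MorL I S ∧ (∀ i, ∃ c : ℂ, x i = fun j => c * e ((S j).eval (w i))) ∧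
      (∀ i, IsAlgebraic ℚ (u i) → e (w i) = u i) ∧
      eval₂ (Polynomial.C.comp (algebraMap K L)) S G ≠ 0 := by
  classical
  have hsub : ∀ a : Qbar, algebraMap Qbar ℂ a = (a : ℂ) := fun a => rfl
  -- descent to the algebraic numbers
  let xq : Fin r → Fin (N + 1) → Qbar := fun i j => ⟨x i j, mem_qbar.2 (hxa i j)⟩
  have hcomp : ∀ H : MvPolynomial (Fin (N + 1)) K,
      (aeval T (MvPolynomial.map (toQbar σ) H) : Polynomial ℂ) =
        eval₂ (Polynomial.C.comp σ) T H := by
    intro H
    rw [aeval_def, eval₂_map]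
    rfl
  have hzero : ∀ H ∈ I, (∃ d, H.IsHomogeneous d) →
      (aeval T (MvPolynomial.map (toQbar σ) H) : Polynomial ℂ) = 0 := by
    intro H hH hd
    rw [hcomp]
    apply Polynomial.funext
    intro z
    rw [eval₂_eval, Polynomial.eval_zero]
    obtain ⟨d, hd⟩ := hd
    have h1 := hT.mem (MvPolynomial.map σ H) (Ideal.subset_span ⟨H, hH, ⟨d, hd⟩, rfl⟩)
      ⟨d, hd.map σ⟩ z
    rwa [eval_map] at h1
  obtain ⟨T', v, d, hnc, hv, hrel, -, hG', hva⟩ := descend_gen (k := Qbar) (E := ℂ) T
    ((nc_iff T).2 (by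
      obtain ⟨s, t, j, l, h⟩ := hT.ind
      exact ⟨j, l, s, t, h⟩)) xq u c (fun i j => by
      rw [hsub]
      exact congrFun (hx i) j) (Q := 1) (b := 1) one_ne_zero (by rw [map_one, Polynomial.C_1])
    (G := MvPolynomial.map (toQbar σ) G) (by
      rw [hcomp]
      intro h0
      obtain ⟨z, hz⟩ := hG
      apply hz
      rw [← eval₂_eval, h0, Polynomial.eval_zero])
  obtain ⟨L, iF, iN, iA, e, he, S, w, hS, hw⟩ := to_numberField σ T' v
  have hS0 : ∃ j, S j ≠ 0 := by
    by_contra hno
    push Not at hno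
    obtain ⟨j, l, i, i', h⟩ := hnc
    have h1 : ∀ j, T' j = 0 := by
      intro j
      have h2 := hS j
      rw [hno j, Polynomial.map_zero] at h2
      exact Polynomial.map_injective _ Qbar.subtype.injective (by rw [← h2, Polynomial.map_zero])
    apply h
    rw [h1, h1]
  obtain ⟨g, S', a, hg, hSg, hbez⟩ := exists_coprime S hS0
  -- transport of the relations
  have htr : ∀ H : MvPolynomial (Fin (N + 1)) K,
      (eval₂ (Polynomial.C.comp (algebraMap K L)) S H).map e =
        (aeval T' (MvPolynomial.map (toQbar σ) H) : Polynomial Qbar).map Qbar.subtype := by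
    intro H
    rw [eval₂_map', he]
    have h1 : (aeval T' (MvPolynomial.map (toQbar σ) H) : Polynomial Qbar) =
        eval₂ (Polynomial.C.comp (toQbar σ)) T' H := by
      rw [aeval_def, eval₂_map]
      rfl
    rw [h1, eval₂_map', toQbar_comp]
    congr 1
    funext j
    exact hS j
  have hgs : ∀ (H : MvPolynomial (Fin (N + 1)) K) (d : ℕ), H.IsHomogeneous d →
      eval₂ (Polynomial.C.comp (algebraMap K L)) S H =
        g ^ d * eval₂ (Polynomial.C.comp (algebraMap K L)) S' H := by
    intro H d hd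
    have h1 : S = fun j => g * S' j := funext hSg
    conv_lhs => rw [h1]
    exact eval₂_smul_homog _ g S' hd
  have hcS : ∀ j i, e ((S j).coeff i) = ((T' j).coeff i : ℂ) := by
    intro j i
    have h1 := congrArg (fun P => Polynomial.coeff P i) (hS j)
    simp only [Polynomial.coeff_map] at h1
    exact h1
  have hinfL : Infinite L := inferInstance
  have hncS : ∃ j l i i', (S j).coeff i * (S l).coeff i' ≠ (S l).coeff i * (S j).coeff i' := by
    obtain ⟨j, l, i, i', h⟩ := hnc
    refine ⟨j, l, i, i', fun h0 => h ?_⟩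
    have h1 := congrArg e h0
    rw [map_mul, map_mul, hcS, hcS, hcS, hcS] at h1
    exact_mod_cast h1
  refine ⟨L, iF, iN, iA, e, he, S', w, ⟨fun H hH hd => ?_, ⟨a, hbez⟩, ?_⟩, fun i => ?_,
    fun i hi => ?_, fun h0 => ?_⟩
  · obtain ⟨d, hd⟩ := hd
    have h1 : eval₂ (Polynomial.C.comp (algebraMap K L)) S H = 0 := by
      apply Polynomial.map_injective _ e.injective
      rw [htr, hrel _ (hzero H hH ⟨d, hd⟩), Polynomial.map_zero, Polynomial.map_zero]
    rw [hgs H d hd] at h1
    exact (mul_eq_zero.1 h1).resolve_left (pow_ne_zero _ hg)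
  · rw [nc_iff] at hncS ⊢
    obtain ⟨j, l, s, t, h⟩ := hncS
    refine ⟨j, l, s, t, fun h0 => h ?_⟩
    rw [hSg j, hSg l]
    simp only [Polynomial.eval_mul]
    linear_combination (g.eval s * g.eval t) * h0
  · refine ⟨(d i : ℂ) * e (g.eval (w i)), ?_⟩
    funext j
    have h1 : (x i j : ℂ) = (d i : ℂ) * (((T' j).eval (v i) : Qbar) : ℂ) := by
      have h2 := congrArg (fun a : Qbar => (a : ℂ)) (hv i j)
      simpa [xq] using h2
    have h2 : e ((S j).eval (w i)) = (((T' j).eval (v i) : Qbar) : ℂ) := by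
      have h3 := Polynomial.eval_map_apply (f := e) (p := S j) (w i)
      rw [hS j, hw i] at h3
      have h4 := Polynomial.eval_map_apply (f := Qbar.subtype) (p := T' j) (v i)
      rw [← h3]
      exact h4
    rw [h1, ← h2, hSg j, Polynomial.eval_mul, map_mul, mul_assoc]
  · rw [hw i]
    have h1 := hva i ⟨u i, mem_qbar.2 hi⟩ rfl
    rw [h1]
  · apply hG'
    have h1 : (aeval T' (MvPolynomial.map (toQbar σ) G) : Polynomial Qbar).map Qbar.subtype = 0 := by
      rw [← htr, hgs G dG hGd, h0, mul_zero, Polynomial.map_zero]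
    exact Polynomial.map_injective _ Qbar.subtype.injective (by rw [h1, Polynomial.map_zero])

end Pool.Agent.Q64.LC
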