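import Pool.Agent.Q64.LC.Sub

/-!
Morphisms from the affine line with prescribed values at finitely many points.
-/

set_option autoImplicit false

namespace Pool.Agent.Q64.LC

open MvPolynomial Set Pool.Agent.TH143.GT Pool.Agent.W602.GT Pool.Agent.W603.GR Pool.Agent.W603.PV
open Pool.Agent.TH143.EL (Rep rep_iff)
open scoped LinearAlgebra.Projectivization

variable {n : ℕ} {p : Ideal (MvPolynomial (Fin (n + 1)) ℂ)} {Q : MvPolynomial (Fin (n + 1)) ℂ}
  {q : ℕ}

/-- There is a nonconstant morphism from the affine line to `X - D` which maps the points `z i` to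
the points with homogeneous coordinates `x i`. -/
def HasMor (p : Ideal (MvPolynomial (Fin (n + 1)) ℂ)) (Q : MvPolynomial (Fin (n + 1)) ℂ) {r : ℕ}
    (z : Fin r → ℂ) (x : Fin r → Fin (n + 1) → ℂ) : Prop :=
  ∃ T, Mor p Q T ∧ NC T ∧ ∀ i, ∃ c : ℂ, x i = c • fun j => (T j).eval (z i)

/-- The set of all morphisms from the affine line to `X - D`, as maps from the plane to the
projective space, which map the points `z i` to the points with homogeneous coordinates `x i`. -/
def PtMors (p : Ideal (MvPolynomial (Fin (n + 1)) ℂ)) (Q : MvPolynomial (Fin (n + 1)) ℂ) {r : ℕ}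
    (z : Fin r → ℂ) (x : Fin r → Fin (n + 1) → ℂ) : Set (ℂ → ℙ ℂ (Fin (n + 1) → ℂ)) :=
  {φ | ∃ T, Mor p Q T ∧ (∀ t, Rep (φ t) fun j => (T j).eval t) ∧ ∀ i, Rep (φ (z i)) (x i)}

/-- the points of a nonconstant morphism -/
theorem NC.fibre {T : Fin (n + 1) → Polynomial ℂ} (h : Mor p Q T) (hN : NC T) (u0 : ℂ) :
    {u : ℂ | ∀ j k, (T j).eval u * (T k).eval u0 = (T k).eval u * (T j).eval u0}.Finite := by
  by_contra hinf
  obtain ⟨l, hl⟩ := h.ne u0
  have h1 : ∀ j k u, (T j).eval u * (T k).eval u0 = (T k).eval u * (T j).eval u0 := by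
    intro j k u
    have h2 : (T j * Polynomial.C ((T k).eval u0) - T k * Polynomial.C ((T j).eval u0)) = 0 := by
      apply Polynomial.eq_zero_of_infinite_isRoot
      refine Set.Infinite.mono ?_ hinf
      intro v hv
      have h3 := hv j k
      rw [Set.mem_setOf_eq, Polynomial.IsRoot.def]
      simp only [Polynomial.eval_sub, Polynomial.eval_mul, Polynomial.eval_C]
      exact sub_eq_zero.2 h3
    have h3 := congrArg (Polynomial.eval u) h2
    simp only [Polynomial.eval_sub, Polynomial.eval_mul, Polynomial.eval_C,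
      Polynomial.eval_zero] at h3
    exact sub_eq_zero.1 h3
  obtain ⟨s, t, j, k, hst⟩ := hN
  apply hst
  apply mul_left_cancel₀ (mul_ne_zero hl hl)
  linear_combination ((T k).eval t * (T l).eval u0) * h1 j l s -
    ((T j).eval t * (T l).eval u0) * h1 k l s +
    ((T l).eval s * (T j).eval u0) * h1 k l t - ((T l).eval s * (T k).eval u0) * h1 j l t

theorem Mor.smul (hQ : Q.IsHomogeneous q) {T : Fin (n + 1) → Polynomial ℂ} (h : Mor p Q T) {c : ℂ}
    (hc : c ≠ 0) : Mor p Q fun j => Polynomial.C c * T j := by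
  have e : ∀ z, (fun j => (Polynomial.C c * T j).eval z) = fun j => c * (T j).eval z := by
    intro z
    funext j
    rw [Polynomial.eval_mul, Polynomial.eval_C]
  obtain ⟨b, hb, h1⟩ := h.off
  refine ⟨fun H hH ⟨d, hd⟩ z => ?_, ⟨c ^ q * b, mul_ne_zero (pow_ne_zero _ hc) hb, fun z => ?_⟩,
    fun z => ?_⟩
  · rw [e, eval_mul_form hd, h.mem H hH ⟨d, hd⟩, mul_zero]
  · rw [e, eval_mul_form hQ, h1]
  · obtain ⟨j, hj⟩ := h.ne z
    refine ⟨j, ?_⟩
    rw [Polynomial.eval_mul, Polynomial.eval_C]
    exact mul_ne_zero hc hj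

/-- the map of a morphism -/
noncomputable def morMap {T : Fin (n + 1) → Polynomial ℂ} (h : Mor p Q T) (t : ℂ) :
    ℙ ℂ (Fin (n + 1) → ℂ) :=
  Projectivization.mk ℂ (fun j => (T j).eval t) fun h0 => by
    obtain ⟨j, hj⟩ := h.ne t
    exact hj (congrFun h0 j)

theorem rep_morMap {T : Fin (n + 1) → Polynomial ℂ} (h : Mor p Q T) (t : ℂ) :
    Rep (morMap h t) fun j => (T j).eval t := ⟨_, rfl⟩

theorem rep_morMap' {T : Fin (n + 1) → Polynomial ℂ} (h : Mor p Q T) {t : ℂ}
    {x : Fin (n + 1) → ℂ} (hx : x ≠ 0) (h1 : ∃ c : ℂ, x = c • fun j => (T j).eval t) :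
    Rep (morMap h t) x := by
  obtain ⟨c, hc⟩ := h1
  refine (rep_iff (rep_morMap h t)).2 ⟨hx, fun j k => ?_⟩
  rw [hc]
  simp only [Pi.smul_apply, smul_eq_mul]
  ring

/-- **Morphisms with prescribed values.** There are nonconstant morphisms from the affine line with
given values at finitely many points if and only if there are infinitely many morphisms. -/
theorem ptMors_finite_iff {r : ℕ} (z : Fin (r + 1) → ℂ) {x : Fin (r + 1) → Fin (n + 1) → ℂ}
    (hx : ∀ i, x i ≠ 0) : (PtMors p Q z x).Finite ↔ ¬ HasMor p Q z x := by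
  classical
  constructor
  · rintro hfin ⟨T, hT, hN, hTx⟩
    obtain ⟨w, hw⟩ : ∃ w : ℂ, w ∉ Finset.univ.image z := Infinite.exists_notMem_finset _
    let P : Polynomial ℂ := ∏ i, (Polynomial.X - Polynomial.C (z i))
    have hPw : P.eval w ≠ 0 := by
      rw [Polynomial.eval_prod, Finset.prod_ne_zero_iff]
      intro i _
      rw [Polynomial.eval_sub, Polynomial.eval_X, Polynomial.eval_C, sub_ne_zero]
      rintro rfl
      exact hw (Finset.mem_image_of_mem _ (Finset.mem_univ i))
    have hPz : ∀ i, P.eval (z i) = 0 := by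
      intro i
      rw [Polynomial.eval_prod]
      exact Finset.prod_eq_zero (Finset.mem_univ i) (by simp)
    let A : ℕ → Polynomial ℂ := fun m => Polynomial.X + Polynomial.C (m : ℂ) * P
    have hM : ∀ m, Mor p Q fun j => (T j).comp (A m) := fun m => hT.comp _
    have hmem : ∀ m, morMap (hM m) ∈ PtMors p Q z x := by
      intro m
      refine ⟨_, hM m, rep_morMap (hM m), fun i => rep_morMap' _ (hx i) ?_⟩
      obtain ⟨c, hc⟩ := hTx i
      refine ⟨c, ?_⟩
      rw [hc]
      congr 1
      funext j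
      rw [Polynomial.eval_comp]
      simp [A, hPz]
    have hinf : (Set.range fun m : ℕ => morMap (hM m) w).Finite :=
      (hfin.image fun φ => φ w).subset (by
        rintro _ ⟨m, rfl⟩
        exact ⟨_, hmem m, rfl⟩)
    have : Finite (Set.range fun m : ℕ => morMap (hM m) w) := hinf
    obtain ⟨y, hy⟩ := Finite.exists_infinite_fiber
      (Set.rangeFactorization fun m : ℕ => morMap (hM m) w)
    obtain ⟨m0, hm0⟩ : ∃ m0 : ℕ, m0 ∈ (Set.rangeFactorization fun m : ℕ => morMap (hM m) w) ⁻¹' {y} := by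
      obtain ⟨m0⟩ := (inferInstance : Nonempty
        ((Set.rangeFactorization fun m : ℕ => morMap (hM m) w) ⁻¹' {y}))
      exact ⟨_, m0.2⟩
    have h1 := NC.fibre hT hN ((A m0).eval w)
    have h2 : Function.Injective fun m : ℕ => (A m).eval w := by
      intro m m' h3
      simp only [A, Polynomial.eval_add, Polynomial.eval_X, Polynomial.eval_mul,
        Polynomial.eval_C, add_right_inj] at h3
      exact_mod_cast mul_right_cancel₀ hPw h3
    have h4 : Set.Infinite ((Set.rangeFactorization fun m : ℕ => morMap (hM m) w) ⁻¹' {y}) :=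
      Set.infinite_coe_iff.1 hy
    refine h4.image (f := fun m : ℕ => (A m).eval w) h2.injOn (h1.subset ?_)
    rintro _ ⟨m, hm, rfl⟩ j k
    have h5 : morMap (hM m) w = morMap (hM m0) w := by
      have h6 : (Set.rangeFactorization fun m : ℕ => morMap (hM m) w) m = y := hm
      have h7 : (Set.rangeFactorization fun m : ℕ => morMap (hM m) w) m0 = y := hm0
      exact congrArg Subtype.val (h6.trans h7.symm)
    have h6 := rep_morMap (hM m) w
    have h7 := rep_morMap (hM m0) w
    rw [← h5] at h7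
    have h8 := ((rep_iff h6).1 h7).2 j k
    simpa only [Polynomial.eval_comp] using h8
  · intro h
    have h1 : ∀ φ ∈ PtMors p Q z x, ∀ ψ ∈ PtMors p Q z x, φ = ψ := by
      have h2 : ∀ φ ∈ PtMors p Q z x, ∀ t, φ t = φ (z 0) := by
        rintro φ ⟨T, hT, hφ, hz⟩ t
        have hN : ¬ NC T := by
          intro hN
          refine h ⟨T, hT, hN, fun i => ?_⟩
          have h3 := ((rep_iff (hφ (z i))).1 (hz i)).2
          obtain ⟨l, hl⟩ := hT.ne (z i)
          refine ⟨x i l / (T l).eval (z i), ?_⟩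
          funext j
          simp only [Pi.smul_apply, smul_eq_mul]
          rw [div_mul_eq_mul_div, eq_div_iff hl]
          have h4 := h3 l j
          linear_combination h4
        have h3 : (fun j => (T j).eval t) = fun j => (T j).eval (z 0) := by
          funext j
          rw [hT.const hN j, Polynomial.eval_C, Polynomial.eval_C]
        have h4 := hφ t
        rw [h3] at h4
        exact Pool.Agent.TH143.EL.rep_eq h4 (hφ (z 0))
      intro φ hφ ψ hψ
      funext t
      rw [h2 φ hφ, h2 ψ hψ]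
      obtain ⟨-, -, -, h3⟩ := hφ
      obtain ⟨-, -, -, h4⟩ := hψ
      exact Pool.Agent.TH143.EL.rep_eq (h3 0) (h4 0)
    exact Set.Subsingleton.finite fun φ hφ ψ hψ => h1 φ hφ ψ hψ

end Pool.Agent.Q64.LC
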