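import Pool.Agent.Q64.LC.Nfd
import Pool.Agent.Results.MP_f82ddf_nt.LacunaryLang

/-!
# Lang's conjecture for entire curves of slow growth

There is one function `Ψ`, growing faster than all polynomials, with the following properties for
all number fields `K`, all embeddings `σ : K → ℂ`, all `N` and all projective varieties
`X, Z ⊂ ℙ ^ N` over `K`, given by the forms in the ideals `I` and `I'`. A slow curve in `X` is a
nonconstant entire curve in `X` with entire homogeneous coordinates `f` such that
`‖f z‖ ≤ C * Ψ ‖z‖` for large `z`.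

(A) The following are equivalent: all slow curves in `X` lie in `Z`; the points with algebraic
coordinates on the slow curves in `X` lie in `Z`; all rational curves in `X` lie in `Z`; for all
finite extensions `L` of `K`, all polynomial sequences of points of `X(L)` outside of `Z` have
finitely many different terms; the same for all P-recursive sequences. In particular, if `X(L)`
without the points of `Z` is finite for all `L`, then all slow curves in `X` lie in `Z`.

(B) Finitely many points with algebraic coordinates on a slow curve in `X` are the first terms of a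
polynomial sequence of points of `X(L)` with infinitely many different terms, for a finite extension
`L` of `K`.

(C) If moreover the parameters of these points are algebraic, then there is a nonconstant morphism
from the affine line to `X`, defined over a finite extension of `K`, with the same values at these
parameters.
-/

set_option autoImplicit false

namespace Pool.Agent.Q64.LC.Slw

open MvPolynomial Pool.Agent.TH143 Pool.Agent.TH143.HE Pool.Agent.TH600.LC Pool.Agent.Q64.LC
open Pool.Agent.Results.MP_f82ddf_nt.LacunaryLang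
open scoped LinearAlgebra.Projectivization

/-- The entire functions `f j` are homogeneous coordinates of a nonconstant entire curve in the
projective variety given by the forms in `I`. -/
structure EntireIn {K : Type} [Field K] {N : ℕ} (σ : K →+* ℂ)
    (I : Ideal (MvPolynomial (Fin (N + 1)) K)) (f : ℂ → Fin (N + 1) → ℂ) : Prop where
  diff : Differentiable ℂ f
  mem : ∀ z : ℂ, IsPtP σ I (f z)
  nc : ∃ (s t : ℂ) (j k : Fin (N + 1)), f s j * f t k ≠ f s k * f t j

/-- The vector `x` gives a point of the projective space with algebraic coordinates. -/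
def AlgPt {N : ℕ} (x : Fin (N + 1) → ℂ) : Prop :=
  x ≠ 0 ∧ ∃ c : ℂ, c ≠ 0 ∧ ∀ j, IsAlgebraic ℚ (c * x j)

/-- All nonconstant entire curves of growth at most `Ψ` in the variety of `I` lie in the variety of
`I'`. -/
def SlowIn (Ψ : ℝ → ℝ) {K : Type} [Field K] {N : ℕ} (σ : K →+* ℂ)
    (I I' : Ideal (MvPolynomial (Fin (N + 1)) K)) : Prop :=
  ∀ f, EntireIn σ I f → GrowthLe Ψ f → ∀ z : ℂ, IsPtP σ I' (f z)

/-- The points with algebraic coordinates on the nonconstant entire curves of growth at most `Ψ` in
the variety of `I` lie in the variety of `I'`. -/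
def SlowAlgIn (Ψ : ℝ → ℝ) {K : Type} [Field K] {N : ℕ} (σ : K →+* ℂ)
    (I I' : Ideal (MvPolynomial (Fin (N + 1)) K)) : Prop :=
  ∀ f, EntireIn σ I f → GrowthLe Ψ f → ∀ z : ℂ, AlgPt (f z) → IsPtP σ I' (f z)

section

variable {K : Type} [Field K] [NumberField K] {N : ℕ} {σ : K →+* ℂ}
  {I I' : Ideal (MvPolynomial (Fin (N + 1)) K)}

theorem EntireIn.entire {f : ℂ → Fin (N + 1) → ℂ} (h : EntireIn σ I f) : Entire (cx σ I) 1 f :=
  ⟨h.diff, fun z _ hH _ => isPtP_cx (h.mem z) hH, ⟨1, one_ne_zero, fun z => by rw [map_one]⟩,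
    h.nc⟩

theorem polyCurve_of {T : Fin (N + 1) → Polynomial ℂ}
    (h : ∀ u : ℂ, IsPtP σ I fun j => (T j).eval u)
    (hnc : ∃ j k u v, (T j).eval u * (T k).eval v ≠ (T k).eval u * (T j).eval v) :
    PolyCurve (cx σ I) 1 T := by
  obtain ⟨j, k, u, v, h1⟩ := hnc
  exact ⟨fun H hH _ z => isPtP_cx (h z) hH, ⟨1, one_ne_zero, fun z => by rw [map_one]⟩,
    u, v, j, k, h1⟩

/-- interpolation at the first natural numbers -/
theorem exists_interp {L : Type} [Field L] [CharZero L] {r : ℕ} (w : Fin r → L) :
    ∃ v : Polynomial L, (∀ i : Fin r, v.eval ((i : ℕ) : L) = w i) ∧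
      ∀ a, v ≠ Polynomial.C a := by
  classical
  let nodes : Fin r → L := fun i => ((i : ℕ) : L)
  have hinj : Set.InjOn nodes (Finset.univ : Finset (Fin r)) := by
    intro i _ j _ hij
    exact Fin.ext (Nat.cast_injective hij)
  let v0 : Polynomial L := Lagrange.interpolate Finset.univ nodes w
  let P : Polynomial L := Polynomial.X * ∏ i : Fin r, (Polynomial.X - Polynomial.C (nodes i))
  have hv0 : ∀ i : Fin r, v0.eval ((i : ℕ) : L) = w i := fun i =>
    Lagrange.eval_interpolate_at_node w hinj (Finset.mem_univ i)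
  have hP : ∀ i : Fin r, P.eval ((i : ℕ) : L) = 0 := by
    intro i
    simp only [P]
    rw [Polynomial.eval_mul, Polynomial.eval_prod, Finset.prod_eq_zero (Finset.mem_univ i),
      mul_zero]
    simp [nodes]
  have hP0 : P ≠ 0 := by
    refine mul_ne_zero Polynomial.X_ne_zero (Finset.prod_ne_zero_iff.2 fun i _ => ?_)
    exact Polynomial.X_sub_C_ne_zero _
  by_cases h1 : ∀ a, v0 + P ≠ Polynomial.C a
  · exact ⟨v0 + P, fun i => by rw [Polynomial.eval_add, hv0, hP, add_zero], h1⟩
  · refine ⟨v0 + P + P, fun i => by rw [Polynomial.eval_add, Polynomial.eval_add, hv0, hP,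
      add_zero, add_zero], fun b hb => ?_⟩
    push Not at h1
    obtain ⟨a, ha⟩ := h1
    apply hP0
    have h2 : P = Polynomial.C (b - a) := by
      rw [Polynomial.C_sub, ← hb, ha]
      ring
    have h3 : P.eval 0 = 0 := by
      simp only [P]
      rw [Polynomial.eval_mul, Polynomial.eval_X, zero_mul]
    rw [h2, Polynomial.eval_C] at h3
    rw [h2, h3, Polynomial.C_0]

/-- The composition with a nonconstant polynomial is not constant. -/
theorem comp_nc {L : Type} [Field L] [Infinite L] {S : Fin (N + 1) → Polynomial L}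
    (h : ∃ j k i i', (S j).coeff i * (S k).coeff i' ≠ (S k).coeff i * (S j).coeff i')
    {v : Polynomial L} (hv : ∀ a, v ≠ Polynomial.C a) :
    ∃ j k u w, ((S j).comp v).eval u * ((S k).comp v).eval w ≠
      ((S k).comp v).eval u * ((S j).comp v).eval w := by
  by_contra hno
  push Not at hno
  rw [nc_iff] at h
  obtain ⟨j, k, s, t, hst⟩ := h
  apply hst
  have key : ∀ P : Polynomial L, (∀ u, P.eval (v.eval u) = 0) → ∀ s, P.eval s = 0 := by
    intro P hP s
    have h1 : P.comp v = 0 := by
      apply Polynomial.funext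
      intro u
      rw [Polynomial.eval_comp, hP, Polynomial.eval_zero]
    rcases Polynomial.comp_eq_zero_iff.1 h1 with h2 | h2
    · rw [h2, Polynomial.eval_zero]
    · exact absurd h2.2 (hv _)
  have h1 : ∀ (u s : L), (S j).eval s * (S k).eval (v.eval u) =
      (S k).eval s * (S j).eval (v.eval u) := by
    intro u s
    have h2 := key (S j * Polynomial.C ((S k).eval (v.eval u)) -
      S k * Polynomial.C ((S j).eval (v.eval u))) (fun u' => by
        have h3 := hno j k u' u
        simp only [Polynomial.eval_comp] at h3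
        rw [Polynomial.eval_sub, Polynomial.eval_mul, Polynomial.eval_mul, Polynomial.eval_C,
          Polynomial.eval_C, h3, sub_self]) s
    rw [Polynomial.eval_sub, Polynomial.eval_mul, Polynomial.eval_mul, Polynomial.eval_C,
      Polynomial.eval_C] at h2
    exact sub_eq_zero.1 h2
  have h2 := key (Polynomial.C ((S j).eval s) * S k - Polynomial.C ((S k).eval s) * S j)
    (fun u => by
      rw [Polynomial.eval_sub, Polynomial.eval_mul, Polynomial.eval_mul, Polynomial.eval_C,
        Polynomial.eval_C, h1 u s, sub_self]) t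
  rw [Polynomial.eval_sub, Polynomial.eval_mul, Polynomial.eval_mul, Polynomial.eval_C,
    Polynomial.eval_C] at h2
  exact sub_eq_zero.1 h2

/-- A nonconstant curve passes through a point finitely many times. -/
theorem fibre_fin {L : Type} [Field L] [CharZero L] {P : Fin (N + 1) → Polynomial L}
    (h : ∃ j k u w, (P j).eval u * (P k).eval w ≠ (P k).eval u * (P j).eval w)
    {y : Fin (N + 1) → L} (hy : y ≠ 0) :
    {m : ℕ | ∀ i j, (P i).eval (m : L) * y j = (P j).eval (m : L) * y i}.Finite := by
  obtain ⟨j0, k0, u0, v0, huv⟩ := h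
  obtain ⟨i, j, hij⟩ : ∃ i j, P i * Polynomial.C (y j) - P j * Polynomial.C (y i) ≠ 0 := by
    by_contra hcon
    push Not at hcon
    obtain ⟨k, hk⟩ := Function.ne_iff.1 hy
    have hk' : y k ≠ 0 := hk
    apply huv
    have h2 : ∀ i u, (P i).eval u = (P k).eval u * (y i / y k) := by
      intro i u
      have h3 := congrArg (Polynomial.eval u) (hcon i k)
      simp only [Polynomial.eval_sub, Polynomial.eval_mul, Polynomial.eval_C,
        Polynomial.eval_zero] at h3
      rw [mul_div_assoc', eq_div_iff hk']
      linear_combination h3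
    rw [h2 j0 u0, h2 k0 v0, h2 k0 u0, h2 j0 v0]
    ring
  have h2 : {z : L | (P i * Polynomial.C (y j) - P j * Polynomial.C (y i)).IsRoot z}.Finite :=
    Polynomial.finite_setOfPred_isRoot hij
  have h3 := h2.preimage (f := fun m : ℕ => (m : L)) Nat.cast_injective.injOn
  refine h3.subset fun m hm => ?_
  have h3 := hm i j
  change Polynomial.eval _ _ = 0
  rw [Polynomial.eval_sub, Polynomial.eval_mul, Polynomial.eval_mul, Polynomial.eval_C,
    Polynomial.eval_C, sub_eq_zero]
  exact h3

/-- the sequence with the given first terms -/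
theorem exists_seq {L : Type} [Field L] [NumberField L] [Algebra K L]
    {S : Fin (N + 1) → Polynomial L} (h : MorL I S) {r : ℕ} (w : Fin r → L) :
    ∃ (x : ℕ → Fin (N + 1) → L) (hx : ∀ m, x m ≠ 0), (∀ j, PolySeq fun m => x m j) ∧
      (∀ m, Projectivization.mk L (x m) (hx m) ∈ Pts L I) ∧
      (Set.range fun m => Projectivization.mk L (x m) (hx m)).Infinite ∧
      ∀ (i : Fin r) (j : Fin (N + 1)), x i j = (S j).eval (w i) := by
  obtain ⟨v, hv, hvc⟩ := exists_interp w
  have hev : ∀ (m : L) j, ((S j).comp v).eval m = (S j).eval (v.eval m) := fun m j =>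
    Polynomial.eval_comp
  have hx : ∀ m : ℕ, (fun j => ((S j).comp v).eval (m : L)) ≠ 0 := by
    intro m
    simp only [hev]
    exact h.ne _
  have hnc := comp_nc h.nc hvc
  refine ⟨fun m j => ((S j).comp v).eval (m : L), hx, fun j => ⟨(S j).comp v, fun m => rfl⟩,
    fun m => (mem_pts (hx m)).2 fun G hG hd => ?_, fun hfin => ?_, fun i j => ?_⟩
  · simp only [hev]
    rw [← eval₂_eval, h.zero G hG hd, Polynomial.eval_zero]
  · have : Finite (Set.range fun m : ℕ => Projectivization.mk L
        (fun j => ((S j).comp v).eval (m : L)) (hx m)) := hfin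
    obtain ⟨y, hy⟩ := Finite.exists_infinite_fiber (Set.rangeFactorization fun m : ℕ =>
      Projectivization.mk L (fun j => ((S j).comp v).eval (m : L)) (hx m))
    obtain ⟨m0, hm0⟩ : ∃ m0 : ℕ, m0 ∈ (Set.rangeFactorization fun m : ℕ =>
        Projectivization.mk L (fun j => ((S j).comp v).eval (m : L)) (hx m)) ⁻¹' {y} := by
      obtain ⟨m0⟩ := (inferInstance : Nonempty ((Set.rangeFactorization fun m : ℕ =>
        Projectivization.mk L (fun j => ((S j).comp v).eval (m : L)) (hx m)) ⁻¹' {y}))
      exact ⟨_, m0.2⟩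
    have h1 := fibre_fin hnc (hx m0)
    refine (Set.infinite_coe_iff.1 hy) (h1.subset fun m hm i j => ?_)
    have h2 : Projectivization.mk L (fun j => ((S j).comp v).eval (m : L)) (hx m) =
        Projectivization.mk L (fun j => ((S j).comp v).eval (m0 : L)) (hx m0) := by
      have h6 : (Set.rangeFactorization fun m : ℕ =>
        Projectivization.mk L (fun j => ((S j).comp v).eval (m : L)) (hx m)) m = y := hm
      have h7 : (Set.rangeFactorization fun m : ℕ =>
        Projectivization.mk L (fun j => ((S j).comp v).eval (m : L)) (hx m)) m0 = y := hm0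
      exact congrArg Subtype.val (h6.trans h7.symm)
    rw [Projectivization.mk_eq_mk_iff'] at h2
    obtain ⟨c, hc⟩ := h2
    have e1 := congrFun hc i
    have e2 := congrFun hc j
    simp only [Pi.smul_apply, smul_eq_mul] at e1 e2
    rw [← e1, ← e2]
    ring
  · change ((S j).comp v).eval (((i : ℕ) : L)) = _
    rw [hev, hv]

theorem slowIn_of_rat {Ψ : ℝ → ℝ}
    (hΨ : ∀ f, Entire (cx σ I) 1 f → GrowthLe Ψ f → ∀ z, f z ∈ closure (ratPts (cx σ I) 1))
    (h : RatCurvesIn σ I I') : SlowIn Ψ σ I I' := by
  intro f hf hg z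
  have h1 := hΨ f hf.entire hg z
  intro G hG hd
  have hcl : IsClosed {x : Fin (N + 1) → ℂ | eval x (map σ G) = 0} :=
    isClosed_eq (MvPolynomial.continuous_eval _) continuous_const
  have h2 : ratPts (cx σ I) 1 ⊆ {x : Fin (N + 1) → ℂ | eval x (map σ G) = 0} := by
    rintro _ ⟨T, hT, u, rfl⟩
    obtain ⟨s, t, j, k, hst⟩ := hT.ind
    have h3 := h T (fun u => isPtP_of_cx fun H hH hf => hT.mem H hH hf u) ⟨j, k, s, t, hst⟩ u G
      hG hd
    rw [← eval_map] at h3
    exact h3
  have h3 := (closure_minimal h2 hcl) h1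
  rw [Set.mem_setOf_eq, eval_map] at h3
  exact h3

theorem rat_of_slowAlg {Ψ : ℝ → ℝ} (hΨ : SuperPoly Ψ) (h : SlowAlgIn Ψ σ I I') :
    RatCurvesIn σ I I' := by
  intro T hT hnc z G hG hd
  obtain ⟨d, hd⟩ := hd
  by_contra hz
  obtain ⟨L, iF, iN, iA, e, he, S, -, hS, -, -, hSG⟩ := alg_curve σ (polyCurve_of hT hnc) (r := 0)
    (x := Fin.elim0) (fun i => i.elim0) (fun i => i.elim0) Fin.elim0 Fin.elim0
    (fun i => i.elim0) hd ⟨z, hz⟩
  obtain ⟨m, hm⟩ : ∃ m : L, (eval₂ (Polynomial.C.comp (algebraMap K L)) S G).eval m ≠ 0 := by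
    by_contra hno
    push Not at hno
    exact hSG (Polynomial.funext fun m => by rw [hno m, Polynomial.eval_zero])
  -- the curve
  have hev : ∀ (H : MvPolynomial (Fin (N + 1)) K) (z : ℂ),
      eval₂ σ (fun j => ((S j).map e).eval z) H =
        ((eval₂ (Polynomial.C.comp (algebraMap K L)) S H).map e).eval z := by
    intro H z
    rw [eval₂_map', he, eval₂_eval]
  have hf : EntireIn σ I fun z j => ((S j).map e).eval z := by
    refine ⟨differentiable_pi.2 fun j => ((S j).map e).differentiable, fun z H hH hd => ?_, ?_⟩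
    · rw [hev, hS.zero H hH hd, Polynomial.map_zero, Polynomial.eval_zero]
    · obtain ⟨j, k, i, i', h1⟩ := hS.nc
      have h2 : ∃ j k i i', ((S j).map e).coeff i * ((S k).map e).coeff i' ≠
          ((S k).map e).coeff i * ((S j).map e).coeff i' := by
        refine ⟨j, k, i, i', fun h0 => h1 ?_⟩
        simp only [Polynomial.coeff_map] at h0
        rw [← map_mul, ← map_mul] at h0
        exact e.injective h0
      obtain ⟨j, k, s, t, h3⟩ := (nc_iff _).1 h2
      exact ⟨s, t, j, k, h3⟩
  have hval : ∀ j, ((S j).map e).eval (e m) = e ((S j).eval m) := fun j =>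
    Polynomial.eval_map_apply e m
  have halg : ∀ a : L, IsAlgebraic ℚ (e a) := fun a =>
    (Algebra.IsAlgebraic.isAlgebraic a : IsAlgebraic ℚ a).algHom e.toRatAlgHom
  have h1 := h _ hf (growthLe_poly hΨ fun j => (S j).map e) (e m) ⟨hS.ne' e _, 1, one_ne_zero,
    fun j => by
      rw [one_mul]
      change IsAlgebraic ℚ (((S j).map e).eval (e m))
      rw [hval]
      exact halg _⟩ G hG ⟨d, hd⟩
  rw [hev] at h1
  rw [show ((eval₂ (Polynomial.C.comp (algebraMap K L)) S G).map e).eval (e m) =
    e ((eval₂ (Polynomial.C.comp (algebraMap K L)) S G).eval m) from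
      Polynomial.eval_map_apply e m] at h1
  exact hm (e.injective (by rw [h1, map_zero]))

end

end Pool.Agent.Q64.LC.Slw
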