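import Pool.Agent.Q64.LC.Spl
import Pool.Agent.Y166.GM.Chev

/-!
Families of polynomial curves through the generic point, and polynomial curves through general
points.
-/

set_option autoImplicit false

namespace Pool.Agent.Q64.LC

open MvPolynomial Filter Topology Pool.Agent.TH143.GT Pool.Agent.W602.GT Pool.Agent.W603.GR
  Pool.Agent.W603.PV
open Pool.Agent.Y166.GM (constr_generic exists_spec_field)
open scoped NNReal ENNReal

/-- **Chevalley's theorem** for complex points. -/
theorem chevK {τ B : Type} [Finite τ] [CommRing B] [IsDomain B] [Algebra ℂ B]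
    (hft : Algebra.FiniteType ℂ B) (φ : MvPolynomial τ ℂ →ₐ[ℂ] B) (H : B) (hH : H ≠ 0) :
    ∃ D : MvPolynomial τ ℂ, φ D ≠ 0 ∧ ∀ t : τ → ℂ, (∀ x, φ x = 0 → eval t x = 0) →
      eval t D ≠ 0 → ∃ χ : B →ₐ[ℂ] ℂ, χ H ≠ 0 ∧ ∀ i, χ (φ (X i)) = t i := by
  classical
  have hft' : φ.toRingHom.FiniteType := by
    apply RingHom.FiniteType.of_comp_finiteType (f := algebraMap ℂ (MvPolynomial τ ℂ))
    have : φ.toRingHom.comp (algebraMap ℂ (MvPolynomial τ ℂ)) = algebraMap ℂ B := by
      ext a
      exact φ.commutes a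
    rw [this]
    rw [RingHom.finiteType_algebraMap]
    exact hft
  have hfp : φ.toRingHom.FinitePresentation := RingHom.FinitePresentation.of_finiteType.1 hft'
  have hcJ : Topology.IsConstructible
      ((PrimeSpectrum.basicOpen H : TopologicalSpace.Opens (PrimeSpectrum B)) :
        Set (PrimeSpectrum B)) := by
    exact IsRetrocompact.isConstructible (PrimeSpectrum.basicOpen H).isOpen
      (PrimeSpectrum.isRetrocompact_basicOpen)
  have hT := PrimeSpectrum.isConstructible_comap_image hfp hcJ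
  obtain ⟨D, hD0, hD⟩ := constr_generic hT ⟨RingHom.ker φ.toRingHom, RingHom.ker_isPrime _⟩
    ⟨⟨⊥, Ideal.isPrime_bot⟩, hH, by
      ext x
      show φ x ∈ (⊥ : Ideal B) ↔ x ∈ RingHom.ker φ.toRingHom
      rw [Ideal.mem_bot]
      rfl⟩
  refine ⟨D, fun h0 => hD0 h0, fun t hker ht => ?_⟩
  obtain ⟨⟨R, hR⟩, hRH, hRm⟩ := hD ⟨RingHom.ker (eval t), RingHom.ker_isPrime _⟩
    (fun x hx => hker x hx) ht
  have hRH' : H ∉ R := hRH
  have hRm' : ∀ x, φ x ∈ R ↔ eval t x = 0 := by
    intro x
    have h1 : R.comap φ.toRingHom = RingHom.ker (eval t) := congrArg PrimeSpectrum.asIdeal hRm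
    have h2 : x ∈ R.comap φ.toRingHom ↔ x ∈ RingHom.ker (eval t) := by
      rw [h1]
    exact h2
  obtain ⟨χ, hχ⟩ := exists_spec_field (k := ℂ) (C := B ⧸ R)
    (Algebra.FiniteType.of_surjective (Ideal.Quotient.mkₐ ℂ R)
      (Ideal.Quotient.mkₐ_surjective ℂ R)) (Ideal.Quotient.mk R H) (by
      intro h
      exact hRH' (Ideal.Quotient.eq_zero_iff_mem.1 h))
  refine ⟨χ.comp (Ideal.Quotient.mkₐ ℂ R), hχ, fun i => ?_⟩
  have h1 : φ (X i - C (t i)) ∈ R := by
    rw [hRm']
    simp
  have h2 : χ (Ideal.Quotient.mk R (φ (X i - C (t i)))) = 0 := by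
    rw [Ideal.Quotient.eq_zero_iff_mem.2 h1, map_zero]
  rw [map_sub, map_sub, map_sub, sub_eq_zero] at h2
  show χ (Ideal.Quotient.mk R (φ (X i))) = t i
  rw [h2]
  have h3 : φ (C (t i)) = algebraMap ℂ B (t i) := φ.commutes (t i)
  rw [h3]
  exact χ.commutes (t i)

variable {n : ℕ} {p : Ideal (MvPolynomial (Fin (n + 1)) ℂ)} {Q : MvPolynomial (Fin (n + 1)) ℂ}
  {q : ℕ}

theorem aeval_scaleR {A : Type} [CommRing A] [Algebra ℂ A] {H : MvPolynomial (Fin (n + 1)) ℂ}
    {d : ℕ} (hH : H.IsHomogeneous d) (f : Fin (n + 1) → A) (c : A) :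
    aeval (fun j => c * f j) H = c ^ d * aeval f H := by
  rw [aeval_def, aeval_def, eval₂_eq', eval₂_eq', Finset.mul_sum]
  refine Finset.sum_congr rfl fun α hα => ?_
  have h2 : ∑ a, α a = d := by
    have := hH (mem_support_iff.1 hα)
    rw [← this, Finsupp.weight_apply, Finsupp.sum_fintype _ _ (by simp)]
    simp
  have h3 : ∏ a, (c * f a) ^ α a = c ^ d * ∏ a, f a ^ α a := by
    rw [← h2, ← Finset.prod_pow_eq_pow_sum, ← Finset.prod_mul_distrib]
    exact Finset.prod_congr rfl fun a _ => mul_pow _ _ _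
  rw [h3]; ring

/-- the polynomials with proportional values have no nonconstant quotients -/
theorem ind_of_along {T : Fin (n + 1) → Polynomial ℂ} {g1 g0 : MvPolynomial (Fin (n + 1)) ℂ} {d : ℕ}
    (h1 : g1.IsHomogeneous d) (h0 : g0.IsHomogeneous d) (h : NCAlong g1 g0 T) :
    ∃ (s t : ℂ) (j k : Fin (n + 1)),
      (T j).eval s * (T k).eval t ≠ (T k).eval s * (T j).eval t := by
  by_contra hno
  push Not at hno
  apply h
  by_cases hT : ∀ k, T k = 0
  · have e : ∀ G : MvPolynomial (Fin (n + 1)) ℂ, G.IsHomogeneous d → d ≠ 0 → aeval T G = 0 := by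
      intro G hG hd
      apply Polynomial.funext
      intro z
      rw [ev_aeval, Polynomial.eval_zero]
      have h2 := eval_mul_form hG 0 (fun _ : Fin (n + 1) => (0 : ℂ))
      have h3 : (fun j => (T j).eval z) = fun _ => (0 : ℂ) * 0 := by
        funext j
        rw [hT j, Polynomial.eval_zero, zero_mul]
      rw [h3, h2, zero_pow hd, zero_mul]
    rcases Nat.eq_zero_or_pos d with hd | hd
    · subst hd
      obtain ⟨c1, rfl⟩ : ∃ c, g1 = C c := ⟨_, (totalDegree_eq_zero_iff_eq_C (p := g1)).1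
        (Nat.le_zero.1 h1.totalDegree_le)⟩
      obtain ⟨c0, rfl⟩ : ∃ c, g0 = C c := ⟨_, (totalDegree_eq_zero_iff_eq_C (p := g0)).1
        (Nat.le_zero.1 h0.totalDegree_le)⟩
      rw [aeval_C, aeval_C, Polynomial.algebraMap_eq, Polynomial.derivative_C,
        Polynomial.derivative_C, zero_mul, mul_zero]
    · rw [e g1 h1 hd.ne', e g0 h0 hd.ne']
      simp
  · push Not at hT
    obtain ⟨k, hk⟩ := hT
    obtain ⟨t, ht⟩ : ∃ t, (T k).eval t ≠ 0 := by
      by_contra hcon
      push Not at hcon
      exact hk (Polynomial.funext fun z => by rw [hcon z, Polynomial.eval_zero])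
    have hTj : ∀ z, (fun j => (T j).eval z) = fun j => (T k).eval z * ((T j).eval t / (T k).eval t) := by
      intro z
      funext j
      rw [mul_div_assoc', eq_div_iff ht]
      exact hno z t j k
    have e : ∀ G : MvPolynomial (Fin (n + 1)) ℂ, G.IsHomogeneous d →
        aeval T G = (T k) ^ d * Polynomial.C (eval (fun j => (T j).eval t / (T k).eval t) G) := by
      intro G hG
      apply Polynomial.funext
      intro z
      rw [ev_aeval, hTj, eval_mul_form hG, Polynomial.eval_mul, Polynomial.eval_pow,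
        Polynomial.eval_C]
    rw [e g1 h1, e g0 h0]
    simp only [Polynomial.derivative_mul, Polynomial.derivative_C, mul_zero, add_zero]
    ring

theorem C_aeval {A : Type} [CommRing A] [Algebra ℂ A] (f : Fin (n + 1) → A)
    (G : MvPolynomial (Fin (n + 1)) ℂ) :
    (Polynomial.C (aeval f G) : Polynomial A) = aeval (fun j => Polynomial.C (f j)) G :=
  MvPolynomial.comp_aeval_apply (f := f) (Polynomial.CAlgHom : A →ₐ[ℂ] Polynomial A) G

/-- curves through general points, over a finitely generated ring -/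
theorem cover_aux (hp : IsHomog p) (hQ : Q.IsHomogeneous q) {R : Type} [CommRing R] [IsDomain R]
    [Algebra ℂ R] (hR : Algebra.FiniteType ℂ R) {W' : Fin (n + 1) → Polynomial R}
    (hrel : ∀ G : MvPolynomial (Fin (n + 1)) ℂ, IsForm G → (G ∈ p ↔ (aeval W' G : Polynomial R) = 0))
    {c' : R} (hc'0 : c' ≠ 0) (hc' : (aeval W' Q : Polynomial R) = Polynomial.C c') {d : ℕ}
    {g1 g0 : MvPolynomial (Fin (n + 1)) ℂ} (h1 : g1.IsHomogeneous d) (h0 : g0.IsHomogeneous d)
    (hne : Polynomial.derivative (aeval W' g1 : Polynomial R) * aeval W' g0 ≠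
      aeval W' g1 * Polynomial.derivative (aeval W' g0 : Polynomial R)) :
    ∃ G, IsForm G ∧ G ∉ p ∧ ∀ x : Fin (n + 1) → ℂ, (∀ H ∈ p, eval x H = 0) → eval x G ≠ 0 →
      x ∈ ratPts p Q := by
  classical
  -- the map
  obtain ⟨φ, hφ0⟩ : ∃ φ : MvPolynomial (Fin (n + 1)) ℂ →ₐ[ℂ] Polynomial (Polynomial R),
      φ = aeval fun j => Polynomial.X * Polynomial.C (W' j) := ⟨_, rfl⟩
  have hφ : ∀ (G : MvPolynomial (Fin (n + 1)) ℂ) (e : ℕ), G.IsHomogeneous e →
      φ G = Polynomial.C (aeval W' G) * Polynomial.X ^ e := by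
    intro G e hG
    rw [hφ0, aeval_scaleR hG, ← C_aeval, mul_comm]
  have hφs : ∀ G : MvPolynomial (Fin (n + 1)) ℂ, φ G = ∑ e ∈ Finset.range (G.totalDegree + 1),
      Polynomial.C (aeval W' (homogeneousComponent e G)) * Polynomial.X ^ e := by
    intro G
    conv_lhs => rw [← sum_homogeneousComponent G]
    rw [map_sum]
    exact Finset.sum_congr rfl fun e _ => hφ _ e (homogeneousComponent_isHomogeneous e G)
  have hker : ∀ x, φ x = 0 → x ∈ p := by
    intro x hx
    rw [hφs] at hx
    rw [← sum_homogeneousComponent x]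
    refine Ideal.sum_mem _ fun e he => ?_
    have h3 := congrArg (fun P => Polynomial.coeff P e) hx
    simp only [Polynomial.finsetSum_coeff, Polynomial.coeff_C_mul_X_pow,
      Polynomial.coeff_zero] at h3
    rw [Finset.sum_ite_eq, if_pos he] at h3
    exact (hrel _ ⟨e, homogeneousComponent_isHomogeneous e x⟩).2 h3
  have hker' : ∀ x ∈ p, φ x = 0 := by
    intro x hx
    rw [hφs]
    refine Finset.sum_eq_zero fun e _ => ?_
    have h3 := (hrel _ ⟨e, homogeneousComponent_isHomogeneous e x⟩).1 (hp x hx e)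
    rw [h3, Polynomial.C_0, zero_mul]
  -- the elements which have to be different from zero
  let V : Polynomial R := Polynomial.derivative (aeval W' g1 : Polynomial R) * aeval W' g0 -
    aeval W' g1 * Polynomial.derivative (aeval W' g0 : Polynomial R)
  have hV : V ≠ 0 := fun h2 => hne (sub_eq_zero.1 h2)
  let E : Polynomial (Polynomial R) := Polynomial.C (V * Polynomial.C c') * Polynomial.X
  have hE : E ≠ 0 := by
    refine mul_ne_zero ?_ Polynomial.X_ne_zero
    rw [Ne, Polynomial.C_eq_zero]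
    exact mul_ne_zero hV (by rwa [Ne, Polynomial.C_eq_zero])
  have hft : Algebra.FiniteType ℂ (Polynomial (Polynomial R)) := by
    have h2 : Algebra.FiniteType ℂ (Polynomial R) := inferInstance
    infer_instance
  obtain ⟨D, hD, hDt⟩ := chevK hft φ E hE
  have hDp : D ∉ p := fun h => hD (hker' D h)
  obtain ⟨e, he⟩ : ∃ e, homogeneousComponent e D ∉ p := by
    by_contra hno
    push Not at hno
    apply hDp
    rw [← sum_homogeneousComponent D]
    exact Ideal.sum_mem _ fun e _ => hno e
  refine ⟨homogeneousComponent e D, ⟨e, homogeneousComponent_isHomogeneous e D⟩, he,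
    fun x hx hxe => ?_⟩
  -- scaling
  obtain ⟨μ, hμ0, hμ⟩ : ∃ μ : ℂ, μ ≠ 0 ∧ eval (fun j => μ * x j) D ≠ 0 := by
    let P : Polynomial ℂ := ∑ i ∈ Finset.range (D.totalDegree + 1),
      Polynomial.C (eval x (homogeneousComponent i D)) * Polynomial.X ^ i
    have hP : ∀ μ, P.eval μ = eval (fun j => μ * x j) D := by
      intro μ
      conv_rhs => rw [← sum_homogeneousComponent D]
      simp only [P, Polynomial.eval_finsetSum, Polynomial.eval_mul, Polynomial.eval_C,
        Polynomial.eval_pow, Polynomial.eval_X, map_sum]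
      refine Finset.sum_congr rfl fun i _ => ?_
      rw [eval_mul_form (homogeneousComponent_isHomogeneous i D), mul_comm]
    have hP0 : P ≠ 0 := by
      intro h2
      have h3 := congrArg (fun P => Polynomial.coeff P e) h2
      simp only [P, Polynomial.finsetSum_coeff, Polynomial.coeff_C_mul_X_pow,
        Polynomial.coeff_zero] at h3
      by_cases hee : e ∈ Finset.range (D.totalDegree + 1)
      · rw [Finset.sum_ite_eq, if_pos hee] at h3
        exact hxe h3
      · apply hxe
        rw [Finset.mem_range, not_lt] at hee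
        rw [homogeneousComponent_eq_zero e D (by omega), map_zero]
    have h2 : (P * Polynomial.X) ≠ 0 := mul_ne_zero hP0 Polynomial.X_ne_zero
    obtain ⟨μ, hμ⟩ : ∃ μ, (P * Polynomial.X).eval μ ≠ 0 := by
      by_contra hcon
      push Not at hcon
      exact h2 (Polynomial.funext fun z => by rw [hcon z, Polynomial.eval_zero])
    rw [Polynomial.eval_mul, Polynomial.eval_X] at hμ
    exact ⟨μ, right_ne_zero_of_mul hμ, by rw [← hP]; exact left_ne_zero_of_mul hμ⟩
  obtain ⟨χ, hχE, hχ⟩ := hDt (fun j => μ * x j) (fun G hG => by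
    have hGp := hker G hG
    rw [← sum_homogeneousComponent G, map_sum]
    refine Finset.sum_eq_zero fun i _ => ?_
    rw [eval_mul_form (homogeneousComponent_isHomogeneous i G), hx _ (hp G hGp i), mul_zero]) hμ
  -- the curve
  let ρ : R →ₐ[ℂ] ℂ := χ.comp ((Polynomial.CAlgHom : Polynomial R →ₐ[ℂ]
    Polynomial (Polynomial R)).comp (Polynomial.CAlgHom : R →ₐ[ℂ] Polynomial R))
  let u : ℂ := χ (Polynomial.C Polynomial.X)
  let l : ℂ := χ Polynomial.X
  have hχP : ∀ P : Polynomial R, χ (Polynomial.C P) = (P.map (ρ : R →+* ℂ)).eval u := by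
    intro P
    induction P using Polynomial.induction_on' with
    | add P1 P2 e1 e2 =>
      rw [Polynomial.C_add, map_add, e1, e2, Polynomial.map_add, Polynomial.eval_add]
    | monomial i a =>
      rw [Polynomial.map_monomial, Polynomial.eval_monomial, ← Polynomial.C_mul_X_pow_eq_monomial,
        Polynomial.C_mul, Polynomial.C_pow, map_mul, map_pow]
      rfl
  have hl : l ≠ 0 := by
    intro h2
    apply hχE
    simp only [E]
    rw [map_mul]
    change _ * l = 0
    rw [h2, mul_zero]
  have hVc : χ (Polynomial.C (V * Polynomial.C c')) ≠ 0 := by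
    intro h2
    apply hχE
    simp only [E]
    rw [map_mul, h2, zero_mul]
  rw [hχP, Polynomial.map_mul, Polynomial.eval_mul, Polynomial.map_C, Polynomial.eval_C] at hVc
  have hVu := left_ne_zero_of_mul hVc
  have hcu := right_ne_zero_of_mul hVc
  let T0 : Fin (n + 1) → Polynomial ℂ := fun j => (W' j).map (ρ : R →+* ℂ)
  have hT0 : ∀ G : MvPolynomial (Fin (n + 1)) ℂ,
      (aeval T0 G : Polynomial ℂ) = (aeval W' G : Polynomial R).map (ρ : R →+* ℂ) := fun G =>
    (map_aeval' ρ W' G).symm
  have hlμ : l / μ ≠ 0 := div_ne_zero hl hμ0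
  let T : Fin (n + 1) → Polynomial ℂ := fun j => Polynomial.C (l / μ) * T0 j
  have hTz : ∀ z, (fun j => (T j).eval z) = fun j => (l / μ) * (T0 j).eval z := by
    intro z
    funext j
    simp only [T]
    rw [Polynomial.eval_mul, Polynomial.eval_C]
  have hNC : NCAlong g1 g0 T0 := by
    intro h2
    apply hVu
    have h3 : V.map (ρ : R →+* ℂ) = 0 := by
      simp only [V, Polynomial.map_sub, Polynomial.map_mul, ← Polynomial.derivative_map, ← hT0]
      exact sub_eq_zero.2 h2
    rw [h3, Polynomial.eval_zero]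
  obtain ⟨s, t, j, k, hst⟩ := ind_of_along h1 h0 hNC
  refine ⟨T, ⟨fun H hH ⟨d', hd'⟩ z => ?_, ?_, ?_⟩, u, ?_⟩
  · rw [hTz, eval_mul_form hd', ← ev_aeval, hT0]
    rw [(hrel H ⟨d', hd'⟩).1 hH, Polynomial.map_zero, Polynomial.eval_zero, mul_zero]
  · refine ⟨(l / μ) ^ q * ρ c', mul_ne_zero (pow_ne_zero _ hlμ) hcu, fun z => ?_⟩
    rw [hTz, eval_mul_form hQ, ← ev_aeval, hT0, hc', Polynomial.map_C, Polynomial.eval_C]
    rfl
  · refine ⟨s, t, j, k, ?_⟩
    simp only [T, Polynomial.eval_mul, Polynomial.eval_C]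
    intro h2
    apply hst
    apply mul_left_cancel₀ (mul_ne_zero hlμ hlμ)
    linear_combination h2
  · funext i
    have h3 := hχ i
    have h4 : φ (X i) = Polynomial.C (W' i) * Polynomial.X := by
      rw [hφ0, aeval_X, mul_comm]
    rw [h4, map_mul, hχP] at h3
    simp only [T, T0]
    rw [Polynomial.eval_mul, Polynomial.eval_C]
    change (((W' i).map (ρ : R →+* ℂ)).eval u) * l = μ * x i at h3
    rw [div_mul_eq_mul_div, eq_div_iff hμ0]
    linear_combination -h3

/-- **Curves through general points.** If there is a family of polynomial curves through the generic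
point then there are polynomial curves through all points of a nonempty open subset. -/
theorem cover_of_fam (hp : IsHomog p) (hQ : Q.IsHomogeneous q) {K : Type} [Field K] [Algebra ℂ K]
    {w : ℕ} {y : Fin (n + 1) → K} (hy : FunField p Q K w y) {M : Type} [Field M] [Algebra ℂ M]
    {W : Fin (n + 1) → Polynomial M} (hF : Fam y Q W 0) {d : ℕ}
    {g1 g0 : MvPolynomial (Fin (n + 1)) ℂ} (h1 : g1.IsHomogeneous d) (h0 : g0.IsHomogeneous d)
    (hne : Polynomial.derivative (aeval W g1 : Polynomial M) * aeval W g0 ≠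
      aeval W g1 * Polynomial.derivative (aeval W g0 : Polynomial M)) :
    ∃ G, IsForm G ∧ G ∉ p ∧ ∀ x : Fin (n + 1) → ℂ, (∀ H ∈ p, eval x H = 0) → eval x G ≠ 0 →
      x ∈ ratPts p Q := by
  classical
  -- the ring of coefficients
  let S : Finset M := Finset.univ.biUnion fun j : Fin (n + 1) =>
    (Finset.range ((W j).natDegree + 1)).image (W j).coeff
  let R : Subalgebra ℂ M := Algebra.adjoin ℂ (S : Set M)
  have hR : Algebra.FiniteType ℂ R := by
    rw [← Subalgebra.fg_iff_finiteType]
    exact Subalgebra.fg_adjoin_finset S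
  have hcoef : ∀ j i, (W j).coeff i ∈ R := by
    intro j i
    rcases lt_or_ge i ((W j).natDegree + 1) with hi | hi
    · exact Algebra.subset_adjoin (Finset.mem_coe.2 (Finset.mem_biUnion.2
        ⟨j, Finset.mem_univ j, Finset.mem_image.2 ⟨i, Finset.mem_range.2 hi, rfl⟩⟩))
    · rw [Polynomial.coeff_eq_zero_of_natDegree_lt (by omega)]
      exact Subalgebra.zero_mem _
  have hlift : ∀ j, ∃ P : Polynomial R, P.map (R.val : R →+* M) = W j := by
    intro j
    have h2 : W j ∈ Polynomial.lifts (R.val : R →+* M) := by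
      rw [Polynomial.lifts_iff_coeff_lifts]
      intro i
      exact ⟨⟨_, hcoef j i⟩, rfl⟩
    exact h2
  choose W' hW' using hlift
  have hinj : Function.Injective (R.val : R →+* M) := Subtype.val_injective
  have hWW : ∀ G : MvPolynomial (Fin (n + 1)) ℂ,
      (aeval W' G : Polynomial R).map (R.val : R →+* M) = aeval W G := by
    intro G
    rw [map_aeval' R.val W' G]
    congr 2
    funext j
    exact hW' j
  have hW0 : ∀ G : MvPolynomial (Fin (n + 1)) ℂ, aeval W' G = 0 ↔ aeval W G = 0 := by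
    intro G
    rw [← hWW]
    constructor
    · intro h
      rw [h, Polynomial.map_zero]
    · intro h
      exact Polynomial.map_injective _ hinj (by rw [h, Polynomial.map_zero])
  obtain ⟨c, hc, hQc⟩ := hF.bd
  rw [pow_zero, mul_one] at hQc
  have hQ' : ∃ c' : R, c' ≠ 0 ∧ (aeval W' Q : Polynomial R) = Polynomial.C c' := by
    have h2 : (aeval W' Q : Polynomial R).natDegree = 0 := by
      rw [← Polynomial.natDegree_map_eq_of_injective hinj, hWW, hQc, Polynomial.natDegree_C]
    obtain ⟨c', hc'⟩ : ∃ c' : R, (aeval W' Q : Polynomial R) = Polynomial.C c' :=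
      ⟨_, Polynomial.eq_C_of_natDegree_eq_zero h2⟩
    refine ⟨c', ?_, hc'⟩
    rintro rfl
    rw [Polynomial.C_0, hW0, hQc, Polynomial.C_eq_zero] at hc'
    exact hc hc'
  obtain ⟨c', hc'0, hc'⟩ := hQ'
  refine cover_aux hp hQ hR (W' := W') (fun G hG => ?_) hc'0 hc' h1 h0 ?_
  · rw [hW0, ← hF.rel G hG]
    exact ⟨hy.sub.mem G, hy.mem G hG⟩
  · intro h2
    apply hne
    have h3 := congrArg (Polynomial.map (R.val : R →+* M)) h2
    simp only [Polynomial.map_mul, ← Polynomial.derivative_map, hWW] at h3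
    exact h3

end Pool.Agent.Q64.LC
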