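import Pool.Agent.Q64.LC.Main
import Pool.Agent.TH143.GT.Fin
import Pool.Agent.TH143.EL.Proj

/-!
Morphisms from the affine line, and holomorphic curves with gaps.
-/

set_option autoImplicit false

namespace Pool.Agent.Q64.LC

open MvPolynomial Set Pool.Agent.TH143.GT Pool.Agent.W602.GT Pool.Agent.W603.GR Pool.Agent.W603.BP
  Pool.Agent.W603.BPR Pool.Agent.W603.PV

variable {n : ℕ} {p p' : Ideal (MvPolynomial (Fin (n + 1)) ℂ)}
  {Q : MvPolynomial (Fin (n + 1)) ℂ} {q : ℕ}

/-- The polynomials `T`, without common zeros, give a morphism from the affine line to the variety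
`X - D`, where the equations of `X` are the forms in `p` and `D` is the hypersurface section
`Q = 0`. -/
structure Mor (p : Ideal (MvPolynomial (Fin (n + 1)) ℂ)) (Q : MvPolynomial (Fin (n + 1)) ℂ)
    (T : Fin (n + 1) → Polynomial ℂ) : Prop where
  mem : ∀ H ∈ p, IsForm H → ∀ z : ℂ, eval (fun j => (T j).eval z) H = 0
  off : ∃ c : ℂ, c ≠ 0 ∧ ∀ z : ℂ, eval (fun j => (T j).eval z) Q = c
  ne : ∀ z : ℂ, ∃ j, (T j).eval z ≠ 0

/-- The morphism is not constant. -/
def NC (T : Fin (n + 1) → Polynomial ℂ) : Prop :=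
  ∃ (s t : ℂ) (j k : Fin (n + 1)), (T j).eval s * (T k).eval t ≠ (T k).eval s * (T j).eval t

/-- The point lies in the algebraic set given by the forms in `p'`. -/
def InZ (p' : Ideal (MvPolynomial (Fin (n + 1)) ℂ)) (x : Fin (n + 1) → ℂ) : Prop :=
  ∀ H ∈ p', IsForm H → eval x H = 0

/-- All nonconstant morphisms from the affine line to `X - D` map to the closed subset given by
`p'`. -/
def MorIn (p : Ideal (MvPolynomial (Fin (n + 1)) ℂ)) (Q : MvPolynomial (Fin (n + 1)) ℂ)
    (p' : Ideal (MvPolynomial (Fin (n + 1)) ℂ)) : Prop :=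
  ∀ T, Mor p Q T → NC T → ∀ z : ℂ, InZ p' fun j => (T j).eval z

/-- For all points `x` of `X - D` outside of the closed subset given by `p'`, there are only finitely
many morphisms from the affine line to `X - D` which map the origin to `x`. -/
def PointedFinite (p : Ideal (MvPolynomial (Fin (n + 1)) ℂ)) (Q : MvPolynomial (Fin (n + 1)) ℂ)
    (p' : Ideal (MvPolynomial (Fin (n + 1)) ℂ)) : Prop :=
  ∀ x : Fin (n + 1) → ℂ, ¬ InZ p' x → {T | Mor p Q T ∧ ∀ j, (T j).eval 0 = x j}.Finite

/-- The degrees of the morphisms from the affine line to `X - D`, whose image is not contained in the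
closed subset given by `p'`, are bounded. -/
def DegreeBounded (p : Ideal (MvPolynomial (Fin (n + 1)) ℂ)) (Q : MvPolynomial (Fin (n + 1)) ℂ)
    (p' : Ideal (MvPolynomial (Fin (n + 1)) ℂ)) : Prop :=
  ∃ B : ℕ, ∀ T, Mor p Q T → (∃ z : ℂ, ¬ InZ p' fun j => (T j).eval z) → ∀ j, (T j).natDegree ≤ B

/-- All nonconstant holomorphic curves in `X - D` on discs, with infinitely many gaps, lie in the
closed subset given by `p'`. -/
def DiscsIn (D : ℕ) (p : Ideal (MvPolynomial (Fin (n + 1)) ℂ))
    (Q : MvPolynomial (Fin (n + 1)) ℂ) (p' : Ideal (MvPolynomial (Fin (n + 1)) ℂ)) : Prop :=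
  ∀ (r : ℝ) (a : ℕ → Fin (n + 1) → ℂ) (f : ℂ → Fin (n + 1) → ℂ), Curve p Q r a f →
    NonConst r f → Gaps D a → ∀ z : ℂ, ‖z‖ < r → InZ p' (f z)

/-- The same for entire curves. -/
def EntireIn (D : ℕ) (p : Ideal (MvPolynomial (Fin (n + 1)) ℂ))
    (Q : MvPolynomial (Fin (n + 1)) ℂ) (p' : Ideal (MvPolynomial (Fin (n + 1)) ℂ)) : Prop :=
  ∀ (a : ℕ → Fin (n + 1) → ℂ) (f : ℂ → Fin (n + 1) → ℂ), (∀ r > 0, Curve p Q r a f) →
    (∃ r, NonConst r f) → Gaps D a → ∀ z : ℂ, InZ p' (f z)

theorem ev_aeval (T : Fin (n + 1) → Polynomial ℂ) (G : MvPolynomial (Fin (n + 1)) ℂ) (z : ℂ) :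
    (aeval T G : Polynomial ℂ).eval z = eval (fun j => (T j).eval z) G := by
  have h2 := MvPolynomial.comp_aeval_apply (f := T) (Polynomial.aeval z) G
  rw [Polynomial.coe_aeval_eq_eval] at h2
  rw [h2, MvPolynomial.aeval_eq_eval]

theorem eval_mul_form {H : MvPolynomial (Fin (n + 1)) ℂ} {d : ℕ} (hH : H.IsHomogeneous d)
    (g : ℂ) (x : Fin (n + 1) → ℂ) : eval (fun j => g * x j) H = g ^ d * eval x H :=
  Pool.Agent.TH143.EL.eval_smul_homog hH g x

/-- removing the common zeros -/
theorem PolyCurve.reduce (hQ : Q.IsHomogeneous q) {T : Fin (n + 1) → Polynomial ℂ}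
    (h : PolyCurve p Q T) : ∃ (g : Polynomial ℂ) (T' : Fin (n + 1) → Polynomial ℂ),
      (∀ j, T j = g * T' j) ∧ Mor p Q T' ∧ NC T' := by
  classical
  obtain ⟨s, t, j0, k0, hst⟩ := h.ind
  let I : Ideal (Polynomial ℂ) := Ideal.span (Set.range T)
  let g := Submodule.IsPrincipal.generator I
  have hg : I = Ideal.span {g} := (Submodule.IsPrincipal.span_singleton_generator I).symm
  have hgd : ∀ j, ∃ P, T j = g * P := by
    intro j
    have h1 : T j ∈ Ideal.span {g} := by
      rw [← hg]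
      exact Ideal.subset_span ⟨j, rfl⟩
    obtain ⟨P, hP⟩ := Ideal.mem_span_singleton.1 h1
    exact ⟨P, hP⟩
  choose T' hT' using hgd
  have hg0 : g ≠ 0 := by
    intro h0
    apply hst
    rw [hT' j0, hT' k0, h0]
    simp
  have h1 : (1 : Polynomial ℂ) ∈ Ideal.span (Set.range T') := by
    have h2 : g ∈ I := Submodule.IsPrincipal.generator_mem I
    have h3 : g ∈ Ideal.span {g} * Ideal.span (Set.range T') := by
      have h4 : I ≤ Ideal.span {g} * Ideal.span (Set.range T') := by
        rw [Ideal.span_le]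
        rintro _ ⟨j, rfl⟩
        rw [hT' j]
        exact Ideal.mul_mem_mul (Ideal.subset_span rfl) (Ideal.subset_span ⟨j, rfl⟩)
      exact h4 h2
    rw [Ideal.mem_span_singleton_mul] at h3
    obtain ⟨u, hu, hgu⟩ := h3
    have h5 : u = 1 := mul_left_cancel₀ hg0 (by rw [hgu, mul_one])
    rwa [h5] at hu
  have hTz : ∀ z, (fun j => (T j).eval z) = fun j => g.eval z * (T' j).eval z := by
    intro z
    funext j
    rw [hT' j, Polynomial.eval_mul]
  have hform : ∀ (H : MvPolynomial (Fin (n + 1)) ℂ) (d : ℕ), H.IsHomogeneous d →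
      aeval T H = g ^ d * aeval T' H := by
    intro H d hH
    apply Polynomial.funext
    intro z
    rw [ev_aeval, hTz, eval_mul_form hH, Polynomial.eval_mul, Polynomial.eval_pow, ev_aeval]
  refine ⟨g, T', hT', ⟨?_, ?_, ?_⟩, ?_⟩
  · rintro H hH ⟨d, hd⟩ z
    have h2 : aeval T H = 0 := by
      apply Polynomial.funext
      intro z
      rw [ev_aeval, Polynomial.eval_zero]
      exact h.mem H hH ⟨d, hd⟩ z
    rw [hform H d hd] at h2
    have h3 := (mul_eq_zero.1 h2).resolve_left (pow_ne_zero _ hg0)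
    rw [← ev_aeval, h3, Polynomial.eval_zero]
  · obtain ⟨c, hc0, hc⟩ := h.off
    have h2 : aeval T Q = Polynomial.C c := by
      apply Polynomial.funext
      intro z
      rw [ev_aeval, Polynomial.eval_C, hc]
    rw [hform Q q hQ] at h2
    have h3 : IsUnit (aeval T' Q : Polynomial ℂ) := by
      have h4 : IsUnit (Polynomial.C c) := Polynomial.isUnit_C.2 (isUnit_iff_ne_zero.2 hc0)
      rw [← h2] at h4
      exact isUnit_of_mul_isUnit_right h4
    obtain ⟨c', hc', h5⟩ := Polynomial.isUnit_iff.1 h3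
    refine ⟨c', hc'.ne_zero, fun z => ?_⟩
    rw [← ev_aeval, ← h5, Polynomial.eval_C]
  · intro z
    by_contra hno
    push Not at hno
    have h2 : Ideal.span (Set.range T') ≤ RingHom.ker (Polynomial.evalRingHom z) := by
      rw [Ideal.span_le]
      rintro _ ⟨j, rfl⟩
      exact hno j
    have h3 : Polynomial.evalRingHom z 1 = 0 := h2 h1
    rw [map_one] at h3
    exact one_ne_zero h3
  · refine ⟨s, t, j0, k0, fun h0 => hst ?_⟩
    rw [hT' j0, hT' k0]
    simp only [Polynomial.eval_mul]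
    linear_combination (g.eval s * g.eval t) * h0

theorem Mor.poly {T : Fin (n + 1) → Polynomial ℂ} (h : Mor p Q T) (hnc : NC T) :
    PolyCurve p Q T := ⟨h.mem, h.off, hnc⟩

theorem discsIn_of_morIn {D : ℕ} (hD : 1 ≤ D) (hQ : Q.IsHomogeneous q) (hqD : q ≤ D)
    (hcut : CutBy D p) (h : MorIn p Q p') : DiscsIn D p Q p' := by
  rintro r a f hf hnc hb z hz H hH ⟨d, hd⟩
  refine vanish_gap hD hQ hqD hcut (fun T hT t => ?_) hf hnc hb hz
  obtain ⟨g, T', hT', hM, hN⟩ := hT.reduce hQ
  have h1 : (fun j => (T j).eval t) = fun j => g.eval t * (T' j).eval t := by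
    funext j
    rw [hT' j, Polynomial.eval_mul]
  rw [h1, eval_mul_form hd, h T' hM hN t H hH ⟨d, hd⟩, mul_zero]

theorem entireIn_of_discsIn {D : ℕ} (h : DiscsIn D p Q p') : EntireIn D p Q p' := by
  intro a f hf hnc hb z
  obtain ⟨r, s, t, hs, ht, hst⟩ := hnc
  have h1 : r ≤ |r| + ‖z‖ + 1 := by
    have := le_abs_self r
    have := norm_nonneg z
    linarith
  have h2 : ‖z‖ < |r| + ‖z‖ + 1 := by
    have := abs_nonneg r
    linarith
  exact h _ a f (hf _ (by positivity)) ⟨s, t, hs.trans_le h1, ht.trans_le h1, hst⟩ hb z h2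

theorem morIn_of_entireIn {D : ℕ} (h : EntireIn D p Q p') : MorIn p Q p' := by
  intro T hT hNC z
  have hser : ∀ z : ℂ, HasSum (fun i => z ^ i • fun j => (T j).coeff i)
      (fun j => (T j).eval z) := by
    intro z
    rw [Pi.hasSum]
    intro j
    have h1 : (T j).eval z = ∑ i ∈ Finset.range ((T j).natDegree + 1),
        (z ^ i • fun j => (T j).coeff i) j := by
      rw [Polynomial.eval_eq_sum_range]
      exact Finset.sum_congr rfl fun i _ => mul_comm _ _
    rw [h1]
    apply hasSum_sum_of_ne_finset_zero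
    intro i hi
    rw [Finset.mem_range, not_lt] at hi
    rw [Pi.smul_apply, Polynomial.coeff_eq_zero_of_natDegree_lt (by omega), smul_zero]
  have hc : ∀ r > 0, Curve p Q r (fun i j => (T j).coeff i) (fun z j => (T j).eval z) := by
    intro r hr
    obtain ⟨c, hc, h1⟩ := hT.off
    exact ⟨hr, fun z _ => hser z, fun z _ H hH hf => hT.mem H hH hf z, c, hc, fun z _ => h1 z⟩
  have hnc : ∃ r, NonConst r fun z j => (T j).eval z := by
    obtain ⟨s, t, j, k, h1⟩ := hNC
    refine ⟨‖s‖ + ‖t‖ + 1, s, t, ?_, ?_, j, k, h1⟩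
    · have := norm_nonneg t
      linarith
    · have := norm_nonneg s
      linarith
  refine h _ _ hc hnc (fun L => ?_) z
  obtain ⟨m, hm⟩ : ∃ m, ∀ j, (T j).natDegree ≤ m :=
    ⟨Finset.univ.sup fun j => (T j).natDegree, fun j =>
      Finset.le_sup (f := fun j => (T j).natDegree) (Finset.mem_univ j)⟩
  refine ⟨m, L + D * m + 1, by omega, by omega, fun i hi _ => ?_⟩
  funext j
  exact Polynomial.coeff_eq_zero_of_natDegree_lt (lt_of_le_of_lt (hm j) hi)

/-- composition with a polynomial -/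
theorem Mor.comp {T : Fin (n + 1) → Polynomial ℂ} (h : Mor p Q T) (P : Polynomial ℂ) :
    Mor p Q fun j => (T j).comp P := by
  obtain ⟨c, hc, h1⟩ := h.off
  have e : ∀ z, (fun j => ((T j).comp P).eval z) = fun j => (T j).eval (P.eval z) := by
    intro z
    funext j
    rw [Polynomial.eval_comp]
  refine ⟨fun H hH hf z => ?_, ⟨c, hc, fun z => ?_⟩, fun z => ?_⟩
  · rw [e]
    exact h.mem H hH hf _
  · rw [e]
    exact h1 _
  · obtain ⟨j, hj⟩ := h.ne (P.eval z)
    exact ⟨j, by rwa [Polynomial.eval_comp]⟩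

/-- a constant morphism is given by constants -/
theorem Mor.const {T : Fin (n + 1) → Polynomial ℂ} (h : Mor p Q T) (hnc : ¬ NC T) (j : Fin (n + 1)) :
    T j = Polynomial.C ((T j).eval 0) := by
  unfold NC at hnc
  push Not at hnc
  obtain ⟨k, hk⟩ := h.ne 0
  have h1 : ∀ z, (T k).eval z ≠ 0 := by
    intro z h0
    obtain ⟨l, hl⟩ := h.ne z
    apply hl
    have h2 := hnc z 0 l k
    rw [h0, zero_mul] at h2
    exact (mul_eq_zero.1 h2).resolve_right hk
  have h2 : (T k).natDegree = 0 := by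
    by_contra hd
    obtain ⟨z, hz⟩ := IsAlgClosed.exists_root (T k) (by
      intro h3
      exact hd (Polynomial.natDegree_eq_of_degree_eq_some h3))
    exact h1 z hz
  apply Polynomial.funext
  intro z
  rw [Polynomial.eval_C]
  have h3 : (T k).eval z = (T k).eval 0 := by
    have h4 := Polynomial.eq_C_of_natDegree_eq_zero h2
    rw [h4, Polynomial.eval_C, Polynomial.eval_C]
  have h4 := hnc z 0 j k
  rw [h3] at h4
  exact mul_right_cancel₀ hk (by linear_combination h4)

/-- a nonconstant morphism has a nonzero coefficient of positive index -/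
theorem NC.coeff {T : Fin (n + 1) → Polynomial ℂ} (h : NC T) :
    ∃ j, 0 < (T j).natDegree := by
  by_contra hno
  push Not at hno
  obtain ⟨s, t, j, k, hst⟩ := h
  apply hst
  have h1 : ∀ j, T j = Polynomial.C ((T j).coeff 0) := fun j =>
    Polynomial.eq_C_of_natDegree_eq_zero (Nat.le_zero.1 (hno j))
  rw [h1 j, h1 k]
  simp only [Polynomial.eval_C]
  ring

theorem pointed_of_morIn (h : MorIn p Q p') : PointedFinite p Q p' := by
  intro x hx
  refine (Set.finite_singleton fun j => Polynomial.C (x j)).subset ?_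
  rintro T ⟨hT, hTx⟩
  rw [Set.mem_singleton_iff]
  have hnc : ¬ NC T := by
    intro hN
    apply hx
    have h1 := h T hT hN 0
    simpa only [hTx] using h1
  funext j
  rw [hT.const hnc j, hTx]

theorem bounded_of_morIn (h : MorIn p Q p') : DegreeBounded p Q p' := by
  refine ⟨0, fun T hT ⟨z, hz⟩ j => ?_⟩
  have hnc : ¬ NC T := fun hN => hz (h T hT hN z)
  rw [hT.const hnc j, Polynomial.natDegree_C]

theorem morIn_of_pointed (h : PointedFinite p Q p') : MorIn p Q p' := by
  classical
  intro T hT hN z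
  by_contra hz
  -- translate
  let T1 : Fin (n + 1) → Polynomial ℂ := fun j => (T j).comp (Polynomial.X + Polynomial.C z)
  have hT1 : Mor p Q T1 := hT.comp _
  obtain ⟨j, hj⟩ := hN.coeff
  have hd1 : (T1 j).natDegree = (T j).natDegree := by
    rw [Polynomial.natDegree_comp, Polynomial.natDegree_X_add_C, mul_one]
  have h0 : ∀ j, (T1 j).eval 0 = (T j).eval z := by
    intro j
    simp [T1, Polynomial.eval_comp]
  have h1 := h (fun j => (T j).eval z) hz
  have h2 : Function.Injective fun (m : ℕ) (j : Fin (n + 1)) =>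
      (T1 j).comp (Polynomial.C ((m : ℂ) + 1) * Polynomial.X) := by
    intro m m' hmm
    have h3 := congrArg (fun P => Polynomial.coeff P (T1 j).natDegree) (congrFun hmm j)
    simp only [Polynomial.comp_C_mul_X_coeff] at h3
    have h4 : (T1 j).coeff (T1 j).natDegree ≠ 0 := by
      rw [Polynomial.coeff_natDegree, Ne, Polynomial.leadingCoeff_eq_zero]
      intro h5
      rw [h5, Polynomial.natDegree_zero] at hd1
      omega
    have h5 : ((m : ℂ) + 1) ^ (T1 j).natDegree = ((m' : ℂ) + 1) ^ (T1 j).natDegree :=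
      mul_left_cancel₀ h4 h3
    have h6 : (m + 1) ^ (T1 j).natDegree = (m' + 1) ^ (T1 j).natDegree := by exact_mod_cast h5
    have h7 := Nat.pow_left_injective (n := (T1 j).natDegree) (by omega) h6
    omega
  refine Set.infinite_range_of_injective h2 (h1.subset ?_)
  rintro _ ⟨m, rfl⟩
  refine ⟨hT1.comp _, fun j => ?_⟩
  rw [Polynomial.eval_comp, Polynomial.eval_mul, Polynomial.eval_X, mul_zero, h0]

theorem morIn_of_bounded (h : DegreeBounded p Q p') : MorIn p Q p' := by
  intro T hT hN z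
  by_contra hz
  obtain ⟨B, hB⟩ := h
  obtain ⟨j, hj⟩ := hN.coeff
  have h1 := hB (fun j => (T j).comp (Polynomial.C z + Polynomial.X ^ (B + 1))) (hT.comp _)
    ⟨0, by
      have e : (fun j => ((T j).comp (Polynomial.C z + Polynomial.X ^ (B + 1))).eval 0) =
          fun j => (T j).eval z := by
        funext j
        rw [Polynomial.eval_comp]
        simp
      rw [e]
      exact hz⟩ j
  rw [Polynomial.natDegree_comp] at h1
  have h2 : (Polynomial.C z + Polynomial.X ^ (B + 1)).natDegree = B + 1 := by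
    rw [Polynomial.natDegree_C_add, Polynomial.natDegree_X_pow]
  rw [h2] at h1
  have h3 : 1 * (B + 1) ≤ (T j).natDegree * (B + 1) := Nat.mul_le_mul_right _ hj
  omega

/-- **Subvarieties.** The closure of a nonconstant morphism from the affine line has no nonzero
logarithmic pluricanonical form. -/
theorem sub_of_mor (hp : IsHomog p) (hQ : Q.IsHomogeneous q) {T : Fin (n + 1) → Polynomial ℂ}
    (h : Mor p Q T) (hN : NC T) :
    ∃ (K : Type) (_ : Field K) (_ : Algebra ℂ K) (w : ℕ) (y : Fin (n + 1) → K),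
      SubVarP p Q K w y ∧ 0 < w ∧ (∀ G, IsForm G →
        (W602.GT.val y G = 0 ↔ ∀ z : ℂ, eval (fun j => (T j).eval z) G = 0)) ∧
      ∀ N, 0 < N → ∀ ω : (Fin w → Derivation ℂ K K) → K,
        LogSec ℂ K w N (OffQ Q q y) ω → ω = 0 := by
  obtain ⟨j0, hj0⟩ := h.ne 0
  obtain ⟨K, i1, i2, w, y, h1, h2, h3, h4, h5⟩ := exists_closure
    (fun z j => (T j).eval z) isPreconnected_univ
    (fun j z _ => ((T j).differentiable).analyticAt z) ⟨0, mem_univ _, hj0⟩
  have hy : GenPt (fun z j => (T j).eval z) univ K w y := ⟨h1, h2, h3, h4⟩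
  obtain ⟨c, hc0, hc⟩ := h.off
  have hsub := subVar_of_genPt hp hQ hy (fun z _ H hH => by
    rw [← sum_homogeneousComponent H, map_sum]
    exact Finset.sum_eq_zero fun d _ => h.mem _ (hp H hH d)
      ⟨d, homogeneousComponent_isHomogeneous d H⟩ z) ⟨0, mem_univ _, by
    rw [hc]; exact hc0⟩
  have hrel : ∀ G, IsForm G → (W602.GT.val y G = 0 ↔ ∀ z : ℂ, eval (fun j => (T j).eval z) G = 0) :=
    fun G hG => (h4 G hG).trans ⟨fun h z => h z (mem_univ _), fun h z _ => h z⟩
  have hw : 0 < w := by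
    rcases Nat.eq_zero_or_pos w with hw | hw
    · exfalso
      choose e he using h5 hw
      obtain ⟨s, t, j, k, hst⟩ := hN
      apply hst
      rw [he j s (mem_univ _), he k t (mem_univ _), he k s (mem_univ _), he j t (mem_univ _)]
      ring
    · exact hw
  refine ⟨K, i1, i2, w, y, hsub, hw, hrel, fun N hNp ω hω => ?_⟩
  have hF : Fam y Q T 0 := by
    refine ⟨fun G hG => (hrel G hG).trans ⟨fun h0 => ?_, fun h0 z => ?_⟩, c, hc0, ?_⟩
    · apply Polynomial.funext
      intro z
      rw [ev_aeval, Polynomial.eval_zero]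
      exact h0 z
    · rw [← ev_aeval, h0, Polynomial.eval_zero]
    · rw [pow_zero, mul_one]
      apply Polynomial.funext
      intro z
      rw [ev_aeval, Polynomial.eval_C, hc]
  have hm : Algebra.trdeg ℂ ℂ = (0 : ℕ) := by
    rw [Nat.cast_zero]
    exact _root_.trdeg_eq_zero
  obtain ⟨s, t, j, k, hst⟩ := hN
  have hder : Polynomial.derivative (aeval T (X j : MvPolynomial (Fin (n + 1)) ℂ)) *
      aeval T (X k : MvPolynomial (Fin (n + 1)) ℂ) ≠
      aeval T (X j : MvPolynomial (Fin (n + 1)) ℂ) *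
        Polynomial.derivative (aeval T (X k : MvPolynomial (Fin (n + 1)) ℂ)) := by
    rw [aeval_X, aeval_X]
    intro h0
    apply hst
    rw [poly_const h0 s t]
    ring
  have hyk : W602.GT.val y (X k : MvPolynomial (Fin (n + 1)) ℂ) ≠ 0 := by
    intro h0
    apply hder
    rw [(hF.rel (X k) ⟨1, isHomogeneous_X _ _⟩).1 h0, mul_zero, Polynomial.derivative_zero,
      mul_zero]
  have hnf : ∃ r : K, ¬ Flat ℂ y T r :=
    ⟨W602.GT.val y (X j : MvPolynomial (Fin (n + 1)) ℂ) /
        W602.GT.val y (X k : MvPolynomial (Fin (n + 1)) ℂ), fun h => hder (h 1 (X j) (X k)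
      (isHomogeneous_X _ _) (isHomogeneous_X _ _) hyk rfl)⟩
  funext Dv
  exact (hF.main h3 hm h1 h2 hQ).2.2.2 rfl hnf N hNp ω hω Dv

end Pool.Agent.Q64.LC
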