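import Pool.Agent.Q64.LC.Apx
import Pool.Agent.TH143.EL.Wp

/-!
One-dimensional complex tori through points of rational curves.
-/

set_option autoImplicit false

namespace Pool.Agent.Q64.LC

open MvPolynomial Filter Topology Pool.Agent.TH143.EL Pool.Agent.W602.GT
open scoped LinearAlgebra.Projectivization

variable {n : ℕ}

/-- `g` is a nonconstant holomorphic map from the one-dimensional complex torus with the periods
`ω₁`, `ω₂` to the projective algebraic set of `I`. -/
structure TorusMap (I : Ideal (MvPolynomial (Fin (n + 1)) ℂ)) (ω₁ ω₂ : ℂ)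
    (g : ℂ → ℙ ℂ (Fin (n + 1) → ℂ)) : Prop where
  ind : LinearIndependent ℝ ![ω₁, ω₂]
  hol : HolMap g
  per₁ : ∀ z, g (z + ω₁) = g z
  per₂ : ∀ z, g (z + ω₂) = g z
  mem : ∀ z, InV I (g z)
  nc : ∃ z w, g z ≠ g w

/-- The points on the images of one-dimensional complex tori in `X`. -/
def torusPts (I : Ideal (MvPolynomial (Fin (n + 1)) ℂ)) : Set (Fin (n + 1) → ℂ) :=
  {x | ∃ (ω₁ ω₂ : ℂ) (g : ℂ → ℙ ℂ (Fin (n + 1) → ℂ)), TorusMap I ω₁ ω₂ g ∧ ∃ z, Rep (g z) x}

/-- **Tori through the points of a rational curve.** -/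
theorem torus_through {I : Ideal (MvPolynomial (Fin (n + 1)) ℂ)} {T : Fin (n + 1) → Polynomial ℂ}
    (hT : PolyCurve I 1 T) (B : ℝ) :
    ∃ (ω₁ ω₂ : ℂ) (g : ℂ → ℙ ℂ (Fin (n + 1) → ℂ)), TorusMap I ω₁ ω₂ g ∧
      ∀ u : ℂ, ‖u‖ ≤ B → (fun j => (T j).eval u) ≠ 0 → ∃ z, Rep (g z) fun j => (T j).eval u := by
  classical
  have hind : LinearIndependent ℝ ![(1 : ℂ), Complex.I] := by
    rw [LinearIndependent.pair_iff]
    intro s t h
    have h1 := congrArg Complex.re h
    have h2 := congrArg Complex.im h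
    simp at h1 h2
    exact ⟨h1, h2⟩
  let L : PeriodPair := ⟨1, Complex.I, hind⟩
  have hm := L.meromorphic_weierstrassP
  -- a disc in the image of the Weierstrass function
  obtain ⟨z0, hz0⟩ := (mero_an hm).exists
  have hop : 𝓝 (L.weierstrassP z0) ≤ map L.weierstrassP (𝓝 z0) := by
    rcases hz0.eventually_constant_or_nhds_le_map_nhds with h2 | h2
    · exact absurd h2 ((nc_wp L).local hm z0)
    · exact h2
  obtain ⟨ρ, hρ, hball⟩ : ∃ ρ > 0, ∀ v : ℂ, ‖v - L.weierstrassP z0‖ < ρ →
      ∃ z, AnalyticAt ℂ L.weierstrassP z ∧ L.weierstrassP z = v := by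
    have h1 : {z | AnalyticAt ℂ L.weierstrassP z} ∈ 𝓝 z0 := hz0.eventually_analyticAt
    have h2 := hop (image_mem_map h1)
    obtain ⟨ρ, hρ, h3⟩ := Metric.mem_nhds_iff.1 h2
    refine ⟨ρ, hρ, fun v hv => ?_⟩
    obtain ⟨z, hz, hzv⟩ := h3 (by rwa [Metric.mem_ball, dist_eq_norm])
    exact ⟨z, hz, hzv⟩
  -- the curve in a new coordinate
  let b : ℝ := (|B| + 1) / ρ
  have hb : 0 < b := by positivity
  have hb' : (b : ℂ) ≠ 0 := by exact_mod_cast hb.ne'
  let A : Polynomial ℂ := Polynomial.C (b : ℂ) * (Polynomial.X - Polynomial.C (L.weierstrassP z0))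
  let p : Fin (n + 1) → Polynomial ℂ := fun j => (T j).comp A
  have hp : ∀ v, (fun j => (p j).eval v) = fun j => (T j).eval (A.eval v) := by
    intro v
    funext j
    exact Polynomial.eval_comp
  have hAv : ∀ u : ℂ, A.eval (L.weierstrassP z0 + u / b) = u := by
    intro u
    simp only [A, Polynomial.eval_mul, Polynomial.eval_C, Polynomial.eval_sub, Polynomial.eval_X]
    field_simp
    ring
  have hnc : ∃ (u v : ℂ) (j k : Fin (n + 1)),
      (p j).eval u * (p k).eval v ≠ (p k).eval u * (p j).eval v := by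
    obtain ⟨s, t, j, k, hst⟩ := hT.ind
    refine ⟨L.weierstrassP z0 + s / b, L.weierstrassP z0 + t / b, j, k, ?_⟩
    simp only [p, Polynomial.eval_comp, hAv]
    exact hst
  obtain ⟨u1, v1, j0, k0, hne⟩ := hnc
  let h : Fin (n + 1) → ℂ → ℂ := fun j z => (p j).eval (L.weierstrassP z)
  have hh : ∀ j, Meromorphic (h j) := fun j => mero_poly hm (p j)
  have hne0 : ∃ j, ¬ ∀ᶠ z in codiscrete ℂ, h j z = 0 := by
    by_contra hcon
    push Not at hcon
    have h1 : ∀ j, p j = 0 := fun j => nc_poly hm (nc_wp L) (hcon j)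
    rw [h1 j0, h1 k0] at hne
    simp at hne
  obtain ⟨f, hf, hfr⟩ := codis_rep hh hne0
  have hper : ∀ l : L.lattice, ∀ z, f (z + l) = f z := by
    intro l z
    apply holMap_ext (hf.shift (l : ℂ)) hf
    filter_upwards [codis_ev (codis_shift (l : ℂ) hfr) z, codis_ev hfr z] with y h1 h2
    have h3 : (fun j => h j (y + l)) = fun j => h j y := by
      funext j
      change (p j).eval (L.weierstrassP (y + l)) = (p j).eval (L.weierstrassP y)
      rw [L.weierstrassP_add_coe]
    rw [h3] at h1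
    exact rep_eq h1 h2
  have hI : ∀ z, InV I (f z) := by
    intro z
    apply inV_of_punct hf
    filter_upwards [codis_ev hfr z] with y hy
    rw [inV_iff hy]
    intro G hG hGd
    have h1 := hT.mem G hG hGd (A.eval (L.weierstrassP y))
    rwa [← hp] at h1
  have hncf : ∃ z w, f z ≠ f w := by
    by_contra hcon
    push Not at hcon
    apply hne
    apply prop_of_codis hm (nc_wp L)
    filter_upwards [hfr] with z hz
    filter_upwards [hfr] with w hw
    intro j k
    rw [hcon w z] at hw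
    exact ((rep_iff hz).1 hw).2 j k
  refine ⟨1, Complex.I, f, ⟨hind, hf, hper ⟨1, L.ω₁_mem_lattice⟩,
    hper ⟨Complex.I, L.ω₂_mem_lattice⟩, hI, hncf⟩, fun u hu hu0 => ?_⟩
  have h1 : ‖L.weierstrassP z0 + u / b - L.weierstrassP z0‖ < ρ := by
    rw [add_sub_cancel_left, norm_div, Complex.norm_real, Real.norm_of_nonneg hb.le,
      div_lt_iff₀ hb]
    have h2 : ρ * b = |B| + 1 := by
      simp only [b]
      field_simp
    rw [h2]
    have := le_abs_self B
    linarith
  obtain ⟨z, hz, hzv⟩ := hball _ h1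
  refine ⟨z, ?_⟩
  obtain ⟨g, hg, hgr⟩ := hf z
  have han : ∀ j, ContinuousAt (h j) z := by
    intro j
    exact ((p j).continuous.continuousAt).comp hz.continuousAt
  have h2 := cross_of_punct (a := z) (fun j => (hg j).continuousAt) (fun j => han j) (by
    filter_upwards [hgr.filter_mono nhdsWithin_le_nhds, codis_ev hfr z] with y h3 h4
    exact ((rep_iff h3).1 h4).2)
  have h3 : (fun j => h j z) = fun j => (T j).eval u := by
    funext j
    simp only [h, p, Polynomial.eval_comp, hzv, hAv]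
  refine (rep_iff hgr.self_of_nhds).2 ⟨hu0, fun j k => ?_⟩
  have h4 := h2 j k
  have h5 : ∀ l, h l z = (T l).eval u := fun l => congrFun h3 l
  rwa [h5, h5] at h4

end Pool.Agent.Q64.LC
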