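import Mathlib

/-!
Integral points and entire curves in complements of hypersurface sections of projective schemes over
the integers of a number field: definitions.

`F₀` is a number field, embedded in `ℂ` by `ε`. The ideals `I`, `I'` and the form `Q` of degree `q`
in `n + 1` variables over the integers of `F₀` give the scheme `V`, the complement of `Q = 0` in the
closed subscheme of the projective space which is given by the forms in `I`, and its closed
subscheme `V'`, given by the forms in `I'`. For `Q = X₀` the scheme `V` can be any affine scheme of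
finite type, and for `Q = 1` any projective scheme.
-/

set_option autoImplicit false

namespace Pool.Agent.Q64.LC.Vjd

open MvPolynomial IsDedekindDomain NumberField Filter
open scoped LinearAlgebra.Projectivization

/-- The function grows faster than all polynomials. -/
def FastGrowing (Ψ : ℝ → ℝ) : Prop := ∀ k : ℕ, Tendsto (fun r => Ψ r / r ^ k) atTop atTop

variable {n : ℕ}

/-- The growth of the functions `f j` is at most `Ψ`. -/
def GrowthAtMost (Ψ : ℝ → ℝ) (f : ℂ → Fin (n + 1) → ℂ) : Prop :=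
  ∃ C R₀ : ℝ, ∀ z : ℂ, R₀ ≤ ‖z‖ → ‖f z‖ ≤ C * Ψ ‖z‖

/-- The point with the homogeneous coordinates `x` is a zero of all forms of the ideal `I`. -/
def IsZero {R A : Type} [CommRing R] [CommRing A] (φ : R →+* A)
    (I : Ideal (MvPolynomial (Fin (n + 1)) R)) (x : Fin (n + 1) → A) : Prop :=
  ∀ G ∈ I, (∃ d, G.IsHomogeneous d) → eval₂ φ x G = 0

/-- The common zeros of the forms of degree at most `D` in `I` are zeros of all forms in `I`. -/
def CutOut (D : ℕ) {R : Type} [CommRing R] (φ : R →+* ℂ)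
    (I : Ideal (MvPolynomial (Fin (n + 1)) R)) : Prop :=
  ∀ x : Fin (n + 1) → ℂ, (∀ F ∈ I, ∀ d ≤ D, F.IsHomogeneous d → eval₂ φ x F = 0) → IsZero φ I x

/-- The function `f` has the power series `∑ z ^ i a i` on the disc `|z| < r`. -/
def IsSum (r : ℝ) (a : ℕ → Fin (n + 1) → ℂ) (f : ℂ → Fin (n + 1) → ℂ) : Prop :=
  ∀ z : ℂ, ‖z‖ < r → HasSum (fun i => z ^ i • a i) (f z)

/-- The power series has infinitely many gaps `(α, β)` with `D α < β`. -/
def ManyGaps (D : ℕ) (a : ℕ → Fin (n + 1) → ℂ) : Prop :=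
  ∀ L : ℕ, ∃ α β, L ≤ β ∧ D * α < β ∧ ∀ i, α < i → i < β → a i = 0

/-- The vector `x` gives a point of the projective space with algebraic coordinates. -/
def AlgebraicPt (x : Fin (n + 1) → ℂ) : Prop :=
  x ≠ 0 ∧ ∃ c : ℂ, c ≠ 0 ∧ ∀ j, IsAlgebraic ℚ (c * x j)

/-- The sequence is given by a polynomial. -/
def IsPolySeq {L : Type} [Field L] (x : ℕ → L) : Prop :=
  ∃ p : Polynomial L, ∀ m : ℕ, x m = p.eval (m : L)

/-- the embedding of the integers of `F₀` in the complex numbers -/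
noncomputable abbrev embC {F₀ : Type} [Field F₀] (ε : F₀ →+* ℂ) : 𝓞 F₀ →+* ℂ :=
  ε.comp (algebraMap (𝓞 F₀) F₀)

/-- the embedding of the integers of `F₀` in the extension `F` -/
noncomputable abbrev embF (F₀ F : Type) [Field F₀] [Field F] [Algebra F₀ F] : 𝓞 F₀ →+* F :=
  (algebraMap F₀ F).comp (algebraMap (𝓞 F₀) F₀)

variable {F₀ : Type} [Field F₀] [NumberField F₀]

/-- The entire functions `f j` are homogeneous coordinates of a nonconstant entire curve in
`V(ℂ)`, normalized such that `Q` is constant. -/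
structure EntireIn (ε : F₀ →+* ℂ) (I : Ideal (MvPolynomial (Fin (n + 1)) (𝓞 F₀)))
    (Q : MvPolynomial (Fin (n + 1)) (𝓞 F₀)) (f : ℂ → Fin (n + 1) → ℂ) : Prop where
  diff : Differentiable ℂ f
  mem : ∀ z : ℂ, IsZero (embC ε) I (f z)
  off : ∃ c : ℂ, c ≠ 0 ∧ ∀ z : ℂ, eval₂ (embC ε) (f z) Q = c
  nc : ∃ (s t : ℂ) (j k : Fin (n + 1)), f s j * f t k ≠ f s k * f t j

/-- The functions `f j` are homogeneous coordinates of a nonconstant holomorphic curve in `V(ℂ)` on
the disc `|z| < r`, normalized such that `Q` is constant, with the power series `∑ z ^ i a i`. -/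
structure DiscIn (ε : F₀ →+* ℂ) (I : Ideal (MvPolynomial (Fin (n + 1)) (𝓞 F₀)))
    (Q : MvPolynomial (Fin (n + 1)) (𝓞 F₀)) (r : ℝ) (a : ℕ → Fin (n + 1) → ℂ)
    (f : ℂ → Fin (n + 1) → ℂ) : Prop where
  pos : 0 < r
  series : IsSum r a f
  mem : ∀ z : ℂ, ‖z‖ < r → IsZero (embC ε) I (f z)
  off : ∃ c : ℂ, c ≠ 0 ∧ ∀ z : ℂ, ‖z‖ < r → eval₂ (embC ε) (f z) Q = c
  nc : ∃ s t : ℂ, ‖s‖ < r ∧ ‖t‖ < r ∧ ∃ j k : Fin (n + 1), f s j * f t k ≠ f s k * f t j

/-- Condition (i) for the entire curves of growth at most `Ψ`. -/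
def SlowIn (Ψ : ℝ → ℝ) (ε : F₀ →+* ℂ) (I I' : Ideal (MvPolynomial (Fin (n + 1)) (𝓞 F₀)))
    (Q : MvPolynomial (Fin (n + 1)) (𝓞 F₀)) : Prop :=
  ∀ f, EntireIn ε I Q f → GrowthAtMost Ψ f → ∀ z : ℂ, IsZero (embC ε) I' (f z)

/-- The points with algebraic coordinates on the entire curves of growth at most `Ψ` in `V` lie in
`V'`. -/
def SlowAlgIn (Ψ : ℝ → ℝ) (ε : F₀ →+* ℂ) (I I' : Ideal (MvPolynomial (Fin (n + 1)) (𝓞 F₀)))
    (Q : MvPolynomial (Fin (n + 1)) (𝓞 F₀)) : Prop :=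
  ∀ f, EntireIn ε I Q f → GrowthAtMost Ψ f → ∀ z : ℂ, AlgebraicPt (f z) →
    IsZero (embC ε) I' (f z)

/-- The images of the nonconstant morphisms from the affine line to `V` over `ℂ` lie in `V'`. -/
def A1In (ε : F₀ →+* ℂ) (I I' : Ideal (MvPolynomial (Fin (n + 1)) (𝓞 F₀)))
    (Q : MvPolynomial (Fin (n + 1)) (𝓞 F₀)) : Prop :=
  ∀ T : Fin (n + 1) → Polynomial ℂ, EntireIn ε I Q (fun z j => (T j).eval z) →
    ∀ z : ℂ, IsZero (embC ε) I' fun j => (T j).eval z

/-- Condition (i) for the entire curves with infinitely many gaps `(α, β)`, `D α < β`. -/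
def GapEntire (D : ℕ) (ε : F₀ →+* ℂ) (I I' : Ideal (MvPolynomial (Fin (n + 1)) (𝓞 F₀)))
    (Q : MvPolynomial (Fin (n + 1)) (𝓞 F₀)) : Prop :=
  ∀ (a : ℕ → Fin (n + 1) → ℂ) (f : ℂ → Fin (n + 1) → ℂ), EntireIn ε I Q f →
    (∀ r, IsSum r a f) → ManyGaps D a → ∀ z : ℂ, IsZero (embC ε) I' (f z)

/-- The same for the holomorphic curves on discs. -/
def GapDiscs (D : ℕ) (ε : F₀ →+* ℂ) (I I' : Ideal (MvPolynomial (Fin (n + 1)) (𝓞 F₀)))
    (Q : MvPolynomial (Fin (n + 1)) (𝓞 F₀)) : Prop :=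
  ∀ (r : ℝ) (a : ℕ → Fin (n + 1) → ℂ) (f : ℂ → Fin (n + 1) → ℂ), DiscIn ε I Q r a f →
    ManyGaps D a → ∀ z : ℂ, ‖z‖ < r → IsZero (embC ε) I' (f z)

/-- The points of `V` with values in the `S`-integers of `F` which are not points of `V'`: the
points `x` of `V(F)` such that `|Q (x)|_v = max |x_j|_v ^ q` for all `v` outside of `S`, which are
not in `V'(F)`. -/
def OffPts (F : Type) [Field F] [NumberField F] [Algebra F₀ F]
    (S : Set (HeightOneSpectrum (𝓞 F))) (I I' : Ideal (MvPolynomial (Fin (n + 1)) (𝓞 F₀)))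
    (Q : MvPolynomial (Fin (n + 1)) (𝓞 F₀)) (q : ℕ) : Set (ℙ F (Fin (n + 1) → F)) :=
  {x | IsZero (embF F₀ F) I x.rep ∧ eval₂ (embF F₀ F) x.rep Q ≠ 0 ∧
    (∀ v ∉ S, ∀ j, v.valuation F (x.rep j) ^ q ≤ v.valuation F (eval₂ (embF F₀ F) x.rep Q)) ∧
    ¬ IsZero (embF F₀ F) I' x.rep}

/-- Condition (ii): the set of `S`-integral points of `V` outside of `V'` is finite for all finite
extensions `F` of `F₀` and all finite sets `S` of places. -/
def CondII (I I' : Ideal (MvPolynomial (Fin (n + 1)) (𝓞 F₀)))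
    (Q : MvPolynomial (Fin (n + 1)) (𝓞 F₀)) (q : ℕ) : Prop :=
  ∀ (F : Type) [Field F] [NumberField F] [Algebra F₀ F] (S : Set (HeightOneSpectrum (𝓞 F))),
    S.Finite → (OffPts F S I I' Q q).Finite

/-- Condition (ii) for polynomial sequences: all sequences of `S`-integral points of `V` outside of
`V'`, whose homogeneous coordinates are polynomials in the index, have only finitely many different
terms. -/
def CondIIPoly (I I' : Ideal (MvPolynomial (Fin (n + 1)) (𝓞 F₀)))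
    (Q : MvPolynomial (Fin (n + 1)) (𝓞 F₀)) (q : ℕ) : Prop :=
  ∀ (F : Type) [Field F] [NumberField F] [Algebra F₀ F] (S : Set (HeightOneSpectrum (𝓞 F))),
    S.Finite → ∀ (x : ℕ → Fin (n + 1) → F) (hx : ∀ m, x m ≠ 0),
    (∀ j, IsPolySeq fun m => x m j) →
    (∀ m, Projectivization.mk F (x m) (hx m) ∈ OffPts F S I I' Q q) →
    (Set.range fun m => Projectivization.mk F (x m) (hx m)).Finite

end Pool.Agent.Q64.LC.Vjd
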