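import Pool.Agent.Q64.LC.Vju
import Pool.Agent.Q64.LC.Vjd
import Pool.Agent.Q64.LC.Slw

/-!
Integral points and entire curves of slow growth: the proof.
-/

set_option autoImplicit false

namespace Pool.Agent.Q64.LC.Vjd

open MvPolynomial IsDedekindDomain NumberField Pool.Agent.TH143.HE Pool.Agent.TH600.LC
  Pool.Agent.Q64.LC
open Pool.Agent.Q64.LC.Slw (AlgPt comp_nc fibre_fin)
open scoped LinearAlgebra.Projectivization

variable {F₀ : Type} [Field F₀] [NumberField F₀] {n : ℕ}

theorem isZero_iff {R A : Type} [CommRing R] [CommRing A] {φ : R →+* A}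
    {I : Ideal (MvPolynomial (Fin (n + 1)) R)} {x : Fin (n + 1) → A} :
    IsZero φ I x ↔ IsPtP φ I x := Iff.rfl

section

variable {I I' : Ideal (MvPolynomial (Fin (n + 1)) (𝓞 F₀))}
  {Q : MvPolynomial (Fin (n + 1)) (𝓞 F₀)} {q : ℕ} {ε : F₀ →+* ℂ}

theorem isPtP_smul {F : Type} [Field F] [Algebra F₀ F]
    {J : Ideal (MvPolynomial (Fin (n + 1)) (𝓞 F₀))} {x : Fin (n + 1) → F}
    (h : IsPtP (str F₀ F) J x) (a : F) : IsPtP (str F₀ F) J (fun j => a * x j) := by
  rintro G hG ⟨d, hd⟩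
  rw [eval₂_smul_homog _ a x hd, h G hG ⟨d, hd⟩, mul_zero]

theorem isPtP_smul_iff {F : Type} [Field F] [Algebra F₀ F]
    {J : Ideal (MvPolynomial (Fin (n + 1)) (𝓞 F₀))} {x : Fin (n + 1) → F} {a : F} (ha : a ≠ 0) :
    IsPtP (str F₀ F) J (fun j => a * x j) ↔ IsPtP (str F₀ F) J x := by
  refine ⟨fun h => ?_, fun h => isPtP_smul h a⟩
  have h1 := isPtP_smul h a⁻¹
  have h2 : (fun j => a⁻¹ * (a * x j)) = x := by
    funext j
    rw [inv_mul_cancel_left₀ ha]
  rwa [h2] at h1

theorem mem_offPts (hQ : Q.IsHomogeneous q) {F : Type} [Field F] [NumberField F] [Algebra F₀ F]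
    {S : Set (HeightOneSpectrum (𝓞 F))} {x : Fin (n + 1) → F} (hx : x ≠ 0) :
    Projectivization.mk F x hx ∈ OffPts F S I I' Q q ↔
      IsPtP (str F₀ F) I x ∧ eval₂ (str F₀ F) x Q ≠ 0 ∧
      (∀ v ∉ S, ∀ j, v.valuation F (x j) ^ q ≤ v.valuation F (eval₂ (str F₀ F) x Q)) ∧
      ¬ IsPtP (str F₀ F) I' x := by
  obtain ⟨a, ha⟩ := Projectivization.exists_smul_eq_mk_rep F x hx
  have h1 : (Projectivization.mk F x hx).rep = fun j => (a : F) * x j := by
    rw [← ha]
    rfl
  have ha0 : (a : F) ≠ 0 := a.ne_zero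
  unfold OffPts
  rw [Set.mem_ofPred_eq, h1, isZero_iff, isZero_iff, isPtP_smul_iff ha0, isPtP_smul_iff ha0, eval₂_smul_homog _ _ x hQ]
  refine and_congr Iff.rfl (and_congr ?_ (and_congr ?_ Iff.rfl))
  · exact ⟨fun h => right_ne_zero_of_mul h, fun h => mul_ne_zero (pow_ne_zero _ ha0) h⟩
  · refine forall_congr' fun v => forall_congr' fun _ => forall_congr' fun j => ?_
    rw [map_mul, map_mul, map_pow, mul_pow]
    have h2 : v.valuation F (a : F) ^ q ≠ 0 := pow_ne_zero _ ((Valuation.ne_zero_iff _).2 ha0)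
    exact mul_le_mul_iff_right₀ (zero_lt_iff.2 h2)

theorem EntireIn.entire {f : ℂ → Fin (n + 1) → ℂ} (h : EntireIn ε I Q f) :
    Entire (cx (embO ε) I) (map (embO ε) Q) f := by
  obtain ⟨c, hc, hQ⟩ := h.off
  exact ⟨h.diff, fun z _ hH _ => isPtP_cx (h.mem z) hH, ⟨c, hc, fun z => by
    rw [eval_map]; exact hQ z⟩, h.nc⟩

theorem entireIn_of {T : Fin (n + 1) → Polynomial ℂ}
    (hT : PolyCurve (cx (embO ε) I) (map (embO ε) Q) T) :
    EntireIn ε I Q (fun z j => (T j).eval z) := by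
  obtain ⟨c, hc, hQ⟩ := hT.off
  obtain ⟨s, t, j, k, h⟩ := hT.ind
  exact ⟨differentiable_pi.2 fun j => (T j).differentiable,
    fun z => isPtP_of_cx fun G hG hf => hT.mem G hG hf z, ⟨c, hc, fun z => by
    rw [← eval_map]; exact hQ z⟩, s, t, j, k, h⟩

theorem polyCurve_of {T : Fin (n + 1) → Polynomial ℂ}
    (hT : EntireIn ε I Q (fun z j => (T j).eval z)) :
    PolyCurve (cx (embO ε) I) (map (embO ε) Q) T := by
  obtain ⟨c, hc, hQ⟩ := hT.off
  obtain ⟨s, t, j, k, h⟩ := hT.nc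
  exact ⟨fun H hH _ z => isPtP_cx (hT.mem z) hH, ⟨c, hc, fun z => by
    rw [eval_map]; exact hQ z⟩, s, t, j, k, h⟩

theorem e_str {L : Type} [Field L] [Algebra F₀ L] {e : L →+* ℂ}
    (he : e.comp (algebraMap F₀ L) = ε) : e.comp (str F₀ L) = embC ε := by
  ext y
  change e (algebraMap F₀ L (algebraMap (𝓞 F₀) F₀ y)) = ε (algebraMap (𝓞 F₀) F₀ y)
  rw [← he]
  rfl

theorem ev_e {L : Type} [Field L] [Algebra F₀ L] {e : L →+* ℂ}
    (he : e.comp (algebraMap F₀ L) = ε) (G : MvPolynomial (Fin (n + 1)) (𝓞 F₀))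
    (y : Fin (n + 1) → L) : eval₂ (embC ε) (fun j => e (y j)) G = e (eval₂ (str F₀ L) y G) := by
  rw [eval₂_comp_left, e_str he]
  rfl

theorem isPtP_e {L : Type} [Field L] [Algebra F₀ L] {e : L →+* ℂ}
    (he : e.comp (algebraMap F₀ L) = ε) {J : Ideal (MvPolynomial (Fin (n + 1)) (𝓞 F₀))}
    {y : Fin (n + 1) → L} : IsPtP (embC ε) J (fun j => e (y j)) ↔ IsPtP (str F₀ L) J y := by
  constructor
  · intro h G hG hd
    apply e.injective
    rw [← ev_e he, h G hG hd, map_zero]
  · intro h G hG hd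
    rw [ev_e he, h G hG hd, map_zero]

theorem isPtP_c {J : Ideal (MvPolynomial (Fin (n + 1)) (𝓞 F₀))} {y : Fin (n + 1) → ℂ} (c : ℂ)
    (h : IsPtP (embC ε) J y) : IsPtP (embC ε) J (fun j => c * y j) := by
  rintro G hG ⟨d, hd⟩
  rw [eval₂_smul_homog _ c y hd, h G hG ⟨d, hd⟩, mul_zero]

/-- the sequence with the given first terms -/
theorem exists_seqQ {L : Type} [Field L] [NumberField L] [Algebra F₀ L] (e : L →+* ℂ)
    (hQ : Q.IsHomogeneous q) {P : Fin (n + 1) → Polynomial L} (h : MorQ I Q P) {r : ℕ}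
    (w : Fin (r + 1) → L) (hw : ∀ i, ¬ IsPtP (str F₀ L) I' fun j => (P j).eval (w i)) :
    ∃ (S : Set (HeightOneSpectrum (𝓞 L))) (_ : S.Finite) (x : ℕ → Fin (n + 1) → L)
      (hx : ∀ m, x m ≠ 0), (∀ j, PolySeq fun m => x m j) ∧
      (∀ m, Projectivization.mk L (x m) (hx m) ∈ OffPts L S I I' Q q) ∧
      (Set.range fun m => Projectivization.mk L (x m) (hx m)).Infinite ∧
      ∀ (i : Fin (r + 1)) (j : Fin (n + 1)), x i j = (P j).eval (w i) := by
  classical
  obtain ⟨G, hG, ⟨d, hd⟩, hne⟩ : ∃ G ∈ I', (∃ d, G.IsHomogeneous d) ∧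
      eval₂ (str F₀ L) (fun j => (P j).eval (w 0)) G ≠ 0 := by
    have h1 := hw 0
    unfold IsPtP at h1
    push Not at h1
    exact h1
  have hGP : eval₂ (Polynomial.C.comp (str F₀ L)) P G ≠ 0 := by
    intro h0
    apply hne
    rw [← eval₂_eval, h0, Polynomial.eval_zero]
  obtain ⟨v, hv, hvG⟩ := interp_off e w (mul_ne_zero hGP (Polynomial.X_sub_C_ne_zero (w 0)))
  have hv0 : v.eval (0 : L) = w 0 := by
    have := hv 0
    simpa using this
  have hvc : ∀ a, v ≠ Polynomial.C a := by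
    intro a ha
    apply hvG (r + 1) le_rfl
    rw [Polynomial.eval_mul, Polynomial.eval_sub, Polynomial.eval_X, Polynomial.eval_C, ← hv0, ha,
      Polynomial.eval_C, Polynomial.eval_C, sub_self, mul_zero]
  have hev : ∀ (m : L) j, ((P j).comp v).eval m = (P j).eval (v.eval m) := fun m j =>
    Polynomial.eval_comp
  have hx : ∀ m : ℕ, (fun j => ((P j).comp v).eval (m : L)) ≠ 0 := by
    intro m
    simp only [hev]
    exact h.ne _
  have hnc := comp_nc h.nc hvc
  obtain ⟨b, hb, hQb⟩ := h.off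
  have hQv : ∀ u : L, eval₂ (str F₀ L) (fun j => (P j).eval u) Q = b := by
    intro u
    rw [← eval₂_eval, hQb, Polynomial.eval_C]
  let T : Finset L := insert b⁻¹ (Finset.univ.biUnion fun j => ((P j).comp v).coeffs)
  let S : Set (HeightOneSpectrum (𝓞 L)) := ⋃ c ∈ T, HeightOneSpectrum.Support (𝓞 L) c
  have hSfin : S.Finite :=
    (Finset.finite_toSet _).biUnion fun c _ => HeightOneSpectrum.Support.finite _ _
  have hcS : ∀ c ∈ T, ∀ v ∉ S, v.valuation L c ≤ 1 := by
    intro c hc v hv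
    by_contra hcon
    rw [not_le] at hcon
    exact hv (Set.mem_biUnion hc hcon)
  refine ⟨S, hSfin, fun m j => ((P j).comp v).eval (m : L), hx, fun j => ⟨(P j).comp v, fun m =>
    rfl⟩, fun m => (mem_offPts hQ (hx m)).2 ⟨?_, ?_, fun v' hv' j => ?_, ?_⟩, fun hfin => ?_,
    fun i j => ?_⟩
  · simp only [hev]
    intro G hG hd
    rw [← eval₂_eval, h.zero G hG hd, Polynomial.eval_zero]
  · simp only [hev]
    rw [hQv]
    exact hb
  · have h1 : v'.valuation L (eval₂ (str F₀ L) (fun j => ((P j).comp v).eval (m : L)) Q) =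
        v'.valuation L b := by
      simp only [hev]
      rw [hQv]
    rw [h1]
    have h2 : v'.valuation L (((P j).comp v).eval (m : L)) ≤ 1 := by
      rw [Polynomial.eval_eq_sum_range]
      refine Valuation.map_sum_le _ fun i _ => ?_
      rw [map_mul, map_pow]
      refine mul_le_one' ?_ (pow_le_one' ?_ _)
      · by_cases h0 : ((P j).comp v).coeff i = 0
        · rw [h0, map_zero]
          exact zero_le_one
        · exact hcS _ (Finset.mem_insert_of_mem (Finset.mem_biUnion.2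
            ⟨j, Finset.mem_univ j, Polynomial.coeff_mem_coeffs h0⟩)) v' hv'
      · have h3 := v'.valuation_le_one (K := L) (m : 𝓞 L)
        have h4 : algebraMap (𝓞 L) L (m : 𝓞 L) = (m : L) := map_natCast _ _
        rw [← h4]
        exact h3
    have h3 : 1 ≤ v'.valuation L b := by
      have h4 := hcS _ (Finset.mem_insert_self _ _) v' hv'
      rw [map_inv₀] at h4
      have h5 : v'.valuation L b ≠ 0 := (Valuation.ne_zero_iff _).2 hb
      exact (inv_le_one₀ (zero_lt_iff.2 h5)).1 h4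
    exact (pow_le_one' h2 q).trans h3
  · simp only [hev]
    by_cases hm : m < r + 1
    · have h1 := hw ⟨m, hm⟩
      have h2 := hv ⟨m, hm⟩
      rw [← h2] at h1
      exact h1
    · have h1 := hvG m (not_lt.1 hm)
      rw [Polynomial.eval_mul] at h1
      intro h2
      apply left_ne_zero_of_mul h1
      rw [eval₂_eval]
      exact h2 G hG ⟨d, hd⟩
  · have : Finite (Set.range fun m : ℕ => Projectivization.mk L
        (fun j => ((P j).comp v).eval (m : L)) (hx m)) := hfin
    obtain ⟨y, hy⟩ := Finite.exists_infinite_fiber (Set.rangeFactorization fun m : ℕ =>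
      Projectivization.mk L (fun j => ((P j).comp v).eval (m : L)) (hx m))
    obtain ⟨m0, hm0⟩ : ∃ m0 : ℕ, m0 ∈ (Set.rangeFactorization fun m : ℕ =>
        Projectivization.mk L (fun j => ((P j).comp v).eval (m : L)) (hx m)) ⁻¹' {y} := by
      obtain ⟨m0⟩ := (inferInstance : Nonempty ((Set.rangeFactorization fun m : ℕ =>
        Projectivization.mk L (fun j => ((P j).comp v).eval (m : L)) (hx m)) ⁻¹' {y}))
      exact ⟨_, m0.2⟩
    have h1 := fibre_fin hnc (hx m0)
    refine (Set.infinite_coe_iff.1 hy) (h1.subset fun m hm i j => ?_)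
    have h2 : Projectivization.mk L (fun j => ((P j).comp v).eval (m : L)) (hx m) =
        Projectivization.mk L (fun j => ((P j).comp v).eval (m0 : L)) (hx m0) := by
      have h6 : (Set.rangeFactorization fun m : ℕ =>
        Projectivization.mk L (fun j => ((P j).comp v).eval (m : L)) (hx m)) m = y := hm
      have h7 : (Set.rangeFactorization fun m : ℕ =>
        Projectivization.mk L (fun j => ((P j).comp v).eval (m : L)) (hx m)) m0 = y := hm0
      exact congrArg Subtype.val (h6.trans h7.symm)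
    rw [Projectivization.mk_eq_mk_iff'] at h2
    obtain ⟨c, hc⟩ := h2
    have e1 := congrFun hc i
    have e2 := congrFun hc j
    simp only [Pi.smul_apply, smul_eq_mul] at e1 e2
    rw [← e1, ← e2]
    ring
  · change ((P j).comp v).eval (((i : ℕ) : L)) = _
    rw [hev, hv]

theorem poly_of_a1 (hQ : Q.IsHomogeneous q) (h : A1In ε I I' Q) : CondIIPoly I I' Q q := by
  classical
  intro F _ _ _ S hS x hx hpoly hpts
  by_contra hinf
  let _ : Algebra F₀ ℂ := ε.toAlgebra
  have halg : Algebra.IsAlgebraic F₀ F := Algebra.IsAlgebraic.tower_top (K := ℚ) F₀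
  let e0 : F →ₐ[F₀] ℂ := IsAlgClosed.lift
  let e : F →+* ℂ := e0
  have he : e.comp (algebraMap F₀ F) = ε := by
    ext r
    exact e0.commutes _
  choose p hp using hpoly
  have hp0 : ∃ j, p j ≠ 0 := by
    by_contra hno
    push Not at hno
    apply hx 0
    funext j
    have h1 : x 0 j = (p j).eval ((0 : ℕ) : F) := hp j 0
    rw [h1, hno j, Polynomial.eval_zero]
    rfl
  obtain ⟨g, p', a, hg, hpg, hbez⟩ := exists_coprime p hp0
  have hxg : ∀ m, x m = fun j => g.eval (m : F) * (p' j).eval (m : F) := by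
    intro m
    funext j
    have h1 : x m j = (p j).eval (m : F) := hp j m
    rw [h1, hpg j, Polynomial.eval_mul]
  have hgm : ∀ m : ℕ, g.eval (m : F) ≠ 0 := by
    intro m h0
    apply hx m
    rw [hxg m, h0]
    funext j
    rw [zero_mul]
    rfl
  have hpt := fun m => (mem_offPts hQ (hx m)).1 (hpts m)
  simp only [hxg] at hpt
  simp only [isPtP_smul_iff (hgm _), eval₂_smul_homog _ _ _ hQ] at hpt
  -- the constant
  let T : Finset F := (Finset.univ.biUnion fun j => (p' j).coeffs) ∪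
    Finset.univ.biUnion fun j => (a j).coeffs
  let S' : Set (HeightOneSpectrum (𝓞 F)) := S ∪ ⋃ c ∈ T, HeightOneSpectrum.Support (𝓞 F) c
  have hSfin : S'.Finite :=
    hS.union ((Finset.finite_toSet _).biUnion fun c _ => HeightOneSpectrum.Support.finite _ _)
  have hcS : ∀ c ∈ T, ∀ v ∉ S', v.valuation F c ≤ 1 := by
    intro c hc v hv
    by_contra hcon
    rw [not_le] at hcon
    exact hv (Or.inr (Set.mem_biUnion hc hcon))
  have hle : ∀ P : Polynomial F, P.coeffs ⊆ T → ∀ v ∉ S', ∀ m : ℕ,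
      v.valuation F (P.eval (m : F)) ≤ 1 := by
    intro P hP v hv m
    rw [Polynomial.eval_eq_sum_range]
    refine Valuation.map_sum_le _ fun i _ => ?_
    rw [map_mul, map_pow]
    refine mul_le_one' ?_ (pow_le_one' ?_ _)
    · by_cases h0 : P.coeff i = 0
      · rw [h0, map_zero]
        exact zero_le_one
      · exact hcS _ (hP (Polynomial.coeff_mem_coeffs h0)) v hv
    · have h3 := v.valuation_le_one (K := F) (m : 𝓞 F)
      have h4 : algebraMap (𝓞 F) F (m : 𝓞 F) = (m : F) := map_natCast _ _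
      rw [← h4]
      exact h3
  have hQp : (eval₂ (Polynomial.C.comp (str F₀ F)) p' Q).natDegree = 0 := by
    refine const_of_unitVals hSfin fun m v hv => ?_
    rw [eval₂_eval]
    have h1 : ∀ j, v.valuation F ((p' j).eval (m : F)) ≤ 1 := fun j =>
      hle _ ((Finset.subset_biUnion_of_mem (fun j => (p' j).coeffs)
        (Finset.mem_univ j)).trans Finset.subset_union_left) v hv m
    have h2 : ∀ j, v.valuation F ((a j).eval (m : F)) ≤ 1 := fun j =>
      hle _ ((Finset.subset_biUnion_of_mem (fun j => (a j).coeffs)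
        (Finset.mem_univ j)).trans Finset.subset_union_right) v hv m
    apply le_antisymm
    · have h3 : eval₂ (str F₀ F) (fun j => (p' j).eval (m : F)) Q ∈
          (v.valuation F).valuationSubring.toSubring := by
        refine MvPolynomial.eval₂_mem (fun i _ => ?_) (fun j => ?_)
        · change v.valuation F _ ≤ 1
          have h4 := v.valuation_le_one (K := F) (algebraMap (𝓞 F₀) (𝓞 F) (Q.coeff i))
          exact h4
        · exact h1 j
      exact h3
    · obtain ⟨j, hj⟩ : ∃ j, v.valuation F ((p' j).eval (m : F)) = 1 := by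
        by_contra hno
        push Not at hno
        have h3 := congrArg (Polynomial.eval (m : F)) hbez
        rw [Polynomial.eval_finsetSum, Polynomial.eval_one] at h3
        have h4 : v.valuation F (∑ j, (a j * p' j).eval (m : F)) < 1 := by
          refine Valuation.map_sum_lt _ one_ne_zero fun j _ => ?_
          rw [Polynomial.eval_mul, map_mul]
          exact lt_of_le_of_lt (mul_le_of_le_one_left' (h2 j)) (lt_of_le_of_ne (h1 j) (hno j))
        rw [h3, map_one] at h4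
        exact lt_irrefl _ h4
      have h3 := (hpt m).2.2.1 v (fun h => hv (Or.inl h)) j
      rw [map_mul, map_mul, map_pow, mul_pow, hj, one_pow, mul_one] at h3
      have h4 : v.valuation F (g.eval (m : F)) ^ q ≠ 0 :=
        pow_ne_zero _ ((Valuation.ne_zero_iff _).2 (hgm m))
      exact (le_mul_iff_one_le_right (zero_lt_iff.2 h4)).1 h3
  have hQ0 : ∀ m : ℕ, eval₂ (str F₀ F) (fun j => (p' j).eval (m : F)) Q ≠ 0 := fun m =>
    right_ne_zero_of_mul (hpt m).2.1
  have hQc := Polynomial.eq_C_of_natDegree_eq_zero hQp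
  set b := (eval₂ (Polynomial.C.comp (str F₀ F)) p' Q).coeff 0 with hb
  have hb0 : b ≠ 0 := by
    intro h0
    apply hQ0 0
    rw [← eval₂_eval, hQc, h0, Polynomial.C_0, Polynomial.eval_zero]
  -- the curve
  have hmap : ∀ (G : MvPolynomial (Fin (n + 1)) (𝓞 F₀)) (z : ℂ),
      eval₂ (embC ε) (fun j => ((p' j).map e).eval z) G =
        ((eval₂ (Polynomial.C.comp (str F₀ F)) p' G).map e).eval z := by
    intro G z
    rw [eval₂_map', e_str he, eval₂_eval]
  have hI : ∀ G ∈ I, (∃ d, G.IsHomogeneous d) →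
      eval₂ (Polynomial.C.comp (str F₀ F)) p' G = 0 := by
    intro G hG hd
    apply Polynomial.eq_zero_of_infinite_isRoot
    refine Set.Infinite.mono (s := Set.range fun m : ℕ => (m : F)) ?_
      (Set.infinite_range_of_injective Nat.cast_injective)
    rintro _ ⟨m, rfl⟩
    change Polynomial.eval _ _ = 0
    rw [eval₂_eval]
    exact (hpt m).1 G hG hd
  by_cases hnc : ∃ j k i i', (p' j).coeff i * (p' k).coeff i' ≠ (p' k).coeff i * (p' j).coeff i'
  · have hE : EntireIn ε I Q (fun z j => ((p' j).map e).eval z) := by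
      refine ⟨differentiable_pi.2 fun j => ((p' j).map e).differentiable, fun z G hG hd => ?_,
        ⟨e b, fun h0 => hb0 (e.injective (by rw [h0, map_zero])), fun z => ?_⟩, ?_⟩
      · rw [hmap, hI G hG hd, Polynomial.map_zero, Polynomial.eval_zero]
      · rw [hmap, hQc, Polynomial.map_C, Polynomial.eval_C]
      · obtain ⟨j, k, i, i', h1⟩ := hnc
        have h2 : ∃ j k i i', ((p' j).map e).coeff i * ((p' k).map e).coeff i' ≠
            ((p' k).map e).coeff i * ((p' j).map e).coeff i' := by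
          refine ⟨j, k, i, i', fun h0 => h1 ?_⟩
          simp only [Polynomial.coeff_map] at h0
          rw [← map_mul, ← map_mul] at h0
          exact e.injective h0
        obtain ⟨j, k, s, t, h3⟩ := (nc_iff _).1 h2
        exact ⟨s, t, j, k, h3⟩
    have h1 := h _ hE ((0 : ℕ) : ℂ)
    have h2 : (fun j => ((p' j).map e).eval ((0 : ℕ) : ℂ)) =
        fun j => e ((p' j).eval ((0 : ℕ) : F)) := by
      funext j
      rw [← map_natCast e 0, Polynomial.eval_map_apply]
    rw [h2, isZero_iff, isPtP_e he] at h1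
    exact (hpt 0).2.2.2 h1
  · push Not at hnc
    apply hinf
    refine (Set.finite_singleton (Projectivization.mk F (x 0) (hx 0))).subset ?_
    rintro _ ⟨m, rfl⟩
    rw [Set.mem_singleton_iff]
    apply Pool.Agent.Results.MP_f82ddf_nt.LacunaryLang.mk_eq
    intro i j
    by_contra hne
    obtain ⟨j, k, i, i', h1⟩ := (nc_iff p').2 ⟨i, j, (m : F), ((0 : ℕ) : F), fun h0 => hne (by
      rw [hxg m, hxg 0]
      linear_combination (g.eval (m : F) * g.eval ((0 : ℕ) : F)) * h0)⟩
    exact h1 (hnc j k i i')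

/-- a curve over a number field -/
theorem desc_a1 (hQ : Q.IsHomogeneous q) (h : ¬ A1In ε I I' Q) :
    ∃ (L : Type) (_ : Field L) (_ : NumberField L) (_ : Algebra F₀ L) (e : L →+* ℂ)
      (_ : e.comp (algebraMap F₀ L) = ε) (P : Fin (n + 1) → Polynomial L) (w : L),
      MorQ I Q P ∧ ¬ IsPtP (str F₀ L) I' fun j => (P j).eval w := by
  unfold A1In IsZero at h
  push Not at h
  obtain ⟨T, hT, z, G, hG, ⟨d, hd⟩, hz⟩ := h
  obtain ⟨L, iF, iN, iA, e, he, P, -, hP, -, -, hPG⟩ := alg_curveQ ε hQ (polyCurve_of hT) (r := 0)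
    (x := Fin.elim0) (fun i => i.elim0) (fun i => i.elim0) Fin.elim0 Fin.elim0
    (fun i => i.elim0) hd ⟨z, hz⟩
  obtain ⟨m, hm⟩ : ∃ m : L, (eval₂ (Polynomial.C.comp (str F₀ L)) P G).eval m ≠ 0 := by
    by_contra hno
    push Not at hno
    exact hPG (Polynomial.funext fun m => by rw [hno m, Polynomial.eval_zero])
  refine ⟨L, iF, iN, iA, e, he, P, m, hP, fun h1 => hm ?_⟩
  rw [eval₂_eval]
  exact h1 G hG ⟨d, hd⟩

theorem a1_of_poly (hQ : Q.IsHomogeneous q) (h : CondIIPoly I I' Q q) : A1In ε I I' Q := by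
  by_contra hno
  obtain ⟨L, iF, iN, iA, e, he, P, w, hP, hw⟩ := desc_a1 hQ hno
  obtain ⟨S, hS, x, hx, h1, h2, h3, -⟩ := exists_seqQ e hQ hP (r := 0) (fun _ => w) fun _ => hw
  exact h3 (h L S hS x hx h1 h2)

theorem entireIn_map {L : Type} [Field L] [NumberField L] [Algebra F₀ L] {e : L →+* ℂ}
    (he : e.comp (algebraMap F₀ L) = ε) {P : Fin (n + 1) → Polynomial L} (hP : MorQ I Q P) :
    EntireIn ε I Q (fun z j => ((P j).map e).eval z) := by
  have hmap : ∀ (G : MvPolynomial (Fin (n + 1)) (𝓞 F₀)) (z : ℂ),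
      eval₂ (embC ε) (fun j => ((P j).map e).eval z) G =
        ((eval₂ (Polynomial.C.comp (str F₀ L)) P G).map e).eval z := by
    intro G z
    rw [eval₂_map', e_str he, eval₂_eval]
  obtain ⟨b, hb, hQb⟩ := hP.off
  refine ⟨differentiable_pi.2 fun j => ((P j).map e).differentiable, fun z G hG hd => ?_,
    ⟨e b, fun h0 => hb (e.injective (by rw [h0, map_zero])), fun z => ?_⟩, ?_⟩
  · rw [hmap, hP.zero G hG hd, Polynomial.map_zero, Polynomial.eval_zero]
  · rw [hmap, hQb, Polynomial.map_C, Polynomial.eval_C]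
  · obtain ⟨j, k, i, i', h1⟩ := hP.nc
    have h2 : ∃ j k i i', ((P j).map e).coeff i * ((P k).map e).coeff i' ≠
        ((P k).map e).coeff i * ((P j).map e).coeff i' := by
      refine ⟨j, k, i, i', fun h0 => h1 ?_⟩
      simp only [Polynomial.coeff_map] at h0
      rw [← map_mul, ← map_mul] at h0
      exact e.injective h0
    obtain ⟨j, k, s, t, h3⟩ := (nc_iff _).1 h2
    exact ⟨s, t, j, k, h3⟩

theorem a1_of_slowAlg {Ψ : ℝ → ℝ} (hΨ : SuperPoly Ψ) (hQ : Q.IsHomogeneous q)
    (h : SlowAlgIn Ψ ε I I' Q) : A1In ε I I' Q := by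
  by_contra hno
  obtain ⟨L, iF, iN, iA, e, he, P, w, hP, hw⟩ := desc_a1 hQ hno
  have hf := entireIn_map he hP
  have hval : (fun j => ((P j).map e).eval (e w)) = fun j => e ((P j).eval w) :=
    funext fun j => Polynomial.eval_map_apply e w
  have halg : ∀ a : L, IsAlgebraic ℚ (e a) := fun a =>
    (Algebra.IsAlgebraic.isAlgebraic a : IsAlgebraic ℚ a).algHom e.toRatAlgHom
  have h1 := h _ hf (growthLe_poly hΨ fun j => (P j).map e) (e w) (by
    rw [hval]
    refine ⟨fun h0 => hP.ne w ?_, 1, one_ne_zero, fun j => ?_⟩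
    · funext j
      exact e.injective (by rw [congrFun h0 j]; exact (map_zero e).symm)
    · rw [one_mul]
      exact halg _)
  rw [hval, isZero_iff, isPtP_e he] at h1
  exact hw h1

theorem slow_of_a1 {Ψ : ℝ → ℝ}
    (hΨ : ∀ f, Entire (cx (embO ε) I) (map (embO ε) Q) f → GrowthLe Ψ f →
      ∀ z, f z ∈ closure (ratPts (cx (embO ε) I) (map (embO ε) Q)))
    (h : A1In ε I I' Q) : SlowIn Ψ ε I I' Q := by
  intro f hf hg z G hG hd
  have h1 := hΨ f hf.entire hg z
  have hcl : IsClosed {x : Fin (n + 1) → ℂ | eval x (map (embC ε) G) = 0} :=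
    isClosed_eq (MvPolynomial.continuous_eval _) continuous_const
  have h2 : ratPts (cx (embO ε) I) (map (embO ε) Q) ⊆
      {x : Fin (n + 1) → ℂ | eval x (map (embC ε) G) = 0} := by
    rintro _ ⟨T, hT, u, rfl⟩
    have h3 := h T (entireIn_of hT) u G hG hd
    rw [← eval_map] at h3
    exact h3
  have h3 := (closure_minimal h2 hcl) h1
  rw [Set.mem_ofPred_eq, eval_map] at h3
  exact h3

theorem gapDiscs_of_a1 {D : ℕ} (hD : 1 ≤ D) (hQ : Q.IsHomogeneous q) (hqD : q ≤ D)
    (hcut : Cut D (embC ε) I) (h : A1In ε I I' Q) : GapDiscs D ε I I' Q := by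
  rintro r a f hf hb z hz G hG hd
  obtain ⟨c, hc, hcQ⟩ := hf.off
  have h1 := vanish_gap hD (hQ.map (embO ε)) hqD (cutBy_cx hcut) (G := map (embC ε) G)
    (fun T hT u => ?_) ⟨hf.pos, hf.series, fun z hz _ hH _ => isPtP_cx (hf.mem z hz) hH,
      c, hc, fun z hz => by rw [eval_map]; exact hcQ z hz⟩ hf.nc hb hz
  · rwa [eval_map] at h1
  · rw [eval_map]
    exact h T (entireIn_of hT) u G hG hd

theorem gapEntire_of_discs {D : ℕ} (h : GapDiscs D ε I I' Q) : GapEntire D ε I I' Q := by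
  intro a f hf hs hb z
  obtain ⟨s, t, j, k, hst⟩ := hf.nc
  obtain ⟨c, hc, hcQ⟩ := hf.off
  have hs1 := norm_nonneg s
  have ht1 := norm_nonneg t
  have hz1 := norm_nonneg z
  exact h (‖s‖ + ‖t‖ + ‖z‖ + 1) a f ⟨by positivity, hs _, fun z _ => hf.mem z,
    ⟨c, hc, fun z _ => hcQ z⟩, ⟨s, t, by linarith, by linarith, j, k, hst⟩⟩ hb z (by linarith)

theorem a1_of_gapEntire {D : ℕ} (h : GapEntire D ε I I' Q) : A1In ε I I' Q := by
  intro T hT z
  have hser : ∀ z : ℂ, HasSum (fun i => z ^ i • fun j => (T j).coeff i)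
      (fun j => (T j).eval z) := by
    intro z
    rw [Pi.hasSum]
    intro j
    have h1 : (T j).eval z = ∑ i ∈ Finset.range ((T j).natDegree + 1),
        (z ^ i • fun j => (T j).coeff i) j := by
      rw [Polynomial.eval_eq_sum_range]
      exact Finset.sum_congr rfl fun i _ => mul_comm _ _
    rw [h1]
    apply hasSum_sum_of_ne_finset_zero
    intro i hi
    rw [Finset.mem_range, not_lt] at hi
    rw [Pi.smul_apply, Polynomial.coeff_eq_zero_of_natDegree_lt (by omega), smul_zero]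
  refine h _ _ hT (fun r z _ => hser z) (fun L => ?_) z
  obtain ⟨m, hm⟩ : ∃ m, ∀ j, (T j).natDegree ≤ m :=
    ⟨Finset.univ.sup fun j => (T j).natDegree, fun j =>
      Finset.le_sup (f := fun j => (T j).natDegree) (Finset.mem_univ j)⟩
  refine ⟨m, L + D * m + 1, by omega, by omega, fun i hi _ => ?_⟩
  funext j
  exact Polynomial.coeff_eq_zero_of_natDegree_lt (lt_of_le_of_lt (hm j) hi)

end

theorem main : ∃ Ψ : ℝ → ℝ, FastGrowing Ψ ∧ ∀ (F₀ : Type) [Field F₀] [NumberField F₀]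
    (ε : F₀ →+* ℂ) (n : ℕ) (I I' : Ideal (MvPolynomial (Fin (n + 1)) (𝓞 F₀)))
    (Q : MvPolynomial (Fin (n + 1)) (𝓞 F₀)) (q : ℕ), Q.IsHomogeneous q →
    -- (A) equivalences
    [SlowIn Ψ ε I I' Q, SlowAlgIn Ψ ε I I' Q, A1In ε I I' Q, CondIIPoly I I' Q q].TFAE ∧
    (∀ D : ℕ, 1 ≤ D → q ≤ D → CutOut D (embC ε) I →
      [SlowIn Ψ ε I I' Q, GapEntire D ε I I' Q, GapDiscs D ε I I' Q].TFAE) ∧
    -- (B) condition (ii)
    (CondII I I' Q q → SlowIn Ψ ε I I' Q) ∧
    -- (C) algebraic points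
    (∀ f, EntireIn ε I Q f → GrowthAtMost Ψ f → ∀ (r : ℕ) (z : Fin (r + 1) → ℂ),
      (∀ i, AlgebraicPt (f (z i)) ∧ ¬ IsZero (embC ε) I' (f (z i))) →
      ∃ (L : Type) (_ : Field L) (_ : NumberField L) (_ : Algebra F₀ L) (e : L →+* ℂ)
        (_ : e.comp (algebraMap F₀ L) = ε) (S : Set (HeightOneSpectrum (𝓞 L))) (_ : S.Finite)
        (x : ℕ → Fin (n + 1) → L) (hx : ∀ m, x m ≠ 0), (∀ j, IsPolySeq fun m => x m j) ∧
        (∀ m, Projectivization.mk L (x m) (hx m) ∈ OffPts L S I I' Q q) ∧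
        (Set.range fun m => Projectivization.mk L (x m) (hx m)).Infinite ∧
        ∀ i : Fin (r + 1), ∃ c : ℂ, f (z i) = fun j => c * e (x i j)) := by
  obtain ⟨Ψ, h1, h2⟩ := uni_main Qbar
  refine ⟨Ψ, h1, fun F₀ _ _ ε n I I' Q q hQ => ?_⟩
  obtain ⟨-, hcl, -, hK⟩ := h2 n (cx (embO ε) I) (map (embO ε) Q) q (homog_cxO ε I)
    (hQ.map (embO ε)) (overK_cxO ε I) (coeffK_map ε Q)
  have hA : [SlowIn Ψ ε I I' Q, SlowAlgIn Ψ ε I I' Q, A1In ε I I' Q,
      CondIIPoly I I' Q q].TFAE := by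
    tfae_have 1 → 2 := fun h f hf hg z _ => h f hf hg z
    tfae_have 2 → 3 := a1_of_slowAlg h1 hQ
    tfae_have 3 → 1 := slow_of_a1 hcl
    tfae_have 3 → 4 := poly_of_a1 hQ
    tfae_have 4 → 3 := a1_of_poly hQ
    tfae_finish
  refine ⟨hA, fun D hD hqD hcut => ?_, fun h => (hA.out 0 3).2 ?_, fun f hf hg r z hz => ?_⟩
  · have h13 : SlowIn Ψ ε I I' Q ↔ A1In ε I I' Q := hA.out 0 2
    tfae_have 1 → 3 := fun h => gapDiscs_of_a1 hD hQ hqD hcut (h13.1 h)
    tfae_have 3 → 2 := gapEntire_of_discs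
    tfae_have 2 → 1 := fun h => h13.2 (a1_of_gapEntire h)
    tfae_finish
  · intro F _ _ _ S hS x hx _ hpts
    refine (h F S hS).subset ?_
    rintro _ ⟨m, rfl⟩
    exact hpts m
  · choose hz1 hz2 using hz
    choose hz0 b hb hba using hz1
    have hb' : ∀ i j, b i * f (z i) j ∈ Qbar := fun i j => mem_qbar.2 (hba i j)
    have hx0 : ∀ i, b i • f (z i) ≠ 0 := fun i => smul_ne_zero (hb i) (hz0 i)
    obtain ⟨T, hT, hu⟩ := (hK (r + 1) f hf.entire hg).1 (fun i => b i • f (z i))
      (fun i j => hb' i j) (fun i => ⟨z i, b i, rfl⟩)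
    choose u c huc using hu
    have hone : (1 : MvPolynomial (Fin (n + 1)) (𝓞 F₀)).IsHomogeneous 0 := isHomogeneous_one _ _
    obtain ⟨L, iF, iN, iA, e, he, P, w, hP, hPx, -, -⟩ := alg_curveQ ε hQ hT hx0
      (fun i j => hba i j) u c huc hone ⟨0, by rw [eval₂_one]; exact one_ne_zero⟩
    choose c' hc' using hPx
    have hback : ∀ i, f (z i) = fun j => (b i)⁻¹ * c' i * e ((P j).eval (w i)) := by
      intro i
      funext j
      have h4 := congrFun (hc' i) j
      rw [Pi.smul_apply, smul_eq_mul] at h4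
      rw [mul_assoc, ← h4, inv_mul_cancel_left₀ (hb i)]
    obtain ⟨S, hS, x, hx, hx1, hx2, hx3, hx4⟩ := exists_seqQ (I' := I') e hQ hP w fun i h => by
      apply hz2 i
      rw [hback i]
      exact isPtP_c _ ((isPtP_e he).2 h)
    refine ⟨L, iF, iN, iA, e, he, S, hS, x, hx, hx1, hx2, hx3, fun i => ⟨(b i)⁻¹ * c' i, ?_⟩⟩
    simp only [hx4]
    exact hback i

end Pool.Agent.Q64.LC.Vjd
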