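import Pool.Agent.Q64.LC.Nfd
import Pool.Agent.TH143.HE.Desc

/-!
Polynomial curves over number fields in the complement of a hypersurface section, and sequences of
integral points on them.
-/

set_option autoImplicit false

namespace Pool.Agent.Q64.LC

open MvPolynomial Filter Topology NumberField IsDedekindDomain
  Pool.Agent.TH143.GT Pool.Agent.W602.GT Pool.Agent.W603.GR Pool.Agent.W603.PV
open Pool.Agent.TH143.HE (str nc_iff IsPtP eval₂_map' eval₂_eval eval₂_smul_homog RatCurvesIn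
  ratCurvesIn_iff RCur)
open Pool.Agent.TH600.LC (PolySeq forms forms_homog)

variable {K : Type} [Field K] [NumberField K] {N : ℕ}

/-- the embedding of the integers -/
noncomputable abbrev embO (ε : K →+* ℂ) : 𝓞 K →+* ℂ := ε.comp (algebraMap (𝓞 K) K)

/-- the homomorphism to the algebraic numbers -/
noncomputable def toQO (ε : K →+* ℂ) : 𝓞 K →+* Qbar := (toQbar ε).comp (algebraMap (𝓞 K) K)

theorem toQO_comp (ε : K →+* ℂ) : Qbar.subtype.comp (toQO ε) = embO ε := rfl

theorem overK_cxO (ε : K →+* ℂ) (I : Ideal (MvPolynomial (Fin (N + 1)) (𝓞 K))) :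
    OverK Qbar (cx (embO ε) I) := by
  refine ⟨Ideal.span {G | ∃ H ∈ I, (∃ d, H.IsHomogeneous d) ∧
    G = MvPolynomial.map (toQO ε) H}, ?_⟩
  rw [Ideal.map_span]
  unfold cx
  congr 1
  ext G
  constructor
  · rintro ⟨H, hH, hd, rfl⟩
    refine ⟨_, ⟨H, hH, hd, rfl⟩, ?_⟩
    rw [MvPolynomial.map_map, toQO_comp]
  · rintro ⟨_, ⟨H, hH, hd, rfl⟩, rfl⟩
    refine ⟨H, hH, hd, ?_⟩
    rw [MvPolynomial.map_map, toQO_comp]

theorem coeffK_map (ε : K →+* ℂ) (Q : MvPolynomial (Fin (N + 1)) (𝓞 K)) :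
    CoeffK Qbar (map (embO ε) Q) :=
  ⟨map (toQO ε) Q, by rw [MvPolynomial.map_map, toQO_comp]⟩

section Graded

attribute [local instance] MvPolynomial.gradedAlgebra

theorem homog_cxO (ε : K →+* ℂ) (I : Ideal (MvPolynomial (Fin (N + 1)) (𝓞 K))) :
    IsHomog (cx (embO ε) I) := by
  rw [homog_iff]
  refine Ideal.homogeneous_span _ _ fun x hx => ?_
  obtain ⟨d, hd⟩ := forms_homog x hx
  exact ⟨d, (mem_homogeneousSubmodule d _).mpr hd⟩

end Graded

/-- A morphism, defined over `L`, from the affine line to the complement of `Q = 0` in the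
projective variety of `I`. -/
structure MorQ {L : Type} [Field L] [Algebra K L]
    (I : Ideal (MvPolynomial (Fin (N + 1)) (𝓞 K))) (Q : MvPolynomial (Fin (N + 1)) (𝓞 K))
    (S : Fin (N + 1) → Polynomial L) : Prop where
  zero : ∀ G ∈ I, (∃ d, G.IsHomogeneous d) →
    eval₂ (Polynomial.C.comp (str K L)) S G = 0
  off : ∃ b : L, b ≠ 0 ∧ eval₂ (Polynomial.C.comp (str K L)) S Q = Polynomial.C b
  bez : ∃ a : Fin (N + 1) → Polynomial L, ∑ j, a j * S j = 1
  nc : ∃ j l i i', (S j).coeff i * (S l).coeff i' ≠ (S l).coeff i * (S j).coeff i'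

theorem MorQ.ne {L : Type} [Field L] [Algebra K L]
    {I : Ideal (MvPolynomial (Fin (N + 1)) (𝓞 K))} {Q : MvPolynomial (Fin (N + 1)) (𝓞 K)}
    {S : Fin (N + 1) → Polynomial L} (h : MorQ I Q S) (z : L) : (fun j => (S j).eval z) ≠ 0 := by
  intro h0
  obtain ⟨a, ha⟩ := h.bez
  have h1 := congrArg (Polynomial.eval z) ha
  rw [Polynomial.eval_finsetSum, Polynomial.eval_one] at h1
  refine zero_ne_one (Eq.trans (Eq.symm (Finset.sum_eq_zero fun j _ => ?_)) h1)
  rw [Polynomial.eval_mul, show (S j).eval z = 0 from congrFun h0 j, mul_zero]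

/-- **Curves over number fields.** A polynomial curve through finitely many points with algebraic
coordinates gives a curve over a number field through these points. -/
theorem alg_curveQ (ε : K →+* ℂ) {I : Ideal (MvPolynomial (Fin (N + 1)) (𝓞 K))}
    {Q : MvPolynomial (Fin (N + 1)) (𝓞 K)} {q : ℕ} (hQ : Q.IsHomogeneous q)
    {T : Fin (N + 1) → Polynomial ℂ}
    (hT : PolyCurve (cx (embO ε) I) (map (embO ε) Q) T) {r : ℕ}
    {x : Fin r → Fin (N + 1) → ℂ} (hx0 : ∀ i, x i ≠ 0) (hxa : ∀ i j, IsAlgebraic ℚ (x i j))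
    (u c : Fin r → ℂ) (hx : ∀ i, x i = c i • fun j => (T j).eval (u i))
    {G : MvPolynomial (Fin (N + 1)) (𝓞 K)} {dG : ℕ} (hGd : G.IsHomogeneous dG)
    (hG : ∃ z : ℂ, eval₂ (embO ε) (fun j => (T j).eval z) G ≠ 0) :
    ∃ (L : Type) (_ : Field L) (_ : NumberField L) (_ : Algebra K L) (e : L →+* ℂ)
      (_ : e.comp (algebraMap K L) = ε) (S : Fin (N + 1) → Polynomial L) (w : Fin r → L),
      MorQ I Q S ∧ (∀ i, ∃ c : ℂ, x i = fun j => c * e ((S j).eval (w i))) ∧
      (∀ i, IsAlgebraic ℚ (u i) → e (w i) = u i) ∧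
      eval₂ (Polynomial.C.comp (str K L)) S G ≠ 0 := by
  classical
  have hsub : ∀ a : Qbar, algebraMap Qbar ℂ a = (a : ℂ) := fun a => rfl
  -- descent to the algebraic numbers
  let xq : Fin r → Fin (N + 1) → Qbar := fun i j => ⟨x i j, mem_qbar.2 (hxa i j)⟩
  have hcomp : ∀ H : MvPolynomial (Fin (N + 1)) (𝓞 K),
      (aeval T (MvPolynomial.map (toQO ε) H) : Polynomial ℂ) =
        eval₂ (Polynomial.C.comp (embO ε)) T H := by
    intro H
    rw [aeval_def, eval₂_map]
    rfl
  have hzero : ∀ H ∈ I, (∃ d, H.IsHomogeneous d) →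
      (aeval T (MvPolynomial.map (toQO ε) H) : Polynomial ℂ) = 0 := by
    intro H hH hd
    rw [hcomp]
    apply Polynomial.funext
    intro z
    rw [eval₂_eval, Polynomial.eval_zero]
    obtain ⟨d, hd⟩ := hd
    have h1 := hT.mem (MvPolynomial.map (embO ε) H) (Ideal.subset_span ⟨H, hH, ⟨d, hd⟩, rfl⟩)
      ⟨d, hd.map (embO ε)⟩ z
    rwa [eval_map] at h1
  obtain ⟨b, hb, hbQ⟩ := hT.off
  have hoff : (aeval T (MvPolynomial.map (toQO ε) Q) : Polynomial ℂ) = Polynomial.C b := by
    rw [hcomp]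
    apply Polynomial.funext
    intro z
    rw [eval₂_eval, Polynomial.eval_C]
    have h1 := hbQ z
    rwa [eval_map] at h1
  obtain ⟨T', v, d, hnc, hv, hrel, ⟨b', hb', hQb'⟩, hG', hva⟩ := descend_gen (k := Qbar) (E := ℂ) T
    ((nc_iff T).2 (by
      obtain ⟨s, t, j, l, h⟩ := hT.ind
      exact ⟨j, l, s, t, h⟩)) xq u c (fun i j => by
      rw [hsub]
      exact congrFun (hx i) j) (Q := MvPolynomial.map (toQO ε) Q) (b := b) hb hoff
    (G := MvPolynomial.map (toQO ε) G) (by
      rw [hcomp]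
      intro h0
      obtain ⟨z, hz⟩ := hG
      apply hz
      rw [← eval₂_eval, h0, Polynomial.eval_zero])
  obtain ⟨L, iF, iN, iA, e, he, S, w, hS, hw⟩ := to_numberField ε T' v
  have hS0 : ∃ j, S j ≠ 0 := by
    by_contra hno
    push Not at hno
    obtain ⟨j, l, i, i', h⟩ := hnc
    have h1 : ∀ j, T' j = 0 := by
      intro j
      have h2 := hS j
      rw [hno j, Polynomial.map_zero] at h2
      exact Polynomial.map_injective _ Qbar.subtype.injective (by rw [← h2, Polynomial.map_zero])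
    apply h
    rw [h1, h1]
  obtain ⟨g, S', a, hg, hSg, hbez⟩ := exists_coprime S hS0
  -- transport of the relations
  have hestr : e.comp (str K L) = embO ε := by
    ext y
    change e (algebraMap K L (algebraMap (𝓞 K) K y)) = ε (algebraMap (𝓞 K) K y)
    rw [← he]
    rfl
  have htr : ∀ H : MvPolynomial (Fin (N + 1)) (𝓞 K),
      (eval₂ (Polynomial.C.comp (str K L)) S H).map e =
        (aeval T' (MvPolynomial.map (toQO ε) H) : Polynomial Qbar).map Qbar.subtype := by
    intro H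
    rw [eval₂_map', hestr]
    have h1 : (aeval T' (MvPolynomial.map (toQO ε) H) : Polynomial Qbar) =
        eval₂ (Polynomial.C.comp (toQO ε)) T' H := by
      rw [aeval_def, eval₂_map]
      rfl
    rw [h1, eval₂_map', toQO_comp]
    congr 1
    funext j
    exact hS j
  have hgs : ∀ (H : MvPolynomial (Fin (N + 1)) (𝓞 K)) (d : ℕ), H.IsHomogeneous d →
      eval₂ (Polynomial.C.comp (str K L)) S H =
        g ^ d * eval₂ (Polynomial.C.comp (str K L)) S' H := by
    intro H d hd
    have h1 : S = fun j => g * S' j := funext hSg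
    conv_lhs => rw [h1]
    exact eval₂_smul_homog _ g S' hd
  have hcS : ∀ j i, e ((S j).coeff i) = ((T' j).coeff i : ℂ) := by
    intro j i
    have h1 := congrArg (fun P => Polynomial.coeff P i) (hS j)
    simp only [Polynomial.coeff_map] at h1
    exact h1
  have hinfL : Infinite L := inferInstance
  have hncS : ∃ j l i i', (S j).coeff i * (S l).coeff i' ≠ (S l).coeff i * (S j).coeff i' := by
    obtain ⟨j, l, i, i', h⟩ := hnc
    refine ⟨j, l, i, i', fun h0 => h ?_⟩
    have h1 := congrArg e h0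
    rw [map_mul, map_mul, hcS, hcS, hcS, hcS] at h1
    exact_mod_cast h1
  have hQS : ∃ b1 : L, b1 ≠ 0 ∧ eval₂ (Polynomial.C.comp (str K L)) S' Q = Polynomial.C b1 := by
    have h1 := htr Q
    rw [hQb', Polynomial.map_C] at h1
    have hne : eval₂ (Polynomial.C.comp (str K L)) S Q ≠ 0 := by
      intro h0
      rw [h0, Polynomial.map_zero] at h1
      have h2 := (Polynomial.C_eq_zero.1 h1.symm)
      exact hb' (Subtype.ext h2)
    have h2 : (eval₂ (Polynomial.C.comp (str K L)) S Q).natDegree = 0 := by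
      rw [← Polynomial.natDegree_map_eq_of_injective e.injective, h1, Polynomial.natDegree_C]
    rw [hgs Q q hQ] at h2 hne
    have h3 := right_ne_zero_of_mul hne
    rw [Polynomial.natDegree_mul (left_ne_zero_of_mul hne) h3] at h2
    have h4 := Polynomial.eq_C_of_natDegree_eq_zero (Nat.eq_zero_of_add_eq_zero_left h2)
    refine ⟨_, fun h0 => h3 ?_, h4⟩
    rw [h4, h0, map_zero]
  refine ⟨L, iF, iN, iA, e, he, S', w, ⟨fun H hH hd => ?_, hQS, ⟨a, hbez⟩, ?_⟩, fun i => ?_,
    fun i hi => ?_, fun h0 => ?_⟩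
  · obtain ⟨d, hd⟩ := hd
    have h1 : eval₂ (Polynomial.C.comp (str K L)) S H = 0 := by
      apply Polynomial.map_injective _ e.injective
      rw [htr, hrel _ (hzero H hH ⟨d, hd⟩), Polynomial.map_zero, Polynomial.map_zero]
    rw [hgs H d hd] at h1
    exact (mul_eq_zero.1 h1).resolve_left (pow_ne_zero _ hg)
  · rw [nc_iff] at hncS ⊢
    obtain ⟨j, l, s, t, h⟩ := hncS
    refine ⟨j, l, s, t, fun h0 => h ?_⟩
    rw [hSg j, hSg l]
    simp only [Polynomial.eval_mul]
    linear_combination (g.eval s * g.eval t) * h0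
  · refine ⟨(d i : ℂ) * e (g.eval (w i)), ?_⟩
    funext j
    have h1 : (x i j : ℂ) = (d i : ℂ) * (((T' j).eval (v i) : Qbar) : ℂ) := by
      have h2 := congrArg (fun a : Qbar => (a : ℂ)) (hv i j)
      simpa [xq] using h2
    have h2 : e ((S j).eval (w i)) = (((T' j).eval (v i) : Qbar) : ℂ) := by
      have h3 := Polynomial.eval_map_apply (f := e) (p := S j) (w i)
      rw [hS j, hw i] at h3
      have h4 := Polynomial.eval_map_apply (f := Qbar.subtype) (p := T' j) (v i)
      rw [← h3]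
      exact h4
    rw [h1, ← h2, hSg j, Polynomial.eval_mul, map_mul, mul_assoc]
  · rw [hw i]
    have h1 := hva i ⟨u i, mem_qbar.2 hi⟩ rfl
    rw [h1]
  · apply hG'
    have h1 : (aeval T' (MvPolynomial.map (toQO ε) G) : Polynomial Qbar).map Qbar.subtype = 0 := by
      rw [← htr, hgs G dG hGd, h0, mul_zero, Polynomial.map_zero]
    exact Polynomial.map_injective _ Qbar.subtype.injective (by rw [h1, Polynomial.map_zero])

/-- the values of a polynomial at the natural numbers -/
theorem poly_bound (P : Polynomial ℂ) : ∃ (C : ℝ) (k : ℕ), ∀ m : ℕ,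
    ‖P.eval (m : ℂ)‖ ≤ C * (1 + m : ℝ) ^ k := by
  refine ⟨∑ i ∈ Finset.range (P.natDegree + 1), ‖P.coeff i‖, P.natDegree, fun m => ?_⟩
  rw [Polynomial.eval_eq_sum_range, Finset.sum_mul]
  refine (norm_sum_le _ _).trans (Finset.sum_le_sum fun i hi => ?_)
  rw [norm_mul, norm_pow, Complex.norm_natCast]
  refine mul_le_mul_of_nonneg_left ?_ (norm_nonneg _)
  rw [Finset.mem_range] at hi
  calc (m : ℝ) ^ i ≤ (1 + m : ℝ) ^ i := by gcongr; linarith
    _ ≤ (1 + m : ℝ) ^ P.natDegree := by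
      apply pow_le_pow_right₀
      · have : (0 : ℝ) ≤ m := Nat.cast_nonneg m
        linarith
      · omega

/-- Interpolation at the first natural numbers, such that the other values are not zeros of a given
polynomial. -/
theorem interp_off {L : Type} [Field L] [CharZero L] (e : L →+* ℂ) {r : ℕ} (w : Fin r → L)
    {G : Polynomial L} (hG : G ≠ 0) :
    ∃ v : Polynomial L, (∀ i : Fin r, v.eval ((i : ℕ) : L) = w i) ∧
      ∀ m : ℕ, r ≤ m → G.eval (v.eval (m : L)) ≠ 0 := by
  classical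
  let nodes : Fin r → L := fun i => ((i : ℕ) : L)
  have hinj : Set.InjOn nodes (Finset.univ : Finset (Fin r)) := by
    intro i _ j _ hij
    exact Fin.ext (Nat.cast_injective hij)
  let v0 : Polynomial L := Lagrange.interpolate Finset.univ nodes w
  let P : Polynomial L := ∏ i : Fin r, (Polynomial.X - Polynomial.C (nodes i))
  have hv0 : ∀ i : Fin r, v0.eval ((i : ℕ) : L) = w i := fun i =>
    Lagrange.eval_interpolate_at_node w hinj (Finset.mem_univ i)
  have hP : ∀ i : Fin r, P.eval ((i : ℕ) : L) = 0 := by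
    intro i
    simp only [P]
    rw [Polynomial.eval_prod, Finset.prod_eq_zero (Finset.mem_univ i)]
    simp [nodes]
  have hP1 : ∀ m : ℕ, r ≤ m → 1 ≤ ‖e (P.eval (m : L))‖ := by
    intro m hm
    simp only [P]
    rw [Polynomial.eval_prod, map_prod, norm_prod]
    refine Finset.one_le_prod fun i _ => ?_
    have h1 : e ((Polynomial.X - Polynomial.C (nodes i)).eval (m : L)) = ((m - (i : ℕ) : ℕ) : ℂ) := by
      rw [Polynomial.eval_sub, Polynomial.eval_X, Polynomial.eval_C, map_sub, Nat.cast_sub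
        (by omega)]
      simp [nodes]
    rw [h1, Complex.norm_natCast]
    have : 1 ≤ m - (i : ℕ) := by omega
    exact_mod_cast this
  obtain ⟨C, k, hC⟩ := poly_bound (v0.map e)
  -- the zeros
  obtain ⟨B, hB⟩ : ∃ B : ℝ, ∀ b : L, G.eval b = 0 → ‖e b‖ ≤ B := by
    have h2 : {z : L | G.IsRoot z}.Finite := Polynomial.finite_setOfPred_isRoot hG
    obtain ⟨B, hB⟩ := (h2.image fun b => ‖e b‖).bddAbove
    exact ⟨B, fun b hb => hB ⟨b, hb, rfl⟩⟩
  obtain ⟨c, hc⟩ := exists_nat_gt (|C| + |B|)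
  refine ⟨v0 + Polynomial.C (c : L) * (1 + Polynomial.X) ^ k * P, fun i => ?_, fun m hm h0 => ?_⟩
  · rw [Polynomial.eval_add, hv0, Polynomial.eval_mul, hP, mul_zero, add_zero]
  · have h1 := hB _ h0
    have hm0 : (0 : ℝ) ≤ m := Nat.cast_nonneg m
    have h2 : ‖e (v0.eval (m : L))‖ ≤ C * (1 + m : ℝ) ^ k := by
      have h3 := Polynomial.eval_map_apply (f := e) (p := v0) (m : L)
      rw [map_natCast] at h3
      rw [← h3]
      exact hC m
    have h3 : e ((v0 + Polynomial.C (c : L) * (1 + Polynomial.X) ^ k * P).eval (m : L)) =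
        e (v0.eval (m : L)) + (c : ℂ) * (1 + m) ^ k * e (P.eval (m : L)) := by
      simp
    rw [h3] at h1
    have h4 : ‖(c : ℂ) * (1 + m) ^ k * e (P.eval (m : L))‖ ≤
        ‖e (v0.eval (m : L)) + (c : ℂ) * (1 + m) ^ k * e (P.eval (m : L))‖ +
          ‖e (v0.eval (m : L))‖ := by
      have := norm_sub_le (e (v0.eval (m : L)) + (c : ℂ) * (1 + m) ^ k * e (P.eval (m : L)))
        (e (v0.eval (m : L)))
      rwa [add_sub_cancel_left] at this
    have h5 : (c : ℝ) * (1 + m) ^ k ≤ ‖(c : ℂ) * (1 + m) ^ k * e (P.eval (m : L))‖ := by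
      rw [norm_mul, norm_mul, norm_pow, Complex.norm_natCast]
      have h6 : ‖(1 + m : ℂ)‖ = 1 + m := by
        have : (1 + m : ℂ) = ((1 + m : ℕ) : ℂ) := by push_cast; ring
        rw [this, Complex.norm_natCast]
        push_cast
        ring
      rw [h6]
      exact le_mul_of_one_le_right (by positivity) (hP1 m hm)
    have h7 : (1 : ℝ) ≤ (1 + m : ℝ) ^ k := one_le_pow₀ (by linarith)
    have h8 : C ≤ |C| := le_abs_self C
    have h9 : B ≤ |B| := le_abs_self B
    nlinarith [abs_nonneg B, abs_nonneg C, mul_le_mul_of_nonneg_right h8 (zero_le_one.trans h7)]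

end Pool.Agent.Q64.LC
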