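import Pool.Agent.Q64.LC.Vjt

/-!
Polynomials with `S`-unit values are constant.
-/

set_option autoImplicit false

namespace Pool.Agent.Q64.LC

open Filter Topology NumberField IsDedekindDomain

variable {L : Type} [Field L] [NumberField L]

theorem unit_of_val {x : 𝓞 L} (h : ∀ v : HeightOneSpectrum (𝓞 L), v.valuation L (x : L) = 1) :
    IsUnit x := by
  by_contra hx
  obtain ⟨M, hM, hxM⟩ := exists_max_ideal_of_mem_nonunits hx
  have hne := Ring.ne_bot_of_isMaximal_of_not_isField hM (RingOfIntegers.not_isField L)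
  let v : HeightOneSpectrum (𝓞 L) := ⟨M, hM.isPrime, hne⟩
  have h1 : v.valuation L (algebraMap (𝓞 L) L x) < 1 :=
    (v.valuation_lt_one_iff_mem x).2 hxM
  exact h1.ne (h v)

/-- A polynomial over the integers whose values at the natural numbers are units is constant. -/
theorem const_of_units {P : Polynomial (𝓞 L)} (h : ∀ m : ℕ, IsUnit (P.eval (m : 𝓞 L))) :
    P.natDegree = 0 := by
  by_contra hP
  have h1 : ∀ σ : L →ₐ[ℚ] ℂ, Tendsto (fun m : ℕ =>
      ‖(P.map ((σ : L →+* ℂ).comp (algebraMap (𝓞 L) L))).eval (m : ℂ)‖) atTop atTop := by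
    intro σ
    apply Polynomial.tendsto_norm_atTop
    · have hinj : Function.Injective ((σ : L →+* ℂ).comp (algebraMap (𝓞 L) L)) :=
        (σ : L →+* ℂ).injective.comp (FaithfulSMul.algebraMap_injective (𝓞 L) L)
      rw [Polynomial.degree_map_eq_of_injective hinj]
      exact Polynomial.natDegree_pos_iff_degree_pos.1 (Nat.pos_of_ne_zero hP)
    · simp only [Complex.norm_natCast]
      exact tendsto_natCast_atTop_atTop
  have h2 : ∀ σ : L →ₐ[ℚ] ℂ, ∀ᶠ m : ℕ in atTop, 2 ≤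
      ‖(P.map ((σ : L →+* ℂ).comp (algebraMap (𝓞 L) L))).eval (m : ℂ)‖ :=
    fun σ => (h1 σ).eventually_ge_atTop 2
  obtain ⟨m, hm⟩ := (eventually_all.2 h2).exists
  have h3 : ∀ σ : L →ₐ[ℚ] ℂ, (P.map ((σ : L →+* ℂ).comp (algebraMap (𝓞 L) L))).eval (m : ℂ) =
      σ (P.eval (m : 𝓞 L) : 𝓞 L) := by
    intro σ
    have h4 := Polynomial.eval_map_apply (f := (σ : L →+* ℂ).comp (algebraMap (𝓞 L) L)) (p := P)
      (m : 𝓞 L)
    rw [map_natCast] at h4
    exact h4
  have h4 := (NumberField.isUnit_iff_norm (K := L) (x := P.eval (m : 𝓞 L))).1 (h m)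
  have h5 : (algebraMap ℚ ℂ) (Algebra.norm ℚ ((P.eval (m : 𝓞 L) : 𝓞 L) : L)) =
      ∏ σ : L →ₐ[ℚ] ℂ, σ (P.eval (m : 𝓞 L) : 𝓞 L) := Algebra.norm_eq_prod_embeddings ℚ ℂ _
  have h6 : ‖(algebraMap ℚ ℂ) (Algebra.norm ℚ ((P.eval (m : 𝓞 L) : 𝓞 L) : L))‖ = 1 := by
    have h7 : ((RingOfIntegers.norm ℚ (P.eval (m : 𝓞 L)) : 𝓞 ℚ) : ℚ) =
        Algebra.norm ℚ ((P.eval (m : 𝓞 L) : 𝓞 L) : L) := RingOfIntegers.coe_norm ..
    rw [← h7]
    have h8 : (algebraMap ℚ ℂ) ((RingOfIntegers.norm ℚ (P.eval (m : 𝓞 L)) : 𝓞 ℚ) : ℚ) =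
        ((((RingOfIntegers.norm ℚ (P.eval (m : 𝓞 L)) : 𝓞 ℚ) : ℚ) : ℝ) : ℂ) := by simp
    rw [h8, Complex.norm_real, Real.norm_eq_abs]
    exact_mod_cast h4
  rw [h5, norm_prod] at h6
  let σ0 : L →ₐ[ℚ] ℂ := IsAlgClosed.lift
  have h7 : (1 : ℝ) < ∏ σ : L →ₐ[ℚ] ℂ, ‖σ (P.eval (m : 𝓞 L) : 𝓞 L)‖ := by
    classical
    rw [← Finset.mul_prod_erase Finset.univ _ (Finset.mem_univ σ0)]
    have h8 : 2 ≤ ‖σ0 (P.eval (m : 𝓞 L) : 𝓞 L)‖ := by rw [← h3]; exact hm σ0
    have h9 : (1 : ℝ) ≤ ∏ σ ∈ Finset.univ.erase σ0, ‖σ (P.eval (m : 𝓞 L) : 𝓞 L)‖ := by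
      apply Finset.one_le_prod
      intro σ _
      have := hm σ
      rw [h3] at this
      linarith
    nlinarith
  exact absurd h6 h7.ne'

/-- a common denominator -/
theorem exists_den (s : Finset L) : ∃ d : ℕ, d ≠ 0 ∧ ∀ x ∈ s, ∃ y : 𝓞 L, (y : L) = d * x := by
  have halg : Algebra.IsAlgebraic ℤ L :=
    (IsFractionRing.comap_isAlgebraic_iff (A := ℤ) (K := ℚ) (C := L)).2 inferInstance
  obtain ⟨b, hb, h⟩ := Algebra.IsAlgebraic.exists_integral_multiples ℤ s
  refine ⟨b.natAbs, Int.natAbs_ne_zero.2 hb, fun x hx => ?_⟩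
  have h1 := h x hx
  rcases Int.natAbs_eq b with h2 | h2
  · refine ⟨⟨b • x, h1⟩, ?_⟩
    change b • x = _
    conv_lhs => rw [h2]
    simp
  · refine ⟨⟨-(b • x), h1.neg⟩, ?_⟩
    change -(b • x) = _
    conv_lhs => rw [h2]
    simp

/-- **Unit values.** A polynomial over a number field, whose values at the natural numbers are units
outside of a finite set of places, is constant. -/
theorem const_of_unitVals {P : Polynomial L} {S : Set (HeightOneSpectrum (𝓞 L))} (hS : S.Finite)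
    (h : ∀ m : ℕ, ∀ v ∉ S, v.valuation L (P.eval (m : L)) = 1) :
    P.natDegree = 0 := by
  classical
  by_contra hP
  have hP0 : P ≠ 0 := by
    rintro rfl
    exact hP Polynomial.natDegree_zero
  -- a value which is not zero
  obtain ⟨m0, hm0⟩ : ∃ m0 : ℕ, P.eval (m0 : L) ≠ 0 := by
    by_contra hno
    push Not at hno
    apply hP0
    apply Polynomial.eq_zero_of_infinite_isRoot
    refine Set.Infinite.mono (s := Set.range fun m : ℕ => (m : L)) ?_
      (Set.infinite_range_of_injective Nat.cast_injective)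
    rintro _ ⟨m, rfl⟩
    exact hno m
  set a := P.eval (m0 : L) with ha
  let P1 : Polynomial L := Polynomial.C a⁻¹ * P.comp (Polynomial.X + Polynomial.C (m0 : L))
  have hP1 : ∀ t : L, P1.eval t = a⁻¹ * P.eval (t + m0) := by
    intro t
    simp [P1]
  have hP1d : P1.natDegree = P.natDegree := by
    simp only [P1]
    rw [Polynomial.natDegree_C_mul (inv_ne_zero hm0), Polynomial.natDegree_comp,
      Polynomial.natDegree_X_add_C, mul_one]
  have hP10 : P1.coeff 0 = 1 := by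
    rw [Polynomial.coeff_zero_eq_eval_zero, hP1, zero_add, ← ha, inv_mul_cancel₀ hm0]
  obtain ⟨d, hd, hint⟩ := exists_den ((Finset.range (P1.natDegree + 1)).image P1.coeff)
  have hint' : ∀ i, ∃ y : 𝓞 L, (y : L) = d * P1.coeff i := by
    intro i
    rcases lt_or_ge i (P1.natDegree + 1) with hi | hi
    · exact hint _ (Finset.mem_image_of_mem _ (Finset.mem_range.2 hi))
    · refine ⟨0, ?_⟩
      rw [Polynomial.coeff_eq_zero_of_natDegree_lt (by omega), mul_zero]
      exact map_zero _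
  choose y hy using hint'
  -- the primes
  let N' : ℕ := ∏ v ∈ hS.toFinset, Ideal.absNorm v.asIdeal
  have hN' : N' ≠ 0 := Finset.prod_ne_zero_iff.2 fun v _ => by
    rw [Ne, Ideal.absNorm_eq_zero_iff]
    exact v.ne_bot
  have hN'v : ∀ v ∈ S, (N' : 𝓞 L) ∈ v.asIdeal := by
    intro v hv
    have h1 : Ideal.absNorm v.asIdeal ∣ N' :=
      Finset.dvd_prod_of_mem _ (hS.mem_toFinset.2 hv)
    obtain ⟨c, hc⟩ := h1
    rw [hc, Nat.cast_mul]
    exact Ideal.mul_mem_right _ _ (Ideal.absNorm_mem _)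
  let N : ℕ := d * N'
  have hN : N ≠ 0 := mul_ne_zero hd hN'
  -- the polynomial
  let R : Polynomial (𝓞 L) := ∑ i ∈ Finset.range P1.natDegree,
    Polynomial.monomial (i + 1) ((N : 𝓞 L) ^ i * y (i + 1))
  let P2 : Polynomial (𝓞 L) := 1 + Polynomial.C (N' : 𝓞 L) * R
  have hval : ∀ m : ℕ, ((P2.eval (m : 𝓞 L) : 𝓞 L) : L) = P1.eval ((N * m : ℕ) : L) := by
    intro m
    have h1 : P1.eval ((N * m : ℕ) : L) = 1 + ∑ i ∈ Finset.range P1.natDegree,
        P1.coeff (i + 1) * ((N * m : ℕ) : L) ^ (i + 1) := by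
      rw [Polynomial.eval_eq_sum_range, Finset.sum_range_succ', hP10, pow_zero, mul_one, add_comm]
    rw [h1]
    simp only [P2, R]
    rw [Polynomial.eval_add, Polynomial.eval_one, Polynomial.eval_mul, Polynomial.eval_C,
      Polynomial.eval_finsetSum]
    change algebraMap (𝓞 L) L _ = _
    rw [map_add, map_one, map_mul, map_sum, Finset.mul_sum]
    congr 1
    refine Finset.sum_congr rfl fun i _ => ?_
    rw [Polynomial.eval_monomial, map_mul, map_mul, map_pow, map_pow, map_natCast, map_natCast,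
      map_natCast]
    have h2 : algebraMap (𝓞 L) L (y (i + 1)) = d * P1.coeff (i + 1) := hy (i + 1)
    rw [h2]
    simp only [N]
    push_cast
    ring
  have hunit : ∀ m : ℕ, IsUnit (P2.eval (m : 𝓞 L)) := by
    intro m
    apply unit_of_val
    intro v
    by_cases hv : v ∈ S
    · have h1 : ((P2.eval (m : 𝓞 L) : 𝓞 L) : L) = 1 + algebraMap (𝓞 L) L
          ((N' : 𝓞 L) * R.eval (m : 𝓞 L)) := by
        change algebraMap (𝓞 L) L _ = _
        simp only [P2]
        rw [Polynomial.eval_add, Polynomial.eval_one, Polynomial.eval_mul, Polynomial.eval_C,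
          map_add, map_one]
      rw [h1]
      apply Valuation.map_one_add_of_lt
      rw [v.valuation_lt_one_iff_mem]
      exact Ideal.mul_mem_right _ _ (hN'v v hv)
    · rw [hval, hP1, map_mul, map_inv₀, ha, h m0 v hv, inv_one, one_mul]
      have h1 := h (N * m + m0) v hv
      push_cast at h1 ⊢
      exact h1
  have h1 := const_of_units hunit
  -- the degree
  apply hP
  rw [← hP1d]
  by_contra hd1
  obtain ⟨e, he⟩ : ∃ e, P1.natDegree = e + 1 := Nat.exists_eq_succ_of_ne_zero hd1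
  have h2 : P2.coeff (e + 1) = (N' : 𝓞 L) * ((N : 𝓞 L) ^ e * y (e + 1)) := by
    simp only [P2, R]
    rw [Polynomial.coeff_add, Polynomial.coeff_C_mul, Polynomial.finsetSum_coeff,
      Finset.sum_eq_single e, Polynomial.coeff_monomial, if_pos rfl, Polynomial.coeff_one,
      if_neg (by omega), zero_add]
    · intro i _ hie
      rw [Polynomial.coeff_monomial, if_neg (by omega)]
    · intro h0
      exact absurd (Finset.mem_range.2 (by omega)) h0
  rw [Polynomial.coeff_eq_zero_of_natDegree_lt (by omega)] at h2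
  have hN'0 : (N' : 𝓞 L) ≠ 0 := by exact_mod_cast hN'
  have hN0 : (N : 𝓞 L) ≠ 0 := by exact_mod_cast hN
  have h3 := (mul_eq_zero.1 ((mul_eq_zero.1 h2.symm).resolve_left hN'0)).resolve_left
    (pow_ne_zero _ hN0)
  have h4 := hy (e + 1)
  rw [h3] at h4
  have h5 : (d : L) * P1.coeff (e + 1) ≠ 0 := by
    refine mul_ne_zero (by exact_mod_cast hd) ?_
    rw [← he]
    exact Polynomial.leadingCoeff_ne_zero.2 fun h0 => by
      rw [h0, Polynomial.natDegree_zero] at he
      omega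
  exact h5 (by rw [← h4]; exact map_zero _)

end Pool.Agent.Q64.LC
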